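import Pool.Graph.R_pool_sql_team_seeded_707910d6.T2H39.CV.Stm
import Pool.Graph.R_pool_sql_team_seeded_707910d6.T2H41.CX.Stm

/-!
# Complete intersections in varieties swept out by linear spaces: definitions

Project GS (helper731). `V` is a family of cones (`Cone`, library project CV of helper39): sets of
nonzero vectors over `ℚ`, `ℝ` and `ℚ_[p]`, which represent the points of a projective variety. It is
covered by charts `(y, x) ↦ ∑ j, A c · j (y) x j` which are linear in `x` (`x 0 = 1`) and polynomial in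
`y`; for fixed `y` the image is (an affine part of) a linear space `ℙⁿ ⊆ V`.
-/

set_option autoImplicit false

namespace Pool.Agent.H731.GS

open Pool.Agent.Y716.Q Pool.Agent.Y716.C
open Pool.Agent.T2H41.CX (NonD NonDR GoodM QJ)
open Pool.Agent.T2H39.CV (Cone IsCone subL Left Inside kerF)

/-- The charts: for every `c : C` and every `y` the vectors `A c · j (y)`, `j : Fin (n + 1)`, are a
basis of a linear space. -/
abbrev Fra (C ι Y : Type) (n : ℕ) : Type := C → ι → Fin (n + 1) → MvPolynomial Y ℤ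

section
variable {C ι Y : Type} {n r : ℕ} {K : Type} [CommRing K]

/-- the basis of the linear space given by `y` -/
noncomputable def frm (A : Fra C ι Y n) (c : C) (y : Y → K) (i : ι) (j : Fin (n + 1)) : K :=
  MvPolynomial.aeval y (A c i j)

/-- the point with the parameters `y` and the coordinates `x` in the linear space -/
noncomputable def pt (A : Fra C ι Y n) (c : C) (y : Y → K) (x : Fin (n + 1) → K) (i : ι) : K :=
  ∑ j, frm A c y i j * x j

/-- The derivatives of the forms at the point in the directions of the basis of the linear space. -/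
noncomputable def dX [Fintype ι] (A : Fra C ι Y n) (F : Fin r → MvPolynomial ι ℤ) (c : C)
    (y : Y → K) (x : Fin (n + 1) → K) (j : Fin r) (i : Fin (n + 1)) : K :=
  ∑ i', frm A c y i' i * MvPolynomial.aeval (pt A c y x) (MvPolynomial.pderiv i' (F j))

/-- The charts are unimodular: `x 0`, the `x j` and the `y t * x 0` are, up to the sign,
coordinates of the point. -/
structure IsChart (A : Fra C ι Y n) : Prop where
  one : ∀ c, ∃ i, A c i 0 = 1 ∧ ∀ j : Fin n, A c i j.succ = 0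
  dirx : ∀ c (j : Fin n), ∃ i, (A c i j.succ = 1 ∨ A c i j.succ = -1) ∧
    ∀ j', j' ≠ j.succ → A c i j' = 0
  diry : ∀ c (t : Y), ∃ i, (A c i 0 = MvPolynomial.X t ∨ A c i 0 = -MvPolynomial.X t) ∧
    ∀ j : Fin n, A c i j.succ = 0

/-- `V` is swept out by `n`-dimensional projective linear spaces, with the charts `A`. -/
structure SweptC (V : Cone ι) (A : Fra C ι Y n) : Prop where
  chart : IsChart A
  coneR : IsCone V.R
  coneP : ∀ (p : ℕ) [Fact p.Prime], IsCone (V.P p)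
  neQ : ∀ z ∈ V.Q, z ≠ 0
  toR : ∀ z ∈ V.Q, (fun i => (z i : ℝ)) ∈ V.R
  toP : ∀ (p : ℕ) [Fact p.Prime], ∀ z ∈ V.Q, (fun i => (z i : ℚ_[p])) ∈ V.P p
  coverR : ∀ z ∈ V.R, ∃ (a : ℝ) (c : C) (y : Y → ℝ) (x : Fin (n + 1) → ℝ), a ≠ 0 ∧
    (∀ t, |y t| ≤ 1) ∧ x 0 = 1 ∧ (∀ j, |x j| ≤ 1) ∧ z = fun i => a * pt A c y x i
  coverP : ∀ (p : ℕ) [Fact p.Prime], ∀ z ∈ V.P p, ∃ (a : ℚ_[p]) (c : C) (y : Y → ℚ_[p])
    (x : Fin (n + 1) → ℚ_[p]), a ≠ 0 ∧ (∀ t, ‖y t‖ ≤ 1) ∧ x 0 = 1 ∧ (∀ j, ‖x j‖ ≤ 1) ∧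
    z = fun i => a * pt A c y x i
  dense : ∀ (w : ℕ) (c : ℕ → C) (y : ∀ (p : ℕ) [Fact p.Prime], Y → ℚ_[p]) (c₀ : C) (y₀ : Y → ℝ)
    (ε : ℝ), 0 < ε → ∃ B : ι → Fin (n + 1) → ℚ,
    (∀ x : Fin (n + 1) → ℚ, x ≠ 0 → (fun i => ∑ j, B i j * x j) ∈ V.Q) ∧
    (∀ i j, |(B i j : ℝ) - frm A c₀ y₀ i j| < ε) ∧
    ∀ (p : ℕ) [Fact p.Prime], p ≤ w → ∀ i j, ‖(B i j : ℚ_[p]) - frm A (c p) (y p) i j‖ < ε

/-! ### The forms in the coordinates of a chart -/

/-- the form `F` in the coordinates of the chart `c` -/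
noncomputable def tot (A : Fra C ι Y n) (c : C) (F : MvPolynomial ι ℤ) :
    MvPolynomial (Fin (n + 1) ⊕ Y) ℤ :=
  MvPolynomial.bind₁ (fun i => ∑ j, MvPolynomial.rename Sum.inr (A c i j) *
    MvPolynomial.X (Sum.inl j)) F

theorem aeval_tot (A : Fra C ι Y n) (c : C) (F : MvPolynomial ι ℤ) (y : Y → K)
    (x : Fin (n + 1) → K) :
    MvPolynomial.aeval (Sum.elim x y) (tot A c F) = MvPolynomial.aeval (pt A c y x) F := by
  unfold tot
  rw [MvPolynomial.aeval_bind₁]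
  congr 2
  funext i
  rw [map_sum]
  refine Finset.sum_congr rfl fun j _ => ?_
  rw [map_mul, MvPolynomial.aeval_X, MvPolynomial.aeval_rename]
  rfl

theorem aeval_int {σ : Type} (y : σ → ℤ) (G : MvPolynomial σ ℤ) :
    MvPolynomial.aeval y G = MvPolynomial.eval y G := by
  rw [MvPolynomial.aeval_def, MvPolynomial.eval₂_eq_eval_map]
  simp

/-- chain rule for the substitution of polynomials -/
theorem pderiv_bind {σ τ : Type} [Fintype σ] (g : σ → MvPolynomial τ ℤ) (F : MvPolynomial σ ℤ)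
    (i : τ) : MvPolynomial.pderiv i (MvPolynomial.bind₁ g F) =
      ∑ i', MvPolynomial.pderiv i (g i') *
        MvPolynomial.bind₁ g (MvPolynomial.pderiv i' F) := by
  classical
  induction F using MvPolynomial.induction_on with
  | C a => simp
  | add p q hp hq =>
    simp only [map_add, hp, hq, mul_add, Finset.sum_add_distrib]
  | mul_X p j hp =>
    have h : ∀ i', MvPolynomial.pderiv i' (p * MvPolynomial.X j) =
        MvPolynomial.pderiv i' p * MvPolynomial.X j +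
          (if i' = j then p else 0) := by
      intro i'
      rw [Derivation.leibniz, MvPolynomial.pderiv_X, smul_eq_mul, smul_eq_mul, Pi.single_apply]
      split_ifs with h1 h2 h2
      · ring
      · exact absurd h1.symm h2
      · exact absurd h2.symm h1
      · ring
    have h2 : MvPolynomial.bind₁ g (p * MvPolynomial.X j) = MvPolynomial.bind₁ g p * g j := by
      rw [map_mul, MvPolynomial.bind₁_X_right]
    rw [h2, Derivation.leibniz, hp, smul_eq_mul, smul_eq_mul]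
    simp only [h, map_add, map_mul, MvPolynomial.bind₁_X_right, mul_add, Finset.sum_add_distrib]
    have h3 : ∑ x, MvPolynomial.pderiv i (g x) *
        MvPolynomial.bind₁ g (if x = j then p else 0) =
          MvPolynomial.pderiv i (g j) * MvPolynomial.bind₁ g p := by
      rw [Finset.sum_eq_single j]
      · rw [if_pos rfl]
      · intro b _ hb
        rw [if_neg hb, map_zero, mul_zero]
      · intro hj
        exact absurd (Finset.mem_univ _) hj
    rw [h3, Finset.mul_sum, add_comm]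
    congr 1
    · refine Finset.sum_congr rfl fun x _ => ?_
      ring
    · ring

/-- the derivative in the direction of a coordinate `x i` of the chart -/
theorem aeval_pderiv_tot_inl [Fintype ι] (A : Fra C ι Y n) (c : C) (F : MvPolynomial ι ℤ)
    (y : Y → K) (x : Fin (n + 1) → K) (i : Fin (n + 1)) :
    MvPolynomial.aeval (Sum.elim x y) (MvPolynomial.pderiv (Sum.inl i) (tot A c F)) =
      ∑ i', frm A c y i' i * MvPolynomial.aeval (pt A c y x) (MvPolynomial.pderiv i' F) := by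
  classical
  unfold tot
  rw [pderiv_bind, map_sum]
  refine Finset.sum_congr rfl fun i' _ => ?_
  rw [map_mul]
  congr 1
  · rw [map_sum, map_sum, Finset.sum_eq_single i]
    · rw [Derivation.leibniz, MvPolynomial.pderiv_X_self, smul_eq_mul, smul_eq_mul, mul_one]
      have h1 : MvPolynomial.pderiv (Sum.inl i : Fin (n + 1) ⊕ Y)
          (MvPolynomial.rename Sum.inr (A c i' i)) = 0 := by
        apply MvPolynomial.pderiv_eq_zero_of_notMem_vars
        intro h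
        obtain ⟨t, _, ht⟩ := MvPolynomial.mem_vars_rename _ _ h
        exact absurd ht (by simp)
      rw [h1, mul_zero, add_zero, MvPolynomial.aeval_rename]
      rfl
    · intro j _ hj
      rw [Derivation.leibniz, MvPolynomial.pderiv_X_of_ne (by simpa using hj)]
      have h1 : MvPolynomial.pderiv (Sum.inl i : Fin (n + 1) ⊕ Y)
          (MvPolynomial.rename Sum.inr (A c i' j)) = 0 := by
        apply MvPolynomial.pderiv_eq_zero_of_notMem_vars
        intro h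
        obtain ⟨t, _, ht⟩ := MvPolynomial.mem_vars_rename _ _ h
        exact absurd ht (by simp)
      rw [h1]
      simp
    · intro h
      exact absurd (Finset.mem_univ _) h
  · exact aeval_tot A c _ y x

end

section
variable {C ι Y : Type} {n r : ℕ} [Fintype ι] [Fintype Y]

/-- the free coordinates of a chart: all but `x 0` -/
noncomputable def free (n : ℕ) (Y : Type) [Fintype Y] : Finset (Fin (n + 1) ⊕ Y) := by
  classical exact Finset.univ.filter (fun i => i ≠ Sum.inl 0)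

omit [Fintype ι] in
theorem card_free (n : ℕ) (Y : Type) [Fintype Y] : (free n Y).card = n + Fintype.card Y := by
  classical
  unfold free
  rw [Finset.filter_ne', Finset.card_erase_of_mem (Finset.mem_univ _), Finset.card_univ,
    Fintype.card_sum, Fintype.card_fin]
  omega

/-- the Jacobian matrix of the system in all the coordinates of the chart -/
noncomputable def jacT {K : Type} [CommRing K] (A : Fra C ι Y n) (c : C)
    (F : Fin r → MvPolynomial ι ℤ)
    (z : Fin (n + 1) ⊕ Y → K) (j : Fin r) (i : Fin (n + 1) ⊕ Y) : K :=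
  MvPolynomial.aeval z (MvPolynomial.pderiv i (tot A c (F j)))

omit [Fintype Y] in
theorem jacT_inl {K : Type} [CommRing K] (A : Fra C ι Y n) (c : C)
    (F : Fin r → MvPolynomial ι ℤ) (y : Y → K) (x : Fin (n + 1) → K) (j : Fin r)
    (i : Fin (n + 1)) :
    jacT A c F (Sum.elim x y) j (Sum.inl i) = dX A F c y x j i :=
  aeval_pderiv_tot_inl A c (F j) y x i

/-- the system has a point modulo `p ^ (ℓ + 1)` which is degenerate in all directions of the chart -/
def BadT (A : Fra C ι Y n) (p ℓ : ℕ) (F : Fin r → MvPolynomial ι ℤ) : Prop :=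
  ∃ (c : C) (y : Y → ℤ) (x : Fin (n + 1) → ℤ), x 0 = 1 ∧
    (∀ j, (p : ℤ) ^ (ℓ + 1) ∣ MvPolynomial.aeval (pt A c y x) (F j)) ∧
    ¬ NonD p ℓ (jacT A c F (Sum.elim x y)) (free n Y)

/-- the same over the real numbers -/
def BadTR (A : Fra C ι Y n) (κ H : ℝ) (F : Fin r → MvPolynomial ι ℤ) : Prop :=
  ∃ (c : C) (y : Y → ℝ) (x : Fin (n + 1) → ℝ), x 0 = 1 ∧ (∀ t, |y t| ≤ 1) ∧ (∀ j, |x j| ≤ 1) ∧
    (∀ j, |MvPolynomial.aeval (pt A c y x) (F j)| ≤ κ * H) ∧
    ¬ NonDR (κ * H) (jacT A c F (Sum.elim x y)) (free n Y)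

/-- a `p`-adic point which is nondegenerate on its linear space -/
def RobP (A : Fra C ι Y n) (p J : ℕ) (F : Fin r → MvPolynomial ι ℤ) (c : C) (y : Y → ℤ)
    (x : Fin (n + 1) → ℤ) : Prop :=
  x 0 = 1 ∧ (∀ j, (p : ℤ) ^ (2 * J + 1) ∣ MvPolynomial.aeval (pt A c y x) (F j)) ∧
    NonD p J (dX A F c y x) Finset.univ

/-- an approximate real zero which is nondegenerate on its linear space -/
def RobR (A : Fra C ι Y n) (α γ H : ℝ) (F : Fin r → MvPolynomial ι ℤ) (c : C) (y : Y → ℝ)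
    (x : Fin (n + 1) → ℝ) : Prop :=
  x 0 = 1 ∧ (∀ t, |y t| ≤ 2) ∧ (∀ j, |x j| ≤ 2) ∧
    (∀ j, |MvPolynomial.aeval (pt A c y x) (F j)| ≤ α * H) ∧
    NonDR (γ * H) (dX A F c y x) (Finset.univ : Finset (Fin (n + 1)))

/-- number of coefficients -/
noncomputable def nS (ι : Type) [Fintype ι] {r : ℕ} (e : Fin r → ℕ) : ℕ :=
  ∑ j, (mons ι (e j + 2)).card

omit [Fintype ι] [Fintype Y] in
theorem sysZ_pos (ι : Type) [Fintype ι] (e : Fin r → ℕ) {H : ℝ} (hH : 0 ≤ H) :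
    0 < (sysZ ι e H).card := by
  rw [card_sysZ]
  exact Finset.prod_pos fun j _ => card_forms_pos (ι := ι) (e j + 2) hH

omit [Fintype ι] [Fintype Y] in
/-- comparison of the numbers of systems (for instance `R = 2 H`, `c = 3`, `2 ≤ H`) -/
theorem card_sysZ_upper (ι : Type) [Fintype ι] (e : Fin r → ℕ) {H R c : ℝ} (hH : 1 ≤ H)
    (hR : 0 ≤ R) (hc : 0 ≤ c) (h : 2 * R + 1 ≤ c * (2 * H - 1)) :
    ((sysZ ι e R).card : ℝ) ≤ c ^ nS ι e * (sysZ ι e H).card := by
  rw [card_sysZ, card_sysZ, nS, ← Finset.prod_pow_eq_pow_sum]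
  push_cast
  rw [← Finset.prod_mul_distrib]
  exact Finset.prod_le_prod (fun j _ => by positivity)
    fun j _ => card_forms_upper (e j + 2) hH hR hc h

omit [Fintype ι] [Fintype Y] in
theorem sysZ_mono (ι : Type) [Fintype ι] (e : Fin r → ℕ) {H R : ℝ} (h : H ≤ R) :
    sysZ ι e H ⊆ sysZ ι e R := fun F hF =>
  mem_sysZ.mpr fun j => ((mem_sysZ.mp hF) j).mono h

/-! ### Targets -/

/-- local data: points over the `p`-adic numbers for `p ≤ m` (modulo powers of `p`) and over the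
real numbers -/
structure Tgt (C Y : Type) (n : ℕ) where
  m : ℕ
  cP : ℕ → C
  yP : ℕ → Y → ℤ
  xP : ℕ → Fin (n + 1) → ℤ
  cR : C
  y : Y → ℝ
  x : Fin (n + 1) → ℝ

/-- the integral vector `z` is close to the target -/
def CloseT (A : Fra C ι Y n) (D : Tgt C Y n) (m₀ : ℕ) (δ : ℝ) (z : ι → ℤ) : Prop :=
  (∀ p : ℕ, p.Prime → p ≤ D.m → ∃ u : ℤ, ¬ (p : ℤ) ∣ u ∧
    ∀ i, (p : ℤ) ^ m₀ ∣ z i - u * pt A (D.cP p) (D.yP p) (D.xP p) i) ∧
  ∃ s : ℝ, s ≠ 0 ∧ ∀ i, |(z i : ℝ) - s * pt A D.cR D.y D.x i| ≤ δ * |s|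

/-- the forms `F_j (L x)` -/
noncomputable def subS {k : ℕ} (L : Matrix ι (Fin k) ℤ) (F : Fin r → MvPolynomial ι ℤ) :
    Fin r → MvPolynomial (Fin k) ℤ := fun j => subL L (F j)

end

section
variable {k r : ℕ}

/-- `p`-adic solubility near `c` modulo (the `p`-part of) `N` -/
def LocPT (p N : ℕ) (c : Fin k → ℤ) (f : Fin r → MvPolynomial (Fin k) ℤ) : Prop :=
  ∀ E : ℕ, ∃ (i : Fin k) (x : Fin k → ℤ), x i = 1 ∧
    (∀ j, (p : ℤ) ^ E ∣ MvPolynomial.eval x (f j)) ∧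
    ∀ a : ℕ, p ^ a ∣ N → ∀ i, (p : ℤ) ^ a ∣ x i - c i

/-- real solubility near `ζ` -/
def LocRT (ζ : Fin k → ℝ) (δ : ℝ) (f : Fin r → MvPolynomial (Fin k) ℤ) : Prop :=
  ∃ ξ : Fin k → ℝ, (∀ i, |ξ i - ζ i| ≤ δ) ∧ ∀ j, MvPolynomial.aeval ξ (f j) = 0

/-- an integral zero congruent to `c` modulo `N` and close to the line through `ζ` -/
def SolT (N : ℕ) (c : Fin k → ℤ) (ζ : Fin k → ℝ) (δ : ℝ)
    (f : Fin r → MvPolynomial (Fin k) ℤ) : Prop :=
  ∃ x : Fin k → ℤ, x ≠ 0 ∧ (∀ j, MvPolynomial.eval x (f j) = 0) ∧ (∀ i, (N : ℤ) ∣ x i - c i) ∧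
    ∃ P : ℝ, P ≠ 0 ∧ ∀ i, |(x i : ℝ) - P * ζ i| ≤ δ * |P|

/-- the vectors of maximum norm one -/
def Unit1 (ζ : Fin k → ℝ) : Prop := (∀ i, |ζ i| ≤ 1) ∧ ∃ i, |ζ i| = 1

end

/-! ### Further notions -/

section
variable {C ι Y : Type} {n r k : ℕ}

/-- a real zero in the chart `c` -/
def ZeroR (A : Fra C ι Y n) (F : Fin r → MvPolynomial ι ℤ) (c : C) (y : Y → ℝ)
    (x : Fin (n + 1) → ℝ) : Prop :=
  (∀ t, |y t| ≤ 1) ∧ x 0 = 1 ∧ (∀ j, |x j| ≤ 1) ∧ ∀ j, MvPolynomial.aeval (pt A c y x) (F j) = 0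

/-- a `p`-adic zero in the chart `c` -/
def ZeroP (A : Fra C ι Y n) (F : Fin r → MvPolynomial ι ℤ) (p : ℕ) [Fact p.Prime] (c : C)
    (y : Y → ℚ_[p]) (x : Fin (n + 1) → ℚ_[p]) : Prop :=
  (∀ t, ‖y t‖ ≤ 1) ∧ x 0 = 1 ∧ (∀ j, ‖x j‖ ≤ 1) ∧ ∀ j, MvPolynomial.aeval (pt A c y x) (F j) = 0

/-- congruent systems -/
def CongS (Q : ℕ) (F F' : Fin r → MvPolynomial ι ℤ) : Prop :=
  ∀ j a, (Q : ℤ) ∣ (F' j).coeff a - (F j).coeff a

/-- systems close to each other -/
def NearS (ρ : ℝ) (F F' : Fin r → MvPolynomial ι ℤ) : Prop :=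
  ∀ j a, |(((F' j).coeff a - (F j).coeff a : ℤ) : ℝ)| ≤ ρ

/-- `L` has the left inverse `R` and the columns of `B` are in the linear space given by `L` -/
def Fac [Fintype ι] (B : ι → Fin k → ℚ) (L : Matrix ι (Fin k) ℤ) (R : Matrix (Fin k) ι ℤ) : Prop :=
  R * L = 1 ∧ ∀ i j, B i j = ∑ j', (L i j' : ℚ) * ∑ i', (R j' i' : ℚ) * B i' j

/-- the data of the target are admissible -/
def Tgt.Ok (D : Tgt C Y n) : Prop :=
  (∀ p, D.xP p 0 = 1) ∧ D.x 0 = 1 ∧ (∀ t, |D.y t| ≤ 2) ∧ ∀ j, |D.x j| ≤ 2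

/-- the system has the `p`-adic points of the target -/
def MatchP [Fintype ι] (A : Fra C ι Y n) (D : Tgt C Y n) (J : ℕ → ℕ)
    (F : Fin r → MvPolynomial ι ℤ) : Prop :=
  ∀ p : ℕ, p.Prime → p ≤ D.m → RobP A p (J p) F (D.cP p) (D.yP p) (D.xP p)

/-- the system has the real point of the target -/
def MatchR [Fintype ι] (A : Fra C ι Y n) (D : Tgt C Y n) (α γ H : ℝ)
    (F : Fin r → MvPolynomial ι ℤ) : Prop :=
  RobR A α γ H F D.cR D.y D.x

/-- A linear space (with an integral basis) and a target on it. -/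
abbrev Tr (ι : Type) (n : ℕ) : Type :=
  Matrix ι (Fin (n + 1)) ℤ × (Fin (n + 1) → ℤ) × (Fin (n + 1) → ℝ)

/-- The linear space is contained in `V`, and the integral points close to the target on the linear
space are close to the target `D`. -/
def AdmT [Fintype ι] (V : Cone ι) (A : Fra C ι Y n) (D : Tgt C Y n) (m₀ : ℕ) (δ : ℝ) (N : ℕ)
    (δ' : ℝ) (t : Tr ι n) : Prop :=
  Left t.1 ∧ Inside V t.1 ∧ Unit1 t.2.2 ∧
    ∀ x : Fin (n + 1) → ℤ, (∀ i, (N : ℤ) ∣ x i - t.2.1 i) →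
      (∃ P : ℝ, P ≠ 0 ∧ ∀ i, |(x i : ℝ) - P * t.2.2 i| ≤ δ' * |P|) →
      CloseT A D m₀ δ (fun i => ∑ j, t.1 i j * x j)

/-- local solubility near the target on a linear space, at the real place and at the primes up to
`w` -/
def LocT [Fintype ι] (w N : ℕ) (δ' : ℝ) (t : Tr ι n) (F : Fin r → MvPolynomial ι ℤ) : Prop :=
  (∀ p : ℕ, p.Prime → p ≤ w → LocPT p N t.2.1 (subS t.1 F)) ∧
    LocRT t.2.2 (δ' / 16) (subS t.1 F)

/-- everywhere locally soluble -/
def LocSolV (V : Cone ι) (F : Fin r → MvPolynomial ι ℤ) : Prop :=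
  (∃ z ∈ V.R, ∀ j, MvPolynomial.aeval z (F j) = 0) ∧
    ∀ (p : ℕ) [Fact p.Prime], ∃ z ∈ V.P p, ∀ j, MvPolynomial.aeval z (F j) = 0

/-- weak approximation with precision `1 / m` at the real place and at the primes up to `m` -/
def WAV [Fintype ι] (V : Cone ι) (m : ℕ) (F : Fin r → MvPolynomial ι ℤ) : Prop :=
  ∀ (z : ∀ (p : ℕ) [Fact p.Prime], ι → ℚ_[p]) (y : ι → ℝ),
    (∀ (p : ℕ) [Fact p.Prime], z p ∈ V.P p ∧ ∀ j, MvPolynomial.aeval (z p) (F j) = 0) → y ∈ V.R →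
    (∀ j, MvPolynomial.aeval y (F j) = 0) →
    ∃ x ∈ V.Q, (∀ j, MvPolynomial.aeval x (F j) = 0) ∧
      (∀ (p : ℕ) [Fact p.Prime], p ≤ m → ∃ c : ℚ_[p], c ≠ 0 ∧
        ∀ i, ‖z p i - c * (x i : ℚ_[p])‖ ≤ ‖z p‖ / m) ∧
      ∃ c : ℝ, c ≠ 0 ∧ ∀ i, |y i - c * (x i : ℝ)| ≤ ‖y‖ / m

end

/-! ### Congruences -/

section
variable {C ι Y : Type} {n r : ℕ}

theorem aeval_cast {σ K : Type} [CommRing K] (z : σ → ℤ) (G : MvPolynomial σ ℤ) :
    MvPolynomial.aeval (fun i => (z i : K)) G = ((MvPolynomial.aeval z G : ℤ) : K) := by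
  induction G using MvPolynomial.induction_on with
  | C a => simp
  | add p q hp hq => rw [map_add, map_add, hp, hq, Int.cast_add]
  | mul_X p i hp =>
    rw [map_mul, map_mul, hp, MvPolynomial.aeval_X, MvPolynomial.aeval_X, Int.cast_mul]

theorem frm_cast {K : Type} [CommRing K] (A : Fra C ι Y n) (c : C) (y : Y → ℤ) (i : ι)
    (j : Fin (n + 1)) :
    frm A c (fun t => (y t : K)) i j = ((frm A c y i j : ℤ) : K) :=
  aeval_cast y _

theorem pt_cast {K : Type} [CommRing K] (A : Fra C ι Y n) (c : C) (y : Y → ℤ)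
    (x : Fin (n + 1) → ℤ) :
    pt A c (fun t => (y t : K)) (fun j => (x j : K)) = fun i => ((pt A c y x i : ℤ) : K) := by
  funext i
  unfold pt
  push_cast
  exact Finset.sum_congr rfl fun j _ => by rw [frm_cast]

theorem val_cast {K : Type} [CommRing K] (A : Fra C ι Y n) (c : C) (y : Y → ℤ)
    (x : Fin (n + 1) → ℤ) (G : MvPolynomial ι ℤ) :
    MvPolynomial.aeval (pt A c (fun t => (y t : K)) (fun j => (x j : K))) G =
      ((MvPolynomial.aeval (pt A c y x) G : ℤ) : K) := by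
  rw [pt_cast, aeval_cast]

theorem dX_cast {K : Type} [CommRing K] [Fintype ι] (A : Fra C ι Y n)
    (F : Fin r → MvPolynomial ι ℤ) (c : C) (y : Y → ℤ) (x : Fin (n + 1) → ℤ) (j : Fin r)
    (i : Fin (n + 1)) :
    dX A F c (fun t => (y t : K)) (fun j => (x j : K)) j i = ((dX A F c y x j i : ℤ) : K) := by
  unfold dX
  push_cast
  exact Finset.sum_congr rfl fun i' _ => by rw [frm_cast, val_cast]

/-- the value of an integral polynomial modulo `m` -/
theorem aeval_congr {σ : Type} (m : ℕ) {z z' : σ → ℤ} (h : ∀ i, (m : ℤ) ∣ z' i - z i)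
    (G : MvPolynomial σ ℤ) :
    (m : ℤ) ∣ MvPolynomial.aeval z' G - MvPolynomial.aeval z G := by
  rw [← ZMod.intCast_eq_intCast_iff_dvd_sub, ← aeval_cast, ← aeval_cast]
  congr 2
  funext i
  exact (ZMod.intCast_eq_intCast_iff_dvd_sub _ _ _).mpr (h i)

theorem pt_congr (A : Fra C ι Y n) (c : C) (m : ℕ) {y y' : Y → ℤ} {x x' : Fin (n + 1) → ℤ}
    (hy : ∀ t, (m : ℤ) ∣ y' t - y t) (hx : ∀ j, (m : ℤ) ∣ x' j - x j) (i : ι) :
    (m : ℤ) ∣ pt A c y' x' i - pt A c y x i := by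
  have e1 : (fun t => (y t : ZMod m)) = fun t => (y' t : ZMod m) :=
    funext fun t => (ZMod.intCast_eq_intCast_iff_dvd_sub _ _ _).mpr (hy t)
  have e2 : (fun j => (x j : ZMod m)) = fun j => (x' j : ZMod m) :=
    funext fun j => (ZMod.intCast_eq_intCast_iff_dvd_sub _ _ _).mpr (hx j)
  have h1 := congrFun (pt_cast (K := ZMod m) A c y x) i
  have h2 := congrFun (pt_cast (K := ZMod m) A c y' x') i
  rw [← ZMod.intCast_eq_intCast_iff_dvd_sub, ← h1, ← h2, e1, e2]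

/-- the value of a form at a point of a chart modulo `m` -/
theorem val_congr (A : Fra C ι Y n) (c : C) (m : ℕ) {y y' : Y → ℤ} {x x' : Fin (n + 1) → ℤ}
    (hy : ∀ t, (m : ℤ) ∣ y' t - y t) (hx : ∀ j, (m : ℤ) ∣ x' j - x j) (G : MvPolynomial ι ℤ) :
    (m : ℤ) ∣ MvPolynomial.aeval (pt A c y' x') G - MvPolynomial.aeval (pt A c y x) G :=
  aeval_congr m (pt_congr A c m hy hx) G

theorem dX_congr [Fintype ι] (A : Fra C ι Y n) (F : Fin r → MvPolynomial ι ℤ) (c : C) (m : ℕ)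
    {y y' : Y → ℤ} {x x' : Fin (n + 1) → ℤ}
    (hy : ∀ t, (m : ℤ) ∣ y' t - y t) (hx : ∀ j, (m : ℤ) ∣ x' j - x j) (j : Fin r)
    (i : Fin (n + 1)) :
    (m : ℤ) ∣ dX A F c y' x' j i - dX A F c y x j i := by
  have e1 : (fun t => (y t : ZMod m)) = fun t => (y' t : ZMod m) :=
    funext fun t => (ZMod.intCast_eq_intCast_iff_dvd_sub _ _ _).mpr (hy t)
  have e2 : (fun j => (x j : ZMod m)) = fun j => (x' j : ZMod m) :=
    funext fun j => (ZMod.intCast_eq_intCast_iff_dvd_sub _ _ _).mpr (hx j)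
  rw [← ZMod.intCast_eq_intCast_iff_dvd_sub, ← dX_cast, ← dX_cast, e1, e2]

/-- values of congruent polynomials -/
theorem aeval_congS {σ : Type} (m : ℕ) {F F' : MvPolynomial σ ℤ}
    (h : ∀ a, (m : ℤ) ∣ F'.coeff a - F.coeff a) (z : σ → ℤ) :
    (m : ℤ) ∣ MvPolynomial.aeval z F' - MvPolynomial.aeval z F := by
  obtain ⟨G, hG⟩ : ∃ G, F' - F = MvPolynomial.C (m : ℤ) * G := by
    have : MvPolynomial.C (m : ℤ) ∣ F' - F := by
      rw [MvPolynomial.C_dvd_iff_dvd_coeff]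
      intro a
      rw [MvPolynomial.coeff_sub]
      exact h a
    exact this
  refine ⟨MvPolynomial.aeval z G, ?_⟩
  rw [← map_sub, hG, map_mul, MvPolynomial.aeval_C]
  rfl

theorem pderiv_congS {σ : Type} (m : ℕ) {F F' : MvPolynomial σ ℤ}
    (h : ∀ a, (m : ℤ) ∣ F'.coeff a - F.coeff a) (i : σ) (a : σ →₀ ℕ) :
    (m : ℤ) ∣ (MvPolynomial.pderiv i F').coeff a - (MvPolynomial.pderiv i F).coeff a := by
  obtain ⟨G, hG⟩ : ∃ G, F' - F = MvPolynomial.C (m : ℤ) * G := by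
    have : MvPolynomial.C (m : ℤ) ∣ F' - F := by
      rw [MvPolynomial.C_dvd_iff_dvd_coeff]
      intro a
      rw [MvPolynomial.coeff_sub]
      exact h a
    exact this
  refine ⟨(MvPolynomial.pderiv i G).coeff a, ?_⟩
  rw [← MvPolynomial.coeff_sub, ← map_sub, hG, MvPolynomial.pderiv_C_mul,
    MvPolynomial.coeff_C_mul]

/-- the derivatives of congruent systems -/
theorem dX_congS [Fintype ι] (A : Fra C ι Y n) (m : ℕ) {F F' : Fin r → MvPolynomial ι ℤ}
    (h : CongS m F F') (c : C) (y : Y → ℤ) (x : Fin (n + 1) → ℤ) (j : Fin r) (i : Fin (n + 1)) :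
    (m : ℤ) ∣ dX A F' c y x j i - dX A F c y x j i := by
  unfold dX
  rw [← Finset.sum_sub_distrib]
  refine Finset.dvd_sum fun i' _ => ?_
  rw [← mul_sub]
  exact Dvd.dvd.mul_left (aeval_congS m (pderiv_congS m (h j) i') _) _

/-- `NonD` depends only on the matrix modulo `p ^ (J + 1)` -/
theorem nonD_congr {τ : Type} {p J : ℕ} {M M' : Fin r → τ → ℤ} {A : Finset τ}
    (h : ∀ j, ∀ i ∈ A, (p : ℤ) ^ (J + 1) ∣ M' j i - M j i) (hM : NonD p J M A) :
    NonD p J M' A := by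
  intro j₀ l hl
  obtain ⟨i, hi, h1⟩ := hM j₀ l hl
  refine ⟨i, hi, fun h2 => h1 ?_⟩
  have h3 : (p : ℤ) ^ (J + 1) ∣ ∑ j, l j * M' j i - ∑ j, l j * M j i := by
    rw [← Finset.sum_sub_distrib]
    refine Finset.dvd_sum fun j _ => ?_
    rw [← mul_sub]
    exact Dvd.dvd.mul_left (h j i hi) _
  have h4 := dvd_sub h2 h3
  rwa [sub_sub_cancel] at h4

/-- `RobP` depends only on the point and the system modulo `p ^ (2 J + 1)` -/
theorem robP_congr [Fintype ι] {A : Fra C ι Y n} {p J : ℕ} {F F' : Fin r → MvPolynomial ι ℤ}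
    {c : C} {y y' : Y → ℤ} {x x' : Fin (n + 1) → ℤ} (hF : CongS (p ^ (2 * J + 1)) F F')
    (hy : ∀ t, (p : ℤ) ^ (2 * J + 1) ∣ y' t - y t)
    (hx : ∀ j, (p : ℤ) ^ (2 * J + 1) ∣ x' j - x j) (hx0 : x' 0 = 1) (h : RobP A p J F c y x) :
    RobP A p J F' c y' x' := by
  have hy' : ∀ t, ((p ^ (2 * J + 1) : ℕ) : ℤ) ∣ y' t - y t := by exact_mod_cast hy
  have hx' : ∀ j, ((p ^ (2 * J + 1) : ℕ) : ℤ) ∣ x' j - x j := by exact_mod_cast hx
  refine ⟨hx0, fun j => ?_, nonD_congr (fun j i _ => ?_) h.2.2⟩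
  · have h1 := val_congr A c (p ^ (2 * J + 1)) hy' hx' (F j)
    have h2 := aeval_congS (p ^ (2 * J + 1)) (hF j) (pt A c y' x')
    have h3 := dvd_add h2 h1
    rw [sub_add_sub_cancel] at h3
    push_cast at h3
    have h4 := dvd_add h3 (h.2.1 j)
    rwa [sub_add_cancel] at h4
  · have h1 := dX_congr A F c (p ^ (2 * J + 1)) hy' hx' j i
    have h2 := dX_congS A (p ^ (2 * J + 1)) hF c y' x' j i
    have h3 := dvd_add h2 h1
    rw [sub_add_sub_cancel] at h3
    push_cast at h3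
    exact (pow_dvd_pow _ (by omega)).trans h3

end

end Pool.Agent.H731.GS
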