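import Pool.Agent.H731.GS.Stm
import Pool.Graph.R_pool_sql_team_seeded_707910d6.T2H39.CV.PGRS

/-!
# The charts of the Grassmannians: definitions and statements

Project GS (helper731). The Grassmannian `G(q+1, q+n+1)` in the Plücker embedding. The chart `I` (a set of
`q + 1` columns `I_0 < … < I_q`, with complement `O_0 < … < O_(n-1)`): the subspaces spanned by the rows
`e_(I_s) + ∑_t y (s, t) e_(O_t)`, `s < q`, and `x_0 e_(I_q) + ∑_t x_(t+1) e_(O_t)`.
-/

set_option autoImplicit false

namespace Pool.Agent.H731.GS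

open Pool.Agent.Y716.Q Pool.Agent.Y716.C
open Pool.Agent.T2H39.CV (Cone IsCone Swept Gr Pl pl S_WAQ)

section
variable {q n : ℕ} {K : Type} [CommRing K]

theorem card_compl_pl (I : Pl q (n + 1)) : (I.1ᶜ).card = n := by
  rw [Finset.card_compl, I.2, Fintype.card_fin]
  omega

/-- the elements of `I` in increasing order -/
noncomputable def inI (I : Pl q (n + 1)) (s : Fin (q + 1)) : Fin (q + (n + 1)) :=
  I.1.orderEmbOfFin I.2 s

/-- the elements of the complement of `I` in increasing order -/
noncomputable def outI (I : Pl q (n + 1)) (t : Fin n) : Fin (q + (n + 1)) :=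
  (I.1ᶜ).orderEmbOfFin (card_compl_pl I) t

/-- the first `q` rows -/
noncomputable def rowI (I : Pl q (n + 1)) (y : Fin q × Fin n → K) (s : Fin q)
    (a : Fin (q + (n + 1))) : K :=
  (if a = inI I s.castSucc then 1 else 0) + ∑ t, if a = outI I t then y (s, t) else 0

/-- the basis for the last row -/
noncomputable def basI (K : Type) [CommRing K] (I : Pl q (n + 1)) (j : Fin (n + 1))
    (a : Fin (q + (n + 1))) : K :=
  Fin.cases (motive := fun _ => K) (if a = inI I (Fin.last q) then 1 else 0)
    (fun t => if a = outI I t then 1 else 0) j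

/-- the last row -/
noncomputable def lasI (I : Pl q (n + 1)) (x : Fin (n + 1) → K) (a : Fin (q + (n + 1))) : K :=
  ∑ j, x j * basI K I j a

/-- the matrix with the rows `rowI I y` and the last row `v` -/
noncomputable def matI (I : Pl q (n + 1)) (y : Fin q × Fin n → K) (v : Fin (q + (n + 1)) → K) :
    Fin (q + 1) → Fin (q + (n + 1)) → K :=
  Fin.snoc (α := fun _ => Fin (q + (n + 1)) → K) (rowI I y) v

/-- the maximal minors of a matrix over a commutative ring -/
noncomputable def plR {k : ℕ} (M : Fin (q + 1) → Fin (q + k) → K) : Pl q k → K :=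
  fun I => Matrix.det (Matrix.of fun i j => M i (I.1.orderEmbOfFin I.2 j))

theorem plR_eq {K : Type} [Field K] {k : ℕ} (M : Fin (q + 1) → Fin (q + k) → K) : plR M = pl M :=
  rfl

/-- the charts of the Grassmannian -/
noncomputable def GrA (q n : ℕ) : Fra (Pl q (n + 1)) (Pl q (n + 1)) (Fin q × Fin n) n :=
  fun I i j => plR (matI I (fun s => MvPolynomial.X s) (basI (MvPolynomial (Fin q × Fin n) ℤ) I j)) i

end

/-- **GR0.** The formulas for the charts.

Proof: `aeval y` is a ring homomorphism, it commutes with the determinant (`RingHom.map_det`) and maps the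
entries of the polynomial matrix to those of `matI I y (basI K I j)`; the determinant is linear in the last
row. -/
def S_GR0 : Prop := ∀ (q n : ℕ) (K : Type) [CommRing K] (I : Pl q (n + 1)) (y : Fin q × Fin n → K),
  (∀ i j, frm (GrA q n) I y i j = plR (matI I y (basI K I j)) i) ∧
  ∀ (x : Fin (n + 1) → K) i, pt (GrA q n) I y x i = plR (matI I y (lasI I x)) i

/-- **MIN.** The minors of a matrix which is diagonal on the columns of `I`.

Proof: the first claim is `Matrix.det_diagonal`. For the second one let `J = (I ∖ {inI I s}) ∪ {b}` (as a set,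
of cardinality `q + 1`). There is a permutation `π` of `Fin (q + 1)` such that `J.orderEmbOfFin (π i) = inI I i` for
`i ≠ s` and `J.orderEmbOfFin (π s) = b`; `ε = sign π` (`Matrix.det_permute'`, a permutation of the columns). The
permuted matrix is `(Matrix.diagonal d).updateCol s (fun i => M i b)`, whose determinant is
`cramer (diagonal d) (M · b) s = (adjugate (diagonal d) *ᵥ (M · b)) s = (∏_{j ≠ s} d j) M s b`
(`Matrix.cramer_apply`, `Matrix.cramer_eq_adjugate_mulVec`, `Matrix.adjugate_diagonal`). -/
def S_MIN : Prop := ∀ (q n : ℕ) (I : Pl q (n + 1)),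
  (∀ (K : Type) [CommRing K] (M : Fin (q + 1) → Fin (q + (n + 1)) → K) (d : Fin (q + 1) → K),
    (∀ i i', M i (inI I i') = if i = i' then d i else 0) → plR M I = ∏ j, d j) ∧
  ∀ (s : Fin (q + 1)) (b : Fin (q + (n + 1))), b ∉ I.1 → ∃ (J : Pl q (n + 1)) (ε : ℤ),
    (ε = 1 ∨ ε = -1) ∧
    ∀ (K : Type) [CommRing K] (M : Fin (q + 1) → Fin (q + (n + 1)) → K) (d : Fin (q + 1) → K),
    (∀ i i', M i (inI I i') = if i = i' then d i else 0) →
    plR M J = ε * ((∏ j ∈ Finset.univ.erase s, d j) * M s b)

/-- **GR1** (uses MIN). The charts are unimodular.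

Proof: the matrix `matI I X (basI _ I j)` is diagonal on the columns of `I` with the diagonal `(1, …, 1, a)`, `a = 1` for
`j = 0` and `a = 0` for `j = t.succ`. `one`: the coordinate `I`, the minor is `a`. `dirx`, `t`: the coordinate `J` of MIN
for `s = Fin.last q`, `b = outI I t`: the minor is `± basI _ I j (outI I t)`, i.e. `± 1` for `j = t.succ` and `0`
otherwise. `diry`, `(s, t)`: `J` of MIN for `s.castSucc`, `b = outI I t`: the minor is `± a X (s, t)`. -/
def S_GR1 : Prop := ∀ q n : ℕ, IsChart (GrA q n)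

/-- **GR2A** (uses GR0, MIN). Points of the Grassmannian in a chart.

Proof: let `D` be the submatrix of `M` with the columns of `I`, `det D = pl M I ≠ 0`, `M' = D⁻¹ M`; `pl M = det D · pl M'`, and
`M'` is the identity on the columns of `I`. So `M' = matI I y (lasI I x)` with `y (s, t) = M' s.castSucc (outI I t)`,
`x 0 = 1`, `x t.succ = M' (Fin.last q) (outI I t)` (every column is in `I` or in the complement). By MIN with `d = 1` every
`M' s (outI I t)` is `± pl M' J = ± pl M J / pl M I`. -/
def S_GR2A : Prop := ∀ (q n : ℕ) (K : Type) [Field K] (M : Fin (q + 1) → Fin (q + (n + 1)) → K)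
  (I : Pl q (n + 1)), pl M I ≠ 0 →
  ∃ (y : Fin q × Fin n → K) (x : Fin (n + 1) → K), x 0 = 1 ∧
    (∀ i, pl M i = pl M I * pt (GrA q n) I y x i) ∧
    (∀ s, ∃ J, y s = pl M J / pl M I ∨ y s = -(pl M J / pl M I)) ∧
    ∀ t : Fin n, ∃ J, x t.succ = pl M J / pl M I ∨ x t.succ = -(pl M J / pl M I)

/-- **GR3** (uses GR0 and `S_WAQ` of `T2H39.CV`). The density condition in `SweptC` for the Grassmannian.

Proof: let the data for the place `v` (a prime `p ≤ w`, or the real place) be the chart `I_v` and `y_v`. By WAQ, applied to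
every entry, there are rational rows `a s` (`s : Fin q`) and `b j` (`j : Fin (n + 1)`) of length `q + n + 1` with entries
close to those of `rowI I_v y_v s` and `basI _ I_v j` at all places `v`. `B i j = pl (Fin.snoc a (b j)) i`. By continuity of
the minors (`Grs.exists_delta`, `Grs.exists_min`, `Grs.pl_map` in `PGRS.lean`) and GR0 the entries of `B` are close to
`frm (GrA q n) I_v y_v`. The square matrix with the rows `rowI I y s`, `basI ℝ I j` over `ℝ` (the real place) is
invertible: a linear combination of the rows which is `0` has at the column `inI I s.castSucc` the coefficient of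
`rowI I y s`, so this is `0`, and then at `inI I (Fin.last q)` and `outI I t` the coefficients of the `basI ℝ I j`. So for
sufficiently close entries the determinant of the matrix with the rows `a s`, `b j` is not `0` (continuity of the
determinant), and for `x ≠ 0` the rows `a s` and `∑ x j b j` are linearly independent, and
`(fun i => ∑ j, B i j * x j) = pl (Fin.snoc a (∑ j, x j b j)) ≠ 0` (`Grs.pl_ne`). -/
def S_GR3 : Prop := ∀ (q n w : ℕ) (c : ℕ → Pl q (n + 1))
  (y : ∀ (p : ℕ) [Fact p.Prime], Fin q × Fin n → ℚ_[p])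
  (c₀ : Pl q (n + 1)) (y₀ : Fin q × Fin n → ℝ) (ε : ℝ), 0 < ε →
  ∃ B : Pl q (n + 1) → Fin (n + 1) → ℚ,
    (∀ x : Fin (n + 1) → ℚ, x ≠ 0 → (fun i => ∑ j, B i j * x j) ∈ (Gr q (n + 1)).Q) ∧
    (∀ i j, |(B i j : ℝ) - frm (GrA q n) c₀ y₀ i j| < ε) ∧
    ∀ (p : ℕ) [Fact p.Prime], p ≤ w → ∀ i j, ‖(B i j : ℚ_[p]) - frm (GrA q n) (c p) (y p) i j‖ < ε

/-- **GRC** (uses GR1, GR2A, GR3 and `S_GRS` of `T2H39.CV`). The Grassmannians are swept out by linear spaces.

Proof: `coneR`, `coneP`, `neQ`, `toR`, `toP` from `S_GRS`; `coverR`, `coverP` from GR2A: `z = pl M ≠ 0`, choose `I` with `‖pl M I‖`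
maximal (`Finite.exists_max`), `a = pl M I`; `dense` is GR3. -/
def S_GRC : Prop := ∀ q n : ℕ, SweptC (Gr q (n + 1)) (GrA q n)

end Pool.Agent.H731.GS
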