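import Pool.Agent.H731.GS.Stm

/-!
# AVS: for a fixed `L` few systems have a restriction to `L` which is locally soluble near a target
without integral zero near the target
-/

set_option autoImplicit false

namespace Pool.Agent.H731.GS

open Pool.Agent.Y716.Q Pool.Agent.Y716.C Filter Topology
open Pool.Agent.T2H39.CV (Cone IsCone Swept subL Left Inside kerF Gr Pl pl S_LAT S_DEC S_WAQ)

theorem px_avs_sub {ι : Type} [Fintype ι] {d : ℕ} {r s t : ℝ} {F G : MvPolynomial ι ℤ}
    (hF : IsF d r F) (hG : IsF d s G) (h : r + s ≤ t) : IsF d t (F - G) := by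
  refine ⟨hF.1.sub hG.1, fun a => ?_⟩
  rw [MvPolynomial.coeff_sub]
  push_cast
  have h1 := abs_le.1 (hF.2 a)
  have h2 := abs_le.1 (hG.2 a)
  rw [abs_le]
  constructor <;> linarith [h1.1, h1.2, h2.1, h2.2]

theorem px_avs_mono {ι : Type} {d : ℕ} {r s : ℝ} {F : MvPolynomial ι ℤ} (h : r ≤ s)
    (hF : IsF d r F) : IsF d s F := ⟨hF.1, fun a => (hF.2 a).trans h⟩

open scoped Classical in
theorem pAVS (h1 : S_DEC) (h2 : S_EXWT) : S_AVS := by
  intro ι _ r k e hr hrk hek L hL N hN c ζ hζ δ hδ hδ2 ε hε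
  choose C ext hC hadd hext hextF hsubF hcard using fun j => h1 ι k (e j) L hL
  obtain ⟨Cm, hCm1, hCm⟩ : ∃ Cm : ℝ, 1 ≤ Cm ∧ ∀ j, C j ≤ Cm := by
    refine ⟨1 + ∑ j, C j, ?_, fun j => ?_⟩
    · have : 0 ≤ ∑ j, C j := Finset.sum_nonneg fun j _ => by linarith [hC j]
      linarith
    · have : C j ≤ ∑ j, C j :=
        Finset.single_le_sum (f := C) (fun i _ => by linarith [hC i]) (Finset.mem_univ j)
      linarith
  obtain ⟨c', hc'⟩ : ∃ c' : ℕ, c' = ⌈1 + Cm ^ 2⌉₊ := ⟨_, rfl⟩
  have hC0 : 0 < Cm := by linarith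
  have hcC : 1 + Cm ^ 2 ≤ c' := by
    rw [hc']
    exact Nat.le_ceil _
  have hc1 : 1 ≤ c' := by
    have : (1 : ℝ) ≤ c' := by nlinarith
    exact_mod_cast this
  have hc1r : (1 : ℝ) ≤ c' := by exact_mod_cast hc1
  have hCc : Cm ≤ c' := by nlinarith [sq_nonneg (Cm - 1)]
  have hcr : (0 : ℝ) < 3 * c' := by positivity
  obtain ⟨w₀, hw₀⟩ := h2 r k e hr hrk hek N hN c ζ hζ δ hδ hδ2
    (ε / (Cm ^ r * (3 * c') ^ nS ι e)) (by positivity)
  refine ⟨w₀, fun w hw => ?_⟩
  obtain ⟨H₀, hH₀⟩ := hw₀ w hw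
  refine ⟨max (max H₀ 1) Cm, fun H hH => ?_⟩
  have hHC : Cm ≤ H := (le_max_right _ _).trans hH
  have hH1 : 1 ≤ H := (le_max_right _ _).trans ((le_max_left _ _).trans hH)
  have hHH : H₀ ≤ H := (le_max_left _ _).trans ((le_max_left _ _).trans hH)
  have hCH : H ≤ Cm * H := by nlinarith
  have hbad := hH₀ (Cm * H) (hHH.trans hCH)
  set Bad : Finset (Fin r → MvPolynomial (Fin k) ℤ) := (sysZ (Fin k) e (Cm * H)).filter
    (fun f => (∀ p : ℕ, p.Prime → p ≤ w → LocPT p N c f) ∧
      LocRT ζ (δ / 16) f ∧ ¬ SolT N c ζ δ f) with hBad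
  set Z := (sysZ ι e H).filter (fun F => (∀ p : ℕ, p.Prime → p ≤ w → LocPT p N c (subS L F)) ∧
    LocRT ζ (δ / 16) (subS L F) ∧ ¬ SolT N c ζ δ (subS L F)) with hZ
  have hsub : ∀ F G : MvPolynomial ι ℤ, subL L (F - G) = subL L F - subL L G := fun F G => by
    unfold subL
    rw [map_sub]
  have hcH : ∀ j, C j ≤ c' * H := fun j => by
    have := hCm j
    nlinarith
  have hZcard : Z.card ≤
      (Bad ×ˢ Fintype.piFinset fun j => kerF L (e j + 2) (c' * H)).card := by
    refine Finset.card_le_card_of_injOn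
      (fun F => (subS L F, fun j => F j - ext j (subL L (F j)))) ?_ ?_
    · intro F hF
      obtain ⟨g1, g2, g3, g4⟩ := Finset.mem_filter.1 (Finset.mem_coe.1 hF)
      have g5 : ∀ j, IsF (e j + 2) (C j * H) (subL L (F j)) := fun j =>
        hsubF j (F j) H (mem_sysZ.1 g1 j)
      refine Finset.mem_coe.2 (Finset.mem_product.2 ⟨Finset.mem_filter.2 ⟨mem_sysZ.2 fun j => ?_,
        g2, g3, g4⟩, Fintype.mem_piFinset.2 fun j => Finset.mem_filter.2
          ⟨mem_formsZ.2 (px_avs_sub (mem_sysZ.1 g1 j) (hextF j _ _ (g5 j)) ?_), ?_⟩⟩)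
      · exact px_avs_mono (mul_le_mul_of_nonneg_right (hCm j) (by linarith)) (g5 j)
      · have e1 : (1 + Cm ^ 2) * H ≤ c' * H := mul_le_mul_of_nonneg_right hcC (by linarith)
        have e2 : C j * (C j * H) ≤ Cm ^ 2 * H := by
          have e3 : C j * C j ≤ Cm * Cm :=
            mul_le_mul (hCm j) (hCm j) (by linarith [hC j]) hC0.le
          have e4 : C j * (C j * H) = (C j * C j) * H := by ring
          rw [e4, sq]
          exact mul_le_mul_of_nonneg_right e3 (by linarith)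
        linarith
      · show subL L (F j - ext j (subL L (F j))) = 0
        rw [hsub, hext, sub_self]
    · intro F _ G _ h
      have g1 : subS L F = subS L G := congrArg Prod.fst h
      have g2 : (fun j => F j - ext j (subL L (F j))) = fun j => G j - ext j (subL L (G j)) :=
        congrArg Prod.snd h
      funext j
      have g3 : subL L (F j) = subL L (G j) := congrFun g1 j
      have g4 : F j - ext j (subL L (F j)) = G j - ext j (subL L (G j)) := congrFun g2 j
      rw [g3] at g4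
      exact sub_left_injective g4
  rw [Finset.card_product, Fintype.card_piFinset] at hZcard
  have hZcard' : (Z.card : ℝ) ≤ (Bad.card : ℝ) *
      ∏ j, ((kerF L (e j + 2) (c' * H)).card : ℝ) := by
    exact_mod_cast hZcard
  have hprod : (∏ j, ((kerF L (e j + 2) (c' * H)).card : ℝ)) *
      (sysZ (Fin k) e (c' * H)).card ≤ Cm ^ r * (sysZ ι e (c' * H)).card := by
    rw [card_sysZ, card_sysZ]
    push_cast
    rw [← Finset.prod_mul_distrib]
    have e1 : (Cm ^ r * ∏ j, ((formsZ ι (e j + 2) (c' * H)).card : ℝ)) =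
        ∏ j : Fin r, (Cm * ((formsZ ι (e j + 2) (c' * H)).card : ℝ)) := by
      rw [Finset.prod_mul_distrib, Finset.prod_const, Finset.card_univ, Fintype.card_fin]
    rw [e1]
    refine Finset.prod_le_prod (fun j _ => by positivity) fun j _ => ?_
    exact (hcard j (c' * H) (hcH j)).1.trans
      (mul_le_mul_of_nonneg_right (hCm j) (Nat.cast_nonneg _))
  have hup : ((sysZ ι e (c' * H)).card : ℝ) ≤ (3 * c' : ℝ) ^ nS ι e * (sysZ ι e H).card := by
    refine card_sysZ_upper ι e hH1 (by positivity) hcr.le ?_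
    nlinarith
  have hmono : ((sysZ (Fin k) e (Cm * H)).card : ℝ) ≤ (sysZ (Fin k) e (c' * H)).card := by
    exact_mod_cast Finset.card_le_card
      (sysZ_mono (Fin k) e (mul_le_mul_of_nonneg_right hCc (by linarith)))
  set M : ℕ := nS ι e
  set ε' : ℝ := ε / (Cm ^ r * (3 * c') ^ M) with hε'
  have hε'0 : 0 < ε' := by positivity
  have hK0 : 0 ≤ ∏ j, ((kerF L (e j + 2) (c' * H)).card : ℝ) :=
    Finset.prod_nonneg fun j _ => Nat.cast_nonneg _
  calc (Z.card : ℝ) ≤ (Bad.card : ℝ) * ∏ j, ((kerF L (e j + 2) (c' * H)).card : ℝ) := hZcard'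
    _ ≤ (ε' * (sysZ (Fin k) e (c' * H)).card) *
          ∏ j, ((kerF L (e j + 2) (c' * H)).card : ℝ) := by
        refine mul_le_mul_of_nonneg_right (hbad.trans ?_) hK0
        exact mul_le_mul_of_nonneg_left hmono hε'0.le
    _ = ε' * ((∏ j, ((kerF L (e j + 2) (c' * H)).card : ℝ)) *
          (sysZ (Fin k) e (c' * H)).card) := by ring
    _ ≤ ε' * (Cm ^ r * (sysZ ι e (c' * H)).card) := mul_le_mul_of_nonneg_left hprod hε'0.le
    _ ≤ ε' * (Cm ^ r * ((3 * c' : ℝ) ^ M * (sysZ ι e H).card)) :=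
        mul_le_mul_of_nonneg_left (mul_le_mul_of_nonneg_left hup (by positivity)) hε'0.le
    _ = ε * (sysZ ι e H).card := by
        rw [hε']
        field_simp

end Pool.Agent.H731.GS
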