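import Pool.Agent.H731.GS.Stm
import Pool.Graph.R_seed8.Y278.Z8.Bad

/-!
# Package BADPC: systems with a degenerate point of a chart modulo `p ^ (ℓ + 1)`
-/

set_option autoImplicit false

namespace Pool.Agent.H731.GS

open Pool.Agent.Y716.Q Pool.Agent.Y716.C
open Pool.Agent.T2H41.CX (NonD NonDR)

/-! ### The coordinates -/

section
variable {C ι Y : Type} {n : ℕ}

/-- The coordinates of the ambient space which are coordinates of the chart. -/
structure px_badpc_Co (A : Fra C ι Y n) (c : C) (i₀ : ι) (σ : Fin n ⊕ Y → ι)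
    (ε : Fin n ⊕ Y → ℤ) : Prop where
  sgn : ∀ w, ε w = 1 ∨ ε w = -1
  one : A c i₀ 0 = 1
  one' : ∀ j : Fin n, A c i₀ j.succ = 0
  dx : ∀ j : Fin n, A c (σ (Sum.inl j)) j.succ = MvPolynomial.C (ε (Sum.inl j))
  dx' : ∀ (j : Fin n) (j' : Fin (n + 1)), j' ≠ j.succ → A c (σ (Sum.inl j)) j' = 0
  dy : ∀ t : Y, A c (σ (Sum.inr t)) 0 = MvPolynomial.C (ε (Sum.inr t)) * MvPolynomial.X t
  dy' : ∀ (t : Y) (j : Fin n), A c (σ (Sum.inr t)) j.succ = 0

theorem px_badpc_exists {A : Fra C ι Y n} (hA : IsChart A) (c : C) :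
    ∃ i₀ σ ε, px_badpc_Co A c i₀ σ ε := by
  obtain ⟨i₀, h0, h0'⟩ := hA.one c
  have hx : ∀ j : Fin n, ∃ (i : ι) (s : ℤ), (s = 1 ∨ s = -1) ∧
      A c i j.succ = MvPolynomial.C s ∧ ∀ j', j' ≠ j.succ → A c i j' = 0 := by
    intro j
    obtain ⟨i, h1, h2⟩ := hA.dirx c j
    rcases h1 with h1 | h1
    · exact ⟨i, 1, Or.inl rfl, by rw [h1, map_one], h2⟩
    · exact ⟨i, -1, Or.inr rfl, by rw [h1, map_neg, map_one], h2⟩
  have hy : ∀ t : Y, ∃ (i : ι) (s : ℤ), (s = 1 ∨ s = -1) ∧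
      A c i 0 = MvPolynomial.C s * MvPolynomial.X t ∧ ∀ j : Fin n, A c i j.succ = 0 := by
    intro t
    obtain ⟨i, h1, h2⟩ := hA.diry c t
    rcases h1 with h1 | h1
    · exact ⟨i, 1, Or.inl rfl, by rw [h1, map_one, one_mul], h2⟩
    · exact ⟨i, -1, Or.inr rfl, by rw [h1, map_neg, map_one, neg_mul, one_mul], h2⟩
  choose ix sx hsx hx1 hx2 using hx
  choose iy sy hsy hy1 hy2 using hy
  refine ⟨i₀, Sum.elim ix iy, Sum.elim sx sy, ?_, h0, h0', hx1, hx2, hy1, hy2⟩
  rintro (j | t)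
  · exact hsx j
  · exact hsy t

variable {A : Fra C ι Y n} {c : C} {i₀ : ι} {σ : Fin n ⊕ Y → ι} {ε : Fin n ⊕ Y → ℤ}

theorem px_badpc_Co.ne0 (h : px_badpc_Co A c i₀ σ ε) (w : Fin n ⊕ Y) : ε w ≠ 0 := by
  rcases h.sgn w with h1 | h1 <;> rw [h1] <;> decide

theorem px_badpc_Co.ne (h : px_badpc_Co A c i₀ σ ε) (w : Fin n ⊕ Y) : σ w ≠ i₀ := by
  intro e
  rcases w with j | t
  · have h1 := h.dx j
    rw [e, h.one' j] at h1
    exact h.ne0 _ (MvPolynomial.C_injective _ _ (by rw [← h1, map_zero]))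
  · have h1 := h.dy t
    rw [e, h.one] at h1
    have h2 := congrArg (MvPolynomial.eval (0 : Y → ℤ)) h1
    simp at h2

theorem px_badpc_Co.inj (h : px_badpc_Co A c i₀ σ ε) : Function.Injective σ := by
  classical
  rintro (j | t) (j' | t') e
  · by_contra hne
    have h1 := h.dx j'
    rw [← e, h.dx' j] at h1
    · exact h.ne0 _ (MvPolynomial.C_injective _ _ (by rw [← h1, map_zero]))
    · intro h2
      exact hne (congrArg Sum.inl (Fin.succ_injective _ h2).symm)
  · exfalso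
    have h1 := h.dx j
    rw [e, h.dy' t' j] at h1
    exact h.ne0 _ (MvPolynomial.C_injective _ _ (by rw [← h1, map_zero]))
  · exfalso
    have h1 := h.dx j'
    rw [← e, h.dy' t j'] at h1
    exact h.ne0 _ (MvPolynomial.C_injective _ _ (by rw [← h1, map_zero]))
  · by_contra hne
    have h1 := h.dy t
    rw [e, h.dy t'] at h1
    have h2 := congrArg (MvPolynomial.eval (Pi.single t (1 : ℤ))) h1
    have h3 : t' ≠ t := fun h => hne (congrArg Sum.inr h.symm)
    rw [map_mul, map_mul, MvPolynomial.eval_C, MvPolynomial.eval_C, MvPolynomial.eval_X,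
      MvPolynomial.eval_X, Pi.single_eq_same, Pi.single_eq_of_ne h3, mul_zero, mul_one] at h2
    exact h.ne0 _ h2.symm

/-- the free coordinates -/
def px_badpc_fr (w : Fin n ⊕ Y) : Fin (n + 1) ⊕ Y := Sum.map Fin.succ id w

theorem px_badpc_fr_inj : Function.Injective (px_badpc_fr (n := n) (Y := Y)) :=
  Sum.map_injective.2 ⟨Fin.succ_injective _, Function.injective_id⟩

theorem px_badpc_fr_ne (w : Fin n ⊕ Y) : px_badpc_fr w ≠ Sum.inl 0 := by
  rcases w with j | t
  · intro h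
    exact Fin.succ_ne_zero j (Sum.inl_injective h)
  · intro h
    exact absurd h (by simp [px_badpc_fr])

/-- the extra exponent -/
def px_badpc_de (w : Fin n ⊕ Y) : ℕ := Sum.elim (fun _ => 0) (fun _ => 1) w

/-- the linear forms of the chart -/
noncomputable def px_badpc_L (A : Fra C ι Y n) (c : C) (i : ι) :
    MvPolynomial (Fin (n + 1) ⊕ Y) ℤ :=
  ∑ j, MvPolynomial.rename Sum.inr (A c i j) * MvPolynomial.X (Sum.inl j)

theorem px_badpc_L0 (h : px_badpc_Co A c i₀ σ ε) :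
    px_badpc_L A c i₀ = MvPolynomial.X (Sum.inl 0) := by
  unfold px_badpc_L
  rw [Fin.sum_univ_succ, h.one, map_one, one_mul, Finset.sum_eq_zero, add_zero]
  intro j _
  rw [h.one' j, map_zero, zero_mul]

theorem px_badpc_L1 (h : px_badpc_Co A c i₀ σ ε) (w : Fin n ⊕ Y) :
    px_badpc_L A c (σ w) = MvPolynomial.C (ε w) *
      (MvPolynomial.X (Sum.inl 0) ^ px_badpc_de w * MvPolynomial.X (px_badpc_fr w)) := by
  unfold px_badpc_L
  rcases w with j | t
  · rw [Finset.sum_eq_single j.succ]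
    · rw [h.dx j, MvPolynomial.rename_C]
      simp [px_badpc_de, px_badpc_fr]
    · intro j' _ hj'
      rw [h.dx' j j' hj', map_zero, zero_mul]
    · intro hj
      exact absurd (Finset.mem_univ _) hj
  · rw [Fin.sum_univ_succ, h.dy t, map_mul, MvPolynomial.rename_C, MvPolynomial.rename_X,
      Finset.sum_eq_zero, add_zero]
    · simp only [px_badpc_de, px_badpc_fr, Sum.elim_inr, Sum.map_inr, id, pow_one]
      ring
    · intro j _
      rw [h.dy' t j, map_zero, zero_mul]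

variable [Fintype Y]

/-- the perturbation of a form -/
noncomputable def px_badpc_pf (i₀ : ι) (σ : Fin n ⊕ Y → ι) (e : ℕ) (q : ℤ)
    (a : Fin n ⊕ Y → ℤ) : MvPolynomial ι ℤ :=
  MvPolynomial.C q * (MvPolynomial.X i₀ ^ (e + 1) * MvPolynomial.X i₀) +
    ∑ w, MvPolynomial.C (a w) * (MvPolynomial.X i₀ ^ (e + 1) * MvPolynomial.X (σ w))

theorem px_badpc_pf_sub (i₀ : ι) (σ : Fin n ⊕ Y → ι) (e : ℕ) (q q' : ℤ)
    (a a' : Fin n ⊕ Y → ℤ) : px_badpc_pf i₀ σ e (q - q') (fun w => a w - a' w) =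
      px_badpc_pf i₀ σ e q a - px_badpc_pf i₀ σ e q' a' := by
  unfold px_badpc_pf
  rw [add_sub_add_comm, ← Finset.sum_sub_distrib]
  congr 1
  · rw [map_sub]
    ring
  · refine Finset.sum_congr rfl fun w _ => ?_
    rw [map_sub]
    ring

theorem px_badpc_tot (h : px_badpc_Co A c i₀ σ ε) (e : ℕ) (q : ℤ) (a : Fin n ⊕ Y → ℤ) :
    tot A c (px_badpc_pf i₀ σ e q a) =
      MvPolynomial.C q * (MvPolynomial.X (Sum.inl 0) ^ (e + 1) * MvPolynomial.X (Sum.inl 0)) +
      ∑ w, MvPolynomial.C (a w) * (MvPolynomial.X (Sum.inl 0) ^ (e + 1) *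
        (MvPolynomial.C (ε w) * (MvPolynomial.X (Sum.inl 0) ^ px_badpc_de w *
          MvPolynomial.X (px_badpc_fr w)))) := by
  have hL : ∀ i, MvPolynomial.bind₁ (px_badpc_L A c) (MvPolynomial.X i) = px_badpc_L A c i :=
    fun i => MvPolynomial.bind₁_X_right _ _
  have e0 : tot A c (px_badpc_pf i₀ σ e q a) =
    MvPolynomial.bind₁ (px_badpc_L A c) (px_badpc_pf i₀ σ e q a) := rfl
  rw [e0]
  unfold px_badpc_pf
  simp only [map_add, map_sum, map_mul, map_pow, MvPolynomial.bind₁_C_right, hL, px_badpc_L0 h,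
    px_badpc_L1 h]

theorem px_badpc_aeval {K : Type} [CommRing K] (h : px_badpc_Co A c i₀ σ ε) (e : ℕ) (q : ℤ)
    (a : Fin n ⊕ Y → ℤ) (z : Fin (n + 1) ⊕ Y → K) (hz : z (Sum.inl 0) = 1) :
    MvPolynomial.aeval z (tot A c (px_badpc_pf i₀ σ e q a)) =
      (q : K) + ∑ w, (a w : K) * ((ε w : K) * z (px_badpc_fr w)) := by
  rw [px_badpc_tot h]
  simp [hz]

theorem px_badpc_pderiv {K : Type} [CommRing K] (h : px_badpc_Co A c i₀ σ ε) (e : ℕ) (q : ℤ)
    (a : Fin n ⊕ Y → ℤ) (z : Fin (n + 1) ⊕ Y → K) (hz : z (Sum.inl 0) = 1) (w : Fin n ⊕ Y) :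
    MvPolynomial.aeval z (MvPolynomial.pderiv (px_badpc_fr w)
      (tot A c (px_badpc_pf i₀ σ e q a))) = (a w : K) * (ε w : K) := by
  classical
  have h0 : (MvPolynomial.pderiv (px_badpc_fr w)
      (MvPolynomial.X (Sum.inl 0) : MvPolynomial (Fin (n + 1) ⊕ Y) ℤ)) = 0 :=
    MvPolynomial.pderiv_X_of_ne (Ne.symm (px_badpc_fr_ne w))
  rw [px_badpc_tot h, map_add, map_add, map_sum, map_sum, Finset.sum_eq_single w]
  · rw [MvPolynomial.pderiv_C_mul, MvPolynomial.pderiv_mul, MvPolynomial.pderiv_pow,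
      MvPolynomial.pderiv_C_mul, MvPolynomial.pderiv_mul, MvPolynomial.pderiv_pow,
      MvPolynomial.pderiv_C_mul, MvPolynomial.pderiv_mul, MvPolynomial.pderiv_pow, h0,
      MvPolynomial.pderiv_X_self]
    simp [hz]
  · intro w' _ hw'
    have h1 : (MvPolynomial.pderiv (px_badpc_fr w)
        (MvPolynomial.X (px_badpc_fr w') : MvPolynomial (Fin (n + 1) ⊕ Y) ℤ)) = 0 :=
      MvPolynomial.pderiv_X_of_ne fun h => hw' (px_badpc_fr_inj h)
    rw [MvPolynomial.pderiv_C_mul, MvPolynomial.pderiv_mul, MvPolynomial.pderiv_pow,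
      MvPolynomial.pderiv_C_mul, MvPolynomial.pderiv_mul, MvPolynomial.pderiv_pow, h0, h1]
    simp
  · intro h
    exact absurd (Finset.mem_univ _) h

variable [Fintype ι]

open scoped Classical in
theorem px_badpc_eq_pert (i₀ : ι) (σ : Fin n ⊕ Y → ι) (e : ℕ) (q : ℤ) (a : Fin n ⊕ Y → ℤ) :
    px_badpc_pf i₀ σ e q a = Pool.Agent.Y278.Z8.pert e i₀
      (fun i => (if i = i₀ then q else 0) + ∑ w, if i = σ w then a w else 0) := by
  unfold px_badpc_pf Pool.Agent.Y278.Z8.pert
  simp only [map_add, map_sum, add_mul, Finset.sum_mul, Finset.sum_add_distrib]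
  congr 1
  · rw [Finset.sum_eq_single i₀]
    · rw [if_pos rfl]
    · intro i _ hi
      rw [if_neg hi, map_zero, zero_mul]
    · intro h
      exact absurd (Finset.mem_univ _) h
  · rw [Finset.sum_comm]
    refine Finset.sum_congr rfl fun w _ => ?_
    rw [Finset.sum_eq_single (σ w)]
    · rw [if_pos rfl]
    · intro i _ hi
      rw [if_neg hi, map_zero, zero_mul]
    · intro h
      exact absurd (Finset.mem_univ _) h

theorem px_badpc_isF (h : px_badpc_Co A c i₀ σ ε) (e : ℕ) {q : ℤ} {a : Fin n ⊕ Y → ℤ} {S : ℝ}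
    (hS : 0 ≤ S) (hq : |(q : ℝ)| ≤ S) (ha : ∀ w, |(a w : ℝ)| ≤ S) :
    IsF (e + 2) S (px_badpc_pf i₀ σ e q a) := by
  classical
  rw [px_badpc_eq_pert]
  refine Pool.Agent.Y278.Z8.pert_isF e i₀ hS fun i => ?_
  by_cases h1 : i = i₀
  · rw [if_pos h1, Finset.sum_eq_zero, add_zero]
    · exact hq
    · intro w _
      rw [if_neg]
      intro h2
      exact h.ne w (h2.symm.trans h1)
  · rw [if_neg h1, zero_add]
    by_cases h2 : ∃ w, i = σ w
    · obtain ⟨w, hw⟩ := h2
      rw [Finset.sum_eq_single w]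
      · rw [if_pos hw]
        exact ha w
      · intro w' _ hw'
        rw [if_neg]
        intro h3
        exact hw' (h.inj (h3.symm.trans hw))
      · intro h
        exact absurd (Finset.mem_univ _) h
    · rw [Finset.sum_eq_zero]
      · simpa using hS
      · intro w _
        rw [if_neg]
        intro h3
        exact h2 ⟨w, h3⟩

end

/-! ### Counting -/

section
variable {C ι Y : Type} [Fintype ι] [Fintype Y] {n r : ℕ} {A : Fra C ι Y n} {c : C} {i₀ : ι}
  {σ : Fin n ⊕ Y → ι} {ε : Fin n ⊕ Y → ℤ}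

/-- the perturbation of a system -/
noncomputable def px_badpc_pS (i₀ : ι) (σ : Fin n ⊕ Y → ι) (e : Fin r → ℕ) (j₀ : Fin r)
    (q : Fin r ⊕ (Fin n ⊕ Y) → ℤ) : Fin r → MvPolynomial ι ℤ :=
  fun j => px_badpc_pf i₀ σ (e j) (q (Sum.inl j))
    (fun w => if j = j₀ then q (Sum.inr w) else 0)

omit [Fintype ι] in
theorem px_badpc_pS_sub (i₀ : ι) (σ : Fin n ⊕ Y → ι) (e : Fin r → ℕ) (j₀ : Fin r)
    (q q' : Fin r ⊕ (Fin n ⊕ Y) → ℤ) (j : Fin r) :
    px_badpc_pS i₀ σ e j₀ (fun i => q i - q' i) j =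
      px_badpc_pS i₀ σ e j₀ q j - px_badpc_pS i₀ σ e j₀ q' j := by
  unfold px_badpc_pS
  rw [← px_badpc_pf_sub]
  congr 1
  funext w
  split_ifs
  · rfl
  · rw [sub_zero]

/-- Abstract counting. -/
theorem px_badpc_inj_count (h : px_badpc_Co A c i₀ σ ε) (e : Fin r → ℕ) (j₀ : Fin r) (R S : ℝ)
    (hS : 0 ≤ S) (P : (Fin r → MvPolynomial ι ℤ) → Prop) [DecidablePred P]
    (B : Finset (Fin r ⊕ (Fin n ⊕ Y) → ℤ)) (hB : ∀ c ∈ B, ∀ i, |(c i : ℝ)| ≤ S)
    (hP : ∀ f g, P f → P g → ∀ c ∈ B, ∀ c' ∈ B,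
      (∀ j, px_badpc_pS i₀ σ e j₀ (fun i => c i - c' i) j = g j - f j) → c = c') :
    ((sysZ ι e R).filter P).card * B.card ≤ (sysZ ι e (R + S)).card := by
  classical
  rw [← Finset.card_product]
  apply Finset.card_le_card_of_injOn
    (fun p => (fun j => p.1 j + px_badpc_pS i₀ σ e j₀ p.2 j : Fin r → MvPolynomial ι ℤ))
  · rintro ⟨f, c'⟩ hp
    simp only [Finset.coe_product, Set.mem_prod, Finset.mem_coe] at hp
    simp only [Finset.mem_coe, mem_sysZ]
    intro j
    have h1 := mem_sysZ.1 (Finset.mem_filter.mp hp.1).1 j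
    have h2 : IsF (e j + 2) S (px_badpc_pS i₀ σ e j₀ c' j) := by
      refine px_badpc_isF h (e j) hS (hB _ hp.2 _) fun w => ?_
      split_ifs
      · exact hB _ hp.2 _
      · simpa using hS
    exact Pool.Agent.Y278.Z8.IsF.add' h1 h2
  · rintro ⟨f, c⟩ hp ⟨f', c'⟩ hp' heq
    simp only [Finset.coe_product, Set.mem_prod, Finset.mem_coe] at hp hp'
    obtain ⟨hf, hc⟩ := hp
    obtain ⟨hf', hc'⟩ := hp'
    simp only at heq
    have hpe : ∀ j, px_badpc_pS i₀ σ e j₀ (fun i => c i - c' i) j = f' j - f j := by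
      intro j
      rw [px_badpc_pS_sub]
      have h1 := congrFun heq j
      linear_combination h1
    have hcc := hP f f' (Finset.mem_filter.mp hf).2 (Finset.mem_filter.mp hf').2 c hc c' hc' hpe
    subst hcc
    have h3 : f = f' := by
      funext j
      exact add_right_cancel (congrFun heq j)
    rw [h3]

omit [Fintype ι] [Fintype Y] in
theorem px_badpc_tot_sub (A : Fra C ι Y n) (c : C) (F G : MvPolynomial ι ℤ) :
    tot A c (F - G) = tot A c F - tot A c G := by
  unfold tot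
  rw [map_sub]

theorem px_badpc_mem_free {i : Fin (n + 1) ⊕ Y} : i ∈ free n Y ↔ i ≠ Sum.inl 0 := by
  classical
  unfold free
  rw [Finset.mem_filter]
  exact ⟨fun h => h.2, fun h => ⟨Finset.mem_univ _, h⟩⟩

open scoped Classical in
/-- For a fixed point and a fixed combination few systems are degenerate. -/
theorem px_badpc_at (h : px_badpc_Co A c i₀ σ ε) (e : Fin r → ℕ) (j₀ : Fin r) (Q : ℕ) (R : ℝ)
    (z : Fin (n + 1) ⊕ Y → ℤ) (hz : z (Sum.inl 0) = 1) (l : Fin r → ℤ) (hl : l j₀ = 1) :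
    ((sysZ ι e R).filter (fun F => (∀ j, (Q : ℤ) ∣ MvPolynomial.aeval z (tot A c (F j))) ∧
      ∀ i ∈ free n Y, (Q : ℤ) ∣ ∑ j, l j * jacT A c F z j i)).card *
      Q ^ (Fintype.card (Fin r ⊕ (Fin n ⊕ Y))) ≤ (sysZ ι e (R + Q)).card := by
  have hB : (Fintype.piFinset (fun _ : Fin r ⊕ (Fin n ⊕ Y) => Finset.Icc (1 : ℤ) Q)).card =
      Q ^ (Fintype.card (Fin r ⊕ (Fin n ⊕ Y))) := by
    rw [Fintype.card_piFinset]
    simp
  rw [← hB]
  apply px_badpc_inj_count h e j₀ R Q (by positivity)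
  · intro b hb i
    have h1 := Finset.mem_Icc.mp (Fintype.mem_piFinset.mp hb i)
    rw [abs_le]
    constructor
    · have : (0 : ℝ) ≤ (b i : ℝ) := by exact_mod_cast (by omega : (0 : ℤ) ≤ b i)
      have h3 : (0 : ℝ) ≤ (Q : ℝ) := by positivity
      linarith
    · exact_mod_cast h1.2
  · rintro f f' ⟨h1, h2⟩ ⟨h1', h2'⟩ b hb b' hb' hpe
    have hzero : ∀ i, (Q : ℤ) ∣ b i - b' i → b i = b' i := by
      intro i hd
      have h3 := Finset.mem_Icc.mp (Fintype.mem_piFinset.mp hb i)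
      have h4 := Finset.mem_Icc.mp (Fintype.mem_piFinset.mp hb' i)
      have h5 : b i - b' i = 0 := by
        apply Int.eq_zero_of_abs_lt_dvd hd
        rw [abs_lt]
        constructor <;> omega
      omega
    have hne : ∀ w : Fin n ⊕ Y, b (Sum.inr w) = b' (Sum.inr w) := by
      intro w
      apply hzero
      have hw : px_badpc_fr w ∈ free n Y := px_badpc_mem_free.2 (px_badpc_fr_ne w)
      have h3 : ∑ j, l j * (jacT A c f' z j (px_badpc_fr w) - jacT A c f z j (px_badpc_fr w)) =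
          (b (Sum.inr w) - b' (Sum.inr w)) * ε w := by
        have h4 : ∀ j, jacT A c f' z j (px_badpc_fr w) - jacT A c f z j (px_badpc_fr w) =
            if j = j₀ then (b (Sum.inr w) - b' (Sum.inr w)) * ε w else 0 := by
          intro j
          have h5 := px_badpc_pderiv (K := ℤ) h (e j) (b (Sum.inl j) - b' (Sum.inl j))
            (fun w => if j = j₀ then b (Sum.inr w) - b' (Sum.inr w) else 0) z hz w
          have h6 := hpe j
          unfold px_badpc_pS at h6
          rw [h6, px_badpc_tot_sub, map_sub, map_sub] at h5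
          unfold jacT
          rw [h5]
          split_ifs
          · simp
          · simp
        simp only [h4]
        rw [Finset.sum_eq_single j₀]
        · rw [if_pos rfl, hl, one_mul]
        · intro j _ hj
          rw [if_neg hj, mul_zero]
        · intro h; exact absurd (Finset.mem_univ _) h
      have h7 : (Q : ℤ) ∣ (b (Sum.inr w) - b' (Sum.inr w)) * ε w := by
        rw [← h3]
        simp only [mul_sub]
        rw [Finset.sum_sub_distrib]
        exact dvd_sub (h2' _ hw) (h2 _ hw)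
      rcases h.sgn w with h8 | h8
      · rw [h8, mul_one] at h7
        exact h7
      · rw [h8, mul_neg, mul_one, dvd_neg] at h7
        exact h7
    have hr : ∀ j, b (Sum.inl j) = b' (Sum.inl j) := by
      intro j
      apply hzero
      have h3 := px_badpc_aeval (K := ℤ) h (e j) (b (Sum.inl j) - b' (Sum.inl j))
            (fun w => if j = j₀ then b (Sum.inr w) - b' (Sum.inr w) else 0) z hz
      have h6 := hpe j
      unfold px_badpc_pS at h6
      rw [h6, px_badpc_tot_sub, map_sub, Finset.sum_eq_zero, add_zero] at h3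
      · simp only [Int.cast_id] at h3
        rw [← h3]
        exact dvd_sub (h1' j) (h1 j)
      · intro w _
        rw [hne w, sub_self]
        simp
    funext i
    rcases i with j | w
    · exact hr j
    · exact hne w

/-- the residue in `[1, Q]` -/
theorem px_badpc_red (Q : ℕ) (x : ℤ) : (Q : ℤ) ∣ ((x - 1) % Q + 1) - x := by
  have h3 := Int.emod_add_mul_ediv (x - 1) Q
  exact ⟨-((x - 1) / Q), by linear_combination h3⟩

open scoped Classical in
theorem px_badpc_card_pts (n : ℕ) (Y : Type) [Fintype Y] (Q : ℕ) :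
    ((Fintype.piFinset (fun i : Fin (n + 1) ⊕ Y =>
      if i = Sum.inl 0 then {(1 : ℤ)} else Finset.Icc (1 : ℤ) Q)).card) =
      Q ^ Fintype.card (Fin n ⊕ Y) := by
  rw [Fintype.card_piFinset, Fintype.prod_sum_type, Fin.prod_univ_succ, if_pos rfl,
    Finset.card_singleton, one_mul]
  have h1 : ∀ i : Fin n, (if (Sum.inl i.succ : Fin (n + 1) ⊕ Y) = Sum.inl 0 then {(1 : ℤ)}
      else Finset.Icc (1 : ℤ) Q).card = Q := by
    intro i
    rw [if_neg (fun h => Fin.succ_ne_zero i (Sum.inl_injective h)), Int.card_Icc]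
    omega
  have h2 : ∀ t : Y, (if (Sum.inr t : Fin (n + 1) ⊕ Y) = Sum.inl 0 then {(1 : ℤ)}
      else Finset.Icc (1 : ℤ) Q).card = Q := by
    intro t
    rw [if_neg (by simp), Int.card_Icc]
    omega
  rw [Finset.prod_congr rfl (fun i _ => h1 i), Finset.prod_congr rfl (fun t _ => h2 t),
    Finset.prod_const, Finset.prod_const, Finset.card_univ, Finset.card_univ, Fintype.card_fin,
    Fintype.card_sum, Fintype.card_fin, pow_add]

open scoped Classical in
theorem px_badpc_card_ls (j₀ : Fin r) (Q : ℕ) :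
    ((Fintype.piFinset (fun j : Fin r =>
      if j = j₀ then {(1 : ℤ)} else Finset.Icc (1 : ℤ) Q)).card) = Q ^ (r - 1) := by
  rw [Fintype.card_piFinset]
  have h1 : ∀ j : Fin r, (if j = j₀ then {(1 : ℤ)} else Finset.Icc (1 : ℤ) Q).card =
      if j = j₀ then 1 else Q := by
    intro i
    split_ifs
    · simp
    · rw [Int.card_Icc]
      omega
  rw [Finset.prod_congr rfl (fun i _ => h1 i), Finset.prod_ite, Finset.prod_const_one, one_mul,
    Finset.prod_const]
  congr 1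
  rw [Finset.filter_not, Finset.filter_eq', if_pos (Finset.mem_univ _),
    Finset.card_sdiff_of_subset (Finset.subset_univ _)]
  simp

open scoped Classical in
theorem px_badpc_chart (h : px_badpc_Co A c i₀ σ ε) (e : Fin r → ℕ) (j₀ : Fin r) (Q : ℕ)
    (hQ : 1 ≤ Q) (R : ℝ) :
    ((sysZ ι e R).filter (fun F => ∃ (z : Fin (n + 1) ⊕ Y → ℤ) (l : Fin r → ℤ),
      z (Sum.inl 0) = 1 ∧ l j₀ = 1 ∧ (∀ j, (Q : ℤ) ∣ MvPolynomial.aeval z (tot A c (F j))) ∧
      ∀ i ∈ free n Y, (Q : ℤ) ∣ ∑ j, l j * jacT A c F z j i)).card * Q ≤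
      (sysZ ι e (R + Q)).card := by
  set V1 : Finset (Fin (n + 1) ⊕ Y → ℤ) := Fintype.piFinset (fun i : Fin (n + 1) ⊕ Y =>
      if i = Sum.inl 0 then {(1 : ℤ)} else Finset.Icc (1 : ℤ) Q) with hV1
  set V2 : Finset (Fin r → ℤ) := Fintype.piFinset (fun j : Fin r =>
      if j = j₀ then {(1 : ℤ)} else Finset.Icc (1 : ℤ) Q) with hV2
  set P : (Fin (n + 1) ⊕ Y → ℤ) × (Fin r → ℤ) → Finset (Fin r → MvPolynomial ι ℤ) := fun v =>
    (sysZ ι e R).filter (fun F => (∀ j, (Q : ℤ) ∣ MvPolynomial.aeval v.1 (tot A c (F j))) ∧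
      ∀ i ∈ free n Y, (Q : ℤ) ∣ ∑ j, v.2 j * jacT A c F v.1 j i) with hP
  have hQ0 : (0 : ℤ) < Q := by exact_mod_cast hQ
  have hIcc : ∀ x : ℤ, (x - 1) % Q + 1 ∈ Finset.Icc (1 : ℤ) Q := by
    intro x
    rw [Finset.mem_Icc]
    have h3 := Int.emod_nonneg (x - 1) hQ0.ne'
    have h4 := Int.emod_lt_of_pos (x - 1) hQ0
    constructor <;> omega
  have hcov : (sysZ ι e R).filter (fun F => ∃ (z : Fin (n + 1) ⊕ Y → ℤ) (l : Fin r → ℤ),
      z (Sum.inl 0) = 1 ∧ l j₀ = 1 ∧ (∀ j, (Q : ℤ) ∣ MvPolynomial.aeval z (tot A c (F j))) ∧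
      ∀ i ∈ free n Y, (Q : ℤ) ∣ ∑ j, l j * jacT A c F z j i) ⊆ (V1 ×ˢ V2).biUnion P := by
    intro F hF
    obtain ⟨hF1, z, l, hz, hl, h1, h2⟩ := Finset.mem_filter.mp hF
    rw [Finset.mem_biUnion]
    refine ⟨(fun i => (z i - 1) % Q + 1, fun j => (l j - 1) % Q + 1), ?_, ?_⟩
    · rw [Finset.mem_product]
      constructor
      · rw [hV1, Fintype.mem_piFinset]
        intro i
        split_ifs with hi
        · rw [hi]
          simp [hz]
        · exact hIcc _
      · rw [hV2, Fintype.mem_piFinset]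
        intro j
        split_ifs with hj
        · rw [hj]
          simp [hl]
        · exact hIcc _
    · simp only [hP]
      rw [Finset.mem_filter]
      refine ⟨hF1, fun j => ?_, fun i hi => ?_⟩
      · have := dvd_add (aeval_congr Q (fun i => px_badpc_red Q (z i)) (tot A c (F j))) (h1 j)
        simpa using this
      · have h3 : (Q : ℤ) ∣ ∑ j, ((l j - 1) % Q + 1) *
            jacT A c F (fun i => (z i - 1) % Q + 1) j i - ∑ j, l j * jacT A c F z j i := by
          rw [← Finset.sum_sub_distrib]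
          refine Finset.dvd_sum fun j _ => ?_
          obtain ⟨s, hs⟩ := px_badpc_red Q (l j)
          obtain ⟨s', hs'⟩ := aeval_congr Q (fun i => px_badpc_red Q (z i))
            (MvPolynomial.pderiv i (tot A c (F j)))
          unfold jacT
          refine ⟨s * MvPolynomial.aeval (fun i => (z i - 1) % (Q : ℤ) + 1)
            (MvPolynomial.pderiv i (tot A c (F j))) + l j * s', ?_⟩
          linear_combination (MvPolynomial.aeval (fun i => (z i - 1) % (Q : ℤ) + 1)
            (MvPolynomial.pderiv i (tot A c (F j)))) * hs + l j * hs'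
        have := dvd_add h3 (h2 i hi)
        simpa using this
  set m := Fintype.card (Fin r ⊕ (Fin n ⊕ Y)) with hm
  have hr : 0 < r := lt_of_le_of_lt (Nat.zero_le _) j₀.2
  have hcard : (V1 ×ˢ V2).card * Q = Q ^ m := by
    rw [Finset.card_product, hV1, hV2, px_badpc_card_pts, px_badpc_card_ls, hm,
      Fintype.card_sum (α := Fin r), Fintype.card_fin,
      mul_assoc, ← pow_succ, Nat.sub_add_cancel hr, ← pow_add, add_comm]
  set bad := (sysZ ι e R).filter (fun F => ∃ (z : Fin (n + 1) ⊕ Y → ℤ) (l : Fin r → ℤ),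
      z (Sum.inl 0) = 1 ∧ l j₀ = 1 ∧ (∀ j, (Q : ℤ) ∣ MvPolynomial.aeval z (tot A c (F j))) ∧
      ∀ i ∈ free n Y, (Q : ℤ) ∣ ∑ j, l j * jacT A c F z j i) with hbad
  set NN := (sysZ ι e (R + Q)).card with hN
  have h1 : bad.card * Q * Q ^ m ≤ NN * Q ^ m := by
    calc bad.card * Q * Q ^ m = bad.card * Q ^ m * Q := by ring
      _ ≤ (∑ v ∈ V1 ×ˢ V2, (P v).card) * Q ^ m * Q := by
          apply Nat.mul_le_mul_right
          apply Nat.mul_le_mul_right
          exact (Finset.card_le_card hcov).trans Finset.card_biUnion_le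
      _ ≤ ((V1 ×ˢ V2).card * NN) * Q := by
          apply Nat.mul_le_mul_right
          rw [Finset.sum_mul, ← smul_eq_mul]
          apply Finset.sum_le_card_nsmul
          intro v hv
          obtain ⟨hv1, hv2⟩ := Finset.mem_product.1 hv
          refine px_badpc_at h e j₀ Q R v.1 ?_ v.2 ?_
          · have h3 := Fintype.mem_piFinset.1 hv1 (Sum.inl 0)
            rw [if_pos rfl, Finset.mem_singleton] at h3
            exact h3
          · have h3 := Fintype.mem_piFinset.1 hv2 j₀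
            rw [if_pos rfl, Finset.mem_singleton] at h3
            exact h3
      _ = NN * ((V1 ×ˢ V2).card * Q) := by ring
      _ = _ := by rw [hcard]
  exact Nat.le_of_mul_le_mul_right h1 (pow_pos hQ _)

end

theorem pBADPC : S_BADPC := by
  classical
  intro C ι Y _ _ _ n r e A hA p ℓ hp H hH
  set Q := p ^ (ℓ + 1) with hQ
  have hQ1 : 1 ≤ Q := Nat.one_le_pow _ _ hp.pos
  set B : C × Fin r → Finset (Fin r → MvPolynomial ι ℤ) := fun u =>
    (sysZ ι e H).filter (fun F => ∃ (z : Fin (n + 1) ⊕ Y → ℤ) (l : Fin r → ℤ),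
      z (Sum.inl 0) = 1 ∧ l u.2 = 1 ∧ (∀ j, (Q : ℤ) ∣ MvPolynomial.aeval z (tot A u.1 (F j))) ∧
      ∀ i ∈ free n Y, (Q : ℤ) ∣ ∑ j, l j * jacT A u.1 F z j i) with hB
  have hcov : (sysZ ι e H).filter (fun F => BadT A p ℓ F) ⊆ Finset.univ.biUnion B := by
    intro F hF
    obtain ⟨hF1, c, y, x, hx, h1, h2⟩ := Finset.mem_filter.mp hF
    unfold NonD at h2
    push Not at h2
    obtain ⟨j₀, l, hl, h2⟩ := h2
    rw [Finset.mem_biUnion]
    refine ⟨(c, j₀), Finset.mem_univ _, ?_⟩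
    simp only [hB]
    rw [Finset.mem_filter]
    refine ⟨hF1, Sum.elim x y, l, hx, hl, ?_, ?_⟩
    · intro j
      rw [aeval_tot, hQ]
      push_cast
      exact h1 j
    · intro i hi
      rw [hQ]
      push_cast
      exact h2 i hi
  calc ((sysZ ι e H).filter (fun F => BadT A p ℓ F)).card * Q
      ≤ (∑ u, (B u).card) * Q :=
        Nat.mul_le_mul_right _ ((Finset.card_le_card hcov).trans Finset.card_biUnion_le)
    _ ≤ Fintype.card (C × Fin r) * (sysZ ι e (H + Q)).card := by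
        rw [Finset.sum_mul, ← smul_eq_mul]
        apply Finset.sum_le_card_nsmul
        intro u _
        obtain ⟨i₀, σ, ε, h⟩ := px_badpc_exists hA u.1
        exact px_badpc_chart h e u.2 Q hQ1 H
    _ = _ := by
        rw [Fintype.card_prod, Fintype.card_fin]

end Pool.Agent.H731.GS
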