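import Pool.Agent.H731.GS.Stm
import Pool.Graph.R_pool_sql_team_seeded_707910d6.T2H41.CX.PBADR

/-!
# Package BADRC: systems which are degenerate at a real point of a chart
-/

set_option autoImplicit false

namespace Pool.Agent.H731.GS

open Pool.Agent.Y716.Q Pool.Agent.Y716.C
open Pool.Agent.T2H41.CX (NonD NonDR)
open Pool.Agent.T2H41.CX.PkgBADR (lip_poly comb_le rnd card_lr)

section
variable {C ι Y : Type} {n r : ℕ}

/-- the substitution as a homomorphism of algebras -/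
noncomputable def px_badrc_T (A : Fra C ι Y n) (c : C) :
    MvPolynomial ι ℤ →ₐ[ℤ] MvPolynomial (Fin (n + 1) ⊕ Y) ℤ :=
  MvPolynomial.bind₁ (fun i => ∑ j, MvPolynomial.rename Sum.inr (A c i j) *
    MvPolynomial.X (Sum.inl j))

theorem px_badrc_tot (A : Fra C ι Y n) (c : C) (F : MvPolynomial ι ℤ) :
    tot A c F = px_badrc_T A c F := rfl

theorem px_badrc_TX (A : Fra C ι Y n) (c : C) (i : ι) :
    px_badrc_T A c (MvPolynomial.X i) = ∑ j, MvPolynomial.rename Sum.inr (A c i j) *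
      MvPolynomial.X (Sum.inl j) := by
  unfold px_badrc_T
  rw [MvPolynomial.bind₁_X_right]

/-- the free coordinates -/
abbrev PxBadrcJ (n : ℕ) (Y : Type) : Type := {o : Fin (n + 1) ⊕ Y // o ≠ Sum.inl 0}

/-- coordinates of the ambient space which give the coordinates of the chart -/
theorem px_badrc_data {A : Fra C ι Y n} (hA : IsChart A) (c : C) :
    ∃ (i₀ : ι) (σ : PxBadrcJ n Y → ι) (s : PxBadrcJ n Y → ℤ) (k : PxBadrcJ n Y → ℕ),
      (∀ o, s o = 1 ∨ s o = -1) ∧
      px_badrc_T A c (MvPolynomial.X i₀) = MvPolynomial.X (Sum.inl 0) ∧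
      ∀ o, px_badrc_T A c (MvPolynomial.X (σ o)) = MvPolynomial.C (s o) *
        (MvPolynomial.X o.1 * MvPolynomial.X (Sum.inl 0) ^ k o) := by
  have h : ∀ o : PxBadrcJ n Y, ∃ (i : ι) (s : ℤ) (k : ℕ), (s = 1 ∨ s = -1) ∧
      px_badrc_T A c (MvPolynomial.X i) = MvPolynomial.C s *
        (MvPolynomial.X o.1 * MvPolynomial.X (Sum.inl 0) ^ k) := by
    rintro ⟨j | t, ho⟩
    · obtain ⟨j', rfl⟩ : ∃ j', Fin.succ j' = j := by
        rw [Fin.exists_succ_eq]
        rintro rfl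
        exact ho rfl
      obtain ⟨i, hi, hi0⟩ := hA.dirx c j'
      have hs : px_badrc_T A c (MvPolynomial.X i) =
          MvPolynomial.rename Sum.inr (A c i j'.succ) * MvPolynomial.X (Sum.inl j'.succ) := by
        rw [px_badrc_TX, Finset.sum_eq_single j'.succ]
        · intro b _ hb
          rw [hi0 b hb, map_zero, zero_mul]
        · intro hh
          exact absurd (Finset.mem_univ _) hh
      rcases hi with hi | hi
      · refine ⟨i, 1, 0, Or.inl rfl, ?_⟩
        rw [hs, hi, map_one, pow_zero, mul_one, map_one]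
      · refine ⟨i, -1, 0, Or.inr rfl, ?_⟩
        rw [hs, hi, map_neg, map_one, pow_zero, mul_one, map_neg, map_one]
    · obtain ⟨i, hi, hi0⟩ := hA.diry c t
      have hs : px_badrc_T A c (MvPolynomial.X i) =
          MvPolynomial.rename Sum.inr (A c i 0) * MvPolynomial.X (Sum.inl 0) := by
        rw [px_badrc_TX, Fin.sum_univ_succ]
        rw [Finset.sum_eq_zero, add_zero]
        intro b _
        rw [hi0 b, map_zero, zero_mul]
      rcases hi with hi | hi
      · refine ⟨i, 1, 1, Or.inl rfl, ?_⟩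
        rw [hs, hi, MvPolynomial.rename_X, pow_one, map_one, one_mul]
      · refine ⟨i, -1, 1, Or.inr rfl, ?_⟩
        rw [hs, hi, map_neg, MvPolynomial.rename_X, pow_one, map_neg, map_one]
        ring
  choose σ s k hs hT using h
  obtain ⟨i₀, h0, h1⟩ := hA.one c
  refine ⟨i₀, σ, s, k, hs, ?_, hT⟩
  rw [px_badrc_TX, Fin.sum_univ_succ, h0, map_one, one_mul, Finset.sum_eq_zero, add_zero]
  intro b _
  rw [h1 b, map_zero, zero_mul]

end

section
variable {ι Y : Type} {n r : ℕ} [Fintype Y]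

open scoped Classical in
/-- the perturbation of a system -/
noncomputable def px_badrc_pS (e : Fin r → ℕ) (i₀ : ι) (σ : PxBadrcJ n Y → ι) (j₀ : Fin r)
    (q : Fin r ⊕ PxBadrcJ n Y → ℤ) (j : Fin r) : MvPolynomial ι ℤ :=
  MvPolynomial.monomial (Finsupp.single i₀ (e j + 2)) (q (Sum.inl j)) +
    ∑ o : PxBadrcJ n Y, MvPolynomial.monomial (Finsupp.single i₀ (e j + 1) + Finsupp.single (σ o) 1)
      (if j = j₀ then q (Sum.inr o) else 0)

theorem px_badrc_pS_sub (e : Fin r → ℕ) (i₀ : ι) (σ : PxBadrcJ n Y → ι) (j₀ : Fin r)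
    (q q' : Fin r ⊕ PxBadrcJ n Y → ℤ) (j : Fin r) :
    px_badrc_pS e i₀ σ j₀ (fun i => q i - q' i) j =
      px_badrc_pS e i₀ σ j₀ q j - px_badrc_pS e i₀ σ j₀ q' j := by
  classical
  unfold px_badrc_pS
  rw [add_sub_add_comm, ← Finset.sum_sub_distrib]
  congr 1
  · rw [map_sub]
  · refine Finset.sum_congr rfl fun o _ => ?_
    split_ifs
    · rw [map_sub]
    · rw [map_zero, sub_zero]

theorem px_badrc_isF_mono {σ : Type} [Fintype σ] {d : ℕ} {S : ℝ} (m : σ →₀ ℕ) (a : ℤ)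
    (hm : m.degree = d) (hS : 0 ≤ S) (ha : |(a : ℝ)| ≤ S) :
    IsF d S (MvPolynomial.monomial m a) := by
  classical
  refine ⟨MvPolynomial.isHomogeneous_monomial _ hm, fun m' => ?_⟩
  rw [MvPolynomial.coeff_monomial]
  split_ifs
  · exact ha
  · simpa using hS

theorem px_badrc_isF_sum {σ τ : Type} [Fintype σ] {d : ℕ} {S : ℝ}
    (s : Finset τ) (f : τ → MvPolynomial σ ℤ) (h : ∀ o ∈ s, IsF d S (f o)) :
    IsF d (s.card * S) (∑ o ∈ s, f o) := by
  classical
  refine ⟨MvPolynomial.IsHomogeneous.sum _ _ _ fun o ho => (h o ho).1, fun m => ?_⟩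
  rw [MvPolynomial.coeff_sum]
  push_cast
  refine (Finset.abs_sum_le_sum_abs _ _).trans ?_
  refine (Finset.sum_le_card_nsmul _ _ S fun o ho => (h o ho).2 m).trans ?_
  rw [nsmul_eq_mul]

/-- the number of monomials of the perturbation -/
noncomputable def px_badrc_w (n : ℕ) (Y : Type) [Fintype Y] : ℕ := by
  classical exact Fintype.card (PxBadrcJ n Y) + 1

theorem px_badrc_pS_isF [Fintype ι] (e : Fin r → ℕ) (i₀ : ι) (σ : PxBadrcJ n Y → ι) (j₀ : Fin r)
    {q : Fin r ⊕ PxBadrcJ n Y → ℤ} {S : ℝ} (hS : 0 ≤ S) (hq : ∀ i, |(q i : ℝ)| ≤ S) (j : Fin r) :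
    IsF (e j + 2) (px_badrc_w n Y * S) (px_badrc_pS e i₀ σ j₀ q j) := by
  classical
  unfold px_badrc_pS
  have h1 : IsF (e j + 2) S (MvPolynomial.monomial (Finsupp.single i₀ (e j + 2)) (q (Sum.inl j))) :=
    px_badrc_isF_mono _ _ (by simp) hS (hq _)
  have h2 := px_badrc_isF_sum (d := e j + 2) (S := S) (Finset.univ : Finset (PxBadrcJ n Y))
    (fun o => MvPolynomial.monomial (Finsupp.single i₀ (e j + 1) + Finsupp.single (σ o) 1)
      (if j = j₀ then q (Sum.inr o) else 0)) (fun o _ => by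
        refine px_badrc_isF_mono _ _ (by simp [add_assoc]) hS ?_
        split_ifs
        · exact hq _
        · simpa using hS)
  have h3 := Pool.Agent.Y278.Z8.IsF.add' h1 h2
  have h4 : S + ((Finset.univ : Finset (PxBadrcJ n Y)).card : ℝ) * S = px_badrc_w n Y * S := by
    unfold px_badrc_w
    rw [Finset.card_univ]
    push_cast
    ring
  rw [h4] at h3
  exact h3

end

section
variable {C ι Y : Type} {n r : ℕ} [Fintype Y]

open scoped Classical in
theorem px_badrc_T_pS {A : Fra C ι Y n} {c : C} {i₀ : ι} {σ : PxBadrcJ n Y → ι}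
    {s : PxBadrcJ n Y → ℤ} {k : PxBadrcJ n Y → ℕ}
    (h0 : px_badrc_T A c (MvPolynomial.X i₀) = MvPolynomial.X (Sum.inl 0))
    (hσ : ∀ o, px_badrc_T A c (MvPolynomial.X (σ o)) = MvPolynomial.C (s o) *
        (MvPolynomial.X o.1 * MvPolynomial.X (Sum.inl 0) ^ k o))
    (e : Fin r → ℕ) (j₀ : Fin r) (q : Fin r ⊕ PxBadrcJ n Y → ℤ) (j : Fin r) :
    tot A c (px_badrc_pS e i₀ σ j₀ q j) =
      MvPolynomial.C (q (Sum.inl j)) * MvPolynomial.X (Sum.inl 0) ^ (e j + 2) +
      ∑ o : PxBadrcJ n Y, MvPolynomial.C ((if j = j₀ then q (Sum.inr o) else 0) * s o) *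
        (MvPolynomial.X o.1 * MvPolynomial.X (Sum.inl 0) ^ (e j + 1 + k o)) := by
  rw [px_badrc_tot]
  unfold px_badrc_pS
  have hC : ∀ a : ℤ, px_badrc_T A c (MvPolynomial.C a) = MvPolynomial.C a := by
    intro a
    exact (px_badrc_T A c).commutes a
  rw [map_add, map_sum]
  congr 1
  · rw [← MvPolynomial.C_mul_X_pow_eq_monomial, map_mul, hC, map_pow, h0]
  · refine Finset.sum_congr rfl fun o _ => ?_
    have h1 : (MvPolynomial.monomial (Finsupp.single i₀ (e j + 1) + Finsupp.single (σ o) 1)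
        (if j = j₀ then q (Sum.inr o) else 0) : MvPolynomial ι ℤ) =
        MvPolynomial.C (if j = j₀ then q (Sum.inr o) else 0) *
          (MvPolynomial.X i₀ ^ (e j + 1) * MvPolynomial.X (σ o)) := by
      rw [MvPolynomial.X_pow_eq_monomial, MvPolynomial.X, MvPolynomial.monomial_mul,
        MvPolynomial.C_mul_monomial, mul_one, mul_one]
    rw [h1, map_mul, hC, map_mul, map_pow, h0, hσ, MvPolynomial.C_mul, pow_add]
    ring

open scoped Classical in
theorem px_badrc_pS_aeval {K : Type} [CommRing K] {A : Fra C ι Y n} {c : C} {i₀ : ι}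
    {σ : PxBadrcJ n Y → ι} {s : PxBadrcJ n Y → ℤ} {k : PxBadrcJ n Y → ℕ}
    (h0 : px_badrc_T A c (MvPolynomial.X i₀) = MvPolynomial.X (Sum.inl 0))
    (hσ : ∀ o, px_badrc_T A c (MvPolynomial.X (σ o)) = MvPolynomial.C (s o) *
        (MvPolynomial.X o.1 * MvPolynomial.X (Sum.inl 0) ^ k o))
    (e : Fin r → ℕ) (j₀ : Fin r) (q : Fin r ⊕ PxBadrcJ n Y → ℤ)
    (z : Fin (n + 1) ⊕ Y → K) (hz : z (Sum.inl 0) = 1) (j : Fin r) :
    MvPolynomial.aeval z (tot A c (px_badrc_pS e i₀ σ j₀ q j)) = (q (Sum.inl j) : K) +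
      ∑ o : PxBadrcJ n Y, (((if j = j₀ then q (Sum.inr o) else 0) * s o : ℤ) : K) * z o.1 := by
  have hM : ∀ (m : ℕ) (o' : Fin (n + 1) ⊕ Y), MvPolynomial.aeval z
      (MvPolynomial.X o' * MvPolynomial.X (Sum.inl 0) ^ m : MvPolynomial (Fin (n + 1) ⊕ Y) ℤ) =
      z o' := by
    intro m o'
    rw [map_mul, map_pow, MvPolynomial.aeval_X, MvPolynomial.aeval_X, hz, one_pow, mul_one]
  have hCa : ∀ a : ℤ, MvPolynomial.aeval z
      (MvPolynomial.C a : MvPolynomial (Fin (n + 1) ⊕ Y) ℤ) = (a : K) := by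
    intro a
    rw [MvPolynomial.aeval_C]
    rfl
  rw [px_badrc_T_pS h0 hσ, map_add, map_sum, map_mul, map_pow, MvPolynomial.aeval_X, hz, one_pow,
    mul_one, hCa]
  congr 1
  refine Finset.sum_congr rfl fun o _ => ?_
  rw [map_mul (MvPolynomial.aeval z) (MvPolynomial.C _) (_ * _), hM, hCa]

open scoped Classical in
theorem px_badrc_pS_pderiv {K : Type} [CommRing K] {A : Fra C ι Y n} {c : C} {i₀ : ι}
    {σ : PxBadrcJ n Y → ι} {s : PxBadrcJ n Y → ℤ} {k : PxBadrcJ n Y → ℕ}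
    (h0 : px_badrc_T A c (MvPolynomial.X i₀) = MvPolynomial.X (Sum.inl 0))
    (hσ : ∀ o, px_badrc_T A c (MvPolynomial.X (σ o)) = MvPolynomial.C (s o) *
        (MvPolynomial.X o.1 * MvPolynomial.X (Sum.inl 0) ^ k o))
    (e : Fin r → ℕ) (j₀ : Fin r) (q : Fin r ⊕ PxBadrcJ n Y → ℤ)
    (z : Fin (n + 1) ⊕ Y → K) (hz : z (Sum.inl 0) = 1) (j : Fin r) (o : PxBadrcJ n Y) :
    MvPolynomial.aeval z (MvPolynomial.pderiv o.1 (tot A c (px_badrc_pS e i₀ σ j₀ q j))) =
      (((if j = j₀ then q (Sum.inr o) else 0) * s o : ℤ) : K) := by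
  have hX0 : ∀ m : ℕ, MvPolynomial.pderiv o.1
      (MvPolynomial.X (Sum.inl 0) ^ m : MvPolynomial (Fin (n + 1) ⊕ Y) ℤ) = 0 := by
    intro m
    rw [MvPolynomial.pderiv_pow, MvPolynomial.pderiv_X_of_ne (Ne.symm o.2), mul_zero]
  rw [px_badrc_T_pS h0 hσ, map_add, map_sum, MvPolynomial.pderiv_C_mul, hX0, mul_zero, zero_add,
    map_sum, Finset.sum_eq_single o]
  · rw [MvPolynomial.pderiv_C_mul, Derivation.leibniz, hX0, MvPolynomial.pderiv_X_self, smul_zero,
      zero_add, smul_eq_mul, mul_one, map_mul, map_pow, MvPolynomial.aeval_X, hz, one_pow, mul_one,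
      MvPolynomial.aeval_C]
    rfl
  · intro o' _ ho'
    have hne : o'.1 ≠ o.1 := fun h => ho' (Subtype.ext h)
    rw [MvPolynomial.pderiv_C_mul, Derivation.leibniz, hX0, MvPolynomial.pderiv_X_of_ne hne,
      smul_zero, smul_zero, add_zero, mul_zero, map_zero]
  · intro h
    exact absurd (Finset.mem_univ _) h

theorem px_badrc_inj [Fintype ι] (e : Fin r → ℕ) (i₀ : ι) (σ : PxBadrcJ n Y → ι) (j₀ : Fin r)
    (R S : ℝ) (hS : 0 ≤ S)
    (P : (Fin r → MvPolynomial ι ℤ) → Prop) [DecidablePred P]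
    (B : Finset (Fin r ⊕ PxBadrcJ n Y → ℤ)) (hB : ∀ c ∈ B, ∀ i, |(c i : ℝ)| ≤ S)
    (hP : ∀ F G, P F → P G → ∀ c ∈ B, ∀ c' ∈ B,
      (∀ j, px_badrc_pS e i₀ σ j₀ (fun i => c i - c' i) j = G j - F j) → c = c') :
    ((sysZ ι e R).filter P).card * B.card ≤ (sysZ ι e (R + px_badrc_w n Y * S)).card := by
  classical
  rw [← Finset.card_product]
  apply Finset.card_le_card_of_injOn
    (fun p => (fun j => p.1 j + px_badrc_pS e i₀ σ j₀ p.2 j : Fin r → MvPolynomial ι ℤ))
  · rintro ⟨F, c⟩ hp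
    simp only [Finset.coe_product, Set.mem_prod, Finset.mem_coe] at hp
    simp only [Finset.mem_coe, mem_sysZ]
    intro j
    have h1 := mem_sysZ.1 (Finset.mem_filter.mp hp.1).1 j
    exact Pool.Agent.Y278.Z8.IsF.add' h1 (px_badrc_pS_isF e i₀ σ j₀ hS (hB c hp.2) j)
  · rintro ⟨f, c⟩ hp ⟨f', c'⟩ hp' heq
    simp only [Finset.coe_product, Set.mem_prod, Finset.mem_coe] at hp hp'
    obtain ⟨hf, hc⟩ := hp
    obtain ⟨hf', hc'⟩ := hp'
    simp only at heq
    have hpe : ∀ j, px_badrc_pS e i₀ σ j₀ (fun i => c i - c' i) j = f' j - f j := by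
      intro j
      rw [px_badrc_pS_sub]
      have h1 : f j + px_badrc_pS e i₀ σ j₀ c j = f' j + px_badrc_pS e i₀ σ j₀ c' j :=
        congrFun heq j
      linear_combination h1
    have hcc := hP f f' (Finset.mem_filter.mp hf).2 (Finset.mem_filter.mp hf').2 c hc c' hc' hpe
    subst hcc
    have h3 : f = f' := by
      funext j
      exact add_right_cancel (congrFun heq j)
    rw [h3]

theorem px_badrc_tot_lip [Fintype ι] (A : Fra C ι Y n) (c : C) (d : ℕ) : ∃ K : ℝ, 0 ≤ K ∧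
    ∀ (R : ℝ), 0 ≤ R → ∀ f : MvPolynomial ι ℤ, IsF d R f →
    ∀ (z z' : Fin (n + 1) ⊕ Y → ℝ) (δ : ℝ), 0 ≤ δ → (∀ i, |z i| ≤ 1) → (∀ i, |z' i| ≤ 1) →
      (∀ i, |z' i - z i| ≤ δ) →
      |MvPolynomial.aeval z' (tot A c f) - MvPolynomial.aeval z (tot A c f)| ≤ K * R * δ ∧
      ∀ i, |MvPolynomial.aeval z (MvPolynomial.pderiv i (tot A c f))| ≤ K * R ∧
        |MvPolynomial.aeval z' (MvPolynomial.pderiv i (tot A c f)) -
          MvPolynomial.aeval z (MvPolynomial.pderiv i (tot A c f))| ≤ K * R * δ := by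
  classical
  choose K hK hT using fun g : MvPolynomial (Fin (n + 1) ⊕ Y) ℤ => lip_poly g
  set G : (ι →₀ ℕ) → MvPolynomial (Fin (n + 1) ⊕ Y) ℤ :=
    fun m => px_badrc_T A c (MvPolynomial.monomial m 1) with hG
  set S := mons ι d with hS
  set K1 : ℝ := ∑ p ∈ S, K (G p) with hK1
  set K2 : Fin (n + 1) ⊕ Y → ℝ := fun i => ∑ p ∈ S, K (MvPolynomial.pderiv i (G p)) with hK2
  have hK1' : 0 ≤ K1 := Finset.sum_nonneg (fun m _ => hK _)
  have hK2' : ∀ i, 0 ≤ K2 i := fun i => Finset.sum_nonneg (fun m _ => hK _)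
  refine ⟨K1 + ∑ i, K2 i, add_nonneg hK1' (Finset.sum_nonneg fun i _ => hK2' i), ?_⟩
  intro R hR f hf z z' δ hδ hz hz' hd
  have hfs : tot A c f = ∑ p ∈ S, MvPolynomial.C (f.coeff p) * G p := by
    rw [px_badrc_tot]
    conv_lhs => rw [Pool.Agent.Y278.Z8.form_eq_sum hf]
    rw [map_sum]
    refine Finset.sum_congr rfl fun p _ => ?_
    rw [map_mul]
    congr 1
    exact (px_badrc_T A c).commutes _
  have e1 : ∀ x : Fin (n + 1) ⊕ Y → ℝ, MvPolynomial.aeval x (tot A c f) =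
      ∑ p ∈ S, ((f.coeff p : ℤ) : ℝ) * MvPolynomial.aeval x (G p) := by
    intro x
    rw [hfs, map_sum]
    refine Finset.sum_congr rfl (fun m _ => ?_)
    rw [map_mul, MvPolynomial.aeval_C]
    rfl
  have e2 : ∀ (x : Fin (n + 1) ⊕ Y → ℝ) (i), MvPolynomial.aeval x
      (MvPolynomial.pderiv i (tot A c f)) =
      ∑ p ∈ S, ((f.coeff p : ℤ) : ℝ) *
        MvPolynomial.aeval x (MvPolynomial.pderiv i (G p)) := by
    intro x i
    rw [hfs, map_sum, map_sum]
    refine Finset.sum_congr rfl (fun m _ => ?_)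
    rw [MvPolynomial.pderiv_C_mul, map_mul, MvPolynomial.aeval_C]
    rfl
  have hc : ∀ p : ι →₀ ℕ, |((f.coeff p : ℤ) : ℝ)| ≤ R := fun p => hf.2 p
  have hsum : ∀ i, K2 i ≤ ∑ i, K2 i := fun i =>
    Finset.single_le_sum (f := K2) (fun i _ => hK2' i) (Finset.mem_univ i)
  have hsum0 : 0 ≤ ∑ i, K2 i := Finset.sum_nonneg fun i _ => hK2' i
  refine ⟨?_, fun i => ⟨?_, ?_⟩⟩
  · rw [e1, e1, ← Finset.sum_sub_distrib]
    simp only [← mul_sub]
    refine (comb_le S _ _ (fun p => K (G p) * δ) hc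
      (fun p => (hT (G p) z z' δ hδ hz hz' hd).2)).trans ?_
    rw [← Finset.sum_mul, ← hK1]
    have : 0 ≤ (∑ i, K2 i) * (R * δ) := by positivity
    linarith
  · rw [e2]
    refine (comb_le S _ _ (fun p => K (MvPolynomial.pderiv i (G p))) hc
      (fun p => (hT (MvPolynomial.pderiv i (G p)) z z' δ hδ hz hz' hd).1)).trans ?_
    apply mul_le_mul_of_nonneg_right _ hR
    have := hsum i
    simp only [hK2] at this ⊢
    linarith
  · rw [e2, e2, ← Finset.sum_sub_distrib]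
    simp only [← mul_sub]
    refine (comb_le S _ _ (fun p => K (MvPolynomial.pderiv i (G p)) * δ) hc
      (fun p => (hT (MvPolynomial.pderiv i (G p)) z z' δ hδ hz hz' hd).2)).trans ?_
    rw [← Finset.sum_mul]
    have h1 := hsum i
    have h2 : 0 ≤ (K1 + ∑ i, K2 i - K2 i) * (R * δ) :=
      mul_nonneg (by linarith) (by positivity)
    have h3 : ∑ p ∈ S, K (MvPolynomial.pderiv i (G p)) = K2 i := rfl
    rw [h3]
    linarith

omit [Fintype Y] in
theorem px_badrc_tot_sub (A : Fra C ι Y n) (c : C) (f g : MvPolynomial ι ℤ) :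
    tot A c (f - g) = tot A c f - tot A c g := by
  rw [px_badrc_tot, px_badrc_tot, px_badrc_tot, map_sub]

theorem px_badrc_mem_free {o : Fin (n + 1) ⊕ Y} : o ∈ free n Y ↔ o ≠ Sum.inl 0 := by
  classical
  unfold free
  rw [Finset.mem_filter]
  exact ⟨fun h => h.2, fun h => ⟨Finset.mem_univ _, h⟩⟩

end

section
variable {C ι Y : Type} {n r : ℕ} [Fintype ι] [Fintype Y]

open scoped Classical in
/-- For a fixed point and a fixed combination few systems are almost degenerate. -/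
theorem px_badrc_at {A : Fra C ι Y n} (hA : IsChart A) (e : Fin r → ℕ) (c : C) (j₀ : Fin r)
    (z : Fin (n + 1) ⊕ Y → ℝ) (hz : z (Sum.inl 0) = 1) (l : Fin r → ℝ) (hl : l j₀ = 1) (C₁ : ℝ)
    (hC : 0 ≤ C₁) (κ R : ℝ) (hκ : 0 < κ) (hκR : 1 ≤ κ * R) :
    (((sysZ ι e R).filter (fun F =>
      (∀ j, |MvPolynomial.aeval z (tot A c (F j))| ≤ C₁ * κ * R) ∧
      ∀ i ∈ free n Y, |∑ j, l j * jacT A c F z j i| ≤ C₁ * κ * R)).card : ℝ) ≤
    (sysZ ι e (2 * R)).card *
      ((px_badrc_w n Y * (2 * C₁ + 1)) * κ) ^ Fintype.card (Fin r ⊕ PxBadrcJ n Y) := by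
  obtain ⟨i₀, σ, s, kk, hs, h0, hσ⟩ := px_badrc_data hA c
  have hR : 0 < R := by
    by_contra h
    push Not at h
    have : κ * R ≤ 0 := mul_nonpos_of_nonneg_of_nonpos hκ.le h
    linarith
  set W : ℝ := (px_badrc_w n Y : ℝ) with hW
  have hW1 : 1 ≤ W := by
    rw [hW]
    unfold px_badrc_w
    push_cast
    have : (0 : ℝ) ≤ (Fintype.card (PxBadrcJ n Y) : ℝ) := by positivity
    linarith
  have hW0 : 0 < W := by linarith
  set M : ℕ := ⌊2 * C₁ * κ * R⌋₊ + 1 with hM
  have hMlt : 2 * C₁ * κ * R < M := by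
    rw [hM]
    push_cast
    exact Nat.lt_floor_add_one _
  have hMle : (M : ℝ) ≤ (2 * C₁ + 1) * κ * R := by
    rw [hM]
    push_cast
    have h1 : (⌊2 * C₁ * κ * R⌋₊ : ℝ) ≤ 2 * C₁ * κ * R := Nat.floor_le (by positivity)
    linarith
  have hMpos : 0 < M := Nat.succ_pos _
  have hMpos' : (0 : ℝ) < M := by exact_mod_cast hMpos
  set T : ℕ := ⌊R / (W * M)⌋₊ with hT
  set B : Finset (Fin r ⊕ PxBadrcJ n Y → ℤ) :=
    (Fintype.piFinset (fun _ : Fin r ⊕ PxBadrcJ n Y => Finset.range (T + 1))).image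
    (fun t i => (M : ℤ) * (t i : ℤ)) with hB
  have hBcard : B.card = (T + 1) ^ Fintype.card (Fin r ⊕ PxBadrcJ n Y) := by
    rw [hB, Finset.card_image_of_injective, Fintype.card_piFinset]
    · simp
    · intro t t' h
      funext i
      have h1 := congrFun h i
      simp only at h1
      have h2 : (M : ℤ) ≠ 0 := by exact_mod_cast hMpos.ne'
      have h3 := mul_left_cancel₀ h2 h1
      exact_mod_cast h3
  have hmain := px_badrc_inj e i₀ σ j₀ R (R / W) (by positivity) (fun F =>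
      (∀ j, |MvPolynomial.aeval z (tot A c (F j))| ≤ C₁ * κ * R) ∧
      ∀ i ∈ free n Y, |∑ j, l j * jacT A c F z j i| ≤ C₁ * κ * R) B
    (by
      intro c hc i
      rw [hB, Finset.mem_image] at hc
      obtain ⟨t, ht, rfl⟩ := hc
      have h1 := Finset.mem_range.mp (Fintype.mem_piFinset.mp ht i)
      push_cast
      rw [abs_of_nonneg (by positivity)]
      have h2 : (t i : ℝ) ≤ R / (W * M) := by
        have h3 : (t i : ℝ) ≤ (T : ℝ) := by exact_mod_cast Nat.lt_succ_iff.mp h1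
        refine h3.trans ?_
        rw [hT]
        exact Nat.floor_le (by positivity)
      rw [le_div_iff₀ (by positivity)] at h2
      rw [le_div_iff₀ hW0]
      linarith)
    (by
      rintro f g ⟨f1, f2⟩ ⟨g1, g2⟩ cc hc cc' hc' hpe
      rw [hB, Finset.mem_image] at hc hc'
      obtain ⟨t, ht, rfl⟩ := hc
      obtain ⟨t', ht', rfl⟩ := hc'
      have key : ∀ i, |(((M : ℤ) * (t i : ℤ) - (M : ℤ) * (t' i : ℤ) : ℤ) : ℝ)| < M →
          (M : ℤ) * (t i : ℤ) = (M : ℤ) * (t' i : ℤ) := by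
        intro i hi
        have h1 : |((M : ℤ) * (t i : ℤ) - (M : ℤ) * (t' i : ℤ) : ℤ)| < (M : ℤ) := by
          exact_mod_cast hi
        have h2 : (M : ℤ) ∣ ((M : ℤ) * (t i : ℤ) - (M : ℤ) * (t' i : ℤ)) :=
          ⟨t i - t' i, by ring⟩
        have h3 := Int.eq_zero_of_abs_lt_dvd h2 h1
        omega
      have hne : ∀ w : PxBadrcJ n Y,
          (M : ℤ) * (t (Sum.inr w) : ℤ) = (M : ℤ) * (t' (Sum.inr w) : ℤ) := by
        intro w
        apply key
        have hw : w.1 ∈ free n Y := px_badrc_mem_free.2 w.2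
        have h3 : ∑ j, l j * jacT A c g z j w.1 - ∑ j, l j * jacT A c f z j w.1 =
            (((M : ℤ) * (t (Sum.inr w) : ℤ) - (M : ℤ) * (t' (Sum.inr w) : ℤ) : ℤ) : ℝ) *
              (s w : ℝ) := by
          rw [← Finset.sum_sub_distrib]
          rw [Finset.sum_congr rfl fun j _ =>
            (mul_sub (l j) (jacT A c g z j w.1) (jacT A c f z j w.1)).symm]
          have h4 : ∀ j, jacT A c g z j w.1 - jacT A c f z j w.1 =
              if j = j₀ then
                (((M : ℤ) * (t (Sum.inr w) : ℤ) - (M : ℤ) * (t' (Sum.inr w) : ℤ) : ℤ) : ℝ) *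
                  (s w : ℝ)
              else 0 := by
            intro j
            have h5 := px_badrc_pS_pderiv h0 hσ e j₀
              (fun i => (M : ℤ) * (t i : ℤ) - (M : ℤ) * (t' i : ℤ)) z hz j w
            rw [hpe, px_badrc_tot_sub, map_sub, map_sub] at h5
            unfold jacT
            rw [h5]
            split_ifs
            · push_cast
              ring
            · simp
          simp only [h4]
          rw [Finset.sum_eq_single j₀]
          · rw [if_pos rfl, hl, one_mul]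
          · intro j _ hj
            rw [if_neg hj, mul_zero]
          · intro h; exact absurd (Finset.mem_univ _) h
        have hsw : |(s w : ℝ)| = 1 := by
          rcases hs w with h | h <;> rw [h] <;> simp
        have h3' := congrArg abs h3
        rw [abs_mul, hsw, mul_one] at h3'
        rw [← h3']
        refine lt_of_le_of_lt (abs_sub _ _) ?_
        have h6 := f2 w.1 hw
        have h7 := g2 w.1 hw
        linarith
      have hr : ∀ j, (M : ℤ) * (t (Sum.inl j) : ℤ) = (M : ℤ) * (t' (Sum.inl j) : ℤ) := by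
        intro j
        apply key
        have h3 := px_badrc_pS_aeval h0 hσ e j₀
          (fun i => (M : ℤ) * (t i : ℤ) - (M : ℤ) * (t' i : ℤ)) z hz j
        rw [hpe, px_badrc_tot_sub, map_sub, Finset.sum_eq_zero, add_zero] at h3
        · rw [← h3]
          refine lt_of_le_of_lt (abs_sub _ _) ?_
          have h5 := f1 j
          have h6 := g1 j
          linarith
        · intro w _
          rw [hne w, sub_self]
          simp
      funext i
      rcases i with j | w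
      · exact hr j
      · exact hne w)
  have hWR : W * (R / W) = R := by field_simp
  rw [← hW, hWR, hBcard, show R + R = 2 * R by ring] at hmain
  set AA := ((sysZ ι e R).filter (fun F =>
      (∀ j, |MvPolynomial.aeval z (tot A c (F j))| ≤ C₁ * κ * R) ∧
      ∀ i ∈ free n Y, |∑ j, l j * jacT A c F z j i| ≤ C₁ * κ * R)).card with hAA
  set m := Fintype.card (Fin r ⊕ PxBadrcJ n Y) with hm
  have hmain' : (AA : ℝ) * ((T : ℝ) + 1) ^ m ≤ (sysZ ι e (2 * R)).card := by
    exact_mod_cast hmain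
  have hone : 1 ≤ ((T : ℝ) + 1) * ((W * (2 * C₁ + 1)) * κ) := by
    have h1 : R / (W * M) < (T : ℝ) + 1 := by
      rw [hT]
      exact Nat.lt_floor_add_one _
    rw [div_lt_iff₀ (by positivity)] at h1
    have h5 : (0 : ℝ) ≤ ((T : ℝ) + 1) * W := by positivity
    have h3 : R < (((T : ℝ) + 1) * W) * ((2 * C₁ + 1) * κ * R) := by
      refine lt_of_lt_of_le ?_ (mul_le_mul_of_nonneg_left hMle h5)
      linarith
    have h6 : 1 * R < ((T : ℝ) + 1) * ((W * (2 * C₁ + 1)) * κ) * R := by linarith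
    exact (lt_of_mul_lt_mul_right h6 hR.le).le
  have hprod : (1 : ℝ) ≤ ((T : ℝ) + 1) ^ m * ((W * (2 * C₁ + 1)) * κ) ^ m := by
    rw [← mul_pow]
    exact one_le_pow₀ hone
  calc (AA : ℝ) = AA * 1 := by ring
    _ ≤ AA * (((T : ℝ) + 1) ^ m * ((W * (2 * C₁ + 1)) * κ) ^ m) :=
        mul_le_mul_of_nonneg_left hprod (by positivity)
    _ = (AA * ((T : ℝ) + 1) ^ m) * ((W * (2 * C₁ + 1)) * κ) ^ m := by ring
    _ ≤ _ := mul_le_mul_of_nonneg_right hmain' (by positivity)

omit [Fintype ι] in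
open scoped Classical in
theorem px_badrc_card_zs (n : ℕ) (Y : Type) [Fintype Y] (M : ℕ) :
    ((Fintype.piFinset (fun i : Fin (n + 1) ⊕ Y =>
      if i = Sum.inl 0 then {(M : ℤ)} else Finset.Icc (-(M : ℤ)) M)).card) =
      (2 * M + 1) ^ Fintype.card (PxBadrcJ n Y) := by
  rw [Fintype.card_piFinset]
  have h1 : ∀ i : Fin (n + 1) ⊕ Y,
      (if i = Sum.inl 0 then {(M : ℤ)} else Finset.Icc (-(M : ℤ)) M).card =
      if i = Sum.inl 0 then 1 else 2 * M + 1 := by
    intro i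
    split_ifs
    · simp
    · rw [Int.card_Icc]
      omega
  rw [Finset.prod_congr rfl (fun i _ => h1 i), Finset.prod_ite, Finset.prod_const_one, one_mul,
    Finset.prod_const]
  congr 1
  rw [Fintype.card_subtype]

open scoped Classical in
theorem px_badrc_chart [Fintype C] {A : Fra C ι Y n} (hA : IsChart A) (e : Fin r → ℕ) :
    ∃ C' : ℝ, 0 ≤ C' ∧ ∀ (c : C) (j₀ : Fin r) (κ R : ℝ),
      0 < κ → κ ≤ 1 → 1 ≤ κ * R →
    (((sysZ ι e R).filter (fun F => ∃ (z : Fin (n + 1) ⊕ Y → ℝ) (l : Fin r → ℝ),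
      (∀ i, |z i| ≤ 1) ∧ (∀ j, |l j| ≤ 1) ∧ z (Sum.inl 0) = 1 ∧ l j₀ = 1 ∧
      (∀ j, |MvPolynomial.aeval z (tot A c (F j))| ≤ κ * R) ∧
      ∀ i ∈ free n Y, |∑ j, l j * jacT A c F z j i| ≤ κ * R)).card : ℝ) ≤
    C' * κ * (sysZ ι e (2 * R)).card := by
  choose Kj hKj hTj using fun cj : C × Fin r => px_badrc_tot_lip A cj.1 (e cj.2 + 2)
  set K : ℝ := ∑ cj, Kj cj with hK
  have hK0 : 0 ≤ K := Finset.sum_nonneg fun j _ => hKj j
  have hKle : ∀ j, Kj j ≤ K := fun j =>
    Finset.single_le_sum (f := Kj) (fun j _ => hKj j) (Finset.mem_univ j)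
  set C₁ : ℝ := 1 + K + 2 * r * K with hC₁
  have hC₁0 : 0 ≤ C₁ := by positivity
  set W : ℝ := (px_badrc_w n Y : ℝ) with hW
  have hW1 : 1 ≤ W := by
    rw [hW]
    unfold px_badrc_w
    push_cast
    have : (0 : ℝ) ≤ (Fintype.card (PxBadrcJ n Y) : ℝ) := by positivity
    linarith
  set DD : ℝ := W * (2 * C₁ + 1) with hDD
  have hD0 : 0 < DD := by positivity
  have hD1 : 1 ≤ 5 * DD := by
    rw [hDD]
    nlinarith
  set nn := Fintype.card (Fin (n + 1) ⊕ Y) + r with hnn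
  refine ⟨(5 * DD) ^ nn, by positivity, ?_⟩
  intro c j₀ κ R hκ hκ1 hκR
  have hR : 0 < R := by
    by_contra h
    push Not at h
    have : κ * R ≤ 0 := mul_nonpos_of_nonneg_of_nonpos hκ.le h
    linarith
  set M : ℕ := ⌈1 / κ⌉₊ with hM
  have hM1 : 1 / κ ≤ M := Nat.le_ceil _
  have hM2 : (M : ℝ) < 1 / κ + 1 := Nat.ceil_lt_add_one (by positivity)
  have hginv : 1 ≤ 1 / κ := by rw [le_div_iff₀ hκ]; linarith
  have hM0 : (0 : ℝ) < M := by linarith
  set V1 : Finset (Fin (n + 1) ⊕ Y → ℤ) := Fintype.piFinset (fun i : Fin (n + 1) ⊕ Y =>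
      if i = Sum.inl 0 then {(M : ℤ)} else Finset.Icc (-(M : ℤ)) M) with hV1
  set V2 : Finset (Fin r → ℤ) := Fintype.piFinset (fun j : Fin r =>
      if j = j₀ then {(M : ℤ)} else Finset.Icc (-(M : ℤ)) M) with hV2
  set P : (Fin (n + 1) ⊕ Y → ℤ) × (Fin r → ℤ) → Finset (Fin r → MvPolynomial ι ℤ) := fun v =>
    (sysZ ι e R).filter (fun F =>
      (∀ j, |MvPolynomial.aeval (fun i => (v.1 i : ℝ) / M) (tot A c (F j))| ≤ C₁ * κ * R) ∧
      ∀ i ∈ free n Y, |∑ j, ((v.2 j : ℝ) / M) * jacT A c F (fun i => (v.1 i : ℝ) / M) j i| ≤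
        C₁ * κ * R) with hP
  have hcov : (sysZ ι e R).filter (fun F => ∃ (z : Fin (n + 1) ⊕ Y → ℝ) (l : Fin r → ℝ),
      (∀ i, |z i| ≤ 1) ∧ (∀ j, |l j| ≤ 1) ∧ z (Sum.inl 0) = 1 ∧ l j₀ = 1 ∧
      (∀ j, |MvPolynomial.aeval z (tot A c (F j))| ≤ κ * R) ∧
      ∀ i ∈ free n Y, |∑ j, l j * jacT A c F z j i| ≤ κ * R) ⊆ (V1 ×ˢ V2).biUnion P := by
    intro F hF
    obtain ⟨hF1, z, l, hz1, hl1, hz, hl, h1, h2⟩ := Finset.mem_filter.mp hF
    rw [Finset.mem_biUnion]
    refine ⟨(fun i => ⌊M * z i⌋, fun j => ⌊M * l j⌋), ?_, ?_⟩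
    · rw [Finset.mem_product]
      constructor
      · rw [hV1, Fintype.mem_piFinset]
        intro i
        split_ifs with hi
        · rw [Finset.mem_singleton, hi]
          simp [hz]
        · exact (rnd hκ hM1 (hz1 i)).1
      · rw [hV2, Fintype.mem_piFinset]
        intro j
        split_ifs with hj
        · rw [Finset.mem_singleton, hj]
          simp [hl]
        · exact (rnd hκ hM1 (hl1 j)).1
    · simp only [hP]
      rw [Finset.mem_filter]
      have hF2 := mem_sysZ.1 hF1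
      have ht := fun j => hTj (c, j) R hR.le (F j) (hF2 j) z
        (fun i => ((⌊M * z i⌋ : ℤ) : ℝ) / M) κ
        hκ.le hz1 (fun i => (rnd hκ hM1 (hz1 i)).2.1) (fun i => (rnd hκ hM1 (hz1 i)).2.2)
      have ht' := fun j => hTj (c, j) R hR.le (F j) (hF2 j)
        (fun i => ((⌊M * z i⌋ : ℤ) : ℝ) / M) z κ
        hκ.le (fun i => (rnd hκ hM1 (hz1 i)).2.1) hz1 (fun i => by
          rw [abs_sub_comm]; exact (rnd hκ hM1 (hz1 i)).2.2)
      refine ⟨hF1, fun j => ?_, fun i hi => ?_⟩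
      · have h3 := (ht j).1
        have h4 := h1 j
        have h5 : |MvPolynomial.aeval (fun i => ((⌊M * z i⌋ : ℤ) : ℝ) / M) (tot A c (F j))| ≤
            κ * R + Kj (c, j) * R * κ := by
          have h6 := abs_sub_abs_le_abs_sub
            (MvPolynomial.aeval (fun i => ((⌊M * z i⌋ : ℤ) : ℝ) / M) (tot A c (F j)))
            (MvPolynomial.aeval z (tot A c (F j)))
          linarith
        have h7 : Kj (c, j) * (R * κ) ≤ K * (R * κ) :=
          mul_le_mul_of_nonneg_right (hKle (c, j)) (by positivity)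
        have h8 : 0 ≤ 2 * (r : ℝ) * K * (R * κ) := by positivity
        rw [hC₁]
        linarith
      · set z' : Fin (n + 1) ⊕ Y → ℝ := fun i => ((⌊M * z i⌋ : ℤ) : ℝ) / M with hz'
        have h3 : ∑ j, (((⌊M * l j⌋ : ℤ) : ℝ) / M) * jacT A c F z' j i =
            ∑ j, l j * jacT A c F z j i +
              ∑ j, ((((⌊M * l j⌋ : ℤ) : ℝ) / M - l j) * jacT A c F z' j i +
              l j * (jacT A c F z' j i - jacT A c F z j i)) := by
          rw [← Finset.sum_add_distrib]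
          refine Finset.sum_congr rfl fun j _ => ?_
          ring
        have h4 : |∑ j, ((((⌊M * l j⌋ : ℤ) : ℝ) / M - l j) * jacT A c F z' j i +
              l j * (jacT A c F z' j i - jacT A c F z j i))| ≤
              ∑ _j : Fin r, 2 * (K * (R * κ)) := by
          refine (Finset.abs_sum_le_sum_abs _ _).trans (Finset.sum_le_sum fun j _ => ?_)
          refine (abs_add_le _ _).trans ?_
          rw [abs_mul, abs_mul]
          have e1 : |jacT A c F z' j i| ≤ K * R := by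
            refine (((ht' j).2 i).1).trans ?_
            exact mul_le_mul_of_nonneg_right (hKle (c, j)) hR.le
          have e2 : |jacT A c F z' j i - jacT A c F z j i| ≤ K * (R * κ) := by
            refine (((ht j).2 i).2).trans ?_
            rw [mul_assoc]
            exact mul_le_mul_of_nonneg_right (hKle (c, j)) (by positivity)
          have e3 := mul_le_mul (rnd hκ hM1 (hl1 j)).2.2 e1 (abs_nonneg _) hκ.le
          have e4 := mul_le_mul (hl1 j) e2 (abs_nonneg _) zero_le_one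
          linarith
        rw [Finset.sum_const, Finset.card_univ, Fintype.card_fin, nsmul_eq_mul] at h4
        have h5 := h2 i hi
        rw [h3]
        refine (abs_add_le _ _).trans ?_
        have h8 : 0 ≤ K * (R * κ) := by positivity
        rw [hC₁]
        linarith
  set jj := Fintype.card (PxBadrcJ n Y) with hjj
  set m := Fintype.card (Fin r ⊕ PxBadrcJ n Y) with hm
  have hr0 : 0 < r := lt_of_le_of_lt (Nat.zero_le _) j₀.2
  have hmj : m = jj + (r - 1) + 1 := by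
    rw [hm, Fintype.card_sum, Fintype.card_fin, ← hjj]
    omega
  have hpt : ∀ v ∈ V1 ×ˢ V2, ((P v).card : ℝ) ≤ (sysZ ι e (2 * R)).card * (DD * κ) ^ m := by
    intro v hv
    obtain ⟨hv1, hv2⟩ := Finset.mem_product.1 hv
    simp only [hP]
    refine px_badrc_at hA e c j₀ (fun i => (v.1 i : ℝ) / M) ?_ (fun j => (v.2 j : ℝ) / M) ?_
      C₁ hC₁0 κ R hκ hκR
    · have h3 := Fintype.mem_piFinset.1 hv1 (Sum.inl 0)
      rw [if_pos rfl, Finset.mem_singleton] at h3
      rw [h3]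
      push_cast
      exact div_self hM0.ne'
    · have h3 := Fintype.mem_piFinset.1 hv2 j₀
      rw [if_pos rfl, Finset.mem_singleton] at h3
      rw [h3]
      push_cast
      exact div_self hM0.ne'
  have hJk : jj ≤ Fintype.card (Fin (n + 1) ⊕ Y) := Fintype.card_subtype_le _
  have hGc : ((V1 ×ˢ V2).card : ℝ) * (DD * κ) ^ m ≤ (5 * DD) ^ nn * κ := by
    have h3 : ((V1 ×ˢ V2).card : ℝ) = (2 * M + 1) ^ (jj + (r - 1)) := by
      rw [Finset.card_product, hV1, hV2, px_badrc_card_zs, card_lr, ← pow_add]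
      push_cast
      rfl
    have h6 : (2 * M + 1) * κ ≤ 5 := by
      have h7 : (M : ℝ) * κ < (1 / κ + 1) * κ := mul_lt_mul_of_pos_right hM2 hκ
      have h8 : (1 / κ + 1) * κ = 1 + κ := by field_simp
      rw [h8] at h7
      linarith
    calc ((V1 ×ˢ V2).card : ℝ) * (DD * κ) ^ m =
          (2 * M + 1) ^ (jj + (r - 1)) * (DD * κ) ^ (jj + (r - 1) + 1) := by rw [h3, hmj]
      _ = DD * κ * (DD * ((2 * M + 1) * κ)) ^ (jj + (r - 1)) := by
          rw [mul_pow DD ((2 * M + 1) * κ), mul_pow (2 * (M : ℝ) + 1) κ, pow_succ (DD * κ),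
            mul_pow DD κ]
          ring
      _ ≤ DD * κ * (5 * DD) ^ (jj + (r - 1)) := by
          apply mul_le_mul_of_nonneg_left _ (by positivity)
          apply pow_le_pow_left₀ (by positivity)
          nlinarith
      _ ≤ 5 * DD * κ * (5 * DD) ^ (jj + (r - 1)) := by
          apply mul_le_mul_of_nonneg_right _ (by positivity)
          have : 0 ≤ DD * κ := by positivity
          linarith
      _ = (5 * DD) ^ (jj + (r - 1) + 1) * κ := by ring
      _ ≤ (5 * DD) ^ nn * κ := by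
          apply mul_le_mul_of_nonneg_right _ hκ.le
          apply pow_le_pow_right₀ hD1
          omega
  set F : ℝ := ((sysZ ι e (2 * R)).card : ℝ) with hF
  have hF0 : 0 ≤ F := by positivity
  calc (((sysZ ι e R).filter (fun F => ∃ (z : Fin (n + 1) ⊕ Y → ℝ) (l : Fin r → ℝ),
      (∀ i, |z i| ≤ 1) ∧ (∀ j, |l j| ≤ 1) ∧ z (Sum.inl 0) = 1 ∧ l j₀ = 1 ∧
      (∀ j, |MvPolynomial.aeval z (tot A c (F j))| ≤ κ * R) ∧
      ∀ i ∈ free n Y, |∑ j, l j * jacT A c F z j i| ≤ κ * R)).card : ℝ) ≤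
      ((∑ v ∈ V1 ×ˢ V2, (P v).card : ℕ) : ℝ) := by
        have := (Finset.card_le_card hcov).trans Finset.card_biUnion_le
        exact_mod_cast this
    _ = ∑ v ∈ V1 ×ˢ V2, ((P v).card : ℝ) := by push_cast; rfl
    _ ≤ ((V1 ×ˢ V2).card : ℝ) * (F * (DD * κ) ^ m) := by
        rw [← nsmul_eq_mul]
        exact Finset.sum_le_card_nsmul _ _ _ hpt
    _ = F * (((V1 ×ˢ V2).card : ℝ) * (DD * κ) ^ m) := by ring
    _ ≤ F * ((5 * DD) ^ nn * κ) := mul_le_mul_of_nonneg_left hGc hF0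
    _ = _ := by ring

end

theorem pBADRC : S_BADRC := by
  classical
  intro C ι Y _ _ _ n r e A hA
  obtain ⟨C', hC, h⟩ := px_badrc_chart (r := r) hA e
  set cc := Fintype.card (C × Fin r) with hcc
  refine ⟨cc * C' + 1, by positivity, ?_⟩
  intro κ R hκ hκ1 hκR
  set B : C × Fin r → Finset (Fin r → MvPolynomial ι ℤ) := fun u =>
    (sysZ ι e R).filter (fun F => ∃ (z : Fin (n + 1) ⊕ Y → ℝ) (l : Fin r → ℝ),
      (∀ i, |z i| ≤ 1) ∧ (∀ j, |l j| ≤ 1) ∧ z (Sum.inl 0) = 1 ∧ l u.2 = 1 ∧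
      (∀ j, |MvPolynomial.aeval z (tot A u.1 (F j))| ≤ κ * R) ∧
      ∀ i ∈ free n Y, |∑ j, l j * jacT A u.1 F z j i| ≤ κ * R) with hB
  have hcov : (sysZ ι e R).filter (fun F => BadTR A κ R F) ⊆ Finset.univ.biUnion B := by
    intro F hF
    obtain ⟨hF1, c, y, x, hx0, hy, hx, h1, h2⟩ := Finset.mem_filter.mp hF
    unfold NonDR at h2
    push Not at h2
    obtain ⟨j₀, l, hl, hl1, h2⟩ := h2
    rw [Finset.mem_biUnion]
    refine ⟨(c, j₀), Finset.mem_univ _, ?_⟩
    simp only [hB]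
    rw [Finset.mem_filter]
    refine ⟨hF1, Sum.elim x y, l, ?_, hl1, hx0, hl, ?_, h2⟩
    · rintro (i | i)
      · exact hx i
      · exact hy i
    · intro j
      rw [aeval_tot]
      exact h1 j
  set F : ℝ := ((sysZ ι e (2 * R)).card : ℝ) with hF
  have hF0 : 0 ≤ F := by positivity
  calc (((sysZ ι e R).filter (fun F => BadTR A κ R F)).card : ℝ)
      ≤ ((∑ u, (B u).card : ℕ) : ℝ) := by
        have := (Finset.card_le_card hcov).trans Finset.card_biUnion_le
        exact_mod_cast this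
    _ = ∑ u, ((B u).card : ℝ) := by push_cast; rfl
    _ ≤ (Finset.univ : Finset (C × Fin r)).card • (C' * κ * F) :=
        Finset.sum_le_card_nsmul _ _ _ (fun u _ => h u.1 u.2 κ R hκ hκ1 hκR)
    _ = cc * (C' * κ * F) := by rw [nsmul_eq_mul, Finset.card_univ, ← hcc]
    _ ≤ _ := by
        have h1 : 0 ≤ κ * F := by positivity
        nlinarith

end Pool.Agent.H731.GS
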