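import Pool.Agent.H731.GS.Stm

/-!
# GS, package CEL: some restriction is soluble at the primes up to `w'` (helper740)
-/

set_option autoImplicit false

namespace Pool.Agent.H731.GS

open Pool.Agent.Y716.Q Pool.Agent.Y716.C Filter Topology
open Pool.Agent.T2H41.CX (NonD NonDR GoodM QJ S_MINP S_HENG S_NRM S_MODS)
open Pool.Agent.T2H39.CV (Cone IsCone Swept subL Left Inside kerF Gr Pl pl S_LAT S_DEC S_WAQ)

section
variable {ι : Type} [Fintype ι] {r : ℕ}

/-- the member with parameter `g` of the progression through `ψ` -/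
noncomputable def px_cel_pg (ψ : Fin r → MvPolynomial ι ℤ) (Q : ℕ) (g : Fin r → MvPolynomial ι ℤ) :
    Fin r → MvPolynomial ι ℤ :=
  fun j => ψ j + MvPolynomial.C (Q : ℤ) * g j

omit [Fintype ι] in
theorem px_cel_smul {d : ℕ} {R : ℝ} {f : MvPolynomial ι ℤ} (h : IsF d R f) (Q : ℕ) :
    IsF d (Q * R) (MvPolynomial.C (Q : ℤ) * f) := by
  refine ⟨h.1.C_mul _, fun m => ?_⟩
  rw [MvPolynomial.coeff_C_mul]
  push_cast
  rw [abs_mul, Nat.abs_cast]
  exact mul_le_mul_of_nonneg_left (h.2 m) (Nat.cast_nonneg _)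

omit [Fintype ι] in
theorem px_cel_sub {d : ℕ} {R R' : ℝ} {f g : MvPolynomial ι ℤ} (h : IsF d R f) (h' : IsF d R' g) :
    IsF d (R + R') (f - g) := by
  refine ⟨h.1.sub h'.1, fun m => ?_⟩
  rw [MvPolynomial.coeff_sub]
  push_cast
  exact (abs_sub _ _).trans (add_le_add (h.2 m) (h'.2 m))

open scoped Classical in
/-- the averaging trick for systems -/
theorem px_cel_avg {e : Fin r → ℕ} {Q : ℕ} {H A δ : ℝ} (hA0 : 0 ≤ A)
    (hQA : Q * A ≤ H) (Z : Finset (Fin r → MvPolynomial ι ℤ)) (hZ : Z ⊆ sysZ ι e H)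
    (hav : ∀ ψ ∈ sysZ ι e (2 * H), (((sysZ ι e A).filter
      (fun g => px_cel_pg ψ Q g ∈ Z)).card : ℝ) ≤ δ * (sysZ ι e A).card) :
    (Z.card : ℝ) ≤ δ * (sysZ ι e (2 * H)).card := by
  have hG0 : (0 : ℝ) < (sysZ ι e A).card := by
    exact_mod_cast sysZ_pos ι e hA0
  have h1 : Z.card * (sysZ ι e A).card ≤
      ∑ ψ ∈ sysZ ι e (2 * H), ((sysZ ι e A).filter (fun g => px_cel_pg ψ Q g ∈ Z)).card := by
    rw [← Finset.card_product, ← Finset.card_sigma]
    apply Finset.card_le_card_of_injOn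
      (fun r => (⟨fun j => r.1 j - MvPolynomial.C (Q : ℤ) * r.2 j, r.2⟩ :
        (_ : Fin _ → MvPolynomial ι ℤ) × (Fin _ → MvPolynomial ι ℤ)))
    · rintro ⟨f, g⟩ hr
      simp only [Finset.coe_product, Set.mem_prod, Finset.mem_coe] at hr
      obtain ⟨h1, h4⟩ := hr
      simp only [Finset.mem_coe, Finset.mem_sigma, Finset.mem_filter]
      have hm : px_cel_pg (fun j => f j - MvPolynomial.C (Q : ℤ) * g j) Q g = f := by
        funext j
        unfold px_cel_pg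
        ring
      refine ⟨mem_sysZ.2 fun j => ?_, h4, ?_⟩
      · have hf := mem_sysZ.1 (hZ h1) j
        have hg := mem_sysZ.1 h4 j
        have hQg : IsF (e j + 2) H (MvPolynomial.C (Q : ℤ) * g j) := (px_cel_smul hg Q).mono hQA
        exact (px_cel_sub hf hQg).mono (by linarith)
      · rw [hm]; exact h1
    · rintro ⟨f, g⟩ _ ⟨f', g'⟩ _ heq
      simp only [Sigma.mk.injEq] at heq
      obtain ⟨h1, h2⟩ := heq
      have h2' : g = g' := eq_of_heq h2
      subst h2'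
      have : f = f' := by
        funext j
        have := congrFun h1 j
        exact sub_left_injective this
      rw [this]
  have h3 : (Z.card : ℝ) * (sysZ ι e A).card ≤
      (δ * (sysZ ι e (2 * H)).card) * (sysZ ι e A).card := by
    have h4 := (Nat.cast_le (α := ℝ)).mpr h1
    push_cast at h4
    refine h4.trans ((Finset.sum_le_sum hav).trans (le_of_eq ?_))
    rw [Finset.sum_const, nsmul_eq_mul]; ring
  exact le_of_mul_le_mul_right h3 hG0

omit [Fintype ι] in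
theorem px_cel_hom {k d : ℕ} (L : Matrix ι (Fin k) ℤ) {F : MvPolynomial ι ℤ}
    (hF : F.IsHomogeneous d) : (subL L F).IsHomogeneous d := by
  unfold subL
  have h := hF.aeval (fun i => ∑ j, MvPolynomial.C (L i j) * MvPolynomial.X j) (n := 1)
    (fun i => MvPolynomial.IsHomogeneous.sum _ _ _ fun j _ =>
      (MvPolynomial.isHomogeneous_X ℤ j).C_mul _)
  rw [one_mul] at h
  exact h

end

/-- a nondegenerate zero modulo `p` lifts -/
theorem px_cel_loc {r k : ℕ} (hHENG : S_HENG) (hNRM : S_NRM) {d : Fin r → ℕ} {p : ℕ} (hp : p.Prime)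
    {f : Fin r → MvPolynomial (Fin k) ℤ} (hf : ∀ j, (f j).IsHomogeneous (d j)) (h : GoodM p f)
    {N : ℕ} (hN : ¬ p ∣ N) (c : Fin k → ℤ) : LocPT p N c f := by
  intro E
  obtain ⟨x, ⟨i₀, hi₀⟩, h2, h3⟩ := h
  obtain ⟨z, -, hz2, hz3⟩ := hHENG r (Fin k) f p 0 hp Finset.univ x
    (fun j => by simpa using h2 j) h3 E
  have hzi : ¬ (p : ℤ) ∣ z i₀ := by
    intro h
    have h1 : (p : ℤ) ∣ z i₀ - x i₀ := by simpa using hz2 i₀
    exact hi₀ ((dvd_sub_right h).1 h1)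
  obtain ⟨x', hx', hx'2⟩ := hNRM r k d f hf p E hp z i₀ hzi hz3
  refine ⟨i₀, x', hx', hx'2, fun a ha i => ?_⟩
  rcases Nat.eq_zero_or_pos a with h0 | h0
  · rw [h0, pow_zero]
    exact one_dvd _
  · exact absurd ((dvd_pow_self p h0.ne').trans ha) hN

/-- **CEL.** -/
theorem pCEL (h1 : S_SEL) (h2 : S_CHS) (h3 : S_HENG) (h4 : S_NRM) : S_CEL := by
  classical
  have hSEL := h1
  have hCHS := h2
  have hHENG := h3
  have hNRM := h4
  clear h1 h2 h3 h4
  intro C ι Y _ _ _ n r e hk V A hVA γ δ hγ hδ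
  obtain ⟨α, θ, hα, hθ, hθ1, hsel'⟩ := hSEL C ι Y n r e V A hVA γ δ hγ hδ
  refine ⟨α, hα, fun ε hε => ?_⟩
  obtain ⟨Kc, hC, hchb⟩ := hCHS ι r (n + 1) e hk
  obtain ⟨M, hM⟩ : ∃ M : ℕ, M = nS ι e := ⟨_, rfl⟩
  obtain ⟨w₀, hw₀⟩ := exists_nat_ge (Kc * (3 : ℝ) ^ M / ε)
  refine ⟨max 1 w₀, fun D hD m₀ w J hw hDw hJ => ?_⟩
  have hw1 : 0 < w := lt_of_lt_of_le one_pos ((le_max_left _ _).trans hw)
  have hw0w : w₀ ≤ w := (le_max_right _ _).trans hw
  have hwr : (0 : ℝ) < w := by exact_mod_cast hw1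
  obtain ⟨T, N, δ', hN1, hNp, hδ', hδ'2, hT, hsel⟩ := hsel' D hD m₀ w J hDw hJ
  refine ⟨T, N, δ', hN1, hδ', hδ'2, hT, fun w' hw' => ?_⟩
  -- the modulus
  obtain ⟨Q, hQd⟩ : ∃ Q : ℕ, Q = QJ w J := ⟨_, rfl⟩
  rw [← hQd] at hsel
  have hQ : 0 < Q := by
    rw [hQd]
    unfold QJ
    exact Finset.prod_pos fun p hp => pow_pos (Finset.mem_filter.1 hp).2.pos _
  -- the primes in `(w, w']`
  obtain ⟨P, hP⟩ : ∃ P : Finset ℕ, P = (Finset.Ioc w w').filter Nat.Prime := ⟨_, rfl⟩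
  have hPp : ∀ p ∈ P, p.Prime ∧ w < p ∧ p ≤ w' := by
    intro p hp
    rw [hP, Finset.mem_filter, Finset.mem_Ioc] at hp
    exact ⟨hp.2, hp.1.1, hp.1.2⟩
  have hex : ∀ p : ℕ, ∃ A₀ : ℝ, p ∈ P → ∀ B : ℝ, A₀ ≤ B →
      ∀ (ψ : Fin r → MvPolynomial ι ℤ) (L : Matrix ι (Fin (n + 1)) ℤ),
      (∀ j, (ψ j).IsHomogeneous (e j + 2)) → Left L →
      (((sysZ ι e B).filter (fun g => ¬ GoodM p (subS L (px_cel_pg ψ Q g)))).card : ℝ) ≤
        Kc / (p : ℝ) ^ 2 * (sysZ ι e B).card := by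
    intro p
    by_cases hp : p ∈ P
    · obtain ⟨h1, h2, h3⟩ := hPp p hp
      have hcop : Nat.Coprime p Q := by
        rw [hQd]
        unfold QJ
        refine Nat.Coprime.prod_right fun q hq => ?_
        rw [Finset.mem_filter, Finset.mem_range] at hq
        exact Nat.Coprime.pow_right _ ((Nat.coprime_primes h1 hq.2).2 (by omega))
      obtain ⟨A₀, hA₀⟩ := hchb p h1 Q hcop
      exact ⟨A₀, fun _ => hA₀⟩
    · exact ⟨0, fun h => absurd h hp⟩
  choose A₀ hA₀ using hex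
  obtain ⟨A₁, hA₁⟩ : ∃ A₁ : ℝ, A₁ = ∑ p ∈ P, |A₀ p| := ⟨_, rfl⟩
  have hA₁le : ∀ p ∈ P, A₀ p ≤ A₁ := fun p hp => by
    rw [hA₁]
    exact (le_abs_self _).trans
      (Finset.single_le_sum (f := fun p => |A₀ p|) (fun _ _ => abs_nonneg _) hp)
  have hQr : (0 : ℝ) < Q := by exact_mod_cast hQ
  refine ⟨max 2 (2 * Q * A₁ / θ), fun H hH => ?_⟩
  have hH2 : 2 ≤ H := (le_max_left _ _).trans hH
  have hHA : 2 * Q * A₁ / θ ≤ H := (le_max_right _ _).trans hH
  obtain ⟨B, hB⟩ : ∃ B : ℝ, B = θ * H / (2 * Q) := ⟨_, rfl⟩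
  have hB0 : 0 ≤ B := by rw [hB]; positivity
  have hQB : 2 * (Q * B) = θ * H := by rw [hB]; field_simp
  have hBA₁ : A₁ ≤ B := by
    rw [hB, le_div_iff₀ (by positivity)]
    rw [div_le_iff₀ hθ] at hHA
    linarith
  have hQBH : Q * B ≤ H := by nlinarith
  obtain ⟨Zp, hZp⟩ : ∃ Zp : (Fin r → MvPolynomial ι ℤ) → Prop, Zp = fun F =>
      MatchP A D J F ∧
      (∀ p : ℕ, p.Prime → D.m < p → p ≤ w → ∃ c y x, RobP A p (J p) F c y x) ∧
      MatchR A D α γ H F ∧ ¬ ∃ t ∈ T, LocT w' N δ' t F := ⟨_, rfl⟩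
  have hgoal : (sysZ ι e H).filter (fun F => MatchP A D J F ∧
      (∀ p : ℕ, p.Prime → D.m < p → p ≤ w → ∃ c y x, RobP A p (J p) F c y x) ∧
      MatchR A D α γ H F ∧ ¬ ∃ t ∈ T, LocT w' N δ' t F) =
      (sysZ ι e H).filter Zp := by
    ext F
    simp only [Finset.mem_filter, hZp]
  rw [hgoal]
  have hav : ∀ ψ ∈ sysZ ι e (2 * H), (((sysZ ι e B).filter
      (fun g => px_cel_pg ψ Q g ∈ (sysZ ι e H).filter Zp)).card : ℝ) ≤
      (Kc / w) * (sysZ ι e B).card := by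
    intro ψ hψ
    by_cases hne : ((sysZ ι e B).filter
      (fun g => px_cel_pg ψ Q g ∈ (sysZ ι e H).filter Zp)).Nonempty
    swap
    · rw [Finset.not_nonempty_iff_eq_empty.1 hne]
      simp only [Finset.card_empty, Nat.cast_zero]
      positivity
    obtain ⟨g₁, hg₁⟩ := hne
    rw [Finset.mem_filter, Finset.mem_filter] at hg₁
    obtain ⟨hg₁A, hφ₁H, hφ₁Z⟩ := hg₁
    rw [hZp] at hφ₁Z
    obtain ⟨hcl1, hcl2, hre, -⟩ := hφ₁Z
    obtain ⟨L, hL⟩ := hsel H (by linarith) _ hφ₁H hcl1 hcl2 hre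
    have hhomall : ∀ g ∈ sysZ ι e B, px_cel_pg ψ Q g ∈ sysZ ι e H →
        ∀ j, (px_cel_pg ψ Q g j).IsHomogeneous (e j + 2) := fun g _ hg j => (mem_sysZ.1 hg j).1
    have hcongall : ∀ g, CongS Q (px_cel_pg ψ Q g₁) (px_cel_pg ψ Q g) := by
      intro g j a
      simp only [px_cel_pg, MvPolynomial.coeff_add, MvPolynomial.coeff_C_mul]
      exact ⟨(g j).coeff a - (g₁ j).coeff a, by ring⟩
    have hdistall : ∀ g ∈ sysZ ι e B, NearS (θ * H) (px_cel_pg ψ Q g₁) (px_cel_pg ψ Q g) := by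
      intro g hgA j a
      simp only [px_cel_pg, MvPolynomial.coeff_add, MvPolynomial.coeff_C_mul]
      have h1 := (mem_sysZ.1 hgA j).2 a
      have h2 := (mem_sysZ.1 hg₁A j).2 a
      have h3 : (((ψ j).coeff a + (Q : ℤ) * (g j).coeff a -
          ((ψ j).coeff a + (Q : ℤ) * (g₁ j).coeff a) : ℤ) : ℝ) =
          Q * (((g j).coeff a : ℤ) : ℝ) - Q * (((g₁ j).coeff a : ℤ) : ℝ) := by
        push_cast; ring
      rw [h3]
      refine (abs_sub _ _).trans ?_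
      rw [abs_mul, abs_mul, abs_of_pos hQr]
      have h4 := mul_le_mul_of_nonneg_left h1 hQr.le
      have h5 := mul_le_mul_of_nonneg_left h2 hQr.le
      linarith
    have hLL : Left L := by
      obtain ⟨t, ht, htL, -⟩ := hL _ (hhomall g₁ hg₁A hφ₁H) (hcongall g₁) (hdistall g₁ hg₁A)
      rw [← htL]
      exact (hT t ht).1
    have hsub : (sysZ ι e B).filter
        (fun g => px_cel_pg ψ Q g ∈ (sysZ ι e H).filter Zp) ⊆
        P.biUnion (fun p => (sysZ ι e B).filter (fun g =>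
          ¬ GoodM p (subS L (px_cel_pg ψ Q g)))) := by
      intro g hg
      rw [Finset.mem_filter, Finset.mem_filter] at hg
      obtain ⟨hgA, hφH, hφZ⟩ := hg
      rw [hZp] at hφZ
      obtain ⟨-, -, -, hn3⟩ := hφZ
      have hhom := hhomall g hgA hφH
      obtain ⟨t, ht, htL, hGP, hGR⟩ := hL _ hhom (hcongall g) (hdistall g hgA)
      by_contra hcon
      apply hn3
      refine ⟨t, ht, fun p hp hpw' => ?_, hGR⟩
      by_cases hpw : p ≤ w
      · exact hGP p hp hpw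
      · push Not at hpw
        by_contra hnm
        apply hcon
        rw [Finset.mem_biUnion]
        refine ⟨p, ?_, Finset.mem_filter.2 ⟨hgA, fun hgood => hnm ?_⟩⟩
        · rw [hP, Finset.mem_filter, Finset.mem_Ioc]
          exact ⟨⟨hpw, hpw'⟩, hp⟩
        · rw [htL]
          refine px_cel_loc hHENG hNRM hp (d := fun j => e j + 2) (fun j => ?_) hgood ?_ _
          · exact px_cel_hom L (hhom j)
          · intro hpN
            exact absurd (hNp p hp hpN) (not_le.2 hpw)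
    have h1 := (Finset.card_le_card hsub).trans Finset.card_biUnion_le
    have h2 := (Nat.cast_le (α := ℝ)).mpr h1
    push_cast at h2
    have hψh : ∀ j, (ψ j).IsHomogeneous (e j + 2) := fun j => (mem_sysZ.1 hψ j).1
    have h3 : ∀ p ∈ P, (((sysZ ι e B).filter (fun g =>
          ¬ GoodM p (subS L (px_cel_pg ψ Q g)))).card : ℝ) ≤
        Kc / (p : ℝ) ^ 2 * (sysZ ι e B).card := by
      intro p hp
      exact hA₀ p hp B ((hA₁le p hp).trans hBA₁) ψ L hψh hLL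
    refine h2.trans ((Finset.sum_le_sum h3).trans ?_)
    have h4 : ∑ p ∈ P, ((p : ℝ) ^ 2)⁻¹ ≤ (w : ℝ)⁻¹ := by
      calc ∑ p ∈ P, ((p : ℝ) ^ 2)⁻¹ ≤ ∑ p ∈ Finset.Ioc w w', ((p : ℝ) ^ 2)⁻¹ := by
            rw [hP]
            exact Finset.sum_le_sum_of_subset_of_nonneg (Finset.filter_subset _ _)
              fun _ _ _ => by positivity
        _ ≤ (w : ℝ)⁻¹ - (w' : ℝ)⁻¹ := sum_Ioc_inv_sq_le_sub (by omega) hw'
        _ ≤ (w : ℝ)⁻¹ := by
            have : (0 : ℝ) ≤ (w' : ℝ)⁻¹ := by positivity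
            linarith
    calc ∑ p ∈ P, Kc / (p : ℝ) ^ 2 * ((sysZ ι e B).card : ℝ)
        = (∑ p ∈ P, ((p : ℝ) ^ 2)⁻¹) * (Kc * (sysZ ι e B).card) := by
          rw [Finset.sum_mul]
          exact Finset.sum_congr rfl fun p _ => by ring
      _ ≤ (w : ℝ)⁻¹ * (Kc * (sysZ ι e B).card) :=
          mul_le_mul_of_nonneg_right h4 (by positivity)
      _ = (Kc / w) * (sysZ ι e B).card := by ring
  have h1 := px_cel_avg (Q := Q) hB0 hQBH ((sysZ ι e H).filter Zp)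
    (Finset.filter_subset _ _) hav
  have h2 := card_sysZ_upper ι e (H := H) (R := 2 * H) (c := 3)
    (by linarith) (by linarith) (by norm_num) (by linarith)
  rw [← hM] at h2
  have h3 : Kc * (3 : ℝ) ^ M ≤ ε * w := by
    have h4 : (w₀ : ℝ) ≤ w := by exact_mod_cast hw0w
    have h5 := hw₀.trans h4
    rw [div_le_iff₀ hε] at h5
    linarith
  calc (((sysZ ι e H).filter Zp).card : ℝ)
      ≤ (Kc / w) * (sysZ ι e (2 * H)).card := h1
    _ ≤ (Kc / w) * (3 ^ M * (sysZ ι e H).card) :=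
        mul_le_mul_of_nonneg_left h2 (by positivity)
    _ = (Kc * 3 ^ M) / w * (sysZ ι e H).card := by ring
    _ ≤ ε * (sysZ ι e H).card := by
        refine mul_le_mul_of_nonneg_right ?_ (Nat.cast_nonneg _)
        rw [div_le_iff₀ hwr]
        exact h3

end Pool.Agent.H731.GS
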