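import Pool.Agent.H731.GS.Stm
import Pool.Graph.R_pool_sql_team_seeded_707910d6.T2H39.CV.PCHV
import Pool.Graph.R_pool_sql_team_seeded_707910d6.T2H41.CX.PCHBX

/-!
# CHS: in a progression few systems restrict to one without nondegenerate zeros modulo `p`

Project GS (helper731); this file by helper618, after `T2H39/CV/PCHV.lean` and `T2H41/CX/PCHBX.lean`.
-/

set_option autoImplicit false

namespace Pool.Agent.H731.GS

open Pool.Agent.Y716.Q Pool.Agent.Y716.C
open Pool.Agent.T2H41.CX (NonD GoodM S_MODS fp)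
open Pool.Agent.T2H41.CX.CHBX (goodM box)
open Pool.Agent.T2H39.CV (subL Left)
open Pool.Agent.T2H39.CV.PkgCHV (pol sp Ph pol_hom coeff_pol pol_coeff sp_hom Ph_add Ph_sub Ph_Ph)

/-- the substitution modulo `p` -/
private theorem px_map_subL {ι : Type} [Fintype ι] {k d p : ℕ} (L : Matrix ι (Fin k) ℤ)
    {F : MvPolynomial ι ℤ} (hF : F.IsHomogeneous d) :
    MvPolynomial.map (Int.castRingHom (ZMod p)) (subL L F) =
      sp L (pol d (fun a : ↥(mons ι d) => ((F.coeff a.1 : ℤ) : ZMod p))) := by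
  have h1 : pol d (fun a : ↥(mons ι d) => ((F.coeff a.1 : ℤ) : ZMod p)) =
      MvPolynomial.map (Int.castRingHom (ZMod p)) F := by
    have h2 := pol_coeff (hF.map (Int.castRingHom (ZMod p)))
    rw [← h2]
    congr 1
  rw [h1]
  unfold subL sp
  rw [MvPolynomial.map_bind₁]
  congr 2
  funext i
  rw [map_sum]
  refine Finset.sum_congr rfl fun j _ => ?_
  rw [map_mul, MvPolynomial.map_C, MvPolynomial.map_X]
  rfl

private theorem px_subL_hom {ι : Type} [Fintype ι] {k d : ℕ} (L : Matrix ι (Fin k) ℤ)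
    {F : MvPolynomial ι ℤ} (hF : F.IsHomogeneous d) : (subL L F).IsHomogeneous d := by
  have h := hF.aeval (n := 1) (fun i => ∑ j, MvPolynomial.C (L i j) * MvPolynomial.X j)
    (fun i => by
      apply MvPolynomial.IsHomogeneous.sum
      intro j _
      have := (MvPolynomial.isHomogeneous_C (Fin k) (L i j)).mul
        (MvPolynomial.isHomogeneous_X ℤ j)
      rwa [zero_add] at this)
  rw [one_mul] at h
  exact h

/-- **CHS.** -/
theorem pCHS (h1 : S_MODS) : S_CHS := by
  classical
  intro ι _ r k e hk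
  obtain ⟨C, hC, hM⟩ := h1 r k e hk
  refine ⟨3 * C, by positivity, fun p hp Q hcop => ?_⟩
  have : Fact p.Prime := ⟨hp⟩
  let I : Type := Σ j : Fin r, ↥(mons ι (e j + 2))
  have : DecidableEq I := Classical.decEq _
  have : NeZero p := ⟨hp.ne_zero⟩
  set n : ℕ := Fintype.card I with hn
  have hnT : n = ∑ j, (mons ι (e j + 2)).card := by
    rw [hn]
    refine (Fintype.card_sigma).trans (Finset.sum_congr rfl fun j _ => ?_)
    exact Fintype.card_coe _
  set M : ℕ := ∑ j, (mons (Fin k) (e j + 2)).card with hMdef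
  refine ⟨((n + 1) * p : ℕ), fun A hA ψ L hψ hL => ?_⟩
  obtain ⟨R, hR⟩ := hL
  have hA0 : 0 ≤ A := le_trans (Nat.cast_nonneg _) hA
  set a : ℕ := ⌊A⌋₊ with ha
  have haA : (n + 1) * p ≤ a := Nat.le_floor hA
  -- the bad reductions
  obtain ⟨Bad, hBad⟩ : ∃ Bad : Finset (∀ j : Fin r, ↥(mons (Fin k) (e j + 2)) → ZMod p), Bad =
    (Finset.univ : Finset (∀ j : Fin r, ↥(mons (Fin k) (e j + 2)) → ZMod p)).filter (fun c =>
    ¬ ∃ x : Fin k → ZMod p, x ≠ 0 ∧ (∀ j, MvPolynomial.eval x (fp (c j)) = 0) ∧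
      ∀ l : Fin r → ZMod p, l ≠ 0 →
        ∃ i, ∑ j, l j * MvPolynomial.eval x (MvPolynomial.pderiv i (fp (c j))) ≠ 0) := ⟨_, rfl⟩
  have hBadc : (Bad.card : ℝ) ≤ C / (p : ℝ) ^ 2 * (p : ℝ) ^ M := by
    rw [hBad]
    exact hM p
  -- the affine map
  let U : (I → ZMod p) → (∀ j : Fin r, ↥(mons ι (e j + 2)) → ZMod p) := fun c j a' =>
    (((ψ j).coeff a'.1 : ℤ) : ZMod p) + (Q : ZMod p) * c ⟨j, a'⟩
  let Lm : (I → ZMod p) → (∀ j : Fin r, ↥(mons (Fin k) (e j + 2)) → ZMod p) := fun c j =>
    Ph (e j + 2) L (U c j)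
  let S : Finset (I → ZMod p) := Finset.univ.filter (fun c => Lm c ∈ Bad)
  have hQ0 : (Q : ZMod p) ≠ 0 := by
    rw [Ne, ZMod.natCast_eq_zero_iff]
    exact (Nat.Prime.coprime_iff_not_dvd hp).1 hcop
  have hScard : S.card * p ^ M ≤ Bad.card * p ^ n := by
    have h1 : (Finset.univ : Finset (∀ j : Fin r, ↥(mons (Fin k) (e j + 2)) → ZMod p)).card =
        p ^ M := by
      rw [Finset.card_univ, Fintype.card_pi, hMdef, ← Finset.prod_pow_eq_pow_sum]
      refine Finset.prod_congr rfl fun j _ => ?_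
      rw [Fintype.card_fun, ZMod.card, Fintype.card_coe]
    have h2 : (Finset.univ : Finset (I → ZMod p)).card = p ^ n := by
      rw [Finset.card_univ, Fintype.card_fun, ZMod.card]
    rw [← h1, ← h2, ← Finset.card_product, ← Finset.card_product]
    apply Finset.card_le_card_of_injOn (fun q => (Lm q.1,
      fun i : I => (U q.1 i.1 - Ph (e i.1 + 2) R (Lm q.1 i.1) + Ph (e i.1 + 2) R (q.2 i.1)) i.2))
    · rintro ⟨c, v⟩ hq
      simp only [Finset.coe_product, Set.mem_prod, Finset.mem_coe] at hq ⊢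
      exact ⟨(Finset.mem_filter.1 hq.1).2, Finset.mem_univ _⟩
    · rintro ⟨c, v⟩ _ ⟨c', v'⟩ _ hcc
      simp only [Prod.mk.injEq] at hcc
      obtain ⟨h3, h4⟩ := hcc
      have h4' : ∀ j, U c j - Ph (e j + 2) R (Lm c j) + Ph (e j + 2) R (v j) =
          U c' j - Ph (e j + 2) R (Lm c' j) + Ph (e j + 2) R (v' j) := by
        intro j
        funext a'
        exact congrFun h4 ⟨j, a'⟩
      have h5 : v = v' := by
        funext j
        have h6 := congrArg (Ph (e j + 2) L) (h4' j)
        rw [Ph_add, Ph_add, Ph_sub, Ph_sub, Ph_Ph _ L R hR, Ph_Ph _ L R hR, Ph_Ph _ L R hR,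
          Ph_Ph _ L R hR] at h6
        have e1 : Ph (e j + 2) L (U c j) - Lm c j = 0 := sub_self _
        have e2 : Ph (e j + 2) L (U c' j) - Lm c' j = 0 := sub_self _
        rw [e1, e2, zero_add, zero_add] at h6
        exact h6
      subst h5
      rw [Prod.mk.injEq]
      refine ⟨?_, rfl⟩
      funext ⟨j, a'⟩
      have h7 := h4' j
      rw [h3] at h7
      have h8 : U c j = U c' j := sub_left_injective (add_right_cancel h7)
      have h9 := congrFun h8 a'
      exact mul_left_cancel₀ hQ0 (add_left_cancel h9)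
  -- the systems without good zeros reduce to `S`
  have hmap : ((sysZ ι e A).filter (fun g =>
      ¬ GoodM p (subS L (fun j => ψ j + MvPolynomial.C (Q : ℤ) * g j)))).card ≤
      ((Fintype.piFinset (fun _ : I => Finset.Icc (-(a : ℤ)) a)).filter
        (fun x => (fun i => ((x i : ℤ) : ZMod p)) ∈ S)).card := by
    apply Finset.card_le_card_of_injOn (fun g (i : I) => (g i.1).coeff i.2.1)
    · intro g hg
      rw [Finset.mem_coe, Finset.mem_filter] at hg
      obtain ⟨hgA, hgood⟩ := hg
      rw [Finset.mem_coe, Finset.mem_filter, Fintype.mem_piFinset]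
      refine ⟨fun i => ?_, ?_⟩
      · have h1 := (mem_sysZ.1 hgA i.1).2 i.2.1
        rw [Finset.mem_Icc, ← abs_le, Int.abs_eq_natAbs]
        have h2 : (((g i.1).coeff i.2.1).natAbs : ℝ) ≤ A := by
          rw [Nat.cast_natAbs, Int.cast_abs]; exact h1
        have h3 := Nat.le_floor h2
        exact_mod_cast h3
      · rw [Finset.mem_filter]
        refine ⟨Finset.mem_univ _, ?_⟩
        rw [hBad, Finset.mem_filter]
        refine ⟨Finset.mem_univ _, ?_⟩
        rintro ⟨x, hx, hx1, hx2⟩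
        apply hgood
        have hhom : ∀ j, (ψ j + MvPolynomial.C (Q : ℤ) * g j).IsHomogeneous (e j + 2) := by
          intro j
          refine (hψ j).add ?_
          have := (MvPolynomial.isHomogeneous_C ι (Q : ℤ)).mul (mem_sysZ.1 hgA j).1
          rwa [zero_add] at this
        have hcoef : ∀ j, Lm (fun i : I => (((g i.1).coeff i.2.1 : ℤ) : ZMod p)) j =
            fun a' : ↥(mons (Fin k) (e j + 2)) => (((subS L (fun j => ψ j +
              MvPolynomial.C (Q : ℤ) * g j) j).coeff a'.1 : ℤ) : ZMod p) := by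
          intro j
          funext a'
          have e1 := px_map_subL (p := p) L (hhom j)
          have e2 := congrArg (MvPolynomial.coeff a'.1) e1
          rw [MvPolynomial.coeff_map] at e2
          have e3 : (((subS L (fun j => ψ j + MvPolynomial.C (Q : ℤ) * g j) j).coeff a'.1 : ℤ) :
              ZMod p) = (sp L (pol (e j + 2) (fun a : ↥(mons ι (e j + 2)) =>
                (((ψ j + MvPolynomial.C (Q : ℤ) * g j).coeff a.1 : ℤ) : ZMod p)))).coeff a'.1 := e2
          rw [e3]
          change (sp L (pol (e j + 2) _)).coeff a'.1 = _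
          congr 3
          funext a
          simp only [MvPolynomial.coeff_add, MvPolynomial.coeff_C_mul]
          push_cast
          rfl
        refine goodM (d := fun j => e j + 2) _ (fun j => px_subL_hom L (hhom j)) x hx
          (fun j => ?_) (fun l hl => ?_)
        · have := hx1 j
          rw [hcoef j] at this
          exact this
        · obtain ⟨i, hi⟩ := hx2 l hl
          refine ⟨i, fun h => hi ?_⟩
          rw [← h]
          refine Finset.sum_congr rfl fun j _ => ?_
          rw [hcoef j]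
    · intro g hg g' hg' hgg
      rw [Finset.mem_coe, Finset.mem_filter] at hg hg'
      funext j
      apply MvPolynomial.ext
      intro a'
      by_cases h1 : a' ∈ mons ι (e j + 2)
      · exact congrFun hgg ⟨j, ⟨a', h1⟩⟩
      · have h2 : ∀ h : MvPolynomial ι ℤ, h.IsHomogeneous (e j + 2) → h.coeff a' = 0 := by
          intro h hh
          by_contra hne
          exact h1 (mem_mons.mpr (homog_sum_eq hh hne))
        rw [h2 _ (mem_sysZ.1 hg.1 j).1, h2 _ (mem_sysZ.1 hg'.1 j).1]
  have hbox := box (I := I) a p hp.pos (by rw [← hn]; omega) S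
  rw [← hn] at hbox
  have hpr : (0 : ℝ) < p := by exact_mod_cast hp.pos
  have hS2 : (S.card : ℝ) ≤ C / (p : ℝ) ^ 2 * (p : ℝ) ^ n := by
    have h1 : (S.card : ℝ) * (p : ℝ) ^ M ≤ Bad.card * (p : ℝ) ^ n := by
      exact_mod_cast hScard
    have h2 : (S.card : ℝ) * (p : ℝ) ^ M ≤
        (C / (p : ℝ) ^ 2 * (p : ℝ) ^ n) * (p : ℝ) ^ M := by
      refine h1.trans ((mul_le_mul_of_nonneg_right hBadc (by positivity)).trans (le_of_eq ?_))
      ring
    exact le_of_mul_le_mul_right h2 (by positivity)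
  have hcardF : ((sysZ ι e A).card : ℝ) = (2 * a + 1) ^ n := by
    rw [card_sysZ, hnT]
    push_cast
    rw [← Finset.prod_pow_eq_pow_sum]
    refine Finset.prod_congr rfl fun j _ => ?_
    rw [card_formsZ _ hA0]
    push_cast
    rfl
  rw [hcardF]
  have h1 := (Nat.cast_le (α := ℝ)).mpr hmap
  refine h1.trans (hbox.trans ?_)
  refine mul_le_mul_of_nonneg_right ?_ (by positivity)
  have h2 : (S.card : ℝ) / (p : ℝ) ^ n ≤ C / (p : ℝ) ^ 2 := by
    rw [div_le_iff₀ (by positivity)]
    exact hS2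
  calc 3 * ((S.card : ℝ) / (p : ℝ) ^ n) ≤ 3 * (C / (p : ℝ) ^ 2) :=
        mul_le_mul_of_nonneg_left h2 (by norm_num)
    _ = 3 * C / (p : ℝ) ^ 2 := by ring

end Pool.Agent.H731.GS
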