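import Pool.Agent.H731.GS.Stm
import Pool.Graph.R_pool_sql_team_seeded_707910d6.T2H41.CX.Stm

/-!
# Package DEGPC: the number of the systems degenerate at a given point modulo `p ^ E`
-/

set_option autoImplicit false

namespace Pool.Agent.H731.GS

open Pool.Agent.Y716.Q Pool.Agent.Y716.C

namespace PkgDEGPC

set_option linter.unusedSectionVars false

variable {ι : Type} {n : ℕ}

/-- the exponents of `X_{i₀}^d` and `X_{σ j} X_{i₀}^(d-1)` -/
noncomputable def px_degpc_mx (d : ℕ) (i₀ : ι) (σ : Fin n → ι) : Option (Fin n) → (ι →₀ ℕ)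
  | none => Finsupp.single i₀ d
  | some j => Finsupp.single (σ j) 1 + Finsupp.single i₀ (d - 1)

theorem px_degpc_mx_inj (d : ℕ) (i₀ : ι) (σ : Fin n → ι) (hσ : Function.Injective σ)
    (hi : ∀ j, σ j ≠ i₀) : Function.Injective (px_degpc_mx d i₀ σ) := by
  classical
  have h0 : ∀ j, px_degpc_mx d i₀ σ none (σ j) = 0 := by
    intro j
    show Finsupp.single i₀ d (σ j) = 0
    rw [Finsupp.single_eq_of_ne (hi j)]
  have h1 : ∀ j j', px_degpc_mx d i₀ σ (some j') (σ j) = if j' = j then 1 else 0 := by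
    intro j j'
    show (Finsupp.single (σ j') 1 + Finsupp.single i₀ (d - 1) : ι →₀ ℕ) (σ j) = _
    rw [Finsupp.add_apply, Finsupp.single_eq_of_ne (hi j), add_zero, Finsupp.single_apply]
    by_cases h : j' = j
    · rw [if_pos h, if_pos (by rw [h])]
    · rw [if_neg h, if_neg (fun h' => h (hσ h'))]
  rintro (_ | j) (_ | j') h
  · rfl
  · exfalso
    have h2 := DFunLike.congr_fun h (σ j')
    rw [h0, h1, if_pos rfl] at h2
    exact absurd h2 (by norm_num)
  · exfalso
    have h2 := DFunLike.congr_fun h (σ j)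
    rw [h0, h1, if_pos rfl] at h2
    exact absurd h2 (by norm_num)
  · congr 1
    by_contra hne
    have h2 := DFunLike.congr_fun h (σ j)
    rw [h1, h1, if_pos rfl, if_neg (fun h' => hne h'.symm)] at h2
    exact absurd h2 (by norm_num)

theorem px_degpc_deg_mx (d : ℕ) (hd : 1 ≤ d) (i₀ : ι) (σ : Fin n → ι) (o : Option (Fin n)) :
    (px_degpc_mx d i₀ σ o).degree = d := by
  rcases o with _ | j
  · show (Finsupp.single i₀ d).degree = d
    rw [Finsupp.degree_single]
  · show (Finsupp.single (σ j) 1 + Finsupp.single i₀ (d - 1) : ι →₀ ℕ).degree = d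
    rw [map_add, Finsupp.degree_single, Finsupp.degree_single]
    omega

/-- the perturbations -/
noncomputable def px_degpc_pert (d : ℕ) (i₀ : ι) (σ : Fin n → ι) (c : Option (Fin n) → ℤ) :
    MvPolynomial ι ℤ :=
  ∑ o, MvPolynomial.monomial (px_degpc_mx d i₀ σ o) (c o)

theorem px_degpc_pert_isF (d : ℕ) (hd : 1 ≤ d) (i₀ : ι) (σ : Fin n → ι)
    (hσ : Function.Injective σ) (hi : ∀ j, σ j ≠ i₀) {c : Option (Fin n) → ℤ} {R : ℝ}
    (hR : 0 ≤ R) (hc : ∀ o, |(c o : ℝ)| ≤ R) : IsF d R (px_degpc_pert d i₀ σ c) := by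
  classical
  unfold px_degpc_pert
  constructor
  · refine MvPolynomial.IsHomogeneous.sum _ _ _ fun o _ => ?_
    refine MvPolynomial.isHomogeneous_monomial _ ?_
    exact px_degpc_deg_mx d hd i₀ σ o
  · intro m
    rw [MvPolynomial.coeff_sum]
    by_cases hm : ∃ o, px_degpc_mx d i₀ σ o = m
    · obtain ⟨o, ho⟩ := hm
      rw [Finset.sum_eq_single o]
      · rw [MvPolynomial.coeff_monomial, if_pos ho]
        exact hc o
      · intro o' _ ho'
        rw [MvPolynomial.coeff_monomial, if_neg]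
        intro h
        exact ho' (px_degpc_mx_inj d i₀ σ hσ hi (h.trans ho.symm))
      · intro h; exact absurd (Finset.mem_univ o) h
    · rw [Finset.sum_eq_zero]
      · simpa using hR
      · intro o _
        rw [MvPolynomial.coeff_monomial, if_neg]
        intro h
        exact hm ⟨o, h⟩

theorem px_degpc_pert_eq (d : ℕ) (i₀ : ι) (σ : Fin n → ι) (c : Option (Fin n) → ℤ) :
    px_degpc_pert d i₀ σ c = MvPolynomial.C (c none) * MvPolynomial.X i₀ ^ d +
      ∑ j, MvPolynomial.C (c (some j)) * (MvPolynomial.X (σ j) * MvPolynomial.X i₀ ^ (d - 1)) := by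
  unfold px_degpc_pert
  rw [Fintype.sum_option]
  congr 1
  · rw [MvPolynomial.C_mul_X_pow_eq_monomial]
    rfl
  · refine Finset.sum_congr rfl fun j _ => ?_
    show MvPolynomial.monomial (Finsupp.single (σ j) 1 + Finsupp.single i₀ (d - 1)) _ = _
    rw [MvPolynomial.monomial_add_single, ← MvPolynomial.C_mul_X_pow_eq_monomial, pow_one,
      mul_assoc]

theorem px_degpc_pert_aeval (d : ℕ) (i₀ : ι) (σ : Fin n → ι) (c : Option (Fin n) → ℤ)
    (z : ι → ℤ) (hz : z i₀ = 1) :
    MvPolynomial.aeval z (px_degpc_pert d i₀ σ c) = c none + ∑ j, c (some j) * z (σ j) := by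
  rw [px_degpc_pert_eq, map_add, map_sum, map_mul, map_pow, MvPolynomial.aeval_X, hz, one_pow,
    mul_one, MvPolynomial.aeval_C]
  congr 1
  refine Finset.sum_congr rfl fun j _ => ?_
  rw [map_mul, map_mul, map_pow, MvPolynomial.aeval_X, MvPolynomial.aeval_X, hz, one_pow, mul_one,
    MvPolynomial.aeval_C]
  rfl

open scoped Classical in
theorem px_degpc_pert_pderiv (d : ℕ) (i₀ : ι) (σ : Fin n → ι) (c : Option (Fin n) → ℤ)
    (z : ι → ℤ) (hz : z i₀ = 1) : ∃ W : ℤ, ∀ i : ι,
    MvPolynomial.aeval z (MvPolynomial.pderiv i (px_degpc_pert d i₀ σ c)) =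
      (if i = i₀ then W else 0) + ∑ j, if i = σ j then c (some j) else 0 := by
  refine ⟨c none * d + ∑ j, c (some j) * (z (σ j) * (d - 1 : ℕ)), fun i => ?_⟩
  have hX : ∀ a : ι, (MvPolynomial.aeval z (MvPolynomial.pderiv i
      (MvPolynomial.X a : MvPolynomial ι ℤ)) : ℤ) = if i = a then 1 else 0 := by
    intro a
    rw [MvPolynomial.pderiv_X, Pi.single_apply]
    by_cases h : a = i
    · rw [if_pos h, if_pos h.symm, map_one]
    · rw [if_neg h, if_neg (fun h' => h h'.symm), map_zero]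
  have hXp : ∀ m : ℕ, (MvPolynomial.aeval z (MvPolynomial.pderiv i
      (MvPolynomial.X i₀ ^ m : MvPolynomial ι ℤ)) : ℤ) = if i = i₀ then (m : ℤ) else 0 := by
    intro m
    rw [MvPolynomial.pderiv_pow, map_mul, hX, map_mul, map_pow, MvPolynomial.aeval_X, hz, one_pow,
      mul_one, map_natCast]
    split_ifs
    · rw [mul_one]
    · rw [mul_zero]
  rw [px_degpc_pert_eq, map_add, map_add, map_sum, map_sum, MvPolynomial.pderiv_C_mul, map_mul,
    hXp, MvPolynomial.aeval_C]
  have hs : ∀ j, (MvPolynomial.aeval z (MvPolynomial.pderiv i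
      (MvPolynomial.C (c (some j)) * (MvPolynomial.X (σ j) * MvPolynomial.X i₀ ^ (d - 1)) :
        MvPolynomial ι ℤ)) : ℤ) =
      (if i = σ j then c (some j) else 0) +
        if i = i₀ then c (some j) * (z (σ j) * (d - 1 : ℕ)) else 0 := by
    intro j
    rw [MvPolynomial.pderiv_C_mul, map_mul, MvPolynomial.aeval_C, Derivation.leibniz, smul_eq_mul,
      smul_eq_mul, map_add, map_mul, map_mul, hXp, hX, map_pow, MvPolynomial.aeval_X,
      MvPolynomial.aeval_X, hz, one_pow, one_mul]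
    show c (some j) * _ = _
    split_ifs <;> ring
  simp only [hs, Finset.sum_add_distrib]
  show c none * _ + _ = _
  split_ifs
  · ring
  · simp

variable {C Y : Type} [Fintype ι] {r : ℕ}

/-- the coefficients of the perturbation of the form `j` -/
def px_degpc_cv (j₀ : Fin r) (c : Fin r → ℕ) (a : Fin n → ℕ) (j : Fin r) :
    Option (Fin n) → ℤ
  | none => c j
  | some i => if j = j₀ then a i else 0

/-- the shift -/
noncomputable def px_degpc_shf (e : Fin r → ℕ) (i₀ : ι) (σ : Fin n → ι) (j₀ : Fin r)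
    (F : Fin r → MvPolynomial ι ℤ) (c : Fin r → ℕ) (a : Fin n → ℕ) : Fin r → MvPolynomial ι ℤ :=
  fun j => F j + px_degpc_pert (e j + 2) i₀ σ (px_degpc_cv j₀ c a j)

theorem px_degpc_shf_mem (e : Fin r → ℕ) (i₀ : ι) (σ : Fin n → ι)
    (hσ : Function.Injective σ) (hi : ∀ j, σ j ≠ i₀) (j₀ : Fin r)
    {F : Fin r → MvPolynomial ι ℤ} {c : Fin r → ℕ} {a : Fin n → ℕ} {H : ℝ} {M : ℕ}
    (hF : F ∈ sysZ ι e H)
    (hc : ∀ j, c j ≤ M) (ha : ∀ i, a i ≤ M) :
    px_degpc_shf e i₀ σ j₀ F c a ∈ sysZ ι e (H + M) := by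
  rw [mem_sysZ] at hF ⊢
  intro j
  unfold px_degpc_shf
  refine (hF j).add ?_
  refine px_degpc_pert_isF _ (by omega) i₀ σ hσ hi (Nat.cast_nonneg _) fun o => ?_
  rcases o with _ | i
  · show |(((c j : ℕ) : ℤ) : ℝ)| ≤ M
    rw [Int.cast_natCast, abs_of_nonneg (Nat.cast_nonneg _)]
    exact_mod_cast hc j
  · show |(((if j = j₀ then (a i : ℤ) else 0) : ℤ) : ℝ)| ≤ M
    split_ifs
    · rw [Int.cast_natCast, abs_of_nonneg (Nat.cast_nonneg _)]
      exact_mod_cast ha i
    · simp

theorem px_degpc_val (e : Fin r → ℕ) (i₀ : ι) (σ : Fin n → ι) (j₀ : Fin r)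
    (F : Fin r → MvPolynomial ι ℤ) (c : Fin r → ℕ) (a : Fin n → ℕ) (z : ι → ℤ)
    (hz : z i₀ = 1) (j : Fin r) :
    MvPolynomial.aeval z (px_degpc_shf e i₀ σ j₀ F c a j) = MvPolynomial.aeval z (F j) + (c j +
      ∑ i : Fin n, (if j = j₀ then (a i : ℤ) else 0) * z (σ i)) := by
  unfold px_degpc_shf
  rw [map_add, px_degpc_pert_aeval _ i₀ σ _ z hz]
  rfl

theorem px_degpc_dX (A : Fra C ι Y n) (cc : C) (y : Y → ℤ) (x : Fin (n + 1) → ℤ)
    (e : Fin r → ℕ) (i₀ : ι) (σ : Fin n → ι) (j₀ : Fin r)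
    (h0 : ∀ j : Fin n, A cc i₀ j.succ = 0)
    (h1 : ∀ j : Fin n, ∀ j', j' ≠ j.succ → A cc (σ j) j' = 0)
    (F : Fin r → MvPolynomial ι ℤ) (c : Fin r → ℕ) (a : Fin n → ℕ)
    (hz : pt A cc y x i₀ = 1) (j : Fin r) (m : Fin n) :
    dX A (px_degpc_shf e i₀ σ j₀ F c a) cc y x j m.succ = dX A F cc y x j m.succ +
      frm A cc y (σ m) m.succ * (if j = j₀ then (a m : ℤ) else 0) := by
  classical
  unfold dX px_degpc_shf
  simp only [map_add, mul_add, Finset.sum_add_distrib]
  congr 1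
  obtain ⟨W, hW⟩ := px_degpc_pert_pderiv (e j + 2) i₀ σ (px_degpc_cv j₀ c a j) (pt A cc y x) hz
  simp only [hW, mul_add, Finset.sum_add_distrib]
  have e1 : ∑ i', frm A cc y i' m.succ * (if i' = i₀ then W else 0) = 0 := by
    rw [Finset.sum_eq_single i₀]
    · rw [if_pos rfl]
      unfold frm
      rw [h0, map_zero, zero_mul]
    · intro b _ hb
      rw [if_neg hb, mul_zero]
    · intro h; exact absurd (Finset.mem_univ _) h
  rw [e1, zero_add]
  simp only [Finset.mul_sum]
  rw [Finset.sum_comm]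
  have e2 : ∀ j' : Fin n, ∑ i', frm A cc y i' m.succ *
      (if i' = σ j' then px_degpc_cv j₀ c a j (some j') else 0) =
      frm A cc y (σ j') m.succ * px_degpc_cv j₀ c a j (some j') := by
    intro j'
    rw [Finset.sum_eq_single (σ j')]
    · rw [if_pos rfl]
    · intro b _ hb
      rw [if_neg hb, mul_zero]
    · intro h; exact absurd (Finset.mem_univ _) h
  rw [Finset.sum_congr rfl fun j' _ => e2 j', Finset.sum_eq_single m]
  · rfl
  · intro b _ hb
    have : frm A cc y (σ b) m.succ = 0 := by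
      unfold frm
      rw [h1 b m.succ (fun h => hb (Fin.succ_injective _ h).symm), map_zero]
    rw [this, zero_mul]
  · intro h; exact absurd (Finset.mem_univ _) h

theorem px_degpc_eq_of_dvd {M u v : ℕ} (hu : u < M) (hv : v < M) (h : (M : ℤ) ∣ (u : ℤ) - v) :
    u = v := by
  have h1 : (v : ℤ) ≡ u [ZMOD M] := (Int.modEq_iff_dvd).2 h
  have h2 : v ≡ u [MOD M] := (Int.natCast_modEq_iff).1 h1
  exact (h2.eq_of_lt_of_lt hv hu).symm

end PkgDEGPC

open PkgDEGPC in
theorem pDEGPC : S_DEGPC := by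
  classical
  intro C ι Y _ _ _ n r e A hA p J E hp hJE cc y x hx j₀ l hl H hH
  obtain ⟨i₀, hi1, hi0⟩ := hA.one cc
  choose σ hσ1 hσ0 using hA.dirx cc
  have hne : ∀ j, σ j ≠ i₀ := by
    intro j h
    have h2 := hσ0 j 0 (Fin.succ_ne_zero j).symm
    rw [h, hi1] at h2
    exact one_ne_zero h2
  have hσi : Function.Injective σ := by
    intro j j' h
    by_contra hjj
    have h2 := hσ0 j' j.succ (fun h' => hjj (Fin.succ_injective _ h'))
    rw [← h] at h2
    rcases hσ1 j with h3 | h3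
    · rw [h3] at h2; exact one_ne_zero h2
    · rw [h3, neg_eq_zero] at h2; exact one_ne_zero h2
  have hfrm : ∀ m : Fin n, frm A cc y (σ m) m.succ = 1 ∨ frm A cc y (σ m) m.succ = -1 := by
    intro m
    unfold frm
    rcases hσ1 m with h3 | h3
    · left; rw [h3, map_one]
    · right; rw [h3, map_neg, map_one]
  have hz : pt A cc y x i₀ = 1 := by
    unfold pt
    rw [Finset.sum_eq_single 0]
    · unfold frm
      rw [hi1, map_one, one_mul, hx]
    · intro b _ hb
      obtain ⟨b', rfl⟩ := Fin.exists_succ_eq_of_ne_zero hb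
      unfold frm
      rw [hi0, map_zero, zero_mul]
    · intro h; exact absurd (Finset.mem_univ _) h
  have hp0 : 0 < p := hp.pos
  have hE : 0 < p ^ E := pow_pos hp0 _
  have hJ : 0 < p ^ (J + 1) := pow_pos hp0 _
  have hle : p ^ (J + 1) ≤ p ^ E := Nat.pow_le_pow_right hp0 hJE
  set S := (sysZ ι e H).filter (fun F => (∀ j, (p : ℤ) ^ E ∣
    MvPolynomial.aeval (pt A cc y x) (F j)) ∧
    ∀ i, (p : ℤ) ^ (J + 1) ∣ ∑ j, l j * dX A F cc y x j i) with hS
  set B₁ : Finset (Fin r → ℕ) := Fintype.piFinset fun _ => Finset.range (p ^ E) with hB₁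
  set B₂ : Finset (Fin n → ℕ) := Fintype.piFinset fun _ => Finset.range (p ^ (J + 1)) with hB₂
  have hc1 : B₁.card = (p ^ E) ^ r := by
    rw [hB₁, Fintype.card_piFinset, Finset.prod_const, Finset.card_univ, Fintype.card_fin,
      Finset.card_range]
  have hc2 : B₂.card = (p ^ (J + 1)) ^ n := by
    rw [hB₂, Fintype.card_piFinset, Finset.prod_const, Finset.card_univ, Fintype.card_fin,
      Finset.card_range]
  rw [← hc1, ← hc2, ← Finset.card_product, ← Finset.card_product]
  refine Finset.card_le_card_of_injOn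
    (fun q => px_degpc_shf e i₀ σ j₀ q.1 q.2.1 q.2.2) ?_ ?_
  · rintro ⟨F, c, a⟩ hq
    rw [Finset.mem_coe, Finset.mem_product, Finset.mem_product] at hq
    obtain ⟨h1, h2, h3⟩ := hq
    rw [hB₁, Fintype.mem_piFinset] at h2
    rw [hB₂, Fintype.mem_piFinset] at h3
    rw [hS, Finset.mem_filter] at h1
    exact px_degpc_shf_mem e i₀ σ hσi hne j₀ h1.1 (fun j => (Finset.mem_range.1 (h2 j)).le)
      (fun i => ((Finset.mem_range.1 (h3 i)).le).trans hle)
  · rintro ⟨F, c, a⟩ hq ⟨F', c', a'⟩ hq' heq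
    rw [Finset.mem_coe, Finset.mem_product, Finset.mem_product] at hq hq'
    obtain ⟨h1, h2, h3⟩ := hq
    obtain ⟨h1', h2', h3'⟩ := hq'
    rw [hB₁, Fintype.mem_piFinset] at h2 h2'
    rw [hB₂, Fintype.mem_piFinset] at h3 h3'
    rw [hS, Finset.mem_filter] at h1 h1'
    simp only at h1 h1' h2 h2' h3 h3' heq
    have ha : a = a' := by
      funext i
      have e1 : ∑ j, l j * dX A (px_degpc_shf e i₀ σ j₀ F c a) cc y x j i.succ =
          ∑ j, l j * dX A (px_degpc_shf e i₀ σ j₀ F' c' a') cc y x j i.succ := by rw [heq]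
      simp only [px_degpc_dX A cc y x e i₀ σ j₀ hi0 hσ0 _ _ _ hz, mul_add,
        Finset.sum_add_distrib, mul_ite,
        mul_zero, Finset.sum_ite_eq', Finset.mem_univ, if_true, hl, one_mul] at e1
      have d1 := h1.2.2 i.succ
      have d2 := h1'.2.2 i.succ
      refine px_degpc_eq_of_dvd (Finset.mem_range.1 (h3 i)) (Finset.mem_range.1 (h3' i)) ?_
      push_cast
      rcases hfrm i with hf | hf
      · rw [hf] at e1
        have : (a i : ℤ) - a' i = (∑ j, l j * dX A F' cc y x j i.succ) -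
            ∑ j, l j * dX A F cc y x j i.succ := by linarith
        rw [this]
        exact dvd_sub d2 d1
      · rw [hf] at e1
        have : (a i : ℤ) - a' i = (∑ j, l j * dX A F cc y x j i.succ) -
            ∑ j, l j * dX A F' cc y x j i.succ := by linarith
        rw [this]
        exact dvd_sub d1 d2
    subst ha
    have hcc : c = c' := by
      funext j
      have e1 : MvPolynomial.aeval (pt A cc y x) (px_degpc_shf e i₀ σ j₀ F c a j) =
        MvPolynomial.aeval (pt A cc y x) (px_degpc_shf e i₀ σ j₀ F' c' a j) := by rw [heq]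
      rw [px_degpc_val e i₀ σ j₀ _ _ _ _ hz, px_degpc_val e i₀ σ j₀ _ _ _ _ hz] at e1
      have d1 := h1.2.1 j
      have d2 := h1'.2.1 j
      refine px_degpc_eq_of_dvd (Finset.mem_range.1 (h2 j)) (Finset.mem_range.1 (h2' j)) ?_
      push_cast
      have : (c j : ℤ) - c' j = MvPolynomial.aeval (pt A cc y x) (F' j) -
        MvPolynomial.aeval (pt A cc y x) (F j) := by linarith
      rw [this]
      exact dvd_sub d2 d1
    subst hcc
    have hF : F = F' := by
      funext j
      have e1 : px_degpc_shf e i₀ σ j₀ F c a j = px_degpc_shf e i₀ σ j₀ F' c a j := by rw [heq]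
      unfold px_degpc_shf at e1
      exact add_right_cancel e1
    rw [hF]

end Pool.Agent.H731.GS
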