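import Pool.Agent.H731.GS.Stm
import Pool.Graph.R_seed8.Y716.Q.RealClass

/-!
# Package DEGRC: systems which are almost zero and degenerate at a given real point
-/

set_option autoImplicit false

namespace Pool.Agent.H731.GS

open Pool.Agent.Y716.Q Pool.Agent.Y716.C
open Pool.Agent.T2H41.CX (NonD NonDR)

section
variable {ι : Type} [Fintype ι]

/-- the perturbation `X i₀ ^ (e + 1) * ∑ u i X i` -/
noncomputable def px_degrc_pt (i₀ : ι) (e : ℕ) (u : ι → ℤ) : MvPolynomial ι ℤ :=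
  MvPolynomial.X i₀ ^ (e + 1) * ∑ i, MvPolynomial.C (u i) * MvPolynomial.X i

theorem px_degrc_lin_coeff (u : ι → ℤ) {R : ℝ} (hR : 0 ≤ R) (hu : ∀ i, |(u i : ℝ)| ≤ R)
    (n : ι →₀ ℕ) :
    |(((∑ i, MvPolynomial.C (u i) * MvPolynomial.X i : MvPolynomial ι ℤ).coeff n : ℤ) : ℝ)| ≤ R := by
  classical
  rw [MvPolynomial.coeff_sum]
  simp only [MvPolynomial.coeff_C_mul, MvPolynomial.coeff_X]
  by_cases h : ∃ i : ι, Finsupp.single i 1 = n
  · obtain ⟨i, hi⟩ := h
    rw [Finset.sum_eq_single_of_mem i (Finset.mem_univ _)]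
    · rw [if_pos hi, mul_one]; exact hu i
    · intro j _ hj
      rw [if_neg, mul_zero]
      intro hjn
      rw [← hi] at hjn
      exact hj (Finsupp.single_left_injective one_ne_zero hjn)
  · push Not at h
    rw [Finset.sum_eq_zero fun i _ => by rw [if_neg (h i), mul_zero]]
    simpa using hR

theorem px_degrc_pt_isF (i₀ : ι) (e : ℕ) (u : ι → ℤ) {R : ℝ} (hR : 0 ≤ R)
    (hu : ∀ i, |(u i : ℝ)| ≤ R) : IsF (e + 2) R (px_degrc_pt i₀ e u) := by
  classical
  refine ⟨?_, fun m => ?_⟩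
  · unfold px_degrc_pt
    have h1 : (MvPolynomial.X i₀ ^ (e + 1) : MvPolynomial ι ℤ).IsHomogeneous (e + 1) :=
      MvPolynomial.isHomogeneous_X_pow i₀ (e + 1)
    have h2 : (∑ i, MvPolynomial.C (u i) * MvPolynomial.X i : MvPolynomial ι ℤ).IsHomogeneous 1 := by
      refine MvPolynomial.IsHomogeneous.sum _ _ _ fun i _ => ?_
      have := (MvPolynomial.isHomogeneous_C ι (u i)).mul (MvPolynomial.isHomogeneous_X ℤ i)
      rwa [zero_add] at this
    exact h1.mul h2
  · unfold px_degrc_pt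
    rw [MvPolynomial.X_pow_eq_monomial, MvPolynomial.coeff_monomial_mul']
    split_ifs with h
    · rw [one_mul]
      exact px_degrc_lin_coeff u hR hu _
    · simpa using hR

theorem px_degrc_pt_aeval (i₀ : ι) (e : ℕ) (u : ι → ℤ) (ξ : ι → ℝ) (h : ξ i₀ = 1) :
    MvPolynomial.aeval ξ (px_degrc_pt i₀ e u) = ∑ i, (u i : ℝ) * ξ i := by
  unfold px_degrc_pt
  rw [map_mul, map_pow, MvPolynomial.aeval_X, h, one_pow, one_mul, map_sum]
  refine Finset.sum_congr rfl fun i _ => ?_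
  rw [map_mul, MvPolynomial.aeval_X, MvPolynomial.aeval_C]
  rfl

theorem px_degrc_pt_pderiv (i₀ : ι) (e : ℕ) (u : ι → ℤ) (ξ : ι → ℝ) (h : ξ i₀ = 1)
    {i : ι} (hi : i ≠ i₀) :
    MvPolynomial.aeval ξ (MvPolynomial.pderiv i (px_degrc_pt i₀ e u)) = (u i : ℝ) := by
  classical
  unfold px_degrc_pt
  have h1 : MvPolynomial.pderiv i
      (∑ j, MvPolynomial.C (u j) * MvPolynomial.X j : MvPolynomial ι ℤ) =
      MvPolynomial.C (u i) := by
    rw [map_sum, Finset.sum_eq_single_of_mem i (Finset.mem_univ _)]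
    · rw [MvPolynomial.pderiv_C_mul, MvPolynomial.pderiv_X_self, mul_one]
    · intro j _ hj
      rw [MvPolynomial.pderiv_C_mul, MvPolynomial.pderiv_X_of_ne hj, mul_zero]
  rw [Derivation.leibniz, Derivation.leibniz_pow, MvPolynomial.pderiv_X_of_ne hi.symm, h1]
  simp [h]

/-- bound on a cube -/
theorem px_degrc_aeval_le {d : ℕ} {R B : ℝ} (hB : 0 < B) {f : MvPolynomial ι ℤ} (hf : IsF d R f)
    {ξ : ι → ℝ} (hξ : ∀ i, |ξ i| ≤ B) :
    |MvPolynomial.aeval ξ f| ≤ B ^ d * ((mons ι d).card * R) := by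
  have h1 : ξ = fun i => B * (ξ i / B) := by funext i; field_simp
  rw [h1, aeval_smul_form hf.1, abs_mul, abs_pow, abs_of_pos hB]
  refine mul_le_mul_of_nonneg_left (hf.aeval_le_one fun i => ?_) (by positivity)
  rw [abs_div, abs_of_pos hB, div_le_one hB]
  exact hξ i

end

/-- values of a polynomial on the cube of radius two -/
theorem px_degrc_val {Y : Type} (G : MvPolynomial Y ℤ) :
    ∃ M : ℝ, 0 ≤ M ∧ ∀ y : Y → ℝ, (∀ t, |y t| ≤ 2) → |MvPolynomial.aeval y G| ≤ M := by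
  induction G using MvPolynomial.induction_on with
  | C a =>
    refine ⟨|(a : ℝ)|, abs_nonneg _, fun y _ => ?_⟩
    rw [MvPolynomial.aeval_C]
    exact le_rfl
  | add p q hp hq =>
    obtain ⟨M, hM, h1⟩ := hp
    obtain ⟨M', hM', h2⟩ := hq
    refine ⟨M + M', by positivity, fun y hy => ?_⟩
    rw [map_add]
    exact (abs_add_le _ _).trans (add_le_add (h1 y hy) (h2 y hy))
  | mul_X p t hp =>
    obtain ⟨M, hM, h1⟩ := hp
    refine ⟨M * 2, by positivity, fun y hy => ?_⟩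
    rw [map_mul, MvPolynomial.aeval_X, abs_mul]
    exact mul_le_mul (h1 y hy) (hy t) (abs_nonneg _) hM

/-- integers which are close multiples of `M` are equal -/
theorem px_degrc_mult_eq {M : ℕ} {x y : ℕ} (hM : 0 < M)
    (h : |((M * x : ℕ) : ℝ) - ((M * y : ℕ) : ℝ)| < M) : x = y := by
  have h1 : |((M : ℤ) * x - (M : ℤ) * y)| < (M : ℤ) := by
    have h2 : |(((M : ℤ) * x - (M : ℤ) * y : ℤ) : ℝ)| < ((M : ℤ) : ℝ) := by
      push_cast
      push_cast at h
      exact h
    rw [← Int.cast_abs] at h2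
    exact_mod_cast h2
  have h2 : (M : ℤ) ∣ ((M : ℤ) * x - (M : ℤ) * y) := ⟨x - y, by ring⟩
  have h3 := Int.eq_zero_of_abs_lt_dvd h2 h1
  have h4 : (M : ℤ) * x = (M : ℤ) * y := by omega
  have h5 : (M : ℤ) ≠ 0 := by exact_mod_cast hM.ne'
  exact_mod_cast mul_left_cancel₀ h5 h4

section
variable {C ι Y : Type} {n r : ℕ}

/-- bound for the entries of the bases -/
theorem px_degrc_frm [Fintype C] [Fintype ι] (A : Fra C ι Y n) : ∃ K : ℝ, 1 ≤ K ∧
    ∀ (c : C) (y : Y → ℝ), (∀ t, |y t| ≤ 2) → ∀ i j, |frm A c y i j| ≤ K := by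
  choose M hM0 hM using fun (q : C × ι × Fin (n + 1)) => px_degrc_val (A q.1 q.2.1 q.2.2)
  refine ⟨1 + ∑ q, M q, ?_, fun c y hy i j => ?_⟩
  · have : 0 ≤ ∑ q, M q := Finset.sum_nonneg fun q _ => hM0 q
    linarith
  · have h1 := hM (c, i, j) y hy
    have h2 : M (c, i, j) ≤ ∑ q, M q :=
      Finset.single_le_sum (f := M) (fun q _ => hM0 q) (Finset.mem_univ (c, i, j))
    unfold frm
    linarith

variable [Fintype ι]

/-- bound for the derivatives -/
noncomputable def px_degrc_Cb (ι : Type) [Fintype ι] (n : ℕ) (e : Fin r → ℕ) (K : ℝ) : ℝ :=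
  ∑ j : Fin r, (Fintype.card ι : ℝ) * (K * ((((n : ℝ) + 1) * (K * 2)) ^ (e j + 1) *
    (((mons ι (e j + 1)).card : ℝ) * (((e j + 1 : ℕ) : ℝ) + 1))))

theorem px_degrc_Cb_nonneg (n : ℕ) (e : Fin r → ℕ) {K : ℝ} (hK : 0 ≤ K) :
    0 ≤ px_degrc_Cb ι n e K := by
  unfold px_degrc_Cb
  positivity

theorem px_degrc_dX_le {e : Fin r → ℕ} {R K : ℝ} (hR : 0 ≤ R) (hK : 1 ≤ K) {A : Fra C ι Y n}
    {F : Fin r → MvPolynomial ι ℤ} (hF : F ∈ sysZ ι e R) {c : C} {y : Y → ℝ}
    {x : Fin (n + 1) → ℝ} (hA : ∀ i j, |frm A c y i j| ≤ K) (hx : ∀ j, |x j| ≤ 2) (j : Fin r)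
    (i : Fin (n + 1)) : |dX A F c y x j i| ≤ px_degrc_Cb ι n e K * R := by
  have hK0 : 0 < K := by linarith
  have hz : ∀ i, |pt A c y x i| ≤ ((n : ℝ) + 1) * (K * 2) := by
    intro i
    unfold pt
    refine (Finset.abs_sum_le_sum_abs _ _).trans ?_
    calc ∑ j, |frm A c y i j * x j| ≤ ∑ _j : Fin (n + 1), K * 2 :=
          Finset.sum_le_sum fun j _ => by
            rw [abs_mul]
            exact mul_le_mul (hA i j) (hx j) (abs_nonneg _) hK0.le
      _ = _ := by
        rw [Finset.sum_const, Finset.card_univ, Fintype.card_fin, nsmul_eq_mul]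
        push_cast
        ring
  unfold dX
  have h1 : |∑ i', frm A c y i' i * MvPolynomial.aeval (pt A c y x)
      (MvPolynomial.pderiv i' (F j))| ≤ ((Fintype.card ι : ℝ) * (K *
        ((((n : ℝ) + 1) * (K * 2)) ^ (e j + 1) *
          (((mons ι (e j + 1)).card : ℝ) * (((e j + 1 : ℕ) : ℝ) + 1))))) * R := by
    refine (Finset.abs_sum_le_sum_abs _ _).trans ?_
    calc ∑ i', |frm A c y i' i * MvPolynomial.aeval (pt A c y x) (MvPolynomial.pderiv i' (F j))|
        ≤ ∑ _i' : ι, K * ((((n : ℝ) + 1) * (K * 2)) ^ (e j + 1) *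
          (((mons ι (e j + 1)).card : ℝ) * ((((e j + 1 : ℕ) : ℝ) + 1) * R))) :=
          Finset.sum_le_sum fun i' _ => by
            rw [abs_mul]
            exact mul_le_mul (hA i' i)
              (px_degrc_aeval_le (by positivity) (IsF.pderiv (mem_sysZ.1 hF j) i') hz)
              (abs_nonneg _) hK0.le
      _ = _ := by
        rw [Finset.sum_const, Finset.card_univ, nsmul_eq_mul]
        ring
  refine h1.trans (mul_le_mul_of_nonneg_right ?_ hR)
  unfold px_degrc_Cb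
  exact Finset.single_le_sum (f := fun j : Fin r => (Fintype.card ι : ℝ) * (K *
    ((((n : ℝ) + 1) * (K * 2)) ^ (e j + 1) *
      (((mons ι (e j + 1)).card : ℝ) * (((e j + 1 : ℕ) : ℝ) + 1)))))
    (fun j _ => by positivity) (Finset.mem_univ j)

/-- the perturbed system -/
noncomputable def px_degrc_sh (i₀ : ι) (e : Fin r → ℕ) (u : Fin r → ι → ℤ)
    (F : Fin r → MvPolynomial ι ℤ) : Fin r → MvPolynomial ι ℤ :=
  fun j => F j + px_degrc_pt i₀ (e j) (u j)

theorem px_degrc_sh_mem {i₀ : ι} {e : Fin r → ℕ} {u : Fin r → ι → ℤ}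
    {F : Fin r → MvPolynomial ι ℤ} {R : ℝ} (hR : 0 ≤ R) (hF : F ∈ sysZ ι e R)
    (hu : ∀ j i, |(u j i : ℝ)| ≤ R) : px_degrc_sh i₀ e u F ∈ sysZ ι e (2 * R) := by
  rw [mem_sysZ]
  intro j
  have h1 := mem_sysZ.1 hF j
  have h2 := px_degrc_pt_isF i₀ (e j) (u j) hR (hu j)
  unfold px_degrc_sh
  refine ⟨h1.1.add h2.1, fun m => ?_⟩
  rw [MvPolynomial.coeff_add]
  push_cast
  refine (abs_add_le _ _).trans ?_
  have := h1.2 m
  have := h2.2 m
  linarith

theorem px_degrc_sh_val (i₀ : ι) (e : Fin r → ℕ) (u : Fin r → ι → ℤ)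
    (F : Fin r → MvPolynomial ι ℤ) {ξ : ι → ℝ} (hξ : ξ i₀ = 1) (j : Fin r) :
    MvPolynomial.aeval ξ (px_degrc_sh i₀ e u F j) =
      MvPolynomial.aeval ξ (F j) + ∑ i, (u j i : ℝ) * ξ i := by
  unfold px_degrc_sh
  rw [map_add, px_degrc_pt_aeval _ _ _ _ hξ]

theorem px_degrc_sh_dX (A : Fra C ι Y n) (i₀ : ι) (e : Fin r → ℕ) (u : Fin r → ι → ℤ)
    (F : Fin r → MvPolynomial ι ℤ) {c : C} {y : Y → ℝ} {x : Fin (n + 1) → ℝ}
    (hz : pt A c y x i₀ = 1) (j : Fin r) {i : Fin (n + 1)} (hi : frm A c y i₀ i = 0) :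
    dX A (px_degrc_sh i₀ e u F) c y x j i =
      dX A F c y x j i + ∑ i', frm A c y i' i * (u j i' : ℝ) := by
  unfold dX
  rw [← Finset.sum_add_distrib]
  refine Finset.sum_congr rfl fun i' _ => ?_
  by_cases h : i' = i₀
  · rw [h, hi]; ring
  · unfold px_degrc_sh
    rw [map_add, map_add, px_degrc_pt_pderiv _ _ _ _ hz h]
    ring

theorem px_degrc_sh_inj (i₀ : ι) (e : Fin r → ℕ) (u : Fin r → ι → ℤ)
    {F G : Fin r → MvPolynomial ι ℤ} (h : px_degrc_sh i₀ e u F = px_degrc_sh i₀ e u G) :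
    F = G := by
  funext j
  have := congrFun h j
  unfold px_degrc_sh at this
  exact add_right_cancel this

open Classical in
/-- the count for a fixed combination of the rows -/
theorem px_degrc_count (e : Fin r → ℕ) (A : Fra C ι Y n) {α γ' R : ℝ} (hα : 0 < α)
    (hγ : 0 < γ') (hαR : 1 ≤ α * R) (hγR : 1 ≤ γ' * R) (c : C) (y : Y → ℝ)
    (x : Fin (n + 1) → ℝ) (i₀ : ι) (σ : Fin n → ι) (hz : pt A c y x i₀ = 1)
    (h0 : ∀ i : Fin n, frm A c y i₀ i.succ = 0) (hσ0 : ∀ i, σ i ≠ i₀)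
    (hσ : Function.Injective σ)
    (h1 : ∀ i, frm A c y (σ i) i.succ = 1 ∨ frm A c y (σ i) i.succ = -1)
    (h2 : ∀ i j, j ≠ i → frm A c y (σ i) (Fin.succ j) = 0)
    (j₀ : Fin r) (l : Fin r → ℝ) (hl : l j₀ = 1) :
    (((sysZ ι e R).filter (fun F => (∀ j, |MvPolynomial.aeval (pt A c y x) (F j)| ≤ α * R) ∧
      ∀ i, |∑ j, l j * dX A F c y x j i| ≤ γ' * R)).card : ℝ) ≤
      (3 * α) ^ r * (3 * γ') ^ n * (sysZ ι e (2 * R)).card := by
  have hR : 0 < R := by
    by_contra h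
    push Not at h
    have : α * R ≤ 0 := mul_nonpos_of_nonneg_of_nonpos hα.le h
    linarith
  set S := (sysZ ι e R).filter (fun F => (∀ j, |MvPolynomial.aeval (pt A c y x) (F j)| ≤ α * R) ∧
      ∀ i, |∑ j, l j * dX A F c y x j i| ≤ γ' * R) with hS
  set Mc : ℕ := ⌊2 * (α * R)⌋₊ + 1 with hMc
  set Ma : ℕ := ⌊2 * (γ' * R)⌋₊ + 1 with hMa
  have hMc1 : 2 * (α * R) < Mc := by rw [hMc]; push_cast; exact Nat.lt_floor_add_one _
  have hMa1 : 2 * (γ' * R) < Ma := by rw [hMa]; push_cast; exact Nat.lt_floor_add_one _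
  have hMc2 : (Mc : ℝ) ≤ 3 * α * R := by
    rw [hMc]; push_cast
    have := Nat.floor_le (a := 2 * (α * R)) (by positivity)
    linarith
  have hMa2 : (Ma : ℝ) ≤ 3 * γ' * R := by
    rw [hMa]; push_cast
    have := Nat.floor_le (a := 2 * (γ' * R)) (by positivity)
    linarith
  have hMc0 : 0 < Mc := Nat.succ_pos _
  have hMa0 : 0 < Ma := Nat.succ_pos _
  have hMc0' : (0 : ℝ) < Mc := by exact_mod_cast hMc0
  have hMa0' : (0 : ℝ) < Ma := by exact_mod_cast hMa0
  set Tc : ℕ := ⌊R / Mc⌋₊ with hTc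
  set Ta : ℕ := ⌊R / Ma⌋₊ with hTa
  have bound : ∀ (M : ℕ) (x : ℕ), (0 : ℝ) < M → x ≤ ⌊R / M⌋₊ → ((M * x : ℕ) : ℝ) ≤ R := by
    intro M x hM hx
    have h1 : (x : ℝ) ≤ R / M := (Nat.cast_le.2 hx).trans (Nat.floor_le (by positivity))
    rw [le_div_iff₀ hM] at h1
    push_cast
    linarith
  set P : Finset (Fin r → ℕ) := Fintype.piFinset (fun _ => Finset.range (Tc + 1)) with hP
  set B : Finset (Fin n → ℕ) := Fintype.piFinset (fun _ => Finset.range (Ta + 1)) with hB
  have hPc : P.card = (Tc + 1) ^ r := by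
    rw [hP, Fintype.card_piFinset]
    simp
  have hBc : B.card = (Ta + 1) ^ n := by
    rw [hB, Fintype.card_piFinset]
    simp
  let ex : (Fin n → ℕ) → ι → ℤ := fun s => Function.extend σ (fun i => ((Ma * s i : ℕ) : ℤ)) (0 : ι → ℤ)
  have hex : ∀ s i, ex s (σ i) = ((Ma * s i : ℕ) : ℤ) := fun s i =>
    hσ.extend_apply (fun i => ((Ma * s i : ℕ) : ℤ)) (0 : ι → ℤ) i
  have hex' : ∀ s i', (¬ ∃ i, σ i = i') → ex s i' = 0 := fun s i' h =>
    Function.extend_apply' (fun i => ((Ma * s i : ℕ) : ℤ)) (0 : ι → ℤ) i' h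
  let u : (Fin r → ℕ) → (Fin n → ℕ) → Fin r → ι → ℤ := fun t s j i =>
    if i = i₀ then ((Mc * t j : ℕ) : ℤ) else if j = j₀ then ex s i else 0
  have hu : ∀ t ∈ P, ∀ s ∈ B, ∀ j i, |(u t s j i : ℝ)| ≤ R := by
    intro t ht s hs j i
    simp only [u]
    split_ifs with h1 h2
    · have := Finset.mem_range.1 (Fintype.mem_piFinset.1 ht j)
      rw [Int.cast_natCast, abs_of_nonneg (Nat.cast_nonneg _)]
      exact bound Mc (t j) hMc0' (by omega)
    · by_cases h3 : ∃ i', σ i' = i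
      · obtain ⟨i', hi'⟩ := h3
        rw [← hi', hex]
        have := Finset.mem_range.1 (Fintype.mem_piFinset.1 hs i')
        rw [Int.cast_natCast, abs_of_nonneg (Nat.cast_nonneg _)]
        exact bound Ma (s i') hMa0' (by omega)
      · rw [hex' s i h3]
        simpa using hR.le
    · simpa using hR.le
  have husum : ∀ (t : Fin r → ℕ) (s : Fin n → ℕ) (j : Fin r) (i : Fin n),
      ∑ i', frm A c y i' i.succ * (u t s j i' : ℝ) =
        if j = j₀ then frm A c y (σ i) i.succ * ((Ma * s i : ℕ) : ℝ) else 0 := by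
    intro t s j i
    rw [Finset.sum_eq_single (σ i)]
    · simp only [u]
      rw [if_neg (hσ0 i)]
      by_cases hj : j = j₀
      · rw [if_pos hj, if_pos hj, hex, Int.cast_natCast]
      · rw [if_neg hj, if_neg hj, Int.cast_zero, mul_zero]
    · intro i' _ hi'
      simp only [u]
      by_cases h3 : i' = i₀
      · rw [h3, h0, zero_mul]
      · rw [if_neg h3]
        by_cases h4 : ∃ k, σ k = i'
        · obtain ⟨k, hk⟩ := h4
          have h5 : i ≠ k := by
            intro h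
            apply hi'
            rw [h, hk]
          rw [← hk, h2 k i h5, zero_mul]
        · rw [hex' s i' h4]
          simp
    · intro h
      exact absurd (Finset.mem_univ _) h
  have hcard : (S ×ˢ (P ×ˢ B)).card ≤ (sysZ ι e (2 * R)).card := by
    refine Finset.card_le_card_of_injOn (fun q => px_degrc_sh i₀ e (u q.2.1 q.2.2) q.1) ?_ ?_
    · intro q hq
      rw [Finset.mem_coe, Finset.mem_product, Finset.mem_product] at hq
      exact px_degrc_sh_mem hR.le (Finset.mem_filter.1 hq.1).1 (hu _ hq.2.1 _ hq.2.2)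
    · rintro ⟨F, t, s⟩ hq ⟨G, t', s'⟩ hq' heq
      rw [Finset.mem_coe, Finset.mem_product, Finset.mem_product] at hq hq'
      simp only at heq
      obtain ⟨-, f1, f2⟩ := Finset.mem_filter.1 hq.1
      obtain ⟨-, g1, g2⟩ := Finset.mem_filter.1 hq'.1
      simp only at f1 f2 g1 g2
      -- the derivatives
      have hs : s = s' := by
        funext i
        apply px_degrc_mult_eq hMa0
        have key : ∀ (F : Fin r → MvPolynomial ι ℤ) (t : Fin r → ℕ) (s : Fin n → ℕ),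
            ∑ j, l j * dX A (px_degrc_sh i₀ e (u t s) F) c y x j i.succ =
            ∑ j, l j * dX A F c y x j i.succ +
              frm A c y (σ i) i.succ * ((Ma * s i : ℕ) : ℝ) := by
          intro F t s
          have h1 : ∀ j, l j * dX A (px_degrc_sh i₀ e (u t s) F) c y x j i.succ =
              l j * dX A F c y x j i.succ +
                if j = j₀ then frm A c y (σ i) i.succ * ((Ma * s i : ℕ) : ℝ) else 0 := by
            intro j
            rw [px_degrc_sh_dX A i₀ e (u t s) F hz j (h0 i), mul_add, husum]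
            congr 1
            by_cases hj : j = j₀
            · rw [if_pos hj, hj, hl, one_mul]
            · rw [if_neg hj, mul_zero]
          rw [Finset.sum_congr rfl fun j _ => h1 j, Finset.sum_add_distrib, Finset.sum_ite_eq']
          simp
        have k1 := key F t s
        have k2 := key G t' s'
        rw [heq, k2] at k1
        have k3 : frm A c y (σ i) i.succ * (((Ma * s i : ℕ) : ℝ) - ((Ma * s' i : ℕ) : ℝ)) =
            ∑ j, l j * dX A G c y x j i.succ - ∑ j, l j * dX A F c y x j i.succ := by linarith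
        have k4 : |((Ma * s i : ℕ) : ℝ) - ((Ma * s' i : ℕ) : ℝ)| =
            |∑ j, l j * dX A G c y x j i.succ - ∑ j, l j * dX A F c y x j i.succ| := by
          rw [← k3, abs_mul]
          rcases h1 i with h | h
          · rw [h]; simp
          · rw [h]; simp
        rw [k4]
        refine lt_of_le_of_lt (abs_sub _ _) ?_
        have := f2 i.succ
        have := g2 i.succ
        linarith
      subst hs
      have ht : t = t' := by
        funext j
        apply px_degrc_mult_eq hMc0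
        have h1 := px_degrc_sh_val i₀ e (u t s) F hz j
        have h2 := px_degrc_sh_val i₀ e (u t' s) G hz j
        rw [heq, h2] at h1
        have key : ∀ t : Fin r → ℕ, ∑ i, (u t s j i : ℝ) * pt A c y x i =
            ((Mc * t j : ℕ) : ℝ) + ∑ i ∈ Finset.univ.erase i₀,
              (if j = j₀ then (ex s i : ℝ) else 0) * pt A c y x i := by
          intro t
          rw [← Finset.add_sum_erase _ _ (Finset.mem_univ i₀)]
          congr 1
          · simp only [u, if_true]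
            rw [Int.cast_natCast, hz, mul_one]
          · refine Finset.sum_congr rfl fun i hi => ?_
            simp only [u]
            rw [if_neg (Finset.ne_of_mem_erase hi)]
            congr 1
            split_ifs
            · rfl
            · rw [Int.cast_zero]
        rw [key t, key t'] at h1
        have h3 : ((Mc * t j : ℕ) : ℝ) - ((Mc * t' j : ℕ) : ℝ) =
            MvPolynomial.aeval (pt A c y x) (G j) - MvPolynomial.aeval (pt A c y x) (F j) := by
          linarith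
        rw [h3]
        refine lt_of_le_of_lt (abs_sub _ _) ?_
        have := f1 j
        have := g1 j
        linarith
      subst ht
      have := px_degrc_sh_inj i₀ e (u t s) heq
      rw [this]
  rw [Finset.card_product, Finset.card_product, hPc, hBc] at hcard
  have hcard' : (S.card : ℝ) * (((Tc : ℝ) + 1) ^ r * ((Ta : ℝ) + 1) ^ n) ≤
      (sysZ ι e (2 * R)).card := by exact_mod_cast hcard
  have k1 : 1 ≤ 3 * α * ((Tc : ℝ) + 1) := by
    have h1 : R / Mc < Tc + 1 := Nat.lt_floor_add_one _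
    rw [div_lt_iff₀ hMc0'] at h1
    have h2 : R < (Tc + 1) * (3 * α * R) :=
      h1.trans_le (mul_le_mul_of_nonneg_left hMc2 (by positivity))
    have h3 : 1 * R < (3 * α * ((Tc : ℝ) + 1)) * R := by linarith
    exact (lt_of_mul_lt_mul_right h3 hR.le).le
  have k2 : 1 ≤ 3 * γ' * ((Ta : ℝ) + 1) := by
    have h1 : R / Ma < Ta + 1 := Nat.lt_floor_add_one _
    rw [div_lt_iff₀ hMa0'] at h1
    have h2 : R < (Ta + 1) * (3 * γ' * R) :=
      h1.trans_le (mul_le_mul_of_nonneg_left hMa2 (by positivity))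
    have h3 : 1 * R < (3 * γ' * ((Ta : ℝ) + 1)) * R := by linarith
    exact (lt_of_mul_lt_mul_right h3 hR.le).le
  have k3 : (1 : ℝ) ≤ (3 * α * ((Tc : ℝ) + 1)) ^ r * (3 * γ' * ((Ta : ℝ) + 1)) ^ n :=
    one_le_mul_of_one_le_of_one_le (one_le_pow₀ k1) (one_le_pow₀ k2)
  calc (S.card : ℝ) = S.card * 1 := (mul_one _).symm
    _ ≤ S.card * ((3 * α * ((Tc : ℝ) + 1)) ^ r * (3 * γ' * ((Ta : ℝ) + 1)) ^ n) :=
        mul_le_mul_of_nonneg_left k3 (Nat.cast_nonneg _)
    _ = (3 * α) ^ r * (3 * γ') ^ n *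
        (S.card * (((Tc : ℝ) + 1) ^ r * ((Ta : ℝ) + 1) ^ n)) := by
        rw [mul_pow (3 * α), mul_pow (3 * γ')]; ring
    _ ≤ _ := mul_le_mul_of_nonneg_left hcard' (by positivity)

end

section
variable {r : ℕ}

/-- the net for the combinations of the rows -/
noncomputable def px_degrc_net (r : ℕ) (γ : ℝ) (j₀ : Fin r) : Finset (Fin r → ℤ) :=
  Fintype.piFinset (fun j => if j = j₀ then {0} else Finset.Icc (-(⌈1 / γ⌉₊ : ℤ)) ⌈1 / γ⌉₊)

/-- the combination given by a point of the net -/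
noncomputable def px_degrc_lpt (γ : ℝ) (j₀ : Fin r) (n : Fin r → ℤ) (j : Fin r) : ℝ :=
  if j = j₀ then 1 else γ * n j

theorem px_degrc_net_card {γ : ℝ} (hγ : 0 < γ) (hγ1 : γ ≤ 1) (j₀ : Fin r) :
    ((px_degrc_net r γ j₀).card : ℝ) ≤ (5 / γ) ^ (r - 1) := by
  unfold px_degrc_net
  rw [Fintype.card_piFinset]
  have h1 : ∀ i : Fin r, (if i = j₀ then ({0} : Finset ℤ) else
      Finset.Icc (-(⌈1 / γ⌉₊ : ℤ)) ⌈1 / γ⌉₊).card = if i = j₀ then 1 else 2 * ⌈1 / γ⌉₊ + 1 := by
    intro i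
    split_ifs
    · simp
    · rw [Int.card_Icc]; omega
  rw [Finset.prod_congr rfl fun i _ => h1 i, Finset.prod_ite, Finset.prod_const_one, one_mul,
    Finset.prod_const]
  have h2 : (Finset.univ.filter fun x : Fin r => ¬ x = j₀) = Finset.univ.erase j₀ := by
    ext x; simp
  rw [h2, Finset.card_erase_of_mem (Finset.mem_univ _), Finset.card_univ, Fintype.card_fin]
  push_cast
  refine pow_le_pow_left₀ (by positivity) ?_ _
  have h3 : ((⌈1 / γ⌉₊ : ℕ) : ℝ) < 1 / γ + 1 := Nat.ceil_lt_add_one (by positivity)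
  have h4 : 1 ≤ 1 / γ := by rw [le_div_iff₀ hγ]; linarith
  have h5 : 5 / γ = 5 * (1 / γ) := by ring
  rw [h5]
  linarith

theorem px_degrc_net_exists {γ : ℝ} (hγ : 0 < γ) (j₀ : Fin r) (l : Fin r → ℝ) (hl : l j₀ = 1)
    (hl1 : ∀ j, |l j| ≤ 1) :
    ∃ n ∈ px_degrc_net r γ j₀, ∀ j, |l j - px_degrc_lpt γ j₀ n j| ≤ γ := by
  classical
  refine ⟨fun j => if j = j₀ then 0 else round (l j / γ), ?_, fun j => ?_⟩
  · unfold px_degrc_net
    rw [Fintype.mem_piFinset]
    intro j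
    by_cases hj : j = j₀
    · rw [if_pos hj, if_pos hj]; simp
    · rw [if_neg hj, if_neg hj, Finset.mem_Icc]
      have h1 := abs_le.1 (abs_sub_round (l j / γ))
      have h2 : |l j / γ| ≤ 1 / γ := by
        rw [abs_div, abs_of_pos hγ]
        exact div_le_div_of_nonneg_right (hl1 j) hγ.le
      have h3 := abs_le.1 (h2.trans (Nat.le_ceil (1 / γ)))
      constructor
      · have : (-(⌈1 / γ⌉₊ : ℤ) : ℝ) - 1 < (round (l j / γ) : ℝ) := by
          push_cast; linarith [h1.2, h3.1]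
        have h4 : -(⌈1 / γ⌉₊ : ℤ) - 1 < round (l j / γ) := by exact_mod_cast this
        omega
      · have : (round (l j / γ) : ℝ) < ((⌈1 / γ⌉₊ : ℤ) : ℝ) + 1 := by
          push_cast; linarith [h1.1, h3.2]
        have h4 : round (l j / γ) < (⌈1 / γ⌉₊ : ℤ) + 1 := by exact_mod_cast this
        omega
  · unfold px_degrc_lpt
    by_cases hj : j = j₀
    · rw [if_pos hj, hj, hl, sub_self, abs_zero]; exact hγ.le
    · show |l j - (if j = j₀ then 1 else
        γ * (((if j = j₀ then 0 else round (l j / γ)) : ℤ) : ℝ))| ≤ γ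
      rw [if_neg hj, if_neg hj]
      have h1 : l j - γ * (round (l j / γ) : ℝ) = γ * (l j / γ - round (l j / γ)) := by
        field_simp
      rw [h1, abs_mul, abs_of_pos hγ]
      have h2 := abs_sub_round (l j / γ)
      nlinarith

end

theorem pDEGRC : S_DEGRC := by
  classical
  intro C ι Y _ _ _ n r e A hA hrn
  obtain ⟨K₀, hK₀, hfrm⟩ := px_degrc_frm A
  have hCb := px_degrc_Cb_nonneg (ι := ι) n e (show 0 ≤ K₀ by linarith)
  set Cb := px_degrc_Cb ι n e K₀ with hCbdef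
  set C' : ℝ := 1 + r * Cb with hC'
  have hC'1 : 1 ≤ C' := by
    rw [hC']
    have : 0 ≤ (r : ℝ) * Cb := mul_nonneg (Nat.cast_nonneg _) hCb
    linarith
  refine ⟨r * 5 ^ (r - 1) * (3 ^ r * (3 * C') ^ n) + 1, by positivity, ?_⟩
  intro α γ R hα hα1 hγ hγ1 hαR hγR c y x hy hx hx0
  have hR : 0 < R := by
    by_contra h
    push Not at h
    have : α * R ≤ 0 := mul_nonpos_of_nonneg_of_nonpos hα.le h
    linarith
  -- the coordinates
  obtain ⟨i₀, hi₀, hi₀'⟩ := hA.one c
  choose σ hσ1 hσ2 using hA.dirx c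
  have f0 : frm A c y i₀ 0 = 1 := by unfold frm; rw [hi₀, map_one]
  have f0' : ∀ i : Fin n, frm A c y i₀ i.succ = 0 := fun i => by
    unfold frm; rw [hi₀' i, map_zero]
  have f1 : ∀ i, frm A c y (σ i) i.succ = 1 ∨ frm A c y (σ i) i.succ = -1 := by
    intro i
    unfold frm
    rcases hσ1 i with h | h
    · left; rw [h, map_one]
    · right; rw [h, map_neg, map_one]
  have f2 : ∀ i j', j' ≠ i.succ → frm A c y (σ i) j' = 0 := by
    intro i j' hj'
    unfold frm
    rw [hσ2 i j' hj', map_zero]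
  have hz : pt A c y x i₀ = 1 := by
    unfold pt
    rw [Fin.sum_univ_succ, f0, hx0, one_mul, Finset.sum_eq_zero, add_zero]
    intro i _
    rw [f0', zero_mul]
  have hσ0 : ∀ i, σ i ≠ i₀ := by
    intro i h
    have h1 := f1 i
    rw [h, f0' i] at h1
    rcases h1 with h1 | h1 <;> norm_num at h1
  have hσinj : Function.Injective σ := by
    intro i k h
    by_contra hne
    have h1 := f1 i
    rw [h, f2 k i.succ (fun h' => hne (Fin.succ_injective _ h'))] at h1
    rcases h1 with h1 | h1 <;> norm_num at h1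
  have f2' : ∀ i j, j ≠ i → frm A c y (σ i) (Fin.succ j) = 0 := fun i j hij =>
    f2 i j.succ fun h => hij (Fin.succ_injective _ h)
  set Z := (sysZ ι e R).filter (fun F =>
    (∀ j, |MvPolynomial.aeval (pt A c y x) (F j)| ≤ α * R) ∧
    ¬ NonDR (γ * R) (dX A F c y x) (Finset.univ : Finset (Fin (n + 1)))) with hZ
  set G : ℝ := ((sysZ ι e (2 * R)).card : ℝ) with hG
  -- the covering
  have hcov : Z ⊆ (Finset.univ : Finset (Fin r)).biUnion fun j₀ =>
      (px_degrc_net r γ j₀).biUnion fun m =>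
      (sysZ ι e R).filter (fun F => (∀ j, |MvPolynomial.aeval (pt A c y x) (F j)| ≤ α * R) ∧
        ∀ i, |∑ j, px_degrc_lpt γ j₀ m j * dX A F c y x j i| ≤ (C' * γ) * R) := by
    intro F hF
    obtain ⟨h1, h2, h3⟩ := Finset.mem_filter.1 hF
    unfold NonDR at h3
    push Not at h3
    obtain ⟨j₀, l, hl, hl1, h4⟩ := h3
    obtain ⟨m, hm, h5⟩ := px_degrc_net_exists hγ j₀ l hl hl1
    rw [Finset.mem_biUnion]
    refine ⟨j₀, Finset.mem_univ _, ?_⟩
    rw [Finset.mem_biUnion]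
    refine ⟨m, hm, Finset.mem_filter.2 ⟨h1, h2, fun i => ?_⟩⟩
    have h6 : ∑ j, px_degrc_lpt γ j₀ m j * dX A F c y x j i =
        ∑ j, l j * dX A F c y x j i -
          ∑ j, (l j - px_degrc_lpt γ j₀ m j) * dX A F c y x j i := by
      rw [← Finset.sum_sub_distrib]
      refine Finset.sum_congr rfl fun j _ => ?_
      ring
    have h7 : |∑ j, (l j - px_degrc_lpt γ j₀ m j) * dX A F c y x j i| ≤
        r * (γ * (Cb * R)) := by
      refine (Finset.abs_sum_le_sum_abs _ _).trans ?_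
      calc ∑ j, |(l j - px_degrc_lpt γ j₀ m j) * dX A F c y x j i|
          ≤ ∑ _j : Fin r, γ * (Cb * R) := Finset.sum_le_sum fun j _ => by
            rw [abs_mul]
            exact mul_le_mul (h5 j)
              (px_degrc_dX_le hR.le hK₀ h1 (hfrm c y hy) hx j i) (abs_nonneg _) hγ.le
        _ = _ := by rw [Finset.sum_const, Finset.card_univ, Fintype.card_fin, nsmul_eq_mul]
    rw [h6]
    refine (abs_sub _ _).trans ?_
    have h8 := h4 i (Finset.mem_univ _)
    calc _ ≤ γ * R + r * (γ * (Cb * R)) := add_le_add h8 h7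
      _ = _ := by rw [hC']; ring
  have hcard : (Z.card : ℝ) ≤ ∑ j₀ : Fin r, ∑ m ∈ px_degrc_net r γ j₀,
      (3 * α) ^ r * (3 * (C' * γ)) ^ n * G := by
    have h1 := (Finset.card_le_card hcov).trans Finset.card_biUnion_le
    have h2 : (Z.card : ℝ) ≤ ∑ j₀ : Fin r, (((px_degrc_net r γ j₀).biUnion fun m =>
      (sysZ ι e R).filter (fun F => (∀ j, |MvPolynomial.aeval (pt A c y x) (F j)| ≤ α * R) ∧
        ∀ i, |∑ j, px_degrc_lpt γ j₀ m j * dX A F c y x j i| ≤ (C' * γ) * R)).card : ℝ) := by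
      exact_mod_cast h1
    refine h2.trans (Finset.sum_le_sum fun j₀ _ => ?_)
    have h3 := Finset.card_biUnion_le (s := px_degrc_net r γ j₀) (t := fun m =>
      (sysZ ι e R).filter (fun F => (∀ j, |MvPolynomial.aeval (pt A c y x) (F j)| ≤ α * R) ∧
        ∀ i, |∑ j, px_degrc_lpt γ j₀ m j * dX A F c y x j i| ≤ (C' * γ) * R))
    refine (Nat.cast_le.2 h3).trans ?_
    rw [Nat.cast_sum]
    refine Finset.sum_le_sum fun m _ => ?_
    refine px_degrc_count e A hα (by positivity) hαR ?_ c y x i₀ σ hz f0' hσ0 hσinj f1 f2' j₀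
      (px_degrc_lpt γ j₀ m) ?_
    · have : γ * R ≤ C' * γ * R := by
        have := mul_le_mul_of_nonneg_right hC'1 (by positivity : 0 ≤ γ * R)
        linarith
      linarith
    · unfold px_degrc_lpt; rw [if_pos rfl]
  have hsum : ∀ j₀ : Fin r, ∑ m ∈ px_degrc_net r γ j₀, (3 * α) ^ r * (3 * (C' * γ)) ^ n * G ≤
      5 ^ (r - 1) * (3 ^ r * (3 * C') ^ n) * (α ^ r * γ ^ (n + 1 - r) * G) := by
    intro j₀
    rw [Finset.sum_const, nsmul_eq_mul]
    have hr1 : 1 ≤ r := Nat.one_le_of_lt j₀.2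
    have hG0 : 0 ≤ G := Nat.cast_nonneg _
    have hγn : γ ^ n = γ ^ (r - 1) * γ ^ (n + 1 - r) := by
      rw [← pow_add]
      congr 1
      omega
    calc ((px_degrc_net r γ j₀).card : ℝ) * ((3 * α) ^ r * (3 * (C' * γ)) ^ n * G)
        ≤ (5 / γ) ^ (r - 1) * ((3 * α) ^ r * (3 * (C' * γ)) ^ n * G) :=
          mul_le_mul_of_nonneg_right (px_degrc_net_card hγ hγ1 j₀) (by positivity)
      _ = (5 / γ) ^ (r - 1) * (3 ^ r * α ^ r * ((3 * C') ^ n *
          (γ ^ (r - 1) * γ ^ (n + 1 - r))) * G) := by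
          rw [mul_pow 3 α, ← mul_assoc 3 C' γ, mul_pow (3 * C') γ, hγn]
      _ = ((5 / γ) * γ) ^ (r - 1) * (3 ^ r * (3 * C') ^ n) * (α ^ r * γ ^ (n + 1 - r) * G) := by
          rw [mul_pow (5 / γ) γ]; ring
      _ = _ := by rw [div_mul_cancel₀ _ hγ.ne']
  calc (Z.card : ℝ) ≤ ∑ _j₀ : Fin r, 5 ^ (r - 1) * (3 ^ r * (3 * C') ^ n) *
        (α ^ r * γ ^ (n + 1 - r) * G) := hcard.trans (Finset.sum_le_sum fun j₀ _ => hsum j₀)
    _ = r * 5 ^ (r - 1) * (3 ^ r * (3 * C') ^ n) * (α ^ r * γ ^ (n + 1 - r) * G) := by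
        rw [Finset.sum_const, Finset.card_univ, Fintype.card_fin, nsmul_eq_mul]; ring
    _ ≤ (r * 5 ^ (r - 1) * (3 ^ r * (3 * C') ^ n) + 1) * (α ^ r * γ ^ (n + 1 - r) * G) := by
        have : 0 ≤ α ^ r * γ ^ (n + 1 - r) * G := by positivity
        nlinarith
    _ = _ := by ring

end Pool.Agent.H731.GS
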