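import Pool.Agent.H731.GS.Stm

/-!
# GS, package EXCD: few systems match a target without close rational point (helper740)
-/

set_option autoImplicit false

namespace Pool.Agent.H731.GS

open Pool.Agent.Y716.Q Pool.Agent.Y716.C Filter Topology
open Pool.Agent.T2H41.CX (NonD NonDR GoodM QJ S_MINP S_HENG S_NRM S_MODS)
open Pool.Agent.T2H39.CV (Cone IsCone Swept subL Left Inside kerF Gr Pl pl S_LAT S_DEC S_WAQ)

theorem px_excd_smul {σ K : Type} [CommRing K] {d : ℕ} {F : MvPolynomial σ ℤ}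
    (hF : F.IsHomogeneous d) (a : K) (x : σ → K) :
    MvPolynomial.aeval (fun i => a * x i) F = a ^ d * MvPolynomial.aeval x F := by
  rw [MvPolynomial.aeval_def, MvPolynomial.aeval_def, MvPolynomial.eval₂_eq, MvPolynomial.eval₂_eq,
    Finset.mul_sum]
  refine Finset.sum_congr rfl fun m hm => ?_
  have hm' := hF (MvPolynomial.mem_support_iff.1 hm)
  rw [Finsupp.weight_apply] at hm'
  simp only [Pi.one_apply, smul_eq_mul, mul_one] at hm'
  simp only [mul_pow]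
  rw [Finset.prod_mul_distrib, Finset.prod_pow_eq_pow_sum]
  have h2 : ∑ i ∈ m.support, m i = d := hm'
  rw [h2]
  ring

/-- an integral point of the restriction near the target gives a point on `V` near the target -/
theorem px_excd_sol {C ι Y : Type} [Fintype ι] [Fintype Y] {n r : ℕ} {V : Cone ι}
    {A : Fra C ι Y n} {D : Tgt C Y n} {m₀ : ℕ} {δ : ℝ} {N : ℕ} {δ' : ℝ} {t : Tr ι n}
    (ht : AdmT V A D m₀ δ N δ' t) {F : Fin r → MvPolynomial ι ℤ}
    (h : SolT N t.2.1 t.2.2 δ' (subS t.1 F)) :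
    ∃ z : ι → ℤ, (fun i => (z i : ℚ)) ∈ V.Q ∧ (∀ j, MvPolynomial.eval z (F j) = 0) ∧
      CloseT A D m₀ δ z := by
  obtain ⟨x, hx1, hx2, hx3, hx4⟩ := h
  obtain ⟨-, ht2, -, ht4⟩ := ht
  refine ⟨fun i => ∑ j, t.1 i j * x j, ?_, fun j => ?_, ht4 x hx3 hx4⟩
  · have h1 := ht2 (fun j => (x j : ℚ)) (by
      intro h0
      refine hx1 ?_
      funext j
      have := congrFun h0 j
      simpa using this)
    have e : (fun i => ((∑ j, t.1 i j * x j : ℤ) : ℚ)) =
        fun i => ∑ j, (t.1 i j : ℚ) * (x j : ℚ) := by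
      funext i
      push_cast
      rfl
    rw [e]
    exact h1
  · rw [← Pool.Agent.T2H39.CV.eval_subL]
    exact hx2 j

open scoped Classical in
theorem pEXCD (h1 : S_LBP) (h2 : S_CEL) (h3 : S_AVS) : S_EXCD := by
  have hLBP := h1
  have hCEL := h2
  have hAVS := h3
  clear h1 h2 h3
  intro C ι Y _ _ _ n r e hr1 hrn hsum V A hVA γ δ hγ hδ
  obtain ⟨α, hα, hcel⟩ := hCEL C ι Y n r e hrn V A hVA γ δ hγ hδ
  refine ⟨α, hα, fun D hD m₀ J hJ ε hε => ?_⟩
  obtain ⟨w₁, hw₁⟩ := hcel (ε / 4) (by positivity)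
  obtain ⟨w, hw⟩ : ∃ w : ℕ, w = max w₁ D.m := ⟨_, rfl⟩
  have hw1 : w₁ ≤ w := by rw [hw]; exact le_max_left _ _
  have hDw : D.m ≤ w := by rw [hw]; exact le_max_right _ _
  -- the primes up to `w`
  have hLBp : ∀ p : ℕ, ∃ J' : ℕ, m₀ ≤ J' ∧ ∃ H₀ : ℝ, ∀ H : ℝ, H₀ ≤ H →
      (((sysZ ι e H).filter (fun F => ∃ _ : Fact p.Prime, ∃ (c : C) (y : Y → ℚ_[p])
        (x : Fin (n + 1) → ℚ_[p]), ZeroP A F p c y x ∧
        ¬ ∃ (y' : Y → ℤ) (x' : Fin (n + 1) → ℤ), RobP A p J' F c y' x')).card : ℝ) ≤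
        ε / (4 * (w + 1)) * (sysZ ι e H).card := by
    intro p
    by_cases hp : p.Prime
    · have : Fact p.Prime := ⟨hp⟩
      obtain ⟨J', hJ', H₀, hH₀⟩ := hLBP C ι Y n r e A hVA.chart hr1 (by omega) p m₀
        (ε / (4 * (w + 1))) (by positivity)
      refine ⟨J', hJ', H₀, fun H hH => le_trans ?_ (hH₀ H hH)⟩
      refine Nat.cast_le.2 (Finset.card_le_card fun F hF => ?_)
      obtain ⟨h1, h2, c, y, x, h3, h4⟩ := Finset.mem_filter.1 hF
      refine Finset.mem_filter.2 ⟨h1, c, y, x, h3, ?_⟩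
      rintro ⟨y', x', h5, -⟩
      exact h4 ⟨y', x', h5⟩
    · refine ⟨m₀, le_rfl, 0, fun H _ => ?_⟩
      rw [Finset.filter_false_of_mem (fun F _ h => hp h.1.out)]
      simp only [Finset.card_empty, Nat.cast_zero]
      positivity
  choose Jf hJf0 Hf hHf using hLBp
  obtain ⟨J', hJ'⟩ : ∃ J' : ℕ → ℕ, J' = fun p => if p ≤ D.m then J p else Jf p := ⟨_, rfl⟩
  have hJ'm : ∀ p, m₀ ≤ J' p := by
    intro p
    rw [hJ']
    simp only
    split_ifs
    · exact hJ p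
    · exact hJf0 p
  have hMP : ∀ F : Fin r → MvPolynomial ι ℤ, MatchP A D J F → MatchP A D J' F := by
    intro F h p hp hpm
    have e1 : J' p = J p := by
      rw [hJ']
      simp only
      rw [if_pos hpm]
    rw [e1]
    exact h p hp hpm
  obtain ⟨T, N, δ', hN1, hδ', hδ'2, hT, hcount⟩ := hw₁ D hD m₀ w J' hw1 hDw hJ'm
  -- the linear spaces
  have hAp : ∀ t : Tr ι n, ∃ w₀ : ℕ, t ∈ T → ∀ w : ℕ, w₀ ≤ w → ∃ H₀ : ℝ, ∀ H : ℝ, H₀ ≤ H →
      (((sysZ ι e H).filter (fun F =>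
        (∀ p : ℕ, p.Prime → p ≤ w → LocPT p N t.2.1 (subS t.1 F)) ∧
        LocRT t.2.2 (δ' / 16) (subS t.1 F) ∧ ¬ SolT N t.2.1 t.2.2 δ' (subS t.1 F))).card : ℝ) ≤
        ε / (4 * (T.card + 1)) * (sysZ ι e H).card := by
    intro t
    by_cases ht : t ∈ T
    · obtain ⟨a1, -, a3, -⟩ := hT t ht
      obtain ⟨w₀, h⟩ := hAVS ι r (n + 1) e hr1 hrn hsum t.1 a1 N hN1 t.2.1 t.2.2 a3 δ' hδ' hδ'2
        (ε / (4 * (T.card + 1))) (by positivity)
      exact ⟨w₀, fun _ => h⟩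
    · exact ⟨0, fun h => absurd h ht⟩
  choose wf hwf using hAp
  obtain ⟨w', hw'⟩ : ∃ w' : ℕ, w' = max w (T.sup wf) := ⟨_, rfl⟩
  obtain ⟨H₁, hH₁⟩ := hcount w' (by rw [hw']; exact le_max_left _ _)
  have hLp : ∀ t : Tr ι n, ∃ H₀ : ℝ, t ∈ T → ∀ H : ℝ, H₀ ≤ H →
      (((sysZ ι e H).filter (fun F =>
        (∀ p : ℕ, p.Prime → p ≤ w' → LocPT p N t.2.1 (subS t.1 F)) ∧
        LocRT t.2.2 (δ' / 16) (subS t.1 F) ∧ ¬ SolT N t.2.1 t.2.2 δ' (subS t.1 F))).card : ℝ) ≤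
        ε / (4 * (T.card + 1)) * (sysZ ι e H).card := by
    intro t
    by_cases ht : t ∈ T
    · obtain ⟨H₀, h⟩ := hwf t ht w' (by rw [hw']; exact (Finset.le_sup ht).trans (le_max_right _ _))
      exact ⟨H₀, fun _ => h⟩
    · exact ⟨0, fun h => absurd h ht⟩
  choose Lf hLf using hLp
  refine ⟨max (max H₁ (∑ t ∈ T, |Lf t|)) (∑ p ∈ Finset.range (w + 1), |Hf p|), fun H hH => ?_⟩
  have hHH1 : H₁ ≤ H := ((le_max_left _ _).trans (le_max_left _ _)).trans hH
  have hHH2 : ∑ t ∈ T, |Lf t| ≤ H := ((le_max_right _ _).trans (le_max_left _ _)).trans hH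
  have hHf' : ∀ p, p ≤ w → Hf p ≤ H := by
    intro p hp
    have h1 : |Hf p| ≤ ∑ p ∈ Finset.range (w + 1), |Hf p| :=
      Finset.single_le_sum (f := fun p => |Hf p|) (fun _ _ => abs_nonneg _)
        (Finset.mem_range.2 (Nat.lt_succ_iff.2 hp))
    exact (le_abs_self _).trans (h1.trans ((le_max_right _ _).trans hH))
  have hLf' : ∀ t ∈ T, Lf t ≤ H := by
    intro t ht
    have h1 : |Lf t| ≤ ∑ t ∈ T, |Lf t| :=
      Finset.single_le_sum (f := fun t => |Lf t|) (fun _ _ => abs_nonneg _) ht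
    exact (le_abs_self _).trans (h1.trans hHH2)
  obtain ⟨G, hG⟩ : ∃ G : Finset (Fin r → MvPolynomial ι ℤ), G = sysZ ι e H := ⟨_, rfl⟩
  rw [← hG]
  obtain ⟨As, hAs⟩ : ∃ As : ℕ → Finset (Fin r → MvPolynomial ι ℤ), As = fun p => G.filter (fun F =>
      ∃ _ : Fact p.Prime, ∃ (c : C) (y : Y → ℚ_[p])
        (x : Fin (n + 1) → ℚ_[p]), ZeroP A F p c y x ∧
        ¬ ∃ (y' : Y → ℤ) (x' : Fin (n + 1) → ℤ), RobP A p (Jf p) F c y' x') := ⟨_, rfl⟩
  obtain ⟨Cs, hCs⟩ : ∃ Cs : Finset (Fin r → MvPolynomial ι ℤ), Cs = G.filter (fun F =>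
      MatchP A D J' F ∧
      (∀ p : ℕ, p.Prime → D.m < p → p ≤ w → ∃ c y x, RobP A p (J' p) F c y x) ∧
      MatchR A D α γ H F ∧ ¬ ∃ t ∈ T, LocT w' N δ' t F) := ⟨_, rfl⟩
  obtain ⟨Es, hEs⟩ : ∃ Es : Tr ι n → Finset (Fin r → MvPolynomial ι ℤ), Es = fun t =>
      G.filter (fun F => (∀ p : ℕ, p.Prime → p ≤ w' → LocPT p N t.2.1 (subS t.1 F)) ∧
        LocRT t.2.2 (δ' / 16) (subS t.1 F) ∧ ¬ SolT N t.2.1 t.2.2 δ' (subS t.1 F)) := ⟨_, rfl⟩
  have hsub : G.filter (fun F => MatchP A D J F ∧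
      (∀ (p : ℕ) [Fact p.Prime], D.m < p → ∃ z ∈ V.P p, ∀ j, MvPolynomial.aeval z (F j) = 0) ∧
      MatchR A D α γ H F ∧
      ¬ ∃ z : ι → ℤ, (fun i => (z i : ℚ)) ∈ V.Q ∧ (∀ j, MvPolynomial.eval z (F j) = 0) ∧
        CloseT A D m₀ δ z) ⊆
      (Finset.range (w + 1)).biUnion As ∪ (Cs ∪ T.biUnion Es) := by
    intro F hF
    obtain ⟨hFG, hmp, hpad, hmr, hsol⟩ := Finset.mem_filter.1 hF
    by_cases hrob : ∀ p : ℕ, p.Prime → D.m < p → p ≤ w → ∃ c y x, RobP A p (J' p) F c y x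
    · by_cases hg3 : ∃ t ∈ T, LocT w' N δ' t F
      · obtain ⟨t, ht, ht1, ht2⟩ := hg3
        refine Finset.mem_union_right _ (Finset.mem_union_right _ ?_)
        refine Finset.mem_biUnion.2 ⟨t, ht, ?_⟩
        rw [hEs]
        exact Finset.mem_filter.2 ⟨hFG, ht1, ht2, fun h => hsol (px_excd_sol (hT t ht) h)⟩
      · refine Finset.mem_union_right _ (Finset.mem_union_left _ ?_)
        rw [hCs]
        exact Finset.mem_filter.2 ⟨hFG, hMP F hmp, hrob, hmr, hg3⟩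
    · push Not at hrob
      obtain ⟨p, hp, hpD, hpw, hrob⟩ := hrob
      refine Finset.mem_union_left _ (Finset.mem_biUnion.2 ⟨p, ?_, ?_⟩)
      · exact Finset.mem_range.2 (Nat.lt_succ_iff.2 hpw)
      · have hpf : Fact p.Prime := ⟨hp⟩
        obtain ⟨z, hz, hzF⟩ := hpad p hpD
        obtain ⟨a, c, y, x, ha, hy, hx0, hx, hzx⟩ := hVA.coverP p z hz
        have e1 : J' p = Jf p := by
          rw [hJ']
          simp only
          rw [if_neg (not_le.2 hpD)]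
        rw [e1] at hrob
        rw [hAs]
        refine Finset.mem_filter.2 ⟨hFG, hpf, c, y, x, ⟨hy, hx0, hx, fun j => ?_⟩, ?_⟩
        · have hFj : (F j).IsHomogeneous (e j + 2) := by
            rw [hG] at hFG
            exact (mem_sysZ.1 hFG j).1
          have h1 := hzF j
          rw [hzx, px_excd_smul hFj] at h1
          exact (mul_eq_zero.1 h1).resolve_left (pow_ne_zero _ ha)
        · rintro ⟨y', x', h5⟩
          exact hrob c y' x' h5
  have hg0 : (0 : ℝ) ≤ G.card := Nat.cast_nonneg _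
  have hAc : ((((Finset.range (w + 1)).biUnion As).card : ℕ) : ℝ) ≤ ε / 4 * G.card := by
    calc ((((Finset.range (w + 1)).biUnion As).card : ℕ) : ℝ) ≤
          ∑ p ∈ Finset.range (w + 1), ((As p).card : ℝ) := by
          exact_mod_cast Finset.card_biUnion_le
      _ ≤ ∑ p ∈ Finset.range (w + 1), ε / (4 * (w + 1)) * G.card := by
          refine Finset.sum_le_sum fun p hp => ?_
          have hpw : p ≤ w := Nat.lt_succ_iff.1 (Finset.mem_range.1 hp)
          rw [hAs, hG]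
          exact hHf p H (hHf' p hpw)
      _ = ((w + 1 : ℕ) : ℝ) * (ε / (4 * (w + 1)) * G.card) := by
          rw [Finset.sum_const, nsmul_eq_mul, Finset.card_range]
      _ = ε / 4 * G.card := by
          push_cast
          field_simp
  have hCc : (Cs.card : ℝ) ≤ ε / 4 * G.card := by
    rw [hCs, hG]
    exact hH₁ H hHH1
  have hEc : ((T.biUnion Es).card : ℝ) ≤ ε / 4 * G.card := by
    calc ((T.biUnion Es).card : ℝ) ≤ ∑ t ∈ T, ((Es t).card : ℝ) := by
          exact_mod_cast Finset.card_biUnion_le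
      _ ≤ ∑ t ∈ T, ε / (4 * (T.card + 1)) * G.card := by
          refine Finset.sum_le_sum fun t ht => ?_
          rw [hEs, hG]
          exact hLf t ht H (hLf' t ht)
      _ = T.card * (ε / (4 * (T.card + 1)) * G.card) := by rw [Finset.sum_const, nsmul_eq_mul]
      _ ≤ (T.card + 1) * (ε / (4 * (T.card + 1)) * G.card) :=
          mul_le_mul_of_nonneg_right (by linarith) (by positivity)
      _ = ε / 4 * G.card := by
          field_simp
  have h1 := Finset.card_le_card hsub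
  have h2 : (((Finset.range (w + 1)).biUnion As ∪ (Cs ∪ T.biUnion Es)).card : ℝ) ≤
      (((Finset.range (w + 1)).biUnion As).card : ℕ) + (Cs.card + (T.biUnion Es).card) := by
    have q1 := Finset.card_union_le ((Finset.range (w + 1)).biUnion As) (Cs ∪ T.biUnion Es)
    have q2 := Finset.card_union_le Cs (T.biUnion Es)
    exact_mod_cast q1.trans (Nat.add_le_add_left q2 _)
  have h3 := (Nat.cast_le (α := ℝ)).2 h1
  have h4 : 0 ≤ ε * G.card := by positivity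
  linarith

end Pool.Agent.H731.GS
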