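import Pool.Agent.H731.GS.Stm
import Pool.Graph.R_seed8.Y716.D.Main

/-!
# GS, package EXWT: the starting theorem with a target, and with local solubility only up to `w`
-/

set_option autoImplicit false

namespace Pool.Agent.H731.GS

open Pool.Agent.Y716.Q Pool.Agent.Y716.C Pool.Agent.Y363.C7 Filter Topology

/-- local solubility near a target at the real place and at the primes up to `w` -/
private def exwLoc {k : ℕ} {s : ℕ} (w N : ℕ) (c : Fin k → ℤ) (ζ : Fin k → ℝ) (δ : ℝ)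
    (f : Fin s → MvPolynomial (Fin k) ℤ) : Prop :=
  (∀ p : ℕ, p.Prime → p ≤ w → LocPT p N c f) ∧
  ∃ (r : Fin k) (ξ : Fin k → ℝ), ξ r = 1 ∧ (∀ i, |ξ i| ≤ 1) ∧ (∀ i, |ξ i - ζ i| ≤ δ) ∧
    ∀ j, MvPolynomial.aeval ξ (f j) = 0

open scoped Classical in
/-- `Pool.Agent.Y363.C7.exc_sys` with local conditions only at the real place and up to `w`. -/
private theorem exw_aux {k : ℕ} {s : ℕ} (hs : 1 ≤ s) (e : Fin s → ℕ)
    (hcl : Pool.Agent.Y716.C.ClassStmtS (Fin k) e) (h1 : Pool.Agent.Y716.C.BadCountInt (Fin k) e)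
    (h2 : Pool.Agent.Y716.C.BadCountReal (Fin k) e) (h3 : Pool.Agent.Y716.C.StableStmt (Fin k) s)
    (h4 : Pool.Agent.Y716.C.MinorStmt (Fin k) s) :
    ∀ N : ℕ, 1 ≤ N → ∀ (c : Fin k → ℤ) (ζ : Fin k → ℝ) (δ : ℝ), 0 < δ → ∀ ε : ℝ, 0 < ε →
    ∃ W₀ : ℕ, ∀ w : ℕ, W₀ ≤ w → ∃ H₀ : ℝ, ∀ H : ℝ, H₀ ≤ H →
    (((sysZ (Fin k) e H).filter (fun f => exwLoc w N c ζ δ f ∧ ¬ SolTS N c ζ δ f)).card : ℝ) ≤
        ε * (sysZ (Fin k) e H).card := by
  intro N hN c ζ δ hδ ε hε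
  obtain ⟨T, hT⟩ : ∃ T : ℝ, T = ∏ j, (3 : ℝ) ^ (mons (Fin k) (e j + 2)).card := ⟨_, rfl⟩
  have hT0 : 0 < T := by rw [hT]; exact Finset.prod_pos fun j _ => by positivity
  obtain ⟨w₀, hw₀1, hcl⟩ := hcl (ε / (4 * T)) (by positivity)
  refine ⟨w₀ + N, fun w hw => ?_⟩
  obtain ⟨Cb, hCb0, hCb⟩ := h2
  obtain ⟨Cm, hCm1, hCm⟩ := h4
  have hCm0 : 0 < Cm := by linarith
  choose Cf hCf1 hCf using fun j : Fin s => form_bounds (ι := Fin k) (e j + 1)
  have hCf0 : ∀ j, 0 < Cf j := fun j => by have := hCf1 j; linarith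
  have hCf' : ∀ j, ∀ (f : MvPolynomial (Fin k) ℤ) (R : ℝ), IsF (e j + 1) R f →
      ∀ x : (Fin k) → ℝ, (∀ i, |x i| ≤ 1) → |MvPolynomial.aeval x f| ≤ Cf j * R := by
    intro j f R hf x hx
    have := (hCf j f R hf.1 hf.2 1 (by norm_num)).1 x hx
    rwa [one_pow, mul_one] at this
  obtain ⟨K, hK⟩ : ∃ K : ℝ, K = ∑ j, Cf j * (e j + 2) + 1 := ⟨_, rfl⟩
  have hKj : ∀ j, Cf j * (e j + 2) ≤ K := by
    intro j
    rw [hK]
    have h5 : ∀ j ∈ (Finset.univ : Finset (Fin s)), 0 ≤ Cf j * ((e j : ℝ) + 2) := fun j _ =>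
      mul_nonneg (hCf0 j).le (by positivity)
    have := Finset.single_le_sum h5 (Finset.mem_univ j)
    linarith
  have hK0 : 0 < K := by
    have h5 : 0 ≤ ∑ j, Cf j * ((e j : ℝ) + 2) := Finset.sum_nonneg fun j _ =>
      mul_nonneg (hCf0 j).le (by positivity)
    rw [hK]
    linarith
  have hs0 : (0 : ℝ) < s := by exact_mod_cast hs
  obtain ⟨γ₂, hγ₂⟩ : ∃ γ₂ : ℝ, γ₂ = min 1 (ε / (4 * Cb * T)) := ⟨_, rfl⟩
  have hγ₂0 : 0 < γ₂ := by rw [hγ₂]; exact lt_min one_pos (by positivity)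
  have hγ₂1 : γ₂ ≤ 1 := by rw [hγ₂]; exact min_le_left _ _
  have hγ₂C : Cb * γ₂ * T ≤ ε / 4 := by
    have h1 : γ₂ ≤ ε / (4 * Cb * T) := by rw [hγ₂]; exact min_le_right _ _
    rw [le_div_iff₀ (by positivity)] at h1
    linarith
  obtain ⟨γ, hγ⟩ : ∃ γ : ℝ, γ = γ₂ / (2 * Cm) := ⟨_, rfl⟩
  have hγ0 : 0 < γ := by rw [hγ]; positivity
  have hγ1 : γ ≤ 1 := by
    rw [hγ, div_le_one (by positivity)]
    linarith
  obtain ⟨ℓ₀, hℓ₀⟩ : ∃ ℓ₀ : ℕ, (1 / 2 : ℝ) ^ ℓ₀ < ε / (4 * ((w + 1) * (k * s) * T) + 1) :=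
    exists_pow_lt_of_lt_one (by positivity) (by norm_num)
  obtain ⟨ℓ, hℓ⟩ : ∃ ℓ : ℕ, ℓ = ℓ₀ + N := ⟨_, rfl⟩
  have hℓ1 : 1 ≤ ℓ := by omega
  have hℓε : (1 / 2 : ℝ) ^ ℓ * ((w + 1) * (k * s) * T) ≤ ε / 4 := by
    have h1 : (1 / 2 : ℝ) ^ ℓ ≤ (1 / 2) ^ ℓ₀ :=
      pow_le_pow_of_le_one (by norm_num) (by norm_num) (by omega)
    have h2 : (0:ℝ) ≤ (w + 1) * (k * s) * T := by positivity
    have h3 := h1.trans hℓ₀.le
    rw [le_div_iff₀ (by positivity)] at h3
    have h4 : (0:ℝ) ≤ (1 / 2) ^ ℓ := by positivity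
    linarith
  obtain ⟨Q, hQ⟩ : ∃ Q : ℕ, Q = (∏ p ∈ primesUpTo w, p) ^ (2 * ℓ + 1) := ⟨_, rfl⟩
  have hQ1 : 1 ≤ Q := by
    rw [hQ]
    exact pow_pos (Finset.prod_pos (fun p hp => (mem_primesUpTo.mp hp).2.pos)) _
  obtain ⟨η₀, hη₀⟩ : ∃ η₀ : ℝ, η₀ = min δ (γ / ((s : ℝ) ^ 2 * K)) := ⟨_, rfl⟩
  have hη₀0 : 0 < η₀ := by rw [hη₀]; exact lt_min hδ (by positivity)
  have hη₀δ : η₀ ≤ δ := by rw [hη₀]; exact min_le_left _ _
  have hη₀γ : η₀ ≤ γ / ((s : ℝ) ^ 2 * K) := by rw [hη₀]; exact min_le_right _ _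
  obtain ⟨η, hη0, hη1, hηη₀, H₁, hH₁⟩ := hcl w (by omega) γ hγ0 hγ1 Q hQ1 η₀ hη₀0
  have hηC : ∀ j, (s : ℝ) ^ 2 * (Cf j * (e j + 2) * η) ≤ γ := by
    intro j
    have h1 := hηη₀.trans hη₀γ
    rw [le_div_iff₀ (by positivity)] at h1
    have h2 : Cf j * (e j + 2) * η ≤ K * η := mul_le_mul_of_nonneg_right (hKj j) hη0.le
    have h3 := mul_le_mul_of_nonneg_left h2 (by positivity : (0:ℝ) ≤ (s : ℝ) ^ 2)
    linarith
  refine ⟨max (max H₁ 2) (max (1 / γ₂) ((w : ℝ) ^ ℓ)), fun H hH => ?_⟩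
  have hH1 : H₁ ≤ H := (le_max_left _ _).trans ((le_max_left _ _).trans hH)
  have hH2 : 2 ≤ H := (le_max_right _ _).trans ((le_max_left _ _).trans hH)
  have hH3 : 1 / γ₂ ≤ H := (le_max_left _ _).trans ((le_max_right _ _).trans hH)
  have hH4 : (w : ℝ) ^ ℓ ≤ H := (le_max_right _ _).trans ((le_max_right _ _).trans hH)
  have hH0 : 0 < H := by linarith
  obtain ⟨G, hG⟩ : ∃ G : ℝ, ((sysZ (Fin k) e H).card : ℝ) = G := ⟨_, rfl⟩
  have hG0 : 0 < G := by
    rw [← hG, card_sysZ]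
    exact_mod_cast Finset.prod_pos fun j _ => card_forms_pos (ι := Fin k) (e j + 2) hH0.le
  have h2H : ((sysZ (Fin k) e (2 * H)).card : ℝ) ≤ T * G := by
    rw [← hG, card_sysZ, card_sysZ, hT]
    push_cast
    rw [← Finset.prod_mul_distrib]
    apply Finset.prod_le_prod
    · intro j _
      positivity
    · intro j _
      exact card_forms_upper (ι := Fin k) (e j + 2) (A := H) (R := 2 * H) (c := 3)
        (by linarith) (by linarith) (by norm_num) (by linarith)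
  -- good systems
  have hgood : (((sysZ (Fin k) e H).filter (fun f => GoodDS w γ H Q N c ζ δ f ∧
      ¬ SolTS N c ζ δ f)).card : ℝ) ≤ ε / 4 * G := by
    have h1 := avg_countS (e := e) (w := w) (γ := γ) (η := η) (H := H) (Cf := Cf) (Q := Q) (N := N)
      (c := c) (ζ := ζ) (δ := δ) hs hQ1 hγ0 hH0 hη0.le hη1 hCf' hηC (fun f => ¬ SolTS N c ζ δ f)
      (ε := ε / (4 * T)) (by positivity) (by
        rintro f ⟨S, J, xc, ξ, a, Li, h1, h2, h3, h4, h5, h6⟩
        have h7 := hH₁ H hH1 f S J xc ξ a Li h1 h6 h2.le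
        rw [h2] at h7
        refine (card_filter_le' _ _ _ (fun g _ hg hz => hg ?_)).trans h7
        have h9 := ZeroNearS_solT hz hη₀δ h3 h4 h5
        have h10 : memS f S J g = fun j => f j + MvPolynomial.C (Q : ℤ) * g j := by
          funext j
          unfold memS mem'
          rw [h2]
        rwa [h10] at h9)
    refine (card_filter_le' _ _ _ (fun _ _ h => h)).trans (h1.trans ?_)
    have h2 := mul_le_mul_of_nonneg_left h2H (by positivity : 0 ≤ ε / (4 * T))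
    refine h2.trans (le_of_eq ?_)
    field_simp
  -- degenerate real zeros
  have hbadR : (((sysZ (Fin k) e H).filter (fun f => BadRS γ₂ H f)).card : ℝ) ≤ ε / 4 * G := by
    have h1 := hCb γ₂ H hγ₂0 hγ₂1 (by
      rw [div_le_iff₀ (by positivity)] at hH3
      linarith)
    have h2 : (((sysZ (Fin k) e H).filter (fun f => BadRS γ₂ H f)).card : ℝ) ≤
        Cb * γ₂ * (sysZ (Fin k) e (2 * H)).card :=
      (card_filter_le' _ _ _ (fun _ _ h => h)).trans h1
    have h3 := mul_le_mul_of_nonneg_left h2H (by positivity : 0 ≤ Cb * γ₂)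
    have h4 := mul_le_mul_of_nonneg_right hγ₂C hG0.le
    linarith
  -- degenerate zeros modulo prime powers
  have hbadP : ∀ p ∈ primesUpTo w, (((sysZ (Fin k) e H).filter
      (fun f => BadAtS (p ^ ℓ) f)).card : ℝ) ≤ (1 / 2 : ℝ) ^ ℓ * ((k * s) * (T * G)) := by
    intro p hp
    obtain ⟨hp1, hp2⟩ := mem_primesUpTo.mp hp
    have h1 := h1 (p ^ ℓ) (Nat.pos_of_ne_zero (pow_ne_zero _ hp2.ne_zero)) H hH0.le
    have h2 : (((sysZ (Fin k) e H).filter (fun f => BadAtS (p ^ ℓ) f)).card : ℝ) *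
        ((p ^ ℓ : ℕ) : ℝ) ≤ (k * s) * ((sysZ (Fin k) e (H + (p ^ ℓ : ℕ))).card : ℝ) := by
      have h1' := (Nat.cast_le (α := ℝ)).mpr h1
      rw [Nat.cast_mul, Nat.cast_mul, Nat.cast_mul, Fintype.card_fin] at h1'
      exact (mul_le_mul_of_nonneg_right (card_filter_le' _ _ _ (fun _ _ h => h))
        (Nat.cast_nonneg _)).trans h1'
    have h3 : ((p ^ ℓ : ℕ) : ℝ) ≤ H := by
      refine le_trans ?_ hH4
      push_cast
      apply pow_le_pow_left₀ (Nat.cast_nonneg _)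
      exact_mod_cast hp1
    have h4 : ((sysZ (Fin k) e (H + (p ^ ℓ : ℕ))).card : ℝ) ≤ T * G := by
      refine le_trans ?_ h2H
      exact_mod_cast Finset.card_le_card (Pool.Agent.Y363.C7.sysZ_mono (by linarith))
    have h5 : (2:ℝ) ^ ℓ ≤ ((p ^ ℓ : ℕ) : ℝ) := by
      push_cast
      apply pow_le_pow_left₀ (by norm_num)
      exact_mod_cast hp2.two_le
    have h6 : (((sysZ (Fin k) e H).filter (fun f => BadAtS (p ^ ℓ) f)).card : ℝ) * 2 ^ ℓ ≤
        (k * s) * (T * G) :=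
      (mul_le_mul_of_nonneg_left h5 (Nat.cast_nonneg _)).trans
        (h2.trans (mul_le_mul_of_nonneg_left h4 (by positivity)))
    rw [one_div, inv_pow, inv_mul_eq_div, le_div_iff₀ (by positivity)]
    exact h6
  -- covering
  have hcov : (sysZ (Fin k) e H).filter (fun f => exwLoc w N c ζ δ f ∧ ¬ SolTS N c ζ δ f) ⊆
      ((sysZ (Fin k) e H).filter (fun f => GoodDS w γ H Q N c ζ δ f ∧ ¬ SolTS N c ζ δ f)) ∪
      ((primesUpTo w).biUnion (fun p => (sysZ (Fin k) e H).filter (fun f => BadAtS (p ^ ℓ) f)) ∪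
      (sysZ (Fin k) e H).filter (fun f => BadRS γ₂ H f)) := by
    intro f hf
    obtain ⟨hf1, hf2, hf3⟩ := Finset.mem_filter.mp hf
    rw [Finset.mem_union, Finset.mem_union, Finset.mem_biUnion, Finset.mem_filter,
      Finset.mem_filter]
    by_cases hbf : ∃ p ∈ primesUpTo w, BadAtS (p ^ ℓ) f
    · obtain ⟨p, hp, hb⟩ := hbf
      right; left
      exact ⟨p, hp, Finset.mem_filter.mpr ⟨hf1, hb⟩⟩
    by_cases hbr : BadRS γ₂ H f
    · right; right; exact ⟨hf1, hbr⟩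
    left
    refine ⟨hf1, ?_, hf3⟩
    push Not at hbf
    obtain ⟨S, J, xc, h1, h2, h3, h4⟩ := h3 w ℓ hℓ1 f N c
      (prime_pow_cond hN (by omega) (by omega))
      (fun p hp => ⟨hf2.1 p (mem_primesUpTo.mp hp).2 (mem_primesUpTo.mp hp).1 _, hbf p hp⟩)
    obtain ⟨r, ξ, hξr, hξ1, hξζ, hξ0⟩ := hf2.2
    obtain ⟨a, Li, ha, hLi, hLi2⟩ := hCm γ₂ (Matrix.of fun (j : Fin s) (i : (Fin k)) =>
      (MvPolynomial.aeval ξ (MvPolynomial.pderiv i (f j)) : ℝ) / H) hγ₂0 (by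
      intro j₀ l hl0 hl1
      by_contra hcon
      push Not at hcon
      apply hbr
      refine ⟨r, ξ, j₀, l, hξr, hξ1, hl0, hl1, ?_, ?_⟩
      · intro j
        rw [hξ0 j, abs_zero]; positivity
      · intro i
        have h5 := hcon i
        have h6 : ∑ j, l j * (Matrix.of fun (j : Fin s) (i : (Fin k)) =>
            (MvPolynomial.aeval ξ (MvPolynomial.pderiv i (f j)) : ℝ) / H) j i =
            (∑ j, l j * MvPolynomial.aeval ξ (MvPolynomial.pderiv i (f j))) / H := by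
          rw [Finset.sum_div]
          refine Finset.sum_congr rfl fun j _ => ?_
          rw [Matrix.of_apply, mul_div_assoc]
        rw [h6, abs_div, abs_of_pos hH0, div_le_iff₀ hH0] at h5
        exact h5)
    refine ⟨S, J, xc, ξ, a, Li, h1, by rw [h2, hQ], h3, h4, ⟨r, hξr⟩, hξ1, hξζ, hξ0, ha, hLi, ?_⟩
    intro j j'
    refine (hLi2 j j').trans (le_of_eq ?_)
    rw [hγ]
    field_simp
  have h1 : (((sysZ (Fin k) e H).filter
      (fun f => exwLoc w N c ζ δ f ∧ ¬ SolTS N c ζ δ f)).card : ℝ) ≤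
      (((sysZ (Fin k) e H).filter (fun f => GoodDS w γ H Q N c ζ δ f ∧
        ¬ SolTS N c ζ δ f)).card : ℝ) +
      ((∑ p ∈ primesUpTo w, (((sysZ (Fin k) e H).filter (fun f => BadAtS (p ^ ℓ) f)).card : ℝ)) +
      (((sysZ (Fin k) e H).filter (fun f => BadRS γ₂ H f)).card : ℝ)) := by
    have h2 := (Finset.card_le_card hcov).trans ((Finset.card_union_le _ _).trans
      (Nat.add_le_add_left ((Finset.card_union_le _ _).trans
        (Nat.add_le_add_right Finset.card_biUnion_le _)) _))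
    exact_mod_cast h2
  have h2 : (∑ p ∈ primesUpTo w, (((sysZ (Fin k) e H).filter
      (fun f => BadAtS (p ^ ℓ) f)).card : ℝ)) ≤ ε / 4 * G := by
    calc _ ≤ (primesUpTo w).card • ((1 / 2 : ℝ) ^ ℓ * ((k * s) * (T * G))) :=
          Finset.sum_le_card_nsmul _ _ _ hbadP
      _ = ((primesUpTo w).card : ℝ) * ((1 / 2 : ℝ) ^ ℓ * ((k * s) * (T * G))) := by
          rw [nsmul_eq_mul]
      _ ≤ (w + 1) * ((1 / 2 : ℝ) ^ ℓ * ((k * s) * (T * G))) := by
          apply mul_le_mul_of_nonneg_right _ (by positivity)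
          have : (primesUpTo w).card ≤ w + 1 := by
            unfold primesUpTo
            refine (Finset.card_filter_le _ _).trans ?_
            rw [Finset.card_range]
          exact_mod_cast this
      _ = ((1 / 2 : ℝ) ^ ℓ * ((w + 1) * (k * s) * T)) * G := by ring
      _ ≤ ε / 4 * G := mul_le_mul_of_nonneg_right hℓε hG0.le
  have h3 : 0 < ε * G := by positivity
  have h5 : (((sysZ (Fin k) e H).filter
      (fun f => exwLoc w N c ζ δ f ∧ ¬ SolTS N c ζ δ f)).card : ℝ) ≤ ε * G := by linarith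
  rw [hG]
  exact (card_filter_le' _ _ _ (fun _ _ h => h)).trans h5


theorem pEXWT : S_EXWT := by
  classical
  intro r k e hr hk hdeg N hN c ζ hζ δ hδ hδ2 ε hε
  have h3 : r + 3 ≤ Fintype.card (Fin k) := by rw [Fintype.card_fin]; exact hk
  have hd : ∑ j, (e j + 2) + 1 ≤ Fintype.card (Fin k) := by rw [Fintype.card_fin]; exact hdeg
  have hk0 : (0 : ℝ) < k := by
    have : 0 < k := by omega
    exact_mod_cast this
  choose W₀ hW₀ using fun r' : Fin k => exw_aux hr e (Pool.Agent.Y716.D.class_all (Fin k) hr h3 e hd)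
    (Pool.Agent.Y232.CS.bad_int (Fin k) e) (Pool.Agent.Y407.C4.bad_real (Fin k) e)
    (Pool.Agent.Y813.C5.stable (Fin k) r) (Pool.Agent.Z864.C.minor (Fin k) r) N hN c
    (fun i => ζ i / ζ r') (δ / 7) (by positivity) (ε / k) (by positivity)
  refine ⟨∑ r', W₀ r', fun w hw => ?_⟩
  have hww : ∀ r', W₀ r' ≤ w := fun r' =>
    (Finset.single_le_sum (fun i _ => Nat.zero_le _) (Finset.mem_univ r')).trans hw
  choose H₀ hH₀ using fun r' : Fin k => hW₀ r' w (hww r')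
  refine ⟨∑ r', |H₀ r'|, fun H hH => ?_⟩
  have hHH : ∀ r', H₀ r' ≤ H := fun r' =>
    (le_abs_self _).trans ((Finset.single_le_sum (fun i _ => abs_nonneg (H₀ i))
      (Finset.mem_univ r')).trans hH)
  have hcov : (sysZ (Fin k) e H).filter (fun f => (∀ p : ℕ, p.Prime → p ≤ w → LocPT p N c f) ∧
      LocRT ζ (δ / 16) f ∧ ¬ SolT N c ζ δ f) ⊆ Finset.univ.biUnion fun r' : Fin k =>
      (sysZ (Fin k) e H).filter (fun f => exwLoc w N c (fun i => ζ i / ζ r') (δ / 7) f ∧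
        ¬ SolTS N c (fun i => ζ i / ζ r') (δ / 7) f) := by
    intro f hf
    obtain ⟨hf1, hf2, hf3, hf4⟩ := Finset.mem_filter.mp hf
    obtain ⟨ξ, hξ1, hξ0⟩ := hf3
    obtain ⟨hζ1, r₀, hζr₀⟩ := hζ
    obtain ⟨r', -, hr'⟩ := Finset.exists_max_image (Finset.univ : Finset (Fin k)) (fun i => |ξ i|)
      ⟨r₀, Finset.mem_univ _⟩
    have h5 : |ζ r₀| - |ξ r₀| ≤ δ / 16 := by
      have := abs_sub_abs_le_abs_sub (ζ r₀) (ξ r₀)
      rw [abs_sub_comm] at this
      exact this.trans (hξ1 r₀)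
    have h6 : |ξ r'| - |ζ r'| ≤ δ / 16 :=
      (abs_sub_abs_le_abs_sub (ξ r') (ζ r')).trans (hξ1 r')
    have h7 := hr' r₀ (Finset.mem_univ _)
    have hξr : 31 / 32 ≤ |ξ r'| := by
      rw [hζr₀] at h5
      linarith
    have hζr : 15 / 16 ≤ |ζ r'| := by
      linarith
    have hξr0 : ξ r' ≠ 0 := by
      intro h
      rw [h, abs_zero] at hξr
      norm_num at hξr
    have hζr0 : ζ r' ≠ 0 := by
      intro h
      rw [h, abs_zero] at hζr
      norm_num at hζr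
    refine Finset.mem_biUnion.mpr ⟨r', Finset.mem_univ _, Finset.mem_filter.mpr ⟨hf1, ⟨hf2,
      r', fun i => (ξ r')⁻¹ * ξ i, ?_, ?_, ?_, ?_⟩, ?_⟩⟩
    · exact inv_mul_cancel₀ hξr0
    · intro i
      rw [abs_mul, abs_inv, inv_mul_le_iff₀ (by linarith), mul_one]
      exact hr' i (Finset.mem_univ _)
    · intro i
      have h8 : (ξ r')⁻¹ * ξ i - ζ i / ζ r' =
          ((ξ i - ζ i) * ζ r' + ζ i * (ζ r' - ξ r')) / (ξ r' * ζ r') := by
        field_simp
        ring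
      rw [h8, abs_div, abs_mul (ξ r'), div_le_iff₀ (by positivity)]
      have h9 : |(ξ i - ζ i) * ζ r' + ζ i * (ζ r' - ξ r')| ≤ δ / 16 + δ / 16 := by
        refine (abs_add_le _ _).trans (add_le_add ?_ ?_)
        · rw [abs_mul]
          have := mul_le_mul (hξ1 i) (hζ1 r') (abs_nonneg _) (by positivity)
          rwa [mul_one] at this
        · rw [abs_mul, abs_sub_comm]
          have := mul_le_mul (hζ1 i) (hξ1 r') (abs_nonneg _) (by norm_num)
          rwa [one_mul] at this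
      have h10 : 31 / 32 * (15 / 16) ≤ |ξ r'| * |ζ r'| :=
        mul_le_mul hξr hζr (by norm_num) (abs_nonneg _)
      have h11 := mul_le_mul_of_nonneg_left h10 (by positivity : 0 ≤ δ / 7)
      refine h9.trans (le_trans ?_ h11)
      linarith
    · intro j
      rw [aeval_smul_form ((mem_sysZ.mp hf1) j).1, hξ0 j, mul_zero]
    · rintro ⟨x, hx1, hx2, hx3, P, hP, hx4⟩
      apply hf4
      refine ⟨x, ?_, hx2, hx3, P / ζ r', div_ne_zero hP.ne' hζr0, fun i => ?_⟩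
      · rintro rfl
        have h8 := hx1 0 (fun i => dvd_refl _)
        exact not_isUnit_zero h8
      · have h8 : P / ζ r' * ζ i = P * (ζ i / ζ r') := by ring
        rw [h8]
        refine (hx4 i).trans ?_
        rw [abs_div, abs_of_pos hP, mul_div_assoc' δ P, le_div_iff₀ (by positivity)]
        have h9 := mul_le_mul_of_nonneg_left (hζ1 r') (by positivity : 0 ≤ 2 * (δ / 7) * P)
        refine h9.trans ?_
        have : 0 < δ * P := by positivity
        linarith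
  have h4 := (Finset.card_le_card hcov).trans Finset.card_biUnion_le
  have h5 : (((sysZ (Fin k) e H).filter (fun f => (∀ p : ℕ, p.Prime → p ≤ w → LocPT p N c f) ∧
      LocRT ζ (δ / 16) f ∧ ¬ SolT N c ζ δ f)).card : ℝ) ≤
      ∑ r' : Fin k, ε / k * (sysZ (Fin k) e H).card := by
    refine le_trans (Nat.cast_le.mpr h4) ?_
    push_cast
    refine Finset.sum_le_sum fun r' _ => ?_
    exact (card_filter_le' _ _ _ (fun _ _ h => h)).trans (hH₀ r' H (hHH r'))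
  refine (card_filter_le' _ _ _ (fun _ _ h => h)).trans (h5.trans (le_of_eq ?_))
  rw [Finset.sum_const, Finset.card_univ, Fintype.card_fin, nsmul_eq_mul]
  field_simp

end Pool.Agent.H731.GS
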