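import Pool.Agent.H731.GS.Stm

/-!
# Project GS, package FIN: the final statement
-/

set_option autoImplicit false

namespace Pool.Agent.H731.GS

open Pool.Agent.Y716.Q Pool.Agent.Y716.C Filter Topology MvPolynomial
open Pool.Agent.T2H39.CV (Cone)

theorem px_fin_hom {ι A B : Type} [CommRing A] [CommRing B] (f : A →+* B) (F : MvPolynomial ι ℤ)
    (z : ι → A) : aeval (fun i => f (z i)) F = f (aeval z F) := by
  rw [aeval_def, aeval_def, hom_eval₂]
  congr 1
  exact RingHom.ext_int _ _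

/-- a rational point gives local points -/
theorem px_fin_loc {C ι Y : Type} {n r : ℕ} {V : Cone ι} {A : Fra C ι Y n} (hV : SweptC V A)
    {F : Fin r → MvPolynomial ι ℤ} (h : ∃ z : ι → ℤ, (fun i => (z i : ℚ)) ∈ V.Q ∧
      ∀ j, MvPolynomial.eval z (F j) = 0) : LocSolV V F := by
  obtain ⟨z, hz, h0⟩ := h
  have h1 : ∀ j, aeval (fun i => (z i : ℚ)) (F j) = 0 := by
    intro j
    rw [aeval_cast, aeval_int, h0, Int.cast_zero]
  refine ⟨⟨fun i => ((z i : ℚ) : ℝ), hV.toR _ hz, fun j => ?_⟩,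
    fun p _ => ⟨fun i => ((z i : ℚ) : ℚ_[p]), hV.toP p _ hz, fun j => ?_⟩⟩
  · have h2 := px_fin_hom (Rat.castHom ℝ) (F j) (fun i => (z i : ℚ))
    simp only [Rat.coe_castHom] at h2
    rw [h2, h1, Rat.cast_zero]
  · have h2 := px_fin_hom (Rat.castHom ℚ_[p]) (F j) (fun i => (z i : ℚ))
    simp only [Rat.coe_castHom] at h2
    rw [h2, h1, Rat.cast_zero]

theorem px_fin_mem {ι : Type} [Fintype ι] {r : ℕ} {e : Fin r → ℕ} {H : ℕ}
    {F : Fin r → MvPolynomial ι ℤ} :
    F ∈ sysZ ι e (H : ℝ) ↔ F ∈ Systems ι (fun j => e j + 2) H := by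
  rw [mem_sysZ]
  unfold IsF Systems
  rw [Set.mem_ofPred_eq]
  refine forall_congr' fun j => and_congr_right fun _ => forall_congr' fun a => ?_
  rw [← Int.cast_abs]
  constructor
  · intro h
    exact_mod_cast h
  · intro h
    exact_mod_cast h

theorem px_fin_ncard {ι : Type} [Fintype ι] {r : ℕ} {e : Fin r → ℕ} {H : ℕ}
    (P : (Fin r → MvPolynomial ι ℤ) → Prop) [DecidablePred P] :
    ({F | F ∈ Systems ι (fun j => e j + 2) H ∧ P F} : Set _).ncard =
      ((sysZ ι e (H : ℝ)).filter P).card := by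
  rw [← Set.ncard_coe_finset]
  congr 1
  ext F
  simp only [Finset.coe_filter, Set.mem_ofPred_eq, px_fin_mem]

open scoped Classical in
/-- **FIN.** The final statement. -/
theorem pFIN (h1 : S_POSC) (h2 : S_FINM) : S_FIN := by
  intro C ι Y _ _ _ n r d hC hn hr hd hdn V A hV
  obtain ⟨e, he⟩ : ∃ e : Fin r → ℕ, ∀ j, d j = e j + 2 :=
    ⟨fun j => d j - 2, fun j => by have := hd j; dsimp only; omega⟩
  obtain rfl : d = fun j => e j + 2 := funext he
  have hsum : ∑ j, (e j + 2) = ∑ j, e j + 2 * r := by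
    rw [Finset.sum_add_distrib, Finset.sum_const, Finset.card_univ, Fintype.card_fin,
      smul_eq_mul, mul_comm]
  have hdn' : ∑ j, (e j + 2) ≤ n := hdn
  have hr3 : r + 3 ≤ n + 1 := by omega
  have hdeg : ∑ j, (e j + 2) + 1 ≤ n + 1 := by omega
  obtain ⟨c, hc0, H₁, hH₁⟩ := h1 C ι Y n r e hC hr hr3 hdeg V A hV
  have hloc : ∀ H : ℕ, ({F | F ∈ Systems ι (fun j => e j + 2) H ∧ LocSolV V F} : Set _).ncard =
      ((sysZ ι e (H : ℝ)).filter (fun F => LocSolV V F)).card := fun H => px_fin_ncard _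
  have hwa : ∀ (H m : ℕ), ({F | F ∈ Systems ι (fun j => e j + 2) H ∧ LocSolV V F ∧
      WAV V m F} : Set _).ncard =
      ((sysZ ι e (H : ℝ)).filter (fun F => LocSolV V F ∧ WAV V m F)).card :=
    fun H m => px_fin_ncard _
  have hall : ∀ H : ℕ, (Systems ι (fun j => e j + 2) H).ncard = (sysZ ι e (H : ℝ)).card := by
    intro H
    rw [← Set.ncard_coe_finset]
    congr 1
    ext F
    rw [Finset.mem_coe, px_fin_mem]
  have hpos : ∀ H : ℕ, H₁ ≤ (H : ℝ) → c * ((sysZ ι e (H : ℝ)).card : ℝ) ≤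
      (((sysZ ι e (H : ℝ)).filter (fun F => LocSolV V F)).card : ℝ) := by
    intro H hH
    refine (hH₁ (H : ℝ) hH).trans ?_
    exact card_filter_le' _ _ _ (fun f _ hf => px_fin_loc hV hf)
  refine ⟨⟨c, hc0, ?_⟩, ?_⟩
  · filter_upwards [eventually_ge_atTop ⌈H₁⌉₊] with H hH
    rw [hall, hloc]
    exact hpos H ((Nat.le_ceil H₁).trans (by exact_mod_cast hH))
  have h3 := fun m : ℕ => h2 C ι Y n r e hr hr3 hdeg V A hV (m + 1) (by omega) (c / (m + 1))
    (by positivity)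
  choose Hf hHf using h3
  obtain ⟨M, hM⟩ : ∃ M : ℕ → ℕ, M = fun H : ℕ => Nat.findGreatest
      (fun j => ∀ i, i < j → Hf i ≤ (H : ℝ)) H := ⟨_, rfl⟩
  have hMtop : Tendsto M atTop atTop := by
    rw [tendsto_atTop]
    intro b
    obtain ⟨B, hB⟩ := Finset.exists_le ((Finset.range b).image Hf)
    filter_upwards [eventually_ge_atTop b, eventually_ge_atTop ⌈B⌉₊] with H hH1 hH2
    rw [hM]
    apply Nat.le_findGreatest hH1
    intro i hi
    refine (hB _ (Finset.mem_image_of_mem Hf (Finset.mem_range.mpr hi))).trans ?_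
    exact (Nat.le_ceil B).trans (by exact_mod_cast hH2)
  have hMspec : ∀ H : ℕ, 1 ≤ M H → Hf (M H - 1) ≤ (H : ℝ) := by
    intro H hH
    have h4 : ∀ i, i < M H → Hf i ≤ (H : ℝ) := by
      have := Nat.findGreatest_spec (P := fun j => ∀ i, i < j → Hf i ≤ (H : ℝ)) (m := 0) (n := H)
        (Nat.zero_le _) (fun i hi => absurd hi (Nat.not_lt_zero i))
      rw [hM]
      exact this
    exact h4 _ (by omega)
  refine ⟨M, hMtop, ?_⟩
  rw [Metric.tendsto_atTop]
  intro δ hδ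
  obtain ⟨j, hj⟩ := exists_nat_gt (1 / δ)
  have h3 := (tendsto_atTop.mp hMtop (j + 1)).and (eventually_ge_atTop ⌈H₁⌉₊)
  obtain ⟨H₂, hH₂⟩ := eventually_atTop.mp h3
  refine ⟨H₂, fun H hH => ?_⟩
  obtain ⟨h4, h5⟩ := hH₂ H hH
  have hH1 : H₁ ≤ (H : ℝ) := (Nat.le_ceil H₁).trans (by exact_mod_cast h5)
  have h6 := hpos H hH1
  have h7 := hHf (M H - 1) H (hMspec H (by omega))
  have h8 : M H - 1 + 1 = M H := by omega
  rw [h8] at h7
  have h9 : (((M H - 1 : ℕ) : ℝ) + 1) = (M H : ℝ) := by exact_mod_cast h8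
  rw [h9] at h7
  rw [hwa, hloc]
  obtain ⟨Fo, hFo⟩ : ∃ Fo, Fo = sysZ ι e (H : ℝ) := ⟨_, rfl⟩
  have hFo0 : (0 : ℝ) < Fo.card := by
    rw [hFo]
    exact_mod_cast sysZ_pos ι e (Nat.cast_nonneg (α := ℝ) H)
  rw [← hFo] at h6 h7 ⊢
  obtain ⟨a, ha⟩ : ∃ a : ℝ, a = ((Fo.filter (fun f => LocSolV V f ∧ WAV V (M H) f)).card : ℝ) :=
    ⟨_, rfl⟩
  obtain ⟨b, hb⟩ : ∃ b : ℝ, b = ((Fo.filter (fun f => LocSolV V f)).card : ℝ) := ⟨_, rfl⟩
  have hab' : a ≤ b := by
    rw [ha, hb]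
    exact card_filter_le' _ _ _ (fun f _ h => h.1)
  have hcb : c * Fo.card ≤ b := by
    rw [hb]
    exact h6
  have hM0 : (0 : ℝ) < M H := by
    have : 0 < M H := by omega
    exact_mod_cast this
  have hba : b ≤ a + c / (M H) * Fo.card := by
    have h12 : b ≤ a +
        ((Fo.filter (fun f => LocSolV V f ∧ ¬ WAV V (M H) f)).card : ℝ) := by
      have h12' : (Fo.filter (fun f => LocSolV V f)).card ≤
          (Fo.filter (fun f => LocSolV V f ∧ WAV V (M H) f)).card +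
          (Fo.filter (fun f => LocSolV V f ∧ ¬ WAV V (M H) f)).card := by
        refine le_trans (Finset.card_le_card fun f hf => ?_) (Finset.card_union_le _ _)
        rw [Finset.mem_filter] at hf
        rw [Finset.mem_union, Finset.mem_filter, Finset.mem_filter]
        by_cases hw : WAV V (M H) f
        · left; exact ⟨hf.1, hf.2, hw⟩
        · right; exact ⟨hf.1, hf.2, hw⟩
      rw [ha, hb]
      exact_mod_cast h12'
    linarith
  have hb0 : 0 < b := lt_of_lt_of_le (by positivity) hcb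
  rw [← ha, ← hb, Real.dist_eq]
  have h13 : a / b - 1 = -((b - a) / b) := by field_simp; ring
  rw [h13, abs_neg, abs_of_nonneg (div_nonneg (by linarith) hb0.le), div_lt_iff₀ hb0]
  have h14 : c / (M H) * Fo.card ≤ 1 / (M H) * b := by
    have := mul_le_mul_of_nonneg_left hcb (by positivity : 0 ≤ 1 / (M H : ℝ))
    refine le_trans (le_of_eq ?_) this
    ring
  have h15 : 1 / (M H : ℝ) < δ := by
    rw [div_lt_iff₀ hM0]
    rw [div_lt_iff₀ hδ] at hj
    have h16 : (j : ℝ) + 1 ≤ M H := by exact_mod_cast h4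
    have h17 := mul_le_mul_of_nonneg_left h16 hδ.le
    linarith
  have h18 := mul_lt_mul_of_pos_right h15 hb0
  linarith

end Pool.Agent.H731.GS
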