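import Pool.Agent.H731.GS.Stm

/-!
# Package FINM: weak approximation with a fixed precision
-/

set_option autoImplicit false

namespace Pool.Agent.H731.GS

open Pool.Agent.Y716.Q Pool.Agent.Y716.C
open Pool.Agent.T2H41.CX (NonD NonDR GoodM QJ)
open Pool.Agent.T2H39.CV (Cone IsCone subL Left Inside kerF)

namespace PkgFINM

section
variable {C ι Y : Type} {n r : ℕ}

theorem aeval_smul_vec {K : Type} [CommRing K] {d : ℕ} {F : MvPolynomial ι ℤ}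
    (hF : F.IsHomogeneous d) (a : K) (x : ι → K) :
    MvPolynomial.aeval (fun i => a * x i) F = a ^ d * MvPolynomial.aeval x F := by
  rw [MvPolynomial.aeval_def, MvPolynomial.aeval_def, MvPolynomial.eval₂_eq, MvPolynomial.eval₂_eq,
    Finset.mul_sum]
  refine Finset.sum_congr rfl fun m hm => ?_
  have hm' := hF (MvPolynomial.mem_support_iff.1 hm)
  rw [Finsupp.weight_apply] at hm'
  simp only [Pi.one_apply, smul_eq_mul, mul_one] at hm'
  simp only [mul_pow]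
  rw [Finset.prod_mul_distrib, Finset.prod_pow_eq_pow_sum]
  have h2 : ∑ i ∈ m.support, m i = d := hm'
  rw [h2]
  ring

/-- the coordinates of the point of a chart as polynomials -/
theorem pt_eq {K : Type} [CommRing K] (A : Fra C ι Y n) (c : C) (y : Y → K)
    (x : Fin (n + 1) → K) (i : ι) :
    pt A c y x i = MvPolynomial.aeval (Sum.elim x y) (tot A c (MvPolynomial.X i)) := by
  rw [aeval_tot, MvPolynomial.aeval_X]

/-- some coordinate is `x 0` -/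
theorem pt_one {A : Fra C ι Y n} (hA : IsChart A) (c : C) : ∃ i, ∀ (K : Type) [CommRing K]
    (y : Y → K) (x : Fin (n + 1) → K), pt A c y x i = x 0 := by
  obtain ⟨i, h1, h2⟩ := hA.one c
  refine ⟨i, fun K _ y x => ?_⟩
  unfold pt frm
  rw [Fin.sum_univ_succ, h1]
  simp [h2]

/-! ### continuity -/

theorem cont_aeval {σ : Type} (G : MvPolynomial σ ℤ) :
    Continuous (fun z : σ → ℝ => MvPolynomial.aeval z G) := by
  have h : (fun z : σ → ℝ => MvPolynomial.aeval z G) =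
      fun z => MvPolynomial.eval z (MvPolynomial.map (algebraMap ℤ ℝ) G) := by
    funext z
    rw [MvPolynomial.aeval_def, MvPolynomial.eval₂_eq_eval_map]
  rw [h]
  exact MvPolynomial.continuous_eval _

theorem unif [Fintype C] [Fintype ι] [Fintype Y] (A : Fra C ι Y n) (ε : ℝ) (hε : 0 < ε) :
    ∃ η : ℝ, 0 < η ∧ η ≤ 1 ∧ ∀ (y y' : Y → ℝ) (x x' : Fin (n + 1) → ℝ), (∀ t, |y t| ≤ 2) →
      (∀ t, |y' t| ≤ 2) → (∀ j, |x j| ≤ 2) → (∀ j, |x' j| ≤ 2) → (∀ t, |y' t - y t| ≤ η) →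
      (∀ j, |x' j - x j| ≤ η) → ∀ c i, |pt A c y' x' i - pt A c y x i| ≤ ε := by
  have hf : Continuous (fun z : (Fin (n + 1) ⊕ Y) → ℝ => fun (c : C) (i : ι) =>
      (MvPolynomial.aeval z (tot A c (MvPolynomial.X i)) : ℝ)) :=
    continuous_pi fun c => continuous_pi fun i => cont_aeval _
  have hK : IsCompact (Metric.closedBall (0 : (Fin (n + 1) ⊕ Y) → ℝ) 2) :=
    isCompact_closedBall _ _
  have hu := hK.uniformContinuousOn_of_continuous hf.continuousOn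
  rw [Metric.uniformContinuousOn_iff] at hu
  obtain ⟨δ, hδ, hu⟩ := hu ε hε
  refine ⟨min 1 (δ / 2), lt_min one_pos (by linarith), min_le_left _ _, ?_⟩
  intro y y' x x' hy hy' hx hx' hyy hxx c i
  have m1 : ∀ (y : Y → ℝ) (x : Fin (n + 1) → ℝ), (∀ t, |y t| ≤ 2) → (∀ j, |x j| ≤ 2) →
      Sum.elim x y ∈ Metric.closedBall (0 : (Fin (n + 1) ⊕ Y) → ℝ) 2 := by
    intro y x hy hx
    rw [mem_closedBall_zero_iff, pi_norm_le_iff_of_nonneg (by norm_num)]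
    rintro (j | t)
    · exact hx j
    · exact hy t
  have h1 : dist (Sum.elim x' y') (Sum.elim x y) < δ := by
    rw [dist_pi_lt_iff hδ]
    have h2 : min 1 (δ / 2) < δ := (min_le_right _ _).trans_lt (by linarith)
    rintro (j | t)
    · exact lt_of_le_of_lt (hxx j) h2
    · exact lt_of_le_of_lt (hyy t) h2
  have h3 := hu _ (m1 y' x' hy' hx') _ (m1 y x hy hx) h1
  have h4 := (dist_pi_lt_iff hε).1 h3 c
  have h5 := (dist_pi_lt_iff hε).1 h4 i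
  rw [pt_eq, pt_eq]
  exact h5.le

/-! ### `p`-adic continuity -/

section
variable {p : ℕ} [Fact p.Prime]

theorem norm_aeval_le {σ : Type} (G : MvPolynomial σ ℤ) {z : σ → ℚ_[p]} (hz : ∀ i, ‖z i‖ ≤ 1) :
    ‖(MvPolynomial.aeval z G : ℚ_[p])‖ ≤ 1 := by
  induction G using MvPolynomial.induction_on with
  | C a =>
    rw [MvPolynomial.aeval_C]
    exact Padic.norm_int_le_one a
  | add f g hf hg =>
    rw [map_add]
    exact (Padic.nonarchimedean _ _).trans (max_le hf hg)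
  | mul_X f i hf =>
    rw [map_mul, MvPolynomial.aeval_X, norm_mul]
    exact mul_le_one₀ hf (norm_nonneg _) (hz i)

theorem padic_cont {σ : Type} (G : MvPolynomial σ ℤ) {z z' : σ → ℚ_[p]} {ρ : ℝ} (hρ : 0 ≤ ρ)
    (hz : ∀ i, ‖z i‖ ≤ 1) (hz' : ∀ i, ‖z' i‖ ≤ 1) (h : ∀ i, ‖z' i - z i‖ ≤ ρ) :
    ‖(MvPolynomial.aeval z' G - MvPolynomial.aeval z G : ℚ_[p])‖ ≤ ρ := by
  induction G using MvPolynomial.induction_on with
  | C a =>
    rw [MvPolynomial.aeval_C, MvPolynomial.aeval_C, sub_self, norm_zero]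
    exact hρ
  | add f g hf hg =>
    rw [map_add, map_add, add_sub_add_comm]
    exact (Padic.nonarchimedean _ _).trans (max_le hf hg)
  | mul_X f i hf =>
    rw [map_mul, map_mul, MvPolynomial.aeval_X, MvPolynomial.aeval_X]
    have e : (MvPolynomial.aeval z' f * z' i - MvPolynomial.aeval z f * z i : ℚ_[p]) =
        MvPolynomial.aeval z' f * (z' i - z i) +
          (MvPolynomial.aeval z' f - MvPolynomial.aeval z f) * z i := by ring
    rw [e]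
    refine (Padic.nonarchimedean _ _).trans (max_le ?_ ?_)
    · rw [norm_mul]
      calc ‖(MvPolynomial.aeval z' f : ℚ_[p])‖ * ‖z' i - z i‖ ≤ 1 * ρ :=
            mul_le_mul (norm_aeval_le f hz') (h i) (norm_nonneg _) one_pos.le
        _ = ρ := one_mul _
    · rw [norm_mul]
      calc ‖(MvPolynomial.aeval z' f - MvPolynomial.aeval z f : ℚ_[p])‖ * ‖z i‖ ≤ ρ * 1 :=
            mul_le_mul hf (hz i) (norm_nonneg _) hρ
        _ = ρ := mul_one _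

theorem pt_cont (A : Fra C ι Y n) (c : C) {y y' : Y → ℚ_[p]} {x x' : Fin (n + 1) → ℚ_[p]} {ρ : ℝ}
    (hρ : 0 ≤ ρ) (hy : ∀ t, ‖y t‖ ≤ 1) (hy' : ∀ t, ‖y' t‖ ≤ 1) (hx : ∀ j, ‖x j‖ ≤ 1)
    (hx' : ∀ j, ‖x' j‖ ≤ 1) (h1 : ∀ t, ‖y' t - y t‖ ≤ ρ) (h2 : ∀ j, ‖x' j - x j‖ ≤ ρ) (i : ι) :
    ‖pt A c y' x' i - pt A c y x i‖ ≤ ρ := by
  rw [pt_eq, pt_eq]
  refine padic_cont _ hρ ?_ ?_ ?_
  · rintro (j | t)
    · exact hx j
    · exact hy t
  · rintro (j | t)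
    · exact hx' j
    · exact hy' t
  · rintro (j | t)
    · exact h2 j
    · exact h1 t

theorem int_norm_le {a : ℤ} {m : ℕ} (h : (p : ℤ) ^ m ∣ a) : ‖(a : ℚ_[p])‖ ≤ ((p : ℝ) ^ m)⁻¹ := by
  have h1 := (Padic.norm_int_le_pow_iff_dvd (p := p) a m).2 (by exact_mod_cast h)
  rwa [zpow_neg, zpow_natCast] at h1

/-- the local points at a prime -/
theorem localP [Fintype ι] {e : Fin r → ℕ} {V : Cone ι} {A : Fra C ι Y n} (hV : SweptC V A)
    {F : Fin r → MvPolynomial ι ℤ} (hF : ∀ j, (F j).IsHomogeneous (e j + 2)) {m₀ J : ℕ}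
    (hJ : m₀ ≤ J) {z : ι → ℚ_[p]} (hz : z ∈ V.P p) (hz0 : ∀ j, MvPolynomial.aeval z (F j) = 0)
    (h : ¬ ∃ (c : C) (y : Y → ℚ_[p]) (x : Fin (n + 1) → ℚ_[p]),
      ZeroP A F p c y x ∧ ¬ ∃ (y' : Y → ℤ) (x' : Fin (n + 1) → ℤ), RobP A p J F c y' x' ∧
        (∀ t, ‖(y' t : ℚ_[p]) - y t‖ ≤ ((p : ℝ) ^ m₀)⁻¹) ∧
        ∀ j, ‖(x' j : ℚ_[p]) - x j‖ ≤ ((p : ℝ) ^ m₀)⁻¹) :
    ∃ (c : C) (y : Y → ℤ) (x : Fin (n + 1) → ℤ), (∀ t, 0 ≤ y t ∧ y t < (p : ℤ) ^ (2 * J + 1)) ∧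
      (∀ j, 0 ≤ x j ∧ x j < (p : ℤ) ^ (2 * J + 1)) ∧ RobP A p J F c y x ∧
      ∃ a : ℚ_[p], a ≠ 0 ∧ ‖a‖ ≤ ‖z‖ ∧
        ∀ i, ‖z i - a * ((pt A c y x i : ℤ) : ℚ_[p])‖ ≤ ‖a‖ * ((p : ℝ) ^ m₀)⁻¹ := by
  obtain ⟨a, c, y₁, x₁, ha, hy₁, hx0, hx₁, hza⟩ := hV.coverP p z hz
  have hZ : ZeroP A F p c y₁ x₁ := ⟨hy₁, hx0, hx₁, fun j => by
    have h1 := hz0 j
    rw [hza, aeval_smul_vec (hF j)] at h1
    exact (mul_eq_zero.1 h1).resolve_left (pow_ne_zero _ ha)⟩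
  obtain ⟨y', x', hR, hy', hx'⟩ := by_contra fun hc => h ⟨c, y₁, x₁, hZ, hc⟩
  have hp1 : (1 : ℤ) < p := by exact_mod_cast (Fact.out : p.Prime).one_lt
  have hP : (1 : ℤ) < (p : ℤ) ^ (2 * J + 1) := one_lt_pow₀ hp1 (by omega)
  have hdvd : ∀ b : ℤ, (p : ℤ) ^ (2 * J + 1) ∣ b % (p : ℤ) ^ (2 * J + 1) - b := fun b =>
    ⟨-(b / (p : ℤ) ^ (2 * J + 1)), by
      have := Int.emod_add_mul_ediv b ((p : ℤ) ^ (2 * J + 1))
      linarith⟩
  have hpm : (0 : ℝ) < ((p : ℝ) ^ m₀)⁻¹ := by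
    have : (0 : ℝ) < p := by exact_mod_cast (Fact.out : p.Prime).pos
    positivity
  have hred : ∀ (b : ℤ) (w : ℚ_[p]), ‖(b : ℚ_[p]) - w‖ ≤ ((p : ℝ) ^ m₀)⁻¹ →
      ‖((b % (p : ℤ) ^ (2 * J + 1) : ℤ) : ℚ_[p]) - w‖ ≤ ((p : ℝ) ^ m₀)⁻¹ := by
    intro b w hb
    have e1 : ((b % (p : ℤ) ^ (2 * J + 1) : ℤ) : ℚ_[p]) - w =
        ((b % (p : ℤ) ^ (2 * J + 1) - b : ℤ) : ℚ_[p]) + ((b : ℚ_[p]) - w) := by
      push_cast
      ring
    rw [e1]
    refine (Padic.nonarchimedean _ _).trans (max_le ?_ hb)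
    exact int_norm_le ((pow_dvd_pow _ (by omega)).trans (hdvd b))
  obtain ⟨i₀, hi₀⟩ := pt_one hV.chart c
  refine ⟨c, fun t => y' t % (p : ℤ) ^ (2 * J + 1), fun j => x' j % (p : ℤ) ^ (2 * J + 1),
    fun t => ⟨Int.emod_nonneg _ (by positivity), Int.emod_lt_of_pos _ (by positivity)⟩,
    fun j => ⟨Int.emod_nonneg _ (by positivity), Int.emod_lt_of_pos _ (by positivity)⟩, ?_,
    a, ha, ?_, ?_⟩
  · refine robP_congr (F := F) (fun j a => ?_) (fun t => hdvd _) (fun j => hdvd _) ?_ hR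
    · rw [sub_self]
      exact dvd_zero _
    · show x' 0 % (p : ℤ) ^ (2 * J + 1) = 1
      rw [hR.1]
      exact Int.emod_eq_of_lt one_pos.le hP
  · have h1 := norm_le_pi_norm z i₀
    have h2 : z i₀ = a := by
      rw [hza]
      show a * pt A c y₁ x₁ i₀ = a
      rw [hi₀, hx0, mul_one]
    rwa [h2] at h1
  · intro i
    have h1 : z i = a * pt A c y₁ x₁ i := by rw [hza]
    have h2 := congrFun (pt_cast (K := ℚ_[p]) A c (fun t => y' t % (p : ℤ) ^ (2 * J + 1))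
      (fun j => x' j % (p : ℤ) ^ (2 * J + 1))) i
    rw [← h2, h1, ← mul_sub, norm_mul]
    refine mul_le_mul_of_nonneg_left ?_ (norm_nonneg _)
    rw [norm_sub_rev]
    exact pt_cont A c hpm.le hy₁ (fun t => Padic.norm_int_le_one _) hx₁
      (fun j => Padic.norm_int_le_one _) (fun t => hred _ _ (hy' t)) (fun j => hred _ _ (hx' j)) i

end

/-- the local point at the real place -/
theorem localR [Fintype ι] {e : Fin r → ℕ} {V : Cone ι} {A : Fra C ι Y n} (hV : SweptC V A)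
    {F : Fin r → MvPolynomial ι ℤ} (hF : ∀ j, (F j).IsHomogeneous (e j + 2)) {α γ H η ε : ℝ} {T : ℕ}
    (hU : ∀ (y y' : Y → ℝ) (x x' : Fin (n + 1) → ℝ), (∀ t, |y t| ≤ 2) →
      (∀ t, |y' t| ≤ 2) → (∀ j, |x j| ≤ 2) → (∀ j, |x' j| ≤ 2) → (∀ t, |y' t - y t| ≤ η) →
      (∀ j, |x' j - x j| ≤ η) → ∀ c i, |pt A c y' x' i - pt A c y x i| ≤ ε)
    {z : ι → ℝ} (hz : z ∈ V.R) (hz0 : ∀ j, MvPolynomial.aeval z (F j) = 0)
    (h : ¬ ∃ (c : C) (y : Y → ℝ) (x : Fin (n + 1) → ℝ),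
      ZeroR A F c y x ∧ ¬ ∃ (v : Y → ℤ) (u : Fin (n + 1) → ℤ),
        RobR A α γ H F c (fun t => (v t : ℝ) / T) (fun j => (u j : ℝ) / T) ∧
        (∀ t, |(v t : ℝ) / T - y t| ≤ η) ∧ ∀ j, |(u j : ℝ) / T - x j| ≤ η) :
    ∃ (c : C) (v : Y → ℤ) (u : Fin (n + 1) → ℤ),
      RobR A α γ H F c (fun t => (v t : ℝ) / T) (fun j => (u j : ℝ) / T) ∧
      ∃ a : ℝ, a ≠ 0 ∧ |a| ≤ ‖z‖ ∧
        ∀ i, |z i - a * pt A c (fun t => (v t : ℝ) / T) (fun j => (u j : ℝ) / T) i| ≤ |a| * ε := by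
  obtain ⟨a, c, y₁, x₁, ha, hy₁, hx0, hx₁, hza⟩ := hV.coverR z hz
  have hZ : ZeroR A F c y₁ x₁ := ⟨hy₁, hx0, hx₁, fun j => by
    have h1 := hz0 j
    rw [hza, aeval_smul_vec (hF j)] at h1
    exact (mul_eq_zero.1 h1).resolve_left (pow_ne_zero _ ha)⟩
  obtain ⟨v, u, hR, hv, hu⟩ := by_contra fun hc => h ⟨c, y₁, x₁, hZ, hc⟩
  obtain ⟨i₀, hi₀⟩ := pt_one hV.chart c
  refine ⟨c, v, u, hR, a, ha, ?_, ?_⟩
  · have h1 := norm_le_pi_norm z i₀
    have h2 : z i₀ = a := by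
      rw [hza]
      show a * pt A c y₁ x₁ i₀ = a
      rw [hi₀, hx0, mul_one]
    rwa [h2] at h1
  · intro i
    have h1 : z i = a * pt A c y₁ x₁ i := by rw [hza]
    rw [h1, ← mul_sub, abs_mul]
    refine mul_le_mul_of_nonneg_left ?_ (abs_nonneg _)
    rw [abs_sub_comm]
    exact hU _ _ _ _ (fun t => (hy₁ t).trans (by norm_num)) hR.2.1
      (fun j => (hx₁ j).trans (by norm_num)) hR.2.2.1 hv hu c i

/-- close to the target means close to the local points -/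
theorem concl [Fintype ι] {A : Fra C ι Y n} {D : Tgt C Y n} {m₀ M : ℕ} (hM : 1 ≤ M)
    (hm₀ : M ≤ 2 ^ m₀) (hD : D.m = M) (z : ∀ (p : ℕ) [Fact p.Prime], ι → ℚ_[p]) (y : ι → ℝ)
    (hP : ∀ (p : ℕ) [Fact p.Prime], p ≤ M → ∃ a : ℚ_[p], a ≠ 0 ∧ ‖a‖ ≤ ‖z p‖ ∧
      ∀ i, ‖z p i - a * ((pt A (D.cP p) (D.yP p) (D.xP p) i : ℤ) : ℚ_[p])‖ ≤
        ‖a‖ * ((p : ℝ) ^ m₀)⁻¹)
    (hR : ∃ a : ℝ, a ≠ 0 ∧ |a| ≤ ‖y‖ ∧
      ∀ i, |y i - a * pt A D.cR D.y D.x i| ≤ |a| * (1 / (2 * M)))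
    {x : ι → ℤ} (hx : CloseT A D m₀ (1 / (2 * M)) x) :
    (∀ (p : ℕ) [Fact p.Prime], p ≤ M → ∃ c : ℚ_[p], c ≠ 0 ∧
        ∀ i, ‖z p i - c * (((x i : ℚ)) : ℚ_[p])‖ ≤ ‖z p‖ / M) ∧
      ∃ c : ℝ, c ≠ 0 ∧ ∀ i, |y i - c * ((x i : ℚ) : ℝ)| ≤ ‖y‖ / M := by
  have hM0 : (0 : ℝ) < M := by exact_mod_cast hM
  constructor
  · intro p hp hpM
    obtain ⟨a, ha, haz, hai⟩ := hP p hpM
    obtain ⟨u, hu, hui⟩ := hx.1 p hp.out (by rw [hD]; exact hpM)
    have hu1 : ‖(u : ℚ_[p])‖ = 1 := by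
      rcases (Padic.norm_int_le_one (p := p) u).lt_or_eq with h1 | h1
      · exact absurd (Padic.norm_intCast_lt_one_iff.1 h1) hu
      · exact h1
    have hu0 : (u : ℚ_[p]) ≠ 0 := by
      intro h0
      rw [h0, norm_zero] at hu1
      exact zero_ne_one hu1
    refine ⟨a / u, div_ne_zero ha hu0, fun i => ?_⟩
    have e1 : z p i - a / u * (((x i : ℚ)) : ℚ_[p]) =
        (z p i - a * ((pt A (D.cP p) (D.yP p) (D.xP p) i : ℤ) : ℚ_[p])) +
          -(a / u) * ((x i - u * pt A (D.cP p) (D.yP p) (D.xP p) i : ℤ) : ℚ_[p]) := by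
      push_cast
      field_simp
      ring
    have h2 : ‖-(a / u) * ((x i - u * pt A (D.cP p) (D.yP p) (D.xP p) i : ℤ) : ℚ_[p])‖ ≤
        ‖a‖ * ((p : ℝ) ^ m₀)⁻¹ := by
      rw [norm_mul, norm_neg, norm_div, hu1, div_one]
      exact mul_le_mul_of_nonneg_left (int_norm_le (hui i)) (norm_nonneg _)
    have h3 : ((p : ℝ) ^ m₀)⁻¹ ≤ 1 / M := by
      rw [one_div]
      refine inv_anti₀ hM0 ?_
      have h4 : (M : ℝ) ≤ 2 ^ m₀ := by exact_mod_cast hm₀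
      have h5 : (2 : ℝ) ≤ p := by exact_mod_cast hp.out.two_le
      exact h4.trans (pow_le_pow_left₀ (by norm_num) h5 _)
    rw [e1]
    refine (Padic.nonarchimedean _ _).trans ((max_le (hai i) h2).trans ?_)
    calc ‖a‖ * ((p : ℝ) ^ m₀)⁻¹ ≤ ‖z p‖ * (1 / M) :=
          mul_le_mul haz h3 (by positivity) (norm_nonneg _)
      _ = ‖z p‖ / M := by ring
  · obtain ⟨a, ha, haz, hai⟩ := hR
    obtain ⟨s, hs, hsi⟩ := hx.2
    refine ⟨a / s, div_ne_zero ha hs, fun i => ?_⟩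
    have e1 : y i - a / s * ((x i : ℚ) : ℝ) =
        (y i - a * pt A D.cR D.y D.x i) - (a / s) * ((x i : ℝ) - s * pt A D.cR D.y D.x i) := by
      push_cast
      field_simp
      ring
    have h2 : |(a / s) * ((x i : ℝ) - s * pt A D.cR D.y D.x i)| ≤ |a| * (1 / (2 * M)) := by
      rw [abs_mul, abs_div]
      have hs' : 0 < |s| := abs_pos.2 hs
      calc |a| / |s| * |(x i : ℝ) - s * pt A D.cR D.y D.x i| ≤
            |a| / |s| * (1 / (2 * M) * |s|) :=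
            mul_le_mul_of_nonneg_left (hsi i) (by positivity)
        _ = |a| * (1 / (2 * M)) := by field_simp
    rw [e1]
    refine (abs_sub _ _).trans ((add_le_add (hai i) h2).trans ?_)
    calc |a| * (1 / (2 * M)) + |a| * (1 / (2 * M)) = |a| * (1 / M) := by
          field_simp
          ring
      _ ≤ ‖y‖ * (1 / M) := mul_le_mul_of_nonneg_right haz (by positivity)
      _ = ‖y‖ / M := by ring

/-! ### the targets -/

/-- the indices of the targets -/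
abbrev Idx (C Y : Type) (n M Pm T : ℕ) : Type :=
  (Fin (M + 1) → C × (Y → Fin (Pm + 1)) × (Fin (n + 1) → Fin (Pm + 1))) ×
    C × (Y → Fin (4 * T + 1)) × (Fin (n + 1) → Fin (4 * T + 1))

/-- the targets -/
noncomputable def tgt {M Pm T : ℕ} (I : Idx C Y n M Pm T) : Tgt C Y n where
  m := M
  cP p := (I.1 ⟨p % (M + 1), Nat.mod_lt _ (Nat.succ_pos _)⟩).1
  yP p t := ((I.1 ⟨p % (M + 1), Nat.mod_lt _ (Nat.succ_pos _)⟩).2.1 t : ℕ)
  xP p j := if j = 0 then 1 else ((I.1 ⟨p % (M + 1), Nat.mod_lt _ (Nat.succ_pos _)⟩).2.2 j : ℕ)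
  cR := I.2.1
  y t := (((I.2.2.1 t : ℕ) : ℝ) - 2 * T) / T
  x j := if j = 0 then 1 else (((I.2.2.2 j : ℕ) : ℝ) - 2 * T) / T

theorem grid_le {T : ℕ} (hT : 1 ≤ T) (k : Fin (4 * T + 1)) :
    |(((k : ℕ) : ℝ) - 2 * T) / T| ≤ 2 := by
  have h1 : (0 : ℝ) < T := by exact_mod_cast hT
  have h2 : ((k : ℕ) : ℝ) ≤ 4 * T := by
    have := k.2
    have h3 : (k : ℕ) ≤ 4 * T := by omega
    exact_mod_cast h3
  have h3 : (0 : ℝ) ≤ ((k : ℕ) : ℝ) := Nat.cast_nonneg _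
  rw [abs_div, abs_of_pos h1, div_le_iff₀ h1, abs_le]
  constructor <;> linarith

theorem tgt_ok {M Pm T : ℕ} (hT : 1 ≤ T) (I : Idx C Y n M Pm T) : (tgt I).Ok := by
  refine ⟨fun p => ?_, ?_, fun t => grid_le hT _, fun j => ?_⟩
  · simp [tgt]
  · simp [tgt]
  unfold tgt
  simp only
  split_ifs
  · norm_num
  · exact grid_le hT _

theorem exists_tgt {M Pm T : ℕ} (hT : 1 ≤ T) (cP : ℕ → C) (yP : ℕ → Y → ℤ)
    (xP : ℕ → Fin (n + 1) → ℤ) (hy : ∀ p t, 0 ≤ yP p t ∧ yP p t ≤ Pm)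
    (hx : ∀ p j, 0 ≤ xP p j ∧ xP p j ≤ Pm) (hx0 : ∀ p, xP p 0 = 1) (cR : C) (v : Y → ℤ)
    (u : Fin (n + 1) → ℤ) (hv : ∀ t, |v t| ≤ 2 * T) (hu : ∀ j, |u j| ≤ 2 * T) (hu0 : u 0 = T) :
    ∃ I : Idx C Y n M Pm T, (tgt I).cR = cR ∧ (tgt I).y = (fun t => (v t : ℝ) / T) ∧
      (tgt I).x = (fun j => (u j : ℝ) / T) ∧ ∀ p ≤ M, (tgt I).cP p = cP p ∧
      (tgt I).yP p = yP p ∧ (tgt I).xP p = xP p := by
  have hT0 : (0 : ℝ) < T := by exact_mod_cast hT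
  refine ⟨(fun q => (cP q, fun t => ⟨(yP q t).toNat, by have := hy q t; omega⟩,
    fun j => ⟨(xP q j).toNat, by have := hx q j; omega⟩), cR,
    fun t => ⟨(v t + 2 * T).toNat, by have := abs_le.1 (hv t); omega⟩,
    fun j => ⟨(u j + 2 * T).toNat, by have := abs_le.1 (hu j); omega⟩), rfl, ?_, ?_, ?_⟩
  · funext t
    unfold tgt
    simp only
    have h1 : (((v t + 2 * T).toNat : ℕ) : ℤ) = v t + 2 * T :=
      Int.toNat_of_nonneg (by have := abs_le.1 (hv t); omega)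
    have h2 : (((v t + 2 * T).toNat : ℕ) : ℝ) = v t + 2 * T := by exact_mod_cast h1
    rw [h2]
    ring
  · funext j
    unfold tgt
    simp only
    split_ifs with hj
    · rw [hj, hu0]
      push_cast
      exact (div_self hT0.ne').symm
    · have h1 : (((u j + 2 * T).toNat : ℕ) : ℤ) = u j + 2 * T :=
        Int.toNat_of_nonneg (by have := abs_le.1 (hu j); omega)
      have h2 : (((u j + 2 * T).toNat : ℕ) : ℝ) = u j + 2 * T := by exact_mod_cast h1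
      rw [h2]
      ring
  · intro p hp
    have hmod : p % (M + 1) = p := Nat.mod_eq_of_lt (by omega)
    refine ⟨?_, ?_, ?_⟩
    · unfold tgt
      simp only [hmod]
    · funext t
      unfold tgt
      simp only [hmod]
      exact Int.toNat_of_nonneg (hy p t).1
    · funext j
      unfold tgt
      simp only [hmod]
      split_ifs with hj
      · rw [hj, hx0]
      · exact Int.toNat_of_nonneg (hx p j).1

end

end PkgFINM

open PkgFINM in
open scoped Classical in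
/-- **FINM** -/
theorem pFINM (h1 : S_LBP) (h2 : S_LBR) (h3 : S_EXCD) : S_FINM := by
  intro C ι Y _ _ _ n r e hr hrn hsum V A hV M hM ε hε
  have hM0 : (0 : ℝ) < M := by exact_mod_cast hM
  obtain ⟨m₀, hm₀⟩ : ∃ m₀, M ≤ 2 ^ m₀ := ⟨M, Nat.lt_two_pow_self.le⟩
  obtain ⟨η, hη0, hη1, hU⟩ := unif A (1 / (2 * M)) (by positivity)
  obtain ⟨γ, hγ0, hγ1, hLBR⟩ := h2 C ι Y n r e A hV.chart hr (by omega) η (ε / 4) hη0 hη1
    (by positivity)
  obtain ⟨α, hα0, hEX⟩ := h3 C ι Y n r e hr hrn hsum V A hV γ (1 / (2 * M)) hγ0 (by positivity)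
  obtain ⟨T, hT, HR, hHR⟩ := hLBR α hα0
  have hT0 : (0 : ℝ) < T := by exact_mod_cast hT
  have hPr : ∀ p : ℕ, ∃ J : ℕ, m₀ ≤ J ∧ ∃ H₀ : ℝ, ∀ (_ : Fact p.Prime) (H : ℝ), H₀ ≤ H →
      (((sysZ ι e H).filter (fun F => ∃ (c : C) (y : Y → ℚ_[p]) (x : Fin (n + 1) → ℚ_[p]),
        ZeroP A F p c y x ∧ ¬ ∃ (y' : Y → ℤ) (x' : Fin (n + 1) → ℤ), RobP A p J F c y' x' ∧
          (∀ t, ‖(y' t : ℚ_[p]) - y t‖ ≤ ((p : ℝ) ^ m₀)⁻¹) ∧
          ∀ j, ‖(x' j : ℚ_[p]) - x j‖ ≤ ((p : ℝ) ^ m₀)⁻¹)).card : ℝ) ≤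
        ε / (4 * (M + 1)) * (sysZ ι e H).card := by
    intro p
    by_cases hp : p.Prime
    · have : Fact p.Prime := ⟨hp⟩
      obtain ⟨J, hJ, H₀, hH⟩ := h1 C ι Y n r e A hV.chart hr (by omega) p m₀
        (ε / (4 * (M + 1))) (by positivity)
      exact ⟨J, hJ, H₀, fun _ H hH' => hH H hH'⟩
    · exact ⟨m₀, le_rfl, 0, fun h => absurd h.out hp⟩
  choose J hJ HP hHP using hPr
  set Pm : ℕ := ∑ p ∈ Finset.range (M + 1), p ^ (2 * J p + 1) + 1 with hPm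
  have hPm' : ∀ p ≤ M, (p : ℤ) ^ (2 * J p + 1) ≤ Pm := by
    intro p hp
    have h4 : p ^ (2 * J p + 1) ≤ ∑ p ∈ Finset.range (M + 1), p ^ (2 * J p + 1) :=
      Finset.single_le_sum (f := fun p => p ^ (2 * J p + 1)) (fun _ _ => Nat.zero_le _)
        (Finset.mem_range.2 (by omega))
    have h5 : p ^ (2 * J p + 1) ≤ Pm := by omega
    exact_mod_cast h5
  have hE := fun I : Idx C Y n M Pm T => hEX (tgt I) (tgt_ok hT I) m₀ J hJ
    (ε / (4 * (Fintype.card (Idx C Y n M Pm T) + 1))) (by positivity)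
  choose HI hHI using hE
  refine ⟨∑ p ∈ Finset.range (M + 1), |HP p| + |HR| + ∑ I, |HI I|, fun H hH => ?_⟩
  have s1 : 0 ≤ ∑ p ∈ Finset.range (M + 1), |HP p| := Finset.sum_nonneg fun _ _ => abs_nonneg _
  have s2 : 0 ≤ ∑ I, |HI I| := Finset.sum_nonneg fun _ _ => abs_nonneg _
  have b1 : ∀ p ≤ M, HP p ≤ H := by
    intro p hp
    have h4 : |HP p| ≤ ∑ p ∈ Finset.range (M + 1), |HP p| :=
      Finset.single_le_sum (f := fun p => |HP p|) (fun _ _ => abs_nonneg _)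
        (Finset.mem_range.2 (by omega))
    have h5 := le_abs_self (HP p)
    have h6 := abs_nonneg HR
    linarith
  have b2 : HR ≤ H := by
    have := le_abs_self HR
    linarith
  have b3 : ∀ I, HI I ≤ H := by
    intro I
    have h4 : |HI I| ≤ ∑ I, |HI I| :=
      Finset.single_le_sum (f := fun I => |HI I|) (fun _ _ => abs_nonneg _) (Finset.mem_univ _)
    have h5 := le_abs_self (HI I)
    have h6 := abs_nonneg HR
    linarith
  set N : ℝ := ((sysZ ι e H).card : ℝ) with hN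
  have hN0 : 0 ≤ N := Nat.cast_nonneg _
  -- the exceptional sets
  set BP : ℕ → Finset (Fin r → MvPolynomial ι ℤ) := fun p => (sysZ ι e H).filter (fun F =>
    ∃ _ : Fact p.Prime, ∃ (c : C) (y : Y → ℚ_[p]) (x : Fin (n + 1) → ℚ_[p]),
        ZeroP A F p c y x ∧ ¬ ∃ (y' : Y → ℤ) (x' : Fin (n + 1) → ℤ), RobP A p (J p) F c y' x' ∧
          (∀ t, ‖(y' t : ℚ_[p]) - y t‖ ≤ ((p : ℝ) ^ m₀)⁻¹) ∧
          ∀ j, ‖(x' j : ℚ_[p]) - x j‖ ≤ ((p : ℝ) ^ m₀)⁻¹) with hBP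
  set BR : Finset (Fin r → MvPolynomial ι ℤ) := (sysZ ι e H).filter (fun F =>
    ∃ (c : C) (y : Y → ℝ) (x : Fin (n + 1) → ℝ),
    ZeroR A F c y x ∧ ¬ ∃ (v : Y → ℤ) (u : Fin (n + 1) → ℤ),
      RobR A α γ H F c (fun t => (v t : ℝ) / T) (fun j => (u j : ℝ) / T) ∧
      (∀ t, |(v t : ℝ) / T - y t| ≤ η) ∧ ∀ j, |(u j : ℝ) / T - x j| ≤ η) with hBR
  set BE : Idx C Y n M Pm T → Finset (Fin r → MvPolynomial ι ℤ) := fun I =>
    (sysZ ι e H).filter (fun F => MatchP A (tgt I) J F ∧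
    (∀ (p : ℕ) [Fact p.Prime], (tgt I).m < p → ∃ z ∈ V.P p, ∀ j, MvPolynomial.aeval z (F j) = 0) ∧
    MatchR A (tgt I) α γ H F ∧
    ¬ ∃ z : ι → ℤ, (fun i => (z i : ℚ)) ∈ V.Q ∧ (∀ j, MvPolynomial.eval z (F j) = 0) ∧
      CloseT A (tgt I) m₀ (1 / (2 * M)) z) with hBE
  have c1 : ∀ p ≤ M, ((BP p).card : ℝ) ≤ ε / (4 * (M + 1)) * N := by
    intro p hp
    by_cases hpr : p.Prime
    · have hf : Fact p.Prime := ⟨hpr⟩
      refine le_trans ?_ (hHP p hf H (b1 p hp))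
      have : (BP p).card ≤ _ := Finset.card_le_card (t := (sysZ ι e H).filter (fun F =>
        ∃ (c : C) (y : Y → ℚ_[p]) (x : Fin (n + 1) → ℚ_[p]),
        ZeroP A F p c y x ∧ ¬ ∃ (y' : Y → ℤ) (x' : Fin (n + 1) → ℤ), RobP A p (J p) F c y' x' ∧
          (∀ t, ‖(y' t : ℚ_[p]) - y t‖ ≤ ((p : ℝ) ^ m₀)⁻¹) ∧
          ∀ j, ‖(x' j : ℚ_[p]) - x j‖ ≤ ((p : ℝ) ^ m₀)⁻¹)) (by
          intro F hF
          rw [Finset.mem_filter] at hF ⊢
          obtain ⟨hF1, hf', hF2⟩ := hF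
          exact ⟨hF1, hF2⟩)
      exact_mod_cast this
    · have : BP p = ∅ := by
        rw [hBP]
        simp only
        rw [Finset.filter_eq_empty_iff]
        rintro F - ⟨hf, -⟩
        exact hpr hf.out
      rw [this, Finset.card_empty, Nat.cast_zero]
      positivity
  have c2 : (BR.card : ℝ) ≤ ε / 4 * N := hHR H b2
  have c3 : ∀ I, ((BE I).card : ℝ) ≤ ε / (4 * (Fintype.card (Idx C Y n M Pm T) + 1)) * N :=
    fun I => hHI I H (b3 I)
  have hsub : (sysZ ι e H).filter (fun F => LocSolV V F ∧ ¬ WAV V M F) ⊆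
      (Finset.range (M + 1)).biUnion BP ∪ BR ∪ Finset.univ.biUnion BE := by
    intro F hF
    rw [Finset.mem_filter] at hF
    obtain ⟨hF0, hF1, hF2⟩ := hF
    by_contra hcon
    rw [Finset.mem_union, Finset.mem_union, Finset.mem_biUnion, Finset.mem_biUnion] at hcon
    push Not at hcon
    obtain ⟨⟨n1, n2⟩, n3⟩ := hcon
    have hhom : ∀ j, (F j).IsHomogeneous (e j + 2) := fun j => ((mem_sysZ.1 hF0) j).1
    unfold WAV at hF2
    push Not at hF2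
    obtain ⟨z, y, hz, hy, hy0, hno⟩ := hF2
    -- the real place
    obtain ⟨cR, v, u, hRob, hRa⟩ := localR hV hhom hU hy hy0
      (fun hc => n2 (Finset.mem_filter.2 ⟨hF0, hc⟩))
    have hu0 : u 0 = T := by
      have h4 : (u 0 : ℝ) / T = 1 := hRob.1
      rw [div_eq_one_iff_eq hT0.ne'] at h4
      exact_mod_cast h4
    have hbd : ∀ b : ℤ, |(b : ℝ) / T| ≤ 2 → |b| ≤ 2 * T := by
      intro b hb
      rw [abs_div, abs_of_pos hT0, div_le_iff₀ hT0] at hb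
      exact_mod_cast hb
    -- the primes
    have hPd : ∀ p : ℕ, ∃ (c : C) (y : Y → ℤ) (x : Fin (n + 1) → ℤ),
        (∀ t, 0 ≤ y t ∧ y t ≤ Pm) ∧ (∀ j, 0 ≤ x j ∧ x j ≤ Pm) ∧ x 0 = 1 ∧
        ∀ [Fact p.Prime], p ≤ M → RobP A p (J p) F c y x ∧
        ∃ a : ℚ_[p], a ≠ 0 ∧ ‖a‖ ≤ ‖z p‖ ∧
          ∀ i, ‖z p i - a * ((pt A c y x i : ℤ) : ℚ_[p])‖ ≤ ‖a‖ * ((p : ℝ) ^ m₀)⁻¹ := by
      intro p
      by_cases hp : p.Prime ∧ p ≤ M
      · have hf : Fact p.Prime := ⟨hp.1⟩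
        obtain ⟨c, y', x', g1, g2, g3, g4⟩ := localP hV hhom (hJ p) (hz p).1 (hz p).2
          (fun hc => n1 p (Finset.mem_range.2 (by omega)) (Finset.mem_filter.2 ⟨hF0, hf, hc⟩))
        have g5 := hPm' p hp.2
        exact ⟨c, y', x', fun t => ⟨(g1 t).1, (g1 t).2.le.trans g5⟩,
          fun j => ⟨(g2 j).1, (g2 j).2.le.trans g5⟩, g3.1, fun _ => ⟨g3, g4⟩⟩
      · refine ⟨cR, fun _ => 0, fun j => if j = 0 then 1 else 0, fun t => ⟨le_rfl, by positivity⟩,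
          fun j => ?_, if_pos rfl, ?_⟩
        · have : (1 : ℤ) ≤ Pm := by
            rw [hPm]
            push_cast
            have : (0 : ℤ) ≤ ∑ p ∈ Finset.range (M + 1), (p : ℤ) ^ (2 * J p + 1) :=
              Finset.sum_nonneg fun _ _ => by positivity
            linarith
          show 0 ≤ (if j = 0 then (1 : ℤ) else 0) ∧ (if j = 0 then (1 : ℤ) else 0) ≤ Pm
          split_ifs
          · exact ⟨one_pos.le, this⟩
          · exact ⟨le_rfl, by linarith⟩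
        · intro hf hpM
          exact absurd ⟨hf.out, hpM⟩ hp
    choose cP yP xP g1 g2 g3 g4 using hPd
    obtain ⟨I, i1, i2, i3, i4⟩ := exists_tgt (M := M) (Pm := Pm) hT cP yP xP g1 g2 g3 cR v u
      (fun t => hbd _ (hRob.2.1 t)) (fun j => hbd _ (hRob.2.2.1 j)) hu0
    -- `F` has the local points of the target
    have hMP : MatchP A (tgt I) J F := by
      intro p hp hpM
      have hpM' : p ≤ M := hpM
      have hf : Fact p.Prime := ⟨hp⟩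
      obtain ⟨j1, j2, j3⟩ := i4 p hpM'
      rw [j1, j2, j3]
      exact (g4 p hpM').1
    have hMR : MatchR A (tgt I) α γ H F := by
      unfold MatchR
      rw [i1, i2, i3]
      exact hRob
    refine n3 I (Finset.mem_univ _) (Finset.mem_filter.2 ⟨hF0, hMP, ?_, hMR, ?_⟩)
    · intro p hp _
      exact hF1.2 p
    · rintro ⟨x, hxQ, hx0, hxC⟩
      have hcl := concl hM hm₀ (show (tgt I).m = M from rfl) z y (by
        intro p hp hpM
        obtain ⟨j1, j2, j3⟩ := i4 p hpM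
        rw [j1, j2, j3]
        exact (g4 p hpM).2) (by
        rw [i1, i2, i3]
        exact hRa) hxC
      have hx0' : ∀ j, MvPolynomial.aeval (fun i => (x i : ℚ)) (F j) = 0 := by
        intro j
        rw [aeval_cast, aeval_int, hx0 j, Int.cast_zero]
      obtain ⟨k1, c, k2, k3⟩ := hcl
      obtain ⟨i, hi⟩ := hno _ hxQ hx0' k1 c k2
      exact absurd (k3 i) (not_le.2 hi)
  have hcard := Finset.card_le_card hsub
  have t1 : (((Finset.range (M + 1)).biUnion BP).card : ℝ) ≤ ε / 4 * N := by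
    have h4 : ((Finset.range (M + 1)).biUnion BP).card ≤ ∑ p ∈ Finset.range (M + 1), (BP p).card :=
      Finset.card_biUnion_le
    calc (((Finset.range (M + 1)).biUnion BP).card : ℝ)
        ≤ ∑ p ∈ Finset.range (M + 1), ((BP p).card : ℝ) := by exact_mod_cast h4
      _ ≤ ∑ p ∈ Finset.range (M + 1), ε / (4 * (M + 1)) * N :=
          Finset.sum_le_sum fun p hp => c1 p (by
            have := Finset.mem_range.1 hp
            omega)
      _ = ε / 4 * N := by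
          rw [Finset.sum_const, Finset.card_range, nsmul_eq_mul]
          push_cast
          field_simp
  have t3 : ((Finset.univ.biUnion BE).card : ℝ) ≤ ε / 4 * N := by
    have h4 : (Finset.univ.biUnion BE).card ≤ ∑ I, (BE I).card := Finset.card_biUnion_le
    have hc0 : (0 : ℝ) ≤ Fintype.card (Idx C Y n M Pm T) := Nat.cast_nonneg _
    calc ((Finset.univ.biUnion BE).card : ℝ)
        ≤ ∑ I, ((BE I).card : ℝ) := by exact_mod_cast h4
      _ ≤ ∑ I : Idx C Y n M Pm T, ε / (4 * (Fintype.card (Idx C Y n M Pm T) + 1)) * N :=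
          Finset.sum_le_sum fun I _ => c3 I
      _ = (Fintype.card (Idx C Y n M Pm T) / (Fintype.card (Idx C Y n M Pm T) + 1)) *
            (ε / 4 * N) := by
          rw [Finset.sum_const, Finset.card_univ, nsmul_eq_mul]
          field_simp
      _ ≤ 1 * (ε / 4 * N) := by
          refine mul_le_mul_of_nonneg_right ?_ (by positivity)
          rw [div_le_one (by positivity)]
          linarith
      _ = ε / 4 * N := one_mul _
  have t4 : (((Finset.range (M + 1)).biUnion BP ∪ BR ∪ Finset.univ.biUnion BE).card : ℝ) ≤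
      ((Finset.range (M + 1)).biUnion BP).card + BR.card + (Finset.univ.biUnion BE).card := by
    have h4 := Finset.card_union_le ((Finset.range (M + 1)).biUnion BP ∪ BR)
      (Finset.univ.biUnion BE)
    have h5 := Finset.card_union_le ((Finset.range (M + 1)).biUnion BP) BR
    exact_mod_cast h4.trans (Nat.add_le_add_right h5 _)
  have t5 : (((sysZ ι e H).filter (fun F => LocSolV V F ∧ ¬ WAV V M F)).card : ℝ) ≤
      (((Finset.range (M + 1)).biUnion BP ∪ BR ∪ Finset.univ.biUnion BE).card : ℝ) := by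
    exact_mod_cast hcard
  nlinarith [mul_nonneg hε.le hN0]

end Pool.Agent.H731.GS
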