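import Pool.Agent.H731.GS.GrStm

/-!
# GR0: the formulas for the charts
-/

set_option autoImplicit false

namespace Pool.Agent.H731.GS

open Pool.Agent.Y716.Q Pool.Agent.Y716.C
open Pool.Agent.T2H39.CV (Cone IsCone Swept Gr Pl pl S_WAQ)

theorem px_gr0_row {q n : ℕ} {K : Type} [CommRing K] (I : Pl q (n + 1)) (y : Fin q × Fin n → K)
    (s : Fin q) (a : Fin (q + (n + 1))) :
    MvPolynomial.aeval y (rowI I (fun s => (MvPolynomial.X s : MvPolynomial (Fin q × Fin n) ℤ)) s a)
      = rowI I y s a := by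
  simp only [rowI, map_add, map_sum]
  congr 1
  · split_ifs <;> simp
  · refine Finset.sum_congr rfl fun t _ => ?_
    split_ifs <;> simp

theorem px_gr0_bas {q n : ℕ} {K : Type} [CommRing K] (I : Pl q (n + 1)) (y : Fin q × Fin n → K)
    (j : Fin (n + 1)) (a : Fin (q + (n + 1))) :
    MvPolynomial.aeval y (basI (MvPolynomial (Fin q × Fin n) ℤ) I j a) = basI K I j a := by
  refine Fin.cases ?_ (fun t => ?_) j
  · simp only [basI, Fin.cases_zero]
    split_ifs <;> simp
  · simp only [basI, Fin.cases_succ]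
    split_ifs <;> simp

theorem px_gr0_mat {q n : ℕ} {K : Type} [CommRing K] (I : Pl q (n + 1)) (y : Fin q × Fin n → K)
    (j : Fin (n + 1)) (s : Fin (q + 1)) (a : Fin (q + (n + 1))) :
    MvPolynomial.aeval y (matI I (fun s => (MvPolynomial.X s : MvPolynomial (Fin q × Fin n) ℤ))
      (basI (MvPolynomial (Fin q × Fin n) ℤ) I j) s a) = matI I y (basI K I j) s a := by
  refine Fin.lastCases ?_ (fun s => ?_) s
  · simp only [matI, Fin.snoc_last]
    exact px_gr0_bas I y j a
  · simp only [matI, Fin.snoc_castSucc]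
    exact px_gr0_row I y s a

theorem px_gr0_upd {q n : ℕ} {K : Type} [CommRing K] (I : Pl q (n + 1)) (y : Fin q × Fin n → K)
    (v : Fin (q + (n + 1)) → K) (e : Fin (q + 1) → Fin (q + (n + 1))) :
    (Matrix.of fun i j => matI I y v i (e j)) =
      (Matrix.of fun i j => matI I y 0 i (e j)).updateRow (Fin.last q) (fun j => v (e j)) := by
  apply Matrix.ext
  intro i j
  refine Fin.lastCases ?_ (fun s => ?_) i
  · rw [Matrix.updateRow_self]
    simp only [Matrix.of_apply, matI, Fin.snoc_last]
  · rw [Matrix.updateRow_ne (Fin.castSucc_lt_last s).ne]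
    simp only [Matrix.of_apply, matI, Fin.snoc_castSucc]

theorem px_gr0_cr {q n : ℕ} {K : Type} [CommRing K] (I : Pl q (n + 1)) (y : Fin q × Fin n → K)
    (v : Fin (q + (n + 1)) → K) (i : Pl q (n + 1)) :
    plR (matI I y v) i = Matrix.cramer
      (Matrix.of fun s t => matI I y 0 s (i.1.orderEmbOfFin i.2 t)).transpose
      (fun t => v (i.1.orderEmbOfFin i.2 t)) (Fin.last q) := by
  rw [Matrix.cramer_transpose_apply]
  unfold plR
  rw [px_gr0_upd I y v (fun t => i.1.orderEmbOfFin i.2 t)]

theorem pGR0 : S_GR0 := by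
  intro q n K _ I y
  have h1 : ∀ i j, frm (GrA q n) I y i j = plR (matI I y (basI K I j)) i := by
    intro i j
    unfold frm GrA plR
    rw [AlgHom.map_det]
    refine congrArg Matrix.det ?_
    apply Matrix.ext
    intro s t
    rw [AlgHom.mapMatrix_apply, Matrix.map_apply, Matrix.of_apply, Matrix.of_apply]
    exact px_gr0_mat I y j s _
  refine ⟨h1, ?_⟩
  intro x i
  unfold pt
  simp only [h1, px_gr0_cr]
  set A := (Matrix.of fun s t => matI I y 0 s (i.1.orderEmbOfFin i.2 t)).transpose
  have h2 : (fun t => lasI I x (i.1.orderEmbOfFin i.2 t)) =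
      ∑ j, x j • (fun t => basI K I j (i.1.orderEmbOfFin i.2 t)) := by
    funext t
    simp only [lasI, Finset.sum_apply, Pi.smul_apply, smul_eq_mul]
  rw [h2, map_sum, Finset.sum_apply]
  refine Finset.sum_congr rfl fun j _ => ?_
  rw [map_smul, Pi.smul_apply, smul_eq_mul, mul_comm]

end Pool.Agent.H731.GS
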