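import Pool.Agent.H731.GS.GrStm

/-!
# GR1: the charts of the Grassmannian are unimodular
-/

set_option autoImplicit false

namespace Pool.Agent.H731.GS

open Pool.Agent.Y716.Q Pool.Agent.Y716.C
open Pool.Agent.T2H39.CV (Cone IsCone Swept Gr Pl pl S_WAQ)

section
variable {q n : ℕ} {K : Type} [CommRing K]

theorem px_gr1_inj (I : Pl q (n + 1)) (i i' : Fin (q + 1)) :
    inI I i = inI I i' ↔ i = i' :=
  (I.1.orderEmbOfFin I.2).injective.eq_iff

theorem px_gr1_out (I : Pl q (n + 1)) (t t' : Fin n) : outI I t = outI I t' ↔ t = t' :=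
  ((I.1ᶜ).orderEmbOfFin (card_compl_pl I)).injective.eq_iff

theorem px_gr1_in_mem (I : Pl q (n + 1)) (i : Fin (q + 1)) : inI I i ∈ I.1 :=
  Finset.orderEmbOfFin_mem _ _ _

theorem px_gr1_out_mem (I : Pl q (n + 1)) (t : Fin n) : outI I t ∉ I.1 :=
  Finset.mem_compl.1 (Finset.orderEmbOfFin_mem _ _ _)

theorem px_gr1_ne (I : Pl q (n + 1)) (i : Fin (q + 1)) (t : Fin n) : inI I i ≠ outI I t :=
  fun h => px_gr1_out_mem I t (h ▸ px_gr1_in_mem I i)

theorem px_gr1_row_in (I : Pl q (n + 1)) (y : Fin q × Fin n → K) (s : Fin q) (i : Fin (q + 1)) :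
    rowI I y s (inI I i) = if i = s.castSucc then 1 else 0 := by
  unfold rowI
  rw [Finset.sum_eq_zero fun t _ => if_neg (px_gr1_ne I i t), add_zero]
  simp only [px_gr1_inj]

theorem px_gr1_row_out (I : Pl q (n + 1)) (y : Fin q × Fin n → K) (s : Fin q) (t : Fin n) :
    rowI I y s (outI I t) = y (s, t) := by
  unfold rowI
  rw [if_neg (px_gr1_ne I _ t).symm, zero_add]
  simp only [px_gr1_out]
  rw [Finset.sum_ite_eq Finset.univ t, if_pos (Finset.mem_univ t)]

theorem px_gr1_bas_in (I : Pl q (n + 1)) (j : Fin (n + 1)) (i : Fin (q + 1)) :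
    basI K I j (inI I i) = if i = Fin.last q then (if j = 0 then 1 else 0) else 0 := by
  unfold basI
  refine Fin.cases ?_ (fun t => ?_) j
  · simp only [Fin.cases_zero, px_gr1_inj, if_true]
  · simp only [Fin.cases_succ, if_neg (px_gr1_ne I i t), Fin.succ_ne_zero, if_false, ite_self]

theorem px_gr1_bas_out (I : Pl q (n + 1)) (j : Fin (n + 1)) (t : Fin n) :
    basI K I j (outI I t) = if j = t.succ then 1 else 0 := by
  unfold basI
  refine Fin.cases ?_ (fun t' => ?_) j
  · simp only [Fin.cases_zero, if_neg (px_gr1_ne I _ t).symm, (Fin.succ_ne_zero t).symm, if_false]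
  · simp only [Fin.cases_succ, px_gr1_out, Fin.succ_inj]
    simp only [eq_comm]

/-- the diagonal -/
def px_gr1_d (K : Type) [CommRing K] (q : ℕ) (a : K) : Fin (q + 1) → K :=
  Fin.snoc (α := fun _ => K) (fun _ => 1) a

theorem px_gr1_d_last (a : K) : px_gr1_d K q a (Fin.last q) = a := Fin.snoc_last _ _

theorem px_gr1_d_cast (a : K) (s : Fin q) : px_gr1_d K q a s.castSucc = 1 :=
  Fin.snoc_castSucc (α := fun _ => K) _ _ _

theorem px_gr1_prod (a : K) : ∏ j, px_gr1_d K q a j = a := by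
  rw [Fin.prod_univ_castSucc, px_gr1_d_last, Finset.prod_eq_one fun s _ => px_gr1_d_cast a s,
    one_mul]

theorem px_gr1_prod_last (a : K) :
    ∏ j ∈ Finset.univ.erase (Fin.last q), px_gr1_d K q a j = 1 := by
  refine Finset.prod_eq_one fun j hj => ?_
  obtain ⟨s, rfl⟩ := Fin.exists_castSucc_eq.2 (Finset.ne_of_mem_erase hj)
  exact px_gr1_d_cast a s

theorem px_gr1_prod_cast (a : K) (s : Fin q) :
    ∏ j ∈ Finset.univ.erase s.castSucc, px_gr1_d K q a j = a := by
  rw [← one_mul (∏ j ∈ Finset.univ.erase s.castSucc, px_gr1_d K q a j), ← px_gr1_d_cast a s,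
    Finset.mul_prod_erase _ _ (Finset.mem_univ _), px_gr1_prod]

theorem px_gr1_mat_cast (I : Pl q (n + 1)) (y : Fin q × Fin n → K) (v : Fin (q + (n + 1)) → K)
    (s : Fin q) : matI I y v s.castSucc = rowI I y s :=
  Fin.snoc_castSucc (α := fun _ => Fin (q + (n + 1)) → K) _ _ _

theorem px_gr1_mat_last (I : Pl q (n + 1)) (y : Fin q × Fin n → K) (v : Fin (q + (n + 1)) → K) :
    matI I y v (Fin.last q) = v :=
  Fin.snoc_last (α := fun _ => Fin (q + (n + 1)) → K) _ _

theorem px_gr1_diag (I : Pl q (n + 1)) (y : Fin q × Fin n → K) (j : Fin (n + 1))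
    (i i' : Fin (q + 1)) : matI I y (basI K I j) i (inI I i') =
      if i = i' then px_gr1_d K q (if j = 0 then 1 else 0) i else 0 := by
  refine Fin.lastCases ?_ (fun s => ?_) i
  · rw [px_gr1_mat_last, px_gr1_bas_in, px_gr1_d_last]
    simp only [eq_comm]
  · rw [px_gr1_mat_cast, px_gr1_row_in, px_gr1_d_cast]
    simp only [eq_comm]

end

theorem pGR1 (h1 : S_MIN) : S_GR1 := by
  intro q n
  refine ⟨fun c => ⟨c, ?_, fun j => ?_⟩, fun c t => ?_, fun c st => ?_⟩
  · unfold GrA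
    rw [(h1 q n c).1 _ _ _ (px_gr1_diag c _ 0), px_gr1_prod, if_pos rfl]
  · unfold GrA
    rw [(h1 q n c).1 _ _ _ (px_gr1_diag c _ j.succ), px_gr1_prod, if_neg (Fin.succ_ne_zero j)]
  · obtain ⟨J, ε, hε, hJ⟩ := (h1 q n c).2 (Fin.last q) (outI c t) (px_gr1_out_mem c t)
    have e : ∀ j, GrA q n c J j = ε * if j = t.succ then 1 else 0 := fun j => by
      unfold GrA
      rw [hJ _ _ _ (px_gr1_diag c _ j), px_gr1_prod_last, one_mul, px_gr1_mat_last, px_gr1_bas_out]
    refine ⟨J, ?_, fun j hj => ?_⟩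
    · rw [e, if_pos rfl, mul_one]
      rcases hε with rfl | rfl
      · exact Or.inl Int.cast_one
      · exact Or.inr (by rw [Int.cast_neg, Int.cast_one])
    · rw [e, if_neg hj, mul_zero]
  · obtain ⟨s, t⟩ := st
    obtain ⟨J, ε, hε, hJ⟩ := (h1 q n c).2 s.castSucc (outI c t) (px_gr1_out_mem c t)
    have e : ∀ j : Fin (n + 1), GrA q n c J j =
        (ε : MvPolynomial (Fin q × Fin n) ℤ) *
          ((if j = 0 then 1 else 0) * MvPolynomial.X (s, t)) := fun j => by
      unfold GrA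
      rw [hJ _ _ _ (px_gr1_diag c _ j), px_gr1_prod_cast, px_gr1_mat_cast, px_gr1_row_out]
    refine ⟨J, ?_, fun j => ?_⟩
    · rw [e, if_pos rfl, one_mul]
      rcases hε with rfl | rfl
      · exact Or.inl (by rw [Int.cast_one, one_mul])
      · exact Or.inr (by rw [Int.cast_neg, Int.cast_one, neg_one_mul])
    · rw [e, if_neg (Fin.succ_ne_zero j), zero_mul, mul_zero]

end Pool.Agent.H731.GS
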