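import Pool.Agent.H731.GS.GrStm

/-!
# GR2A: points of the Grassmannian in a chart (project GS, helper731; proof by helper47)
-/

set_option autoImplicit false

namespace Pool.Agent.H731.GS

open Pool.Agent.Y716.Q Pool.Agent.Y716.C
open Pool.Agent.T2H39.CV (Cone IsCone Swept Gr Pl pl S_WAQ)

theorem px_gr2a_outI_notMem {q n : ℕ} (I : Pl q (n + 1)) (t : Fin n) : outI I t ∉ I.1 := by
  have h : outI I t ∈ (I.1ᶜ) := Finset.orderEmbOfFin_mem _ _ _
  exact Finset.mem_compl.1 h

theorem px_gr2a_inI_mem {q n : ℕ} (I : Pl q (n + 1)) (s : Fin (q + 1)) : inI I s ∈ I.1 :=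
  Finset.orderEmbOfFin_mem _ _ _

theorem px_gr2a_ne {q n : ℕ} (I : Pl q (n + 1)) (t : Fin n) (s : Fin (q + 1)) :
    ¬ outI I t = inI I s := by
  intro h
  apply px_gr2a_outI_notMem I t
  rw [h]
  exact px_gr2a_inI_mem I s

theorem px_gr2a_inI_inj {q n : ℕ} (I : Pl q (n + 1)) {s s' : Fin (q + 1)}
    (h : inI I s = inI I s') : s = s' :=
  (I.1.orderEmbOfFin I.2).injective h

theorem px_gr2a_outI_inj {q n : ℕ} (I : Pl q (n + 1)) {t t' : Fin n}
    (h : outI I t = outI I t') : t = t' :=
  ((I.1ᶜ).orderEmbOfFin (card_compl_pl I)).injective h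

theorem px_gr2a_cases {q n : ℕ} (I : Pl q (n + 1)) (a : Fin (q + (n + 1))) :
    (∃ s, a = inI I s) ∨ ∃ t, a = outI I t := by
  by_cases h : a ∈ I.1
  · left
    have h1 := Finset.range_orderEmbOfFin I.1 I.2
    have h2 : a ∈ Set.range (I.1.orderEmbOfFin I.2) := by
      rw [h1]
      exact h
    obtain ⟨s, hs⟩ := h2
    exact ⟨s, hs.symm⟩
  · right
    have h1 := Finset.range_orderEmbOfFin (I.1ᶜ) (card_compl_pl I)
    have h2 : a ∈ Set.range ((I.1ᶜ).orderEmbOfFin (card_compl_pl I)) := by
      rw [h1]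
      exact Finset.mem_coe.2 (Finset.mem_compl.2 h)
    obtain ⟨t, ht⟩ := h2
    exact ⟨t, ht.symm⟩

/-- a matrix which is the identity on the columns of `I` is in the chart -/
theorem px_gr2a_matI {q n : ℕ} {K : Type} [Field K] (I : Pl q (n + 1))
    (M' : Fin (q + 1) → Fin (q + (n + 1)) → K)
    (hM : ∀ i i', M' i (inI I i') = if i = i' then 1 else 0) (y : Fin q × Fin n → K)
    (x : Fin (n + 1) → K) (hy : ∀ s t, y (s, t) = M' s.castSucc (outI I t)) (hx0 : x 0 = 1)
    (hx : ∀ t : Fin n, x t.succ = M' (Fin.last q) (outI I t)) :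
    matI I y (lasI I x) = M' := by
  funext i a
  refine Fin.lastCases ?_ (fun s => ?_) i
  · unfold matI
    rw [Fin.snoc_last]
    unfold lasI
    rw [Fin.sum_univ_succ, hx0, one_mul]
    have e0 : basI K I 0 a = if a = inI I (Fin.last q) then 1 else 0 := rfl
    have e1 : ∀ t : Fin n, basI K I t.succ a = if a = outI I t then 1 else 0 := fun t => rfl
    rw [e0]
    simp only [e1, hx]
    rcases px_gr2a_cases I a with ⟨s, rfl⟩ | ⟨t, rfl⟩
    · rw [hM]
      have h1 : ∑ t : Fin n, M' (Fin.last q) (outI I t) *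
          (if inI I s = outI I t then (1 : K) else 0) = 0 := by
        apply Finset.sum_eq_zero
        intro t _
        rw [if_neg, mul_zero]
        intro h
        exact px_gr2a_outI_notMem I t (h ▸ px_gr2a_inI_mem I s)
      rw [h1, add_zero]
      by_cases h : s = Fin.last q
      · rw [h, if_pos rfl, if_pos rfl]
      · rw [if_neg (fun h' => h (px_gr2a_inI_inj I h')), if_neg (fun h' => h h'.symm)]
    · rw [if_neg (px_gr2a_ne I t (Fin.last q)), zero_add,
        Finset.sum_eq_single t]
      · rw [if_pos rfl, mul_one]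
      · intro t' _ ht'
        rw [if_neg (fun h => ht' (px_gr2a_outI_inj I h).symm), mul_zero]
      · intro h
        exact absurd (Finset.mem_univ t) h
  · unfold matI
    rw [Fin.snoc_castSucc]
    unfold rowI
    simp only [hy]
    rcases px_gr2a_cases I a with ⟨s', rfl⟩ | ⟨t, rfl⟩
    · rw [hM]
      have h1 : ∑ t : Fin n, (if inI I s' = outI I t then M' s.castSucc (outI I t) else 0) = 0 := by
        apply Finset.sum_eq_zero
        intro t _
        rw [if_neg]
        intro h
        exact px_gr2a_outI_notMem I t (h ▸ px_gr2a_inI_mem I s')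
      rw [h1, add_zero]
      by_cases h : s' = s.castSucc
      · rw [h, if_pos rfl, if_pos rfl]
      · rw [if_neg (fun h' => h (px_gr2a_inI_inj I h')), if_neg (fun h' => h h'.symm)]
    · rw [if_neg (px_gr2a_ne I t s.castSucc), zero_add,
        Finset.sum_eq_single t]
      · rw [if_pos rfl]
      · intro t' _ ht'
        rw [if_neg (fun h => ht' (px_gr2a_outI_inj I h).symm)]
      · intro h
        exact absurd (Finset.mem_univ t) h

theorem pGR2A (h1 : S_GR0) (h2 : S_MIN) : S_GR2A := by
  intro q n K _ M I hI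
  set D : Matrix (Fin (q + 1)) (Fin (q + 1)) K := Matrix.of fun i j => M i (inI I j) with hD
  have hdet : D.det = pl M I := rfl
  have hu : IsUnit D.det := by
    rw [hdet]
    exact isUnit_iff_ne_zero.2 hI
  set M' : Fin (q + 1) → Fin (q + (n + 1)) → K := fun i a => ∑ k, D⁻¹ i k * M k a with hM'
  have hid : ∀ i i', M' i (inI I i') = if i = i' then 1 else 0 := by
    intro i i'
    have h3 : (D⁻¹ * D) i i' = (1 : Matrix (Fin (q + 1)) (Fin (q + 1)) K) i i' := by
      rw [Matrix.nonsing_inv_mul D hu]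
    rw [Matrix.mul_apply, Matrix.one_apply] at h3
    exact h3
  have hback : ∀ i a, M i a = ∑ k, D i k * M' k a := by
    intro i a
    have h3 : (D * (D⁻¹ * (Matrix.of M))) i a = (Matrix.of M) i a := by
      rw [← Matrix.mul_assoc, Matrix.mul_nonsing_inv D hu, Matrix.one_mul]
    rw [Matrix.mul_apply] at h3
    rw [Matrix.of_apply] at h3
    rw [← h3]
    rfl
  have hpl : ∀ J, pl M J = pl M I * pl M' J := by
    intro J
    have h3 : (Matrix.of fun i j => M i (J.1.orderEmbOfFin J.2 j)) =
        D * (Matrix.of fun i j => M' i (J.1.orderEmbOfFin J.2 j)) := by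
      ext i j
      rw [Matrix.mul_apply, Matrix.of_apply, hback]
      rfl
    show Matrix.det (Matrix.of fun i j => M i (J.1.orderEmbOfFin J.2 j)) = _
    rw [h3, Matrix.det_mul, hdet]
    rfl
  have hdiv : ∀ J, pl M' J = pl M J / pl M I := by
    intro J
    rw [hpl J]
    field_simp
  have hentry : ∀ (s : Fin (q + 1)) (t : Fin n), ∃ J, M' s (outI I t) = pl M J / pl M I ∨
      M' s (outI I t) = -(pl M J / pl M I) := by
    intro s t
    obtain ⟨J, ε, hε, hJ⟩ := (h2 q n I).2 s (outI I t) (px_gr2a_outI_notMem I t)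
    have h3 := hJ K M' (fun _ => 1) hid
    rw [Finset.prod_const_one, one_mul, plR_eq, hdiv J] at h3
    refine ⟨J, ?_⟩
    rcases hε with rfl | rfl
    · left
      rw [h3]
      push_cast
      ring
    · right
      rw [h3]
      push_cast
      ring
  let y : Fin q × Fin n → K := fun p => M' p.1.castSucc (outI I p.2)
  let x : Fin (n + 1) → K := Fin.cons 1 (fun t => M' (Fin.last q) (outI I t))
  have hx0 : x 0 = 1 := Fin.cons_zero _ _
  have hxs : ∀ t : Fin n, x t.succ = M' (Fin.last q) (outI I t) := fun t => Fin.cons_succ _ _ _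
  refine ⟨y, x, hx0, ?_, ?_, ?_⟩
  · intro i
    rw [(h1 q n K I y).2 x i, px_gr2a_matI I M' hid y x (fun s t => rfl) hx0 hxs, plR_eq]
    exact hpl i
  · intro s
    exact hentry s.1.castSucc s.2
  · intro t
    rw [hxs t]
    exact hentry (Fin.last q) t

end Pool.Agent.H731.GS
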