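import Pool.Agent.H731.GS.GrStm

/-!
# The density condition for the charts of the Grassmannians (GR3)
-/

set_option autoImplicit false

namespace Pool.Agent.H731.GS

open Pool.Agent.Y716.Q Pool.Agent.Y716.C
open Pool.Agent.T2H39.CV (Cone IsCone Swept Gr Pl pl S_WAQ)

section
variable {q n : ℕ}

theorem px_gr3_in_inj (I : Pl q (n + 1)) (s t : Fin (q + 1)) : inI I s = inI I t ↔ s = t :=
  (I.1.orderEmbOfFin I.2).injective.eq_iff

theorem px_gr3_out_inj (I : Pl q (n + 1)) (s t : Fin n) : outI I s = outI I t ↔ s = t :=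
  ((I.1ᶜ).orderEmbOfFin (card_compl_pl I)).injective.eq_iff

theorem px_gr3_in_out (I : Pl q (n + 1)) (s : Fin (q + 1)) (t : Fin n) : inI I s ≠ outI I t := by
  intro h
  have h1 : inI I s ∈ I.1 := Finset.orderEmbOfFin_mem _ _ _
  have h2 : outI I t ∈ I.1ᶜ := Finset.orderEmbOfFin_mem _ _ _
  rw [← h] at h2
  exact (Finset.mem_compl.1 h2) h1

/-- all the rows of the chart -/
noncomputable def px_gr3_M (K : Type) [CommRing K] (I : Pl q (n + 1)) (y : Fin q × Fin n → K) :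
    Fin q ⊕ Fin (n + 1) → Fin (q + (n + 1)) → K :=
  Sum.elim (rowI I y) (basI K I)

theorem px_gr3_li (K : Type) [Field K] (I : Pl q (n + 1)) (y : Fin q × Fin n → K) :
    LinearIndependent K (px_gr3_M K I y) := by
  classical
  rw [Fintype.linearIndependent_iff]
  intro g hg
  have hcol : ∀ a, ∑ s, g (Sum.inl s) * rowI I y s a + ∑ j, g (Sum.inr j) * basI K I j a = 0 := by
    intro a
    have h := congrFun hg a
    rw [Fintype.sum_sum_type] at h
    simpa [px_gr3_M, Finset.sum_apply] using h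
  have hl : ∀ s, g (Sum.inl s) = 0 := by
    intro s
    have h := hcol (inI I s.castSucc)
    rw [Fin.sum_univ_succ] at h
    simpa [rowI, basI, px_gr3_in_inj, px_gr3_in_out, (Fin.castSucc_lt_last s).ne] using h
  have hr : ∀ j, g (Sum.inr j) = 0 := by
    intro j
    refine Fin.cases ?_ (fun t => ?_) j
    · have h := hcol (inI I (Fin.last q))
      rw [Fin.sum_univ_succ] at h
      simpa [hl, basI, px_gr3_in_inj, px_gr3_in_out] using h
    · have h := hcol (outI I t)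
      rw [Fin.sum_univ_succ] at h
      simpa [hl, basI, px_gr3_out_inj, (px_gr3_in_out I _ _).symm] using h
  rintro (s | j)
  · exact hl s
  · exact hr j

theorem px_gr3_delta {K : Type} [NormedField K] (h1 : S_GR0) (I : Pl q (n + 1))
    (y : Fin q × Fin n → K) {ε : ℝ} (hε : 0 < ε) :
    ∃ δ : ℝ, 0 < δ ∧ ∀ r : Fin q ⊕ Fin (n + 1) → Fin (q + (n + 1)) → K,
      (∀ s a, ‖r s a - px_gr3_M K I y s a‖ < δ) →
      ∀ i j, ‖pl (Fin.snoc (α := fun _ => Fin (q + (n + 1)) → K) (fun s => r (Sum.inl s))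
        (r (Sum.inr j))) i - frm (GrA q n) I y i j‖ < ε := by
  have h := fun j : Fin (n + 1) =>
    Pool.Agent.T2H39.CV.Grs.exists_delta (matI I y (basI K I j)) hε
  choose δ hδ hδ' using h
  obtain ⟨j₀, hj₀⟩ := Finite.exists_min δ
  refine ⟨δ j₀, hδ j₀, fun r hr i j => ?_⟩
  rw [(h1 q n K I y).1 i j, plR_eq]
  refine hδ' j _ (fun s a => ?_) i
  refine lt_of_lt_of_le ?_ (hj₀ j)
  refine Fin.lastCases ?_ (fun s => ?_) s
  · have := hr (Sum.inr j) a
    simpa [matI, px_gr3_M] using this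
  · have := hr (Sum.inl s) a
    simpa [matI, px_gr3_M] using this

end

theorem pGR3 (h1 : S_GR0) (h2 : Pool.Agent.T2H39.CV.S_WAQ) : S_GR3 := by
  classical
  intro q n w c y c₀ y₀ ε hε
  -- the real place
  obtain ⟨δ₀, hδ₀, h₀⟩ := px_gr3_delta h1 c₀ y₀ hε
  have hopen := isOpen_setOfPred_linearIndependent (𝕜 := ℝ) (ι := Fin q ⊕ Fin (n + 1))
    (E := Fin (q + (n + 1)) → ℝ)
  obtain ⟨δ₁, hδ₁, h₁⟩ := Metric.isOpen_iff.1 hopen _ (px_gr3_li ℝ c₀ y₀)
  -- the primes
  have hδ : ∀ m : ℕ, ∃ δ : ℝ, 0 < δ ∧ ∀ [Fact m.Prime],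
      ∀ r : Fin q ⊕ Fin (n + 1) → Fin (q + (n + 1)) → ℚ_[m],
        (∀ s a, ‖r s a - px_gr3_M ℚ_[m] (c m) (y m) s a‖ < δ) →
        ∀ i j, ‖pl (Fin.snoc (α := fun _ => Fin (q + (n + 1)) → ℚ_[m]) (fun s => r (Sum.inl s))
          (r (Sum.inr j))) i - frm (GrA q n) (c m) (y m) i j‖ < ε := by
    intro m
    by_cases hm : m.Prime
    · have : Fact m.Prime := ⟨hm⟩
      obtain ⟨δ, h1, h2⟩ := px_gr3_delta h1 (c m) (y m) hε
      exact ⟨δ, h1, fun B => h2 B⟩
    · exact ⟨1, one_pos, fun {h} => absurd h.out hm⟩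
  choose δ hδ hδ' using hδ
  obtain ⟨d, hd, hdδ⟩ := Pool.Agent.T2H39.CV.Grs.exists_min w δ hδ
  have hy := fun (s : Fin q ⊕ Fin (n + 1)) (a : Fin (q + (n + 1))) =>
    h2 w (px_gr3_M ℝ c₀ y₀ s a) (fun p _ => px_gr3_M ℚ_[p] (c p) (y p) s a)
      (min d (min δ₀ δ₁)) (lt_min hd (lt_min hδ₀ hδ₁))
  choose r hrR hrP using hy
  have hliR : LinearIndependent ℝ (fun s a => (r s a : ℝ)) := by
    refine h₁ ?_
    rw [Metric.mem_ball]
    refine (dist_pi_lt_iff hδ₁).2 fun s => (dist_pi_lt_iff hδ₁).2 fun a => ?_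
    rw [Real.dist_eq]
    exact (hrR s a).trans_le ((min_le_right _ _).trans (min_le_right _ _))
  have hli : LinearIndependent ℚ r := by
    rw [Fintype.linearIndependent_iff] at hliR ⊢
    intro g hg s
    have h3 := hliR (fun s => (g s : ℝ)) (by
      funext a
      have h4 := congrFun hg a
      simp only [Finset.sum_apply, Pi.smul_apply, smul_eq_mul, Pi.zero_apply] at h4 ⊢
      exact_mod_cast congrArg (fun z : ℚ => (z : ℝ)) h4) s
    exact_mod_cast h3
  have hsum := linearIndependent_sum.1 hli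
  refine ⟨fun i j => pl (Fin.snoc (α := fun _ => Fin (q + (n + 1)) → ℚ) (fun s => r (Sum.inl s))
        (r (Sum.inr j))) i, ?_, ?_, ?_⟩
  · intro x hx
    have hA : ∀ v : Fin (q + (n + 1)) → ℚ,
        Fin.snoc (α := fun _ => Fin (q + (n + 1)) → ℚ) (fun s => r (Sum.inl s)) v =
        Function.update (Fin.snoc (α := fun _ => Fin (q + (n + 1)) → ℚ)
          (fun s => r (Sum.inl s)) 0) (Fin.last q) v := by
      intro v
      rw [Fin.update_snoc_last]
    have hT : (fun i => ∑ j, pl (Fin.snoc (α := fun _ => Fin (q + (n + 1)) → ℚ)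
        (fun s => r (Sum.inl s)) (r (Sum.inr j))) i * x j) =
        pl (Fin.snoc (α := fun _ => Fin (q + (n + 1)) → ℚ) (fun s => r (Sum.inl s))
          (∑ j, x j • r (Sum.inr j))) := by
      rw [hA, ← Pool.Agent.T2H39.CV.Grs.Tm_apply, map_sum]
      funext i
      rw [Finset.sum_apply]
      refine Finset.sum_congr rfl fun j _ => ?_
      rw [map_smul, Pool.Agent.T2H39.CV.Grs.Tm_apply, ← hA, Pi.smul_apply, smul_eq_mul, mul_comm]
    have hne : pl (Fin.snoc (α := fun _ => Fin (q + (n + 1)) → ℚ) (fun s => r (Sum.inl s))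
          (∑ j, x j • r (Sum.inr j))) ≠ 0 := by
      apply Pool.Agent.T2H39.CV.Grs.pl_ne
      refine linearIndependent_finSnoc.2 ⟨hsum.1, fun hmem => ?_⟩
      have h3 : (∑ j, x j • r (Sum.inr j)) ∈ Submodule.span ℚ (Set.range (r ∘ Sum.inr)) := by
        refine Submodule.sum_mem _ fun j _ => Submodule.smul_mem _ _ (Submodule.subset_span ⟨j, rfl⟩)
      have h4 : (∑ j, x j • r (Sum.inr j)) = 0 :=
        Submodule.disjoint_def.1 hsum.2.2 _ hmem h3
      exact hx (funext fun j => Fintype.linearIndependent_iff.1 hsum.2.1 x h4 j)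
    refine ⟨?_, _, hT⟩
    rw [hT]
    exact hne
  · intro i j
    have e1 : ((pl (Fin.snoc (α := fun _ => Fin (q + (n + 1)) → ℚ) (fun s => r (Sum.inl s))
        (r (Sum.inr j))) i : ℚ) : ℝ) =
        pl (Fin.snoc (α := fun _ => Fin (q + (n + 1)) → ℝ) (fun s a => (r (Sum.inl s) a : ℝ))
          (fun a => (r (Sum.inr j) a : ℝ))) i := by
      rw [show ((pl (Fin.snoc (α := fun _ => Fin (q + (n + 1)) → ℚ) (fun s => r (Sum.inl s))
        (r (Sum.inr j))) i : ℚ) : ℝ) = (algebraMap ℚ ℝ) (pl (Fin.snoc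
          (α := fun _ => Fin (q + (n + 1)) → ℚ) (fun s => r (Sum.inl s))
        (r (Sum.inr j))) i) from rfl, Pool.Agent.T2H39.CV.Grs.pl_map]
      congr 1
      funext s a
      refine Fin.lastCases ?_ (fun s => ?_) s
      · simp
      · simp
    have h3 := h₀ (fun s a => (r s a : ℝ)) (fun s a => by
      rw [Real.norm_eq_abs]
      exact (hrR s a).trans_le ((min_le_right _ _).trans (min_le_left _ _))) i j
    rw [Real.norm_eq_abs] at h3
    show |((pl (Fin.snoc (α := fun _ => Fin (q + (n + 1)) → ℚ) (fun s => r (Sum.inl s))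
        (r (Sum.inr j))) i : ℚ) : ℝ) - _| < ε
    rw [e1]
    exact h3
  · intro p _ hp i j
    have e1 : ((pl (Fin.snoc (α := fun _ => Fin (q + (n + 1)) → ℚ) (fun s => r (Sum.inl s))
        (r (Sum.inr j))) i : ℚ) : ℚ_[p]) =
        pl (Fin.snoc (α := fun _ => Fin (q + (n + 1)) → ℚ_[p]) (fun s a => (r (Sum.inl s) a : ℚ_[p]))
          (fun a => (r (Sum.inr j) a : ℚ_[p]))) i := by
      rw [show ((pl (Fin.snoc (α := fun _ => Fin (q + (n + 1)) → ℚ) (fun s => r (Sum.inl s))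
        (r (Sum.inr j))) i : ℚ) : ℚ_[p]) = (algebraMap ℚ ℚ_[p]) (pl (Fin.snoc
          (α := fun _ => Fin (q + (n + 1)) → ℚ) (fun s => r (Sum.inl s))
        (r (Sum.inr j))) i) from rfl, Pool.Agent.T2H39.CV.Grs.pl_map]
      congr 1
      funext s a
      refine Fin.lastCases ?_ (fun s => ?_) s
      · simp
      · simp
    have h3 := hδ' p (fun s a => (r s a : ℚ_[p])) (fun s a =>
      (hrP s a p hp).trans_le ((min_le_left _ _).trans (hdδ p hp))) i j
    show ‖((pl (Fin.snoc (α := fun _ => Fin (q + (n + 1)) → ℚ) (fun s => r (Sum.inl s))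
        (r (Sum.inr j))) i : ℚ) : ℚ_[p]) - _‖ < ε
    rw [e1]
    exact h3

end Pool.Agent.H731.GS
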