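import Pool.Agent.H731.GS.GrStm

/-!
# The Grassmannians are swept out by linear spaces (package GRC)
-/

set_option autoImplicit false

namespace Pool.Agent.H731.GS

open Pool.Agent.Y716.Q Pool.Agent.Y716.C
open Pool.Agent.T2H39.CV (Cone IsCone Swept Gr Pl pl S_WAQ)

private theorem px_grc_cover {K : Type} [NormedField K] (h2 : S_GR2A) (q n : ℕ)
    (z : Pl q (n + 1) → K) (hz : z ≠ 0) (hM : ∃ M : Fin (q + 1) → Fin (q + (n + 1)) → K, z = pl M) :
    ∃ (a : K) (c : Pl q (n + 1)) (y : Fin q × Fin n → K) (x : Fin (n + 1) → K), a ≠ 0 ∧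
      (∀ t, ‖y t‖ ≤ 1) ∧ x 0 = 1 ∧ (∀ j, ‖x j‖ ≤ 1) ∧ z = fun i => a * pt (GrA q n) c y x i := by
  obtain ⟨M, rfl⟩ := hM
  obtain ⟨i₀, hi₀⟩ := Function.ne_iff.1 hz
  have : Nonempty (Pl q (n + 1)) := ⟨i₀⟩
  obtain ⟨I, hI⟩ := Finite.exists_max (fun i : Pl q (n + 1) => ‖pl M i‖)
  have hI0 : pl M I ≠ 0 := by
    intro h
    have h1 := hI i₀
    rw [h, norm_zero] at h1
    exact hi₀ (norm_le_zero_iff.1 h1)
  obtain ⟨y, x, hx0, hp, hy, hx⟩ := h2 q n K M I hI0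
  have hb : ∀ J, ‖pl M J / pl M I‖ ≤ 1 := by
    intro J
    rw [norm_div]
    exact div_le_one_of_le₀ (hI J) (norm_nonneg _)
  refine ⟨pl M I, I, y, x, hI0, ?_, hx0, ?_, funext hp⟩
  · intro t
    obtain ⟨J, h | h⟩ := hy t
    · rw [h]; exact hb J
    · rw [h, norm_neg]; exact hb J
  · intro j
    refine Fin.cases ?_ (fun t => ?_) j
    · rw [hx0, norm_one]
    · obtain ⟨J, h | h⟩ := hx t
      · rw [h]; exact hb J
      · rw [h, norm_neg]; exact hb J

theorem pGRC (h1 : S_GR1) (h2 : S_GR2A) (h3 : S_GR3) (h4 : Pool.Agent.T2H39.CV.S_GRS) : S_GRC := by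
  intro q n
  obtain ⟨hS, -⟩ := h4 q (n + 1) (Nat.le_add_left 1 n)
  exact
    { chart := h1 q n
      coneR := hS.coneR
      coneP := hS.coneP
      neQ := hS.neQ
      toR := hS.toR
      toP := hS.toP
      coverR := by
        rintro z ⟨hz, hM⟩
        exact px_grc_cover h2 q n z hz hM
      coverP := by
        rintro p _ z ⟨hz, hM⟩
        exact px_grc_cover h2 q n z hz hM
      dense := fun w c y c₀ y₀ ε hε => h3 q n w c y c₀ y₀ ε hε }

end Pool.Agent.H731.GS
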