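import Pool.Agent.H731.GS.Stm

/-!
# Project GS, package HENCN: the number of zeros modulo `p ^ E` near a nondegenerate one
-/

set_option autoImplicit false

namespace Pool.Agent.H731.GS

open Pool.Agent.T2H41.CX (NonD S_MINP S_HENG)

private theorem px_hencn_congr {τ : Type} (P : MvPolynomial τ ℤ) (q : ℤ) (z z' : τ → ℤ)
    (h : ∀ i, q ∣ z' i - z i) : q ∣ MvPolynomial.eval z' P - MvPolynomial.eval z P := by
  induction P using MvPolynomial.induction_on with
  | C a => simp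
  | add P Q hP hQ =>
    rw [map_add, map_add]
    have : MvPolynomial.eval z' P + MvPolynomial.eval z' Q -
        (MvPolynomial.eval z P + MvPolynomial.eval z Q) =
        (MvPolynomial.eval z' P - MvPolynomial.eval z P) +
        (MvPolynomial.eval z' Q - MvPolynomial.eval z Q) := by ring
    rw [this]
    exact dvd_add hP hQ
  | mul_X P i hP =>
    rw [map_mul, map_mul, MvPolynomial.eval_X, MvPolynomial.eval_X]
    have : MvPolynomial.eval z' P * z' i - MvPolynomial.eval z P * z i =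
        (MvPolynomial.eval z' P - MvPolynomial.eval z P) * z' i +
        MvPolynomial.eval z P * (z' i - z i) := by ring
    rw [this]
    exact dvd_add (hP.mul_right _) ((h i).mul_left _)

/-- **HENCN.** -/
theorem pHENCN (hMINP : S_MINP) (hHENG : S_HENG) : S_HENCN := by
  classical
  intro r τ _ G p J hp A z hz hN E hE
  obtain ⟨a, ha, haA, hna⟩ := hMINP r τ p J hp _ A hN
  have hpp : (0 : ℤ) < p := by exact_mod_cast hp.pos
  have hpE : (0 : ℤ) < (p : ℤ) ^ E := pow_pos hpp _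
  have hpJ : (0 : ℤ) < (p : ℤ) ^ (2 * J + 1) := pow_pos hpp _
  let A' : Finset τ := Finset.univ.image a
  let B : Finset τ := A \ A'
  have hA'A : A' ⊆ A := by
    intro i hi
    obtain ⟨j, _, rfl⟩ := Finset.mem_image.1 hi
    exact haA j
  have hcardA' : A'.card = r := by
    rw [Finset.card_image_of_injective _ ha, Finset.card_univ, Fintype.card_fin]
  have hcardB : B.card = A.card - r := by
    rw [Finset.card_sdiff_of_subset hA'A, hcardA']
  let q : ℕ := p ^ (E - (2 * J + 1))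
  have hq : ((p : ℤ) ^ (2 * J + 1)) * (q : ℤ) = (p : ℤ) ^ E := by
    change ((p : ℤ) ^ (2 * J + 1)) * (((p ^ (E - (2 * J + 1)) : ℕ)) : ℤ) = _
    push_cast
    rw [← pow_add]
    congr 1
    omega
  let zt : (↥B → Fin q) → τ → ℤ := fun t i =>
    if h : i ∈ B then z i % (p : ℤ) ^ (2 * J + 1) + (p : ℤ) ^ (2 * J + 1) * ((t ⟨i, h⟩ : ℕ) : ℤ)
    else z i
  have hzt1 : ∀ t i, (p : ℤ) ^ (2 * J + 1) ∣ zt t i - z i := by
    intro t i
    change (p : ℤ) ^ (2 * J + 1) ∣ (if h : i ∈ B then z i % (p : ℤ) ^ (2 * J + 1) +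
      (p : ℤ) ^ (2 * J + 1) * ((t ⟨i, h⟩ : ℕ) : ℤ) else z i) - z i
    split_ifs with h
    · have h1 : z i % (p : ℤ) ^ (2 * J + 1) + (p : ℤ) ^ (2 * J + 1) * ((t ⟨i, h⟩ : ℕ) : ℤ) - z i =
        (p : ℤ) ^ (2 * J + 1) * (((t ⟨i, h⟩ : ℕ) : ℤ) - z i / (p : ℤ) ^ (2 * J + 1)) := by
        have := Int.emod_add_mul_ediv (z i) ((p : ℤ) ^ (2 * J + 1))
        linear_combination this
      rw [h1]
      exact dvd_mul_right _ _
    · rw [sub_self]
      exact dvd_zero _
  have hJJ : (p : ℤ) ^ (J + 1) ∣ (p : ℤ) ^ (2 * J + 1) := pow_dvd_pow _ (by omega)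
  have hex : ∀ t : ↥B → Fin q, ∃ z' : τ → ℤ, (∀ i, i ∉ A' → z' i = zt t i) ∧
      (∀ i, (p : ℤ) ^ (J + 1) ∣ z' i - zt t i) ∧
      ∀ j, (p : ℤ) ^ E ∣ MvPolynomial.eval z' (G j) := by
    intro t
    have h1 : ∀ j, (p : ℤ) ^ (2 * J + 1) ∣ MvPolynomial.eval (zt t) (G j) := by
      intro j
      have := dvd_add (px_hencn_congr (G j) _ z (zt t) (hzt1 t)) (hz j)
      rwa [sub_add_cancel] at this
    have h2 : NonD p J (fun j i => MvPolynomial.eval (zt t) (MvPolynomial.pderiv i (G j))) A' := by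
      intro j₀ l hl
      obtain ⟨j', hj'⟩ := hna j₀ l hl
      refine ⟨a j', Finset.mem_image_of_mem a (Finset.mem_univ _), fun hd => hj' ?_⟩
      have h4 : (p : ℤ) ^ (J + 1) ∣
          ∑ j, l j * MvPolynomial.eval (zt t) (MvPolynomial.pderiv (a j') (G j)) -
          ∑ j, l j * MvPolynomial.eval z (MvPolynomial.pderiv (a j') (G j)) := by
        rw [← Finset.sum_sub_distrib]
        refine Finset.dvd_sum fun j _ => ?_
        rw [← mul_sub]
        exact (px_hencn_congr _ _ z (zt t) (fun i => hJJ.trans (hzt1 t i))).mul_left _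
      have h5 := dvd_sub hd h4
      rwa [sub_sub_cancel] at h5
    obtain ⟨z', h3, h4, h5⟩ := hHENG r τ G p J hp A' (zt t) h1 h2 E
    exact ⟨z', h3, h4, h5⟩
  choose zp hzp1 hzp3 hzp2 using hex
  let F : (↥B → Fin q) → τ → ℤ := fun t i => if i ∈ A' then zp t i % (p : ℤ) ^ E else zp t i
  have hF1 : ∀ t i, i ∉ A' → F t i = zt t i := by
    intro t i hi
    change (if i ∈ A' then zp t i % (p : ℤ) ^ E else zp t i) = zt t i
    rw [if_neg hi, hzp1 t i hi]
  have hFB : ∀ t (i : τ) (h : i ∈ B), F t i =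
      z i % (p : ℤ) ^ (2 * J + 1) + (p : ℤ) ^ (2 * J + 1) * ((t ⟨i, h⟩ : ℕ) : ℤ) := by
    intro t i h
    rw [hF1 t i (Finset.mem_sdiff.1 h).2]
    exact dif_pos h
  have hFzp : ∀ t i, (p : ℤ) ^ E ∣ F t i - zp t i := by
    intro t i
    change (p : ℤ) ^ E ∣ (if i ∈ A' then zp t i % (p : ℤ) ^ E else zp t i) - zp t i
    split_ifs
    · have h6 : zp t i % (p : ℤ) ^ E - zp t i = (p : ℤ) ^ E * (-(zp t i / (p : ℤ) ^ E)) := by
        have := Int.emod_add_mul_ediv (zp t i) ((p : ℤ) ^ E)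
        linear_combination this
      rw [h6]
      exact dvd_mul_right _ _
    · rw [sub_self]
      exact dvd_zero _
  have hFin : ({z' : τ → ℤ | (∀ i, i ∉ A → z' i = z i) ∧ (∀ i ∈ A, 0 ≤ z' i ∧ z' i < (p : ℤ) ^ E) ∧
      (∀ i, (p : ℤ) ^ (J + 1) ∣ z' i - z i) ∧
      ∀ j, (p : ℤ) ^ E ∣ MvPolynomial.eval z' (G j)} : Set (τ → ℤ)).Finite := by
    refine Set.Finite.subset (Set.Finite.pi' (t := fun i => if i ∈ A then Set.Ico (0 : ℤ) ((p : ℤ) ^ E)
      else {z i}) (fun i => ?_)) ?_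
    · split_ifs
      · exact Set.finite_Ico _ _
      · exact Set.finite_singleton _
    · rintro z' ⟨h1, h2, _⟩ i
      split_ifs with h
      · exact h2 i h
      · exact h1 i h
  have hcard : (p ^ (E - (2 * J + 1))) ^ (A.card - r) = (Set.univ : Set (↥B → Fin q)).ncard := by
    rw [Set.ncard_univ, Nat.card_eq_fintype_card, Fintype.card_fun, Fintype.card_fin,
      Fintype.card_coe, hcardB]
  rw [hcard]
  refine Set.ncard_le_ncard_of_injOn F ?_ ?_ hFin
  · intro t _
    refine ⟨fun i hi => ?_, fun i hi => ?_, fun i => ?_, fun j => ?_⟩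
    · have hi' : i ∉ A' := fun h => hi (hA'A h)
      have hiB : i ∉ B := fun h => hi (Finset.mem_sdiff.1 h).1
      rw [hF1 t i hi']
      exact dif_neg hiB
    · by_cases hi' : i ∈ A'
      · have : F t i = zp t i % (p : ℤ) ^ E := if_pos hi'
        rw [this]
        exact ⟨Int.emod_nonneg _ hpE.ne', Int.emod_lt_of_pos _ hpE⟩
      · have hiB : i ∈ B := Finset.mem_sdiff.2 ⟨hi, hi'⟩
        rw [hFB t i hiB]
        have h1 := Int.emod_nonneg (z i) hpJ.ne'
        have h2 := Int.emod_lt_of_pos (z i) hpJ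
        have h3 : (0 : ℤ) ≤ ((t ⟨i, hiB⟩ : ℕ) : ℤ) := by positivity
        have h4 : ((t ⟨i, hiB⟩ : ℕ) : ℤ) + 1 ≤ (q : ℤ) := by
          exact_mod_cast (t ⟨i, hiB⟩).isLt
        refine ⟨by positivity, ?_⟩
        rw [← hq]
        nlinarith
    · have h1 : (p : ℤ) ^ (J + 1) ∣ F t i - zp t i :=
        (pow_dvd_pow (p : ℤ) (by omega)).trans (hFzp t i)
      have h2 : (p : ℤ) ^ (J + 1) ∣ zt t i - z i := hJJ.trans (hzt1 t i)
      have h3 := dvd_add (dvd_add h1 (hzp3 t i)) h2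
      rwa [sub_add_sub_cancel, sub_add_sub_cancel] at h3
    · have := dvd_add (px_hencn_congr (G j) _ (zp t) (F t) (hFzp t)) (hzp2 t j)
      rwa [sub_add_cancel] at this
  · intro t _ t' _ htt
    funext i
    have h1 := congrFun htt i.1
    rw [hFB t i.1 i.2, hFB t' i.1 i.2] at h1
    have h2 := mul_left_cancel₀ hpJ.ne' (add_left_cancel h1)
    exact Fin.ext (by exact_mod_cast h2)

end Pool.Agent.H731.GS
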