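import Pool.Agent.H731.GS.Stm
import Pool.Graph.R_seed8.Z864.C.Minor

/-!
# Project GS, package HENRN: a real zero close to a nondegenerate approximate one

The proof is by compactness: the map `(g, x) ↦ (g, g(x))` is open at a point at which the Jacobian matrix of
`g` has rank `r`.
-/

set_option autoImplicit false

namespace Pool.Agent.H731.GS

open Pool.Agent.Y716.Q Pool.Agent.Y716.C Filter Topology
open Pool.Agent.T2H41.CX (NonD NonDR GoodM QJ)

private theorem px_henrn_strict {ι : Type} [Fintype ι] (G : MvPolynomial ι ℝ) (x : ι → ℝ) :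
    ∃ L : (ι → ℝ) →L[ℝ] ℝ, (∀ v, L v = ∑ j, MvPolynomial.eval x (MvPolynomial.pderiv j G) * v j) ∧
      HasStrictFDerivAt (fun y : ι → ℝ => MvPolynomial.eval y G) L x := by
  classical
  induction G using MvPolynomial.induction_on with
  | C a =>
    refine ⟨0, fun v => by simp, ?_⟩
    have h : (fun y : ι → ℝ => MvPolynomial.eval y (MvPolynomial.C a : MvPolynomial ι ℝ)) =
        fun _ => a := by
      funext y
      rw [MvPolynomial.eval_C]
    rw [h]
    exact hasStrictFDerivAt_const a x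
  | add p q hp hq =>
    obtain ⟨L, hL, h⟩ := hp
    obtain ⟨L', hL', h'⟩ := hq
    refine ⟨L + L', fun v => ?_, ?_⟩
    · rw [add_apply, hL, hL', ← Finset.sum_add_distrib]
      refine Finset.sum_congr rfl fun j _ => ?_
      rw [map_add, map_add, add_mul]
    · have e1 : (fun y : ι → ℝ => MvPolynomial.eval y (p + q)) =
          fun y => MvPolynomial.eval y p + MvPolynomial.eval y q := by
        funext y; rw [map_add]
      rw [e1]
      exact h.add h'
  | mul_X p i hp =>
    obtain ⟨L, hL, h⟩ := hp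
    have hX : HasStrictFDerivAt (fun y : ι → ℝ => y i)
        (ContinuousLinearMap.proj i : (ι → ℝ) →L[ℝ] ℝ) x :=
      (ContinuousLinearMap.proj i : (ι → ℝ) →L[ℝ] ℝ).hasStrictFDerivAt
    have e1 : (fun y : ι → ℝ => MvPolynomial.eval y (p * MvPolynomial.X i)) =
        fun y => MvPolynomial.eval y p * y i := by
      funext y; rw [map_mul, MvPolynomial.eval_X]
    refine ⟨_, fun v => ?_, by rw [e1]; exact h.mul hX⟩
    simp only [add_apply, smul_apply, ContinuousLinearMap.proj_apply, smul_eq_mul,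
      Derivation.leibniz, map_add, map_mul, MvPolynomial.eval_X, MvPolynomial.pderiv_X, hL]
    have h2 : ∀ j, (MvPolynomial.eval x p *
        MvPolynomial.eval x (Pi.single (M := fun _ => MvPolynomial ι ℝ) j 1 i) +
        x i * MvPolynomial.eval x (MvPolynomial.pderiv j p)) * v j =
        MvPolynomial.eval x p * (if i = j then v j else 0) +
        x i * (MvPolynomial.eval x (MvPolynomial.pderiv j p) * v j) := by
      intro j
      by_cases hij : i = j
      · subst hij; simp; ring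
      · rw [Pi.single_apply, if_neg hij, if_neg hij]; simp; ring
    simp_rw [h2]
    rw [Finset.sum_add_distrib, ← Finset.mul_sum, ← Finset.mul_sum]
    simp

/-- coefficients of systems -/
private abbrev px_henrnC {r : ℕ} (k : ℕ) (e : Fin r → ℕ) : Type :=
  ∀ j : Fin r, ↥(mons (Fin k) (e j + 2)) → ℝ

private noncomputable def px_henrnP {r k : ℕ} {e : Fin r → ℕ} (c : px_henrnC k e) (j : Fin r) :
    MvPolynomial (Fin k) ℝ :=
  ∑ m : ↥(mons (Fin k) (e j + 2)), MvPolynomial.monomial m.1 (c j m)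

private noncomputable def px_henrnF {r k : ℕ} {e : Fin r → ℕ} (j : Fin r)
    (q : px_henrnC k e × (Fin k → ℝ)) : ℝ :=
  ∑ m : ↥(mons (Fin k) (e j + 2)), q.1 j m * ∏ i, q.2 i ^ (m.1 i)

private theorem px_henrn_eval {r k : ℕ} {e : Fin r → ℕ} (c : px_henrnC k e) (j : Fin r) (x : Fin k → ℝ) :
    MvPolynomial.eval x (px_henrnP c j) = px_henrnF j (c, x) := by
  unfold px_henrnP px_henrnF
  rw [map_sum]
  refine Finset.sum_congr rfl fun m _ => ?_
  rw [MvPolynomial.eval_monomial, Finsupp.prod_fintype _ _ (fun i => pow_zero _)]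

private theorem px_henrn_coeff {r k : ℕ} {e : Fin r → ℕ} (g : Fin r → MvPolynomial (Fin k) ℝ)
    (hg : ∀ j, (g j).IsHomogeneous (e j + 2)) (j : Fin r) :
    px_henrnP (fun j (m : ↥(mons (Fin k) (e j + 2))) => (g j).coeff m.1) j = g j := by
  classical
  apply MvPolynomial.ext
  intro a
  unfold px_henrnP
  rw [MvPolynomial.coeff_sum]
  by_cases ha : a ∈ mons (Fin k) (e j + 2)
  · rw [Finset.sum_eq_single (⟨a, ha⟩ : ↥(mons (Fin k) (e j + 2)))]
    · rw [MvPolynomial.coeff_monomial, if_pos rfl]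
    · intro b _ hb
      rw [MvPolynomial.coeff_monomial, if_neg (fun h => hb (Subtype.ext h))]
    · intro h
      exact absurd (Finset.mem_univ _) h
  · rw [Finset.sum_eq_zero]
    · by_contra hne
      exact ha (mem_mons.mpr (homog_sum_eq (hg j) (fun h => hne h.symm)))
    · intro b _
      rw [MvPolynomial.coeff_monomial, if_neg]
      intro h
      apply ha
      rw [← h]
      exact b.2

private theorem px_henrn_contDiff {r k : ℕ} {e : Fin r → ℕ} (j : Fin r) :
    ContDiff ℝ 1 (px_henrnF (k := k) (e := e) j) := by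
  unfold px_henrnF
  refine ContDiff.sum fun m _ => ?_
  refine ContDiff.mul ?_ ?_
  · have h1 : ContDiff ℝ 1 (fun q : px_henrnC k e × (Fin k → ℝ) => q.1) := contDiff_fst
    have h2 := (contDiff_pi (𝕜 := ℝ) (n := 1)).1 h1 j
    exact (contDiff_pi (𝕜 := ℝ) (n := 1)).1 h2 m
  · refine contDiff_prod fun i _ => ContDiff.pow ?_ _
    have h1 : ContDiff ℝ 1 (fun q : px_henrnC k e × (Fin k → ℝ) => q.2) := contDiff_snd
    exact (contDiff_pi (𝕜 := ℝ) (n := 1)).1 h1 i

private theorem px_henrn_part {r k : ℕ} {e : Fin r → ℕ} (j : Fin r) (c : px_henrnC k e) (x v : Fin k → ℝ) :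
    fderiv ℝ (px_henrnF (e := e) j) (c, x) (0, v) =
      ∑ i, MvPolynomial.eval x (MvPolynomial.pderiv i (px_henrnP c j)) * v i := by
  obtain ⟨L, hL, h⟩ := px_henrn_strict (px_henrnP c j) x
  rw [← hL]
  have h1 : HasFDerivAt (px_henrnF (e := e) j) (fderiv ℝ (px_henrnF (e := e) j) (c, x)) (c, x) :=
    ((px_henrn_contDiff j).contDiffAt.hasStrictFDerivAt one_ne_zero).hasFDerivAt
  have h2 : HasFDerivAt (fun y : Fin k → ℝ => (c, y)) (ContinuousLinearMap.inr ℝ (px_henrnC k e) _) x :=
    hasFDerivAt_prodMk_right c x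
  have h3 := HasFDerivAt.comp x h1 h2
  have h4 : (px_henrnF (e := e) j ∘ fun y : Fin k → ℝ => (c, y)) =
      fun y => MvPolynomial.eval y (px_henrnP c j) := by
    funext y
    rw [px_henrn_eval]
    rfl
  rw [h4] at h3
  have h5 := h3.unique h.hasFDerivAt
  rw [← h5]
  rfl

/-- **HENRN.** -/
theorem pHENRN : S_HENRN := by
  classical
  intro r k e B γ ρ hB hγ hρ
  by_contra hcon
  push Not at hcon
  have hα : ∀ n : ℕ, (0 : ℝ) < 1 / ((n : ℝ) + 1) := fun n => by positivity
  choose g ξ hg hgB hξ hgξ hN hno using fun n : ℕ => hcon (1 / ((n : ℝ) + 1)) (hα n)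
  let cf : ℕ → px_henrnC k e := fun n j m => (g n j).coeff m.1
  let q : ℕ → px_henrnC k e × (Fin k → ℝ) := fun n => (cf n, ξ n)
  let R : ℝ := max B 2
  have hR0 : 0 ≤ R := le_max_of_le_right (by norm_num)
  have hqR : ∀ n, q n ∈ Metric.closedBall (0 : px_henrnC k e × (Fin k → ℝ)) R := by
    intro n
    rw [mem_closedBall_zero_iff, Prod.norm_def, max_le_iff]
    constructor
    · rw [pi_norm_le_iff_of_nonneg hR0]
      intro j
      rw [pi_norm_le_iff_of_nonneg hR0]
      intro m
      rw [Real.norm_eq_abs]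
      exact (hgB n j m.1).trans (le_max_left _ _)
    · rw [pi_norm_le_iff_of_nonneg hR0]
      intro i
      rw [Real.norm_eq_abs]
      exact (hξ n i).trans (le_max_right _ _)
  obtain ⟨q₀, _, φ, hφ, hlim⟩ := (isCompact_closedBall (0 : px_henrnC k e × (Fin k → ℝ)) R).tendsto_subseq hqR
  have hP : ∀ n j, px_henrnP (cf n) j = g n j := fun n j => px_henrn_coeff (g n) (hg n) j
  have hFn : ∀ n j, px_henrnF j (q n) = MvPolynomial.eval (ξ n) (g n j) := by
    intro n j
    rw [← hP n j, px_henrn_eval]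
  have hcont : ∀ j : Fin r, Continuous (px_henrnF (k := k) (e := e) j) := fun j => (px_henrn_contDiff j).continuous
  -- the limit is a zero
  have hF0 : ∀ j, px_henrnF j q₀ = 0 := by
    intro j
    have h1 : Tendsto (fun n => px_henrnF j (q (φ n))) atTop (𝓝 (px_henrnF j q₀)) :=
      ((hcont j).tendsto q₀).comp hlim
    have h2 : Tendsto (fun n => px_henrnF j (q (φ n))) atTop (𝓝 0) := by
      refine squeeze_zero_norm (a := fun n : ℕ => 1 / ((n : ℝ) + 1)) (fun n => ?_)
        tendsto_one_div_add_atTop_nhds_zero_nat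
      rw [Real.norm_eq_abs, hFn]
      refine (hgξ (φ n) j).trans ?_
      have h3 : (n : ℝ) ≤ (φ n : ℝ) := by exact_mod_cast hφ.id_le n
      exact one_div_le_one_div_of_le (by positivity) (by linarith)
    exact tendsto_nhds_unique h1 h2
  -- the Jacobian matrix
  let D : Fin r → Fin k → px_henrnC k e × (Fin k → ℝ) → ℝ := fun j i q =>
    fderiv ℝ (px_henrnF (e := e) j) q (0, Pi.single i 1)
  have hDcont : ∀ j i, Continuous (D j i) := by
    intro j i
    exact ((px_henrn_contDiff j).continuous_fderiv one_ne_zero).clm_apply continuous_const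
  have hDn : ∀ n j i, D j i (q n) = MvPolynomial.eval (ξ n) (MvPolynomial.pderiv i (g n j)) := by
    intro n j i
    change fderiv ℝ (px_henrnF (e := e) j) (cf n, ξ n) (0, Pi.single i 1) = _
    rw [px_henrn_part, Finset.sum_eq_single i]
    · rw [Pi.single_eq_same, mul_one, hP]
    · intro b _ hb
      rw [Pi.single_eq_of_ne hb, mul_zero]
    · intro h
      exact absurd (Finset.mem_univ _) h
  have hND : ∀ (j₀ : Fin r) (l : Fin r → ℝ), l j₀ = 1 → (∀ j, |l j| ≤ 1) →
      ∃ i, γ / 2 < |∑ j, l j * D j i q₀| := by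
    intro j₀ l hl hl1
    by_contra hc
    push Not at hc
    have h1 : ∀ i, ∀ᶠ n in atTop, |∑ j, l j * D j i (q (φ n))| < γ := by
      intro i
      have h2 : Continuous (fun q => |∑ j, l j * D j i q|) :=
        (continuous_finsetSum _ fun j _ => continuous_const.mul (hDcont j i)).abs
      have h3 : Tendsto (fun n => |∑ j, l j * D j i (q (φ n))|) atTop
          (𝓝 |∑ j, l j * D j i q₀|) := (h2.tendsto q₀).comp hlim
      exact h3.eventually_lt_const (lt_of_le_of_lt (hc i) (by linarith))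
    obtain ⟨n, hn⟩ := (eventually_all.2 h1).exists
    obtain ⟨i, _, hi⟩ := hN (φ n) j₀ l hl hl1
    have h4 := hn i
    have h5 : ∑ j, l j * D j i (q (φ n)) =
        ∑ j, l j * MvPolynomial.eval (ξ (φ n)) (MvPolynomial.pderiv i (g (φ n) j)) :=
      Finset.sum_congr rfl fun j _ => by rw [hDn]
    rw [h5] at h4
    exact absurd (h4.trans hi) (lt_irrefl _)
  obtain ⟨C, _, hC⟩ := Pool.Agent.Z864.C.minor (Fin k) r
  obtain ⟨a, Li, _, hLi, _⟩ := hC (γ / 2) (Matrix.of fun j i => D j i q₀) (by positivity) hND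
  have hLi' := mul_eq_one_comm.1 hLi
  -- the map
  let Ψ : px_henrnC k e × (Fin k → ℝ) → px_henrnC k e × (Fin r → ℝ) := fun q => (q.1, fun j => px_henrnF j q)
  let Ψ' : (px_henrnC k e × (Fin k → ℝ)) →L[ℝ] px_henrnC k e × (Fin r → ℝ) :=
    (ContinuousLinearMap.fst ℝ (px_henrnC k e) (Fin k → ℝ)).prod
      (ContinuousLinearMap.pi fun j => fderiv ℝ (px_henrnF (e := e) j) q₀)
  have hΨ : HasStrictFDerivAt Ψ Ψ' q₀ := by
    refine HasStrictFDerivAt.prodMk hasStrictFDerivAt_fst ?_
    rw [hasStrictFDerivAt_pi']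
    intro j
    exact (px_henrn_contDiff j).contDiffAt.hasStrictFDerivAt one_ne_zero
  have hsurj : (Ψ' : (px_henrnC k e × (Fin k → ℝ)) →ₗ[ℝ] px_henrnC k e × (Fin r → ℝ)).range = ⊤ := by
    rw [LinearMap.range_eq_top]
    rintro ⟨c, w⟩
    let w' : Fin r → ℝ := fun j => w j - fderiv ℝ (px_henrnF (e := e) j) q₀ (c, 0)
    let t : Fin r → ℝ := Li.mulVec w'
    let v : px_henrnC k e × (Fin k → ℝ) := ∑ j', t j' • ((0 : px_henrnC k e), (Pi.single (a j') 1 : Fin k → ℝ))
    have hv1 : v.1 = 0 := by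
      change (∑ j', t j' • ((0 : px_henrnC k e), (Pi.single (a j') 1 : Fin k → ℝ))).1 = 0
      rw [Prod.fst_sum]
      refine Finset.sum_eq_zero fun j' _ => ?_
      rw [Prod.smul_fst, smul_zero]
    have hv2 : ∀ j, fderiv ℝ (px_henrnF (e := e) j) q₀ v = w' j := by
      intro j
      change fderiv ℝ (px_henrnF (e := e) j) q₀
        (∑ j', t j' • ((0 : px_henrnC k e), (Pi.single (a j') 1 : Fin k → ℝ))) = w' j
      rw [map_sum]
      have h1 : ∀ j', fderiv ℝ (px_henrnF (e := e) j) q₀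
          (t j' • ((0 : px_henrnC k e), (Pi.single (a j') 1 : Fin k → ℝ))) = D j (a j') q₀ * t j' := by
        intro j'
        rw [map_smul, smul_eq_mul, mul_comm]
      rw [Finset.sum_congr rfl fun j' _ => h1 j']
      have h2 : ((Matrix.of fun j j' : Fin r => D j (a j') q₀).mulVec t) j = w' j := by
        change ((Matrix.of fun j j' : Fin r => D j (a j') q₀).mulVec (Li.mulVec w')) j = w' j
        rw [Matrix.mulVec_mulVec]
        have h3 : (Matrix.of fun j j' : Fin r => D j (a j') q₀) * Li = 1 := hLi'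
        rw [h3, Matrix.one_mulVec]
      exact h2
    refine ⟨(c, 0) + v, ?_⟩
    refine Prod.ext ?_ ?_
    · change ((c, (0 : Fin k → ℝ)) + v).1 = c
      rw [Prod.fst_add, hv1, add_zero]
    · funext j
      change fderiv ℝ (px_henrnF (e := e) j) q₀ ((c, 0) + v) = w j
      rw [map_add, hv2]
      change _ + (w j - fderiv ℝ (px_henrnF (e := e) j) q₀ (c, 0)) = w j
      ring
  have hmap := hΨ.map_nhds_eq_of_surj hsurj
  let U : Set (px_henrnC k e × (Fin k → ℝ)) := {q | ∀ i, |q.2 i - q₀.2 i| < ρ / 2}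
  have hUo : IsOpen U := by
    have e1 : U = ⋂ i, {q : px_henrnC k e × (Fin k → ℝ) | |q.2 i - q₀.2 i| < ρ / 2} := by
      ext q
      simp [U]
    rw [e1]
    refine isOpen_iInter_of_finite fun i => ?_
    exact isOpen_lt ((((continuous_apply i).comp continuous_snd).sub continuous_const).abs)
      continuous_const
  have hUq : q₀ ∈ U := by
    intro i
    rw [sub_self, abs_zero]
    linarith
  have hU : U ∈ 𝓝 q₀ := hUo.mem_nhds hUq
  have hV : Ψ '' U ∈ 𝓝 (Ψ q₀) := by
    rw [← hmap]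
    exact Filter.image_mem_map hU
  have hΨq : Ψ q₀ = (q₀.1, 0) := by
    change (q₀.1, fun j => px_henrnF j q₀) = (q₀.1, 0)
    rw [Prod.mk.injEq]
    exact ⟨rfl, funext hF0⟩
  rw [hΨq] at hV
  have hlim2 : Tendsto (fun n => ((q (φ n)).1, (0 : Fin r → ℝ))) atTop (𝓝 (q₀.1, 0)) :=
    ((continuous_fst.prodMk continuous_const).tendsto q₀).comp hlim
  obtain ⟨n, hn, hnU⟩ := ((hlim2.eventually hV).and (hlim.eventually hU)).exists
  obtain ⟨⟨c', x'⟩, hx', hq'⟩ := hn
  have h1 : c' = cf (φ n) := congrArg Prod.fst hq'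
  have h2 : ∀ j, px_henrnF j (c', x') = 0 := fun j => congrFun (congrArg Prod.snd hq') j
  have h3 : ∀ i, |x' i - ξ (φ n) i| ≤ ρ := by
    intro i
    have a1 : |x' i - q₀.2 i| < ρ / 2 := hx' i
    have a2 : |ξ (φ n) i - q₀.2 i| < ρ / 2 := hnU i
    have a3 := abs_sub_le (x' i) (q₀.2 i) (ξ (φ n) i)
    rw [abs_sub_comm (q₀.2 i) (ξ (φ n) i)] at a3
    linarith
  obtain ⟨j, hj⟩ := hno (φ n) x' h3
  apply hj
  rw [← hP, px_henrn_eval, ← h1]
  exact h2 j

end Pool.Agent.H731.GS
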