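import Pool.Agent.H731.GS.Stm

/-!
# Project GS, package LBP: almost all systems have near every `p`-adic zero in a chart one which is
nondegenerate on its linear space (helper549; after the package LBX of the library project CX)
-/

set_option autoImplicit false

namespace Pool.Agent.H731.GS

open Pool.Agent.Y716.Q Pool.Agent.Y716.C Filter Topology
open Pool.Agent.T2H41.CX (NonD NonDR GoodM QJ S_MINP S_HENG S_NRM S_MODS)

/-- boxes with some coordinates equal to one -/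
private noncomputable def px_lbp_Box {ι : Type} [Fintype ι] (A : Finset ι) (n : ℕ) : Finset (ι → ℤ) := by
  classical exact Fintype.piFinset (fun i => if i ∈ A then Finset.Ico (0 : ℤ) n else {1})

private theorem px_lbp_box_card {ι : Type} [Fintype ι] (A : Finset ι) (n : ℕ) :
    (px_lbp_Box A n).card = n ^ A.card := by
  classical
  unfold px_lbp_Box
  rw [Fintype.card_piFinset]
  have h1 : ∀ i, (if i ∈ A then Finset.Ico (0 : ℤ) n else {1} : Finset ℤ).card =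
      if i ∈ A then n else 1 := by
    intro i
    split_ifs
    · rw [Int.card_Ico]; simp
    · simp
  rw [Finset.prod_congr rfl fun i _ => h1 i, Finset.prod_ite_mem, Finset.univ_inter,
    Finset.prod_const]

private theorem px_lbp_mem_box {ι : Type} [Fintype ι] {A : Finset ι} {n : ℕ} {z : ι → ℤ} :
    z ∈ px_lbp_Box A n ↔ (∀ i ∈ A, 0 ≤ z i ∧ z i < n) ∧ ∀ i, i ∉ A → z i = 1 := by
  classical
  unfold px_lbp_Box
  rw [Fintype.mem_piFinset]
  constructor
  · intro h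
    refine ⟨fun i hi => ?_, fun i hi => ?_⟩
    · have := h i
      rw [if_pos hi, Finset.mem_Ico] at this
      exact this
    · have := h i
      rw [if_neg hi, Finset.mem_singleton] at this
      exact this
  · rintro ⟨h1, h2⟩ i
    split_ifs with h
    · rw [Finset.mem_Ico]
      exact h1 i h
    · rw [Finset.mem_singleton]
      exact h2 i h

private theorem px_lbp_arith {Qc m r k p E ℓ q ch n G1 Wc : ℕ} (hp : 2 ≤ p) (hmr : r ≤ m)
    (hkr : r + 1 ≤ k) (hq : 0 < q) (hE : 2 * ℓ + 1 ≤ E)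
    (hW : Wc = ch * (p ^ E) ^ m * (r * q ^ (r - 1)))
    (h1 : Qc * (p ^ (E - (2 * ℓ + 1))) ^ (m - r) ≤ Wc * n)
    (h2 : n * ((p ^ E) ^ r * q ^ (k - 1)) ≤ G1) :
    Qc * q ≤ ch * r * p ^ ((2 * ℓ + 1) * (m - r)) * G1 := by
  have hY : (p ^ (E - (2 * ℓ + 1))) ^ (m - r) * p ^ ((2 * ℓ + 1) * (m - r)) =
      (p ^ E) ^ (m - r) := by
    rw [pow_mul, ← mul_pow, ← pow_add]
    congr 2
    omega
  have hP0 : 0 < (p ^ E) ^ m := by positivity
  have h3 : Qc * (p ^ E) ^ m * q ^ (k - 1) ≤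
      (p ^ E) ^ m * (ch * (r * q ^ (r - 1)) * p ^ ((2 * ℓ + 1) * (m - r)) * G1) := by
    calc Qc * (p ^ E) ^ m * q ^ (k - 1)
        = Qc * ((p ^ E) ^ (m - r) * (p ^ E) ^ r) * q ^ (k - 1) := by
          rw [← pow_add]
          congr 3
          omega
      _ = (Qc * (p ^ (E - (2 * ℓ + 1))) ^ (m - r)) * (p ^ ((2 * ℓ + 1) * (m - r)) *
            ((p ^ E) ^ r * q ^ (k - 1))) := by
          rw [← hY]
          ring
      _ ≤ (Wc * n) * (p ^ ((2 * ℓ + 1) * (m - r)) * ((p ^ E) ^ r * q ^ (k - 1))) :=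
          Nat.mul_le_mul_right _ h1
      _ = Wc * p ^ ((2 * ℓ + 1) * (m - r)) * (n * ((p ^ E) ^ r * q ^ (k - 1))) := by ring
      _ ≤ Wc * p ^ ((2 * ℓ + 1) * (m - r)) * G1 := Nat.mul_le_mul_left _ h2
      _ = _ := by rw [hW]; ring
  have h4 : Qc * q ^ (k - 1) ≤ ch * (r * q ^ (r - 1)) * p ^ ((2 * ℓ + 1) * (m - r)) * G1 := by
    have : (p ^ E) ^ m * (Qc * q ^ (k - 1)) ≤
        (p ^ E) ^ m * (ch * (r * q ^ (r - 1)) * p ^ ((2 * ℓ + 1) * (m - r)) * G1) := by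
      calc _ = Qc * (p ^ E) ^ m * q ^ (k - 1) := by ring
        _ ≤ _ := h3
    exact Nat.le_of_mul_le_mul_left this hP0
  rcases Nat.eq_zero_or_pos r with hr | hr
  · subst hr
    have h5 : Qc * q ^ (k - 1) ≤ 0 := by simpa using h4
    have h6 : 0 < q ^ (k - 1) := by positivity
    have h7 : Qc = 0 := by
      rcases Nat.mul_eq_zero.1 (Nat.le_zero.1 h5) with h | h
      · exact h
      · omega
    rw [h7]
    simp
  · have h5 : q ^ (r - 1) * q ≤ q ^ (k - 1) := by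
      rw [← pow_succ]
      exact Nat.pow_le_pow_right hq (by omega)
    have h6 : 0 < q ^ (r - 1) := by positivity
    have h7 : q ^ (r - 1) * (Qc * q) ≤
        q ^ (r - 1) * (ch * r * p ^ ((2 * ℓ + 1) * (m - r)) * G1) := by
      calc q ^ (r - 1) * (Qc * q) = Qc * (q ^ (r - 1) * q) := by ring
        _ ≤ Qc * q ^ (k - 1) := Nat.mul_le_mul_left _ h5
        _ ≤ _ := h4
        _ = _ := by ring
    exact Nat.le_of_mul_le_mul_left h7 h6

private theorem px_lbp_big (K δ : ℝ) (hδ : 0 < δ) (p : ℕ) (hp : 2 ≤ p) (ℓ : ℕ) :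
    ∃ J : ℕ, ℓ ≤ J ∧ K ≤ δ * (p : ℝ) ^ (J + 1) := by
  obtain ⟨n, hn⟩ := exists_nat_ge (K / δ)
  refine ⟨max ℓ n, le_max_left _ _, ?_⟩
  have h1 : ((max ℓ n : ℕ) : ℝ) ≤ (p : ℝ) ^ (max ℓ n + 1) := by
    have h2 : max ℓ n < p ^ (max ℓ n) := Nat.lt_pow_self hp
    have h3 : p ^ (max ℓ n) ≤ p ^ (max ℓ n + 1) := Nat.pow_le_pow_right (by omega) (by omega)
    exact_mod_cast (h2.le.trans h3)
  have h4 : (n : ℝ) ≤ ((max ℓ n : ℕ) : ℝ) := by exact_mod_cast le_max_right ℓ n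
  have h5 : K / δ ≤ (p : ℝ) ^ (max ℓ n + 1) := hn.trans (h4.trans h1)
  rw [div_le_iff₀ hδ] at h5
  linarith

private theorem px_lbp_inl_notMem {n : ℕ} {Y : Type} [Fintype Y] :
    (Sum.inl 0 : Fin (n + 1) ⊕ Y) ∉ free n Y := by
  classical
  unfold free
  rw [Finset.mem_filter]
  rintro ⟨_, h⟩
  exact h rfl

private theorem px_lbp_mem_free {n : ℕ} {Y : Type} [Fintype Y] {i : Fin (n + 1) ⊕ Y}
    (h : i ∉ free n Y) : i = Sum.inl 0 := by
  classical
  by_contra hc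
  apply h
  unfold free
  rw [Finset.mem_filter]
  exact ⟨Finset.mem_univ _, hc⟩

private theorem px_lbp_map {σ K K' : Type} [CommRing K] [CommRing K'] (φ : K →+* K') (z : σ → K)
    (G : MvPolynomial σ ℤ) :
    φ (MvPolynomial.aeval z G) = MvPolynomial.aeval (fun i => φ (z i)) G := by
  induction G using MvPolynomial.induction_on with
  | C a => simp
  | add p q hp hq => rw [map_add, map_add, map_add, hp, hq]
  | mul_X p i hp =>
    rw [map_mul, map_mul, map_mul, hp, MvPolynomial.aeval_X, MvPolynomial.aeval_X]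

private theorem px_lbp_pt {C ι Y K K' : Type} {n : ℕ} [CommRing K] [CommRing K'] (A : Fra C ι Y n)
    (c : C) (φ : K →+* K') (y : Y → K) (x : Fin (n + 1) → K) :
    (fun i => φ (pt A c y x i)) = pt A c (fun t => φ (y t)) (fun j => φ (x j)) := by
  funext i
  unfold pt frm
  rw [map_sum]
  refine Finset.sum_congr rfl fun j _ => ?_
  rw [map_mul, px_lbp_map]

private theorem px_lbp_val {C ι Y K K' : Type} {n : ℕ} [CommRing K] [CommRing K'] (A : Fra C ι Y n)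
    (c : C) (φ : K →+* K') (y : Y → K) (x : Fin (n + 1) → K) (G : MvPolynomial ι ℤ) :
    φ (MvPolynomial.aeval (pt A c y x) G) =
      MvPolynomial.aeval (pt A c (fun t => φ (y t)) (fun j => φ (x j))) G := by
  rw [px_lbp_map, px_lbp_pt]

private theorem px_lbp_int (p : ℕ) [Fact p.Prime] (E : ℕ) (z : ℤ_[p]) :
    ∃ a : ℤ, PadicInt.toZModPow E z = ((a : ℤ) : ZMod (p ^ E)) ∧
      ‖((a : ℤ) : ℚ_[p]) - (z : ℚ_[p])‖ ≤ ((p : ℝ) ^ E)⁻¹ := by
  have h1 := PadicInt.appr_spec E z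
  refine ⟨(z.appr E : ℤ), ?_, ?_⟩
  · have h2 : z - (z.appr E : ℤ_[p]) ∈ RingHom.ker (PadicInt.toZModPow E : ℤ_[p] →+* ZMod (p ^ E)) := by
      rw [PadicInt.ker_toZModPow]
      exact h1
    rw [RingHom.mem_ker, map_sub, map_natCast, sub_eq_zero] at h2
    rw [h2, Int.cast_natCast]
  · have h2 := (PadicInt.norm_le_pow_iff_mem_span_pow _ _).mpr h1
    rw [PadicInt.norm_def, PadicInt.coe_sub, PadicInt.coe_natCast, zpow_neg, zpow_natCast] at h2
    rw [norm_sub_rev, Int.cast_natCast]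
    exact h2

/-- an integral point close to a `p`-adic point -/
private theorem px_lbp_appr {C ι Y : Type} {n r : ℕ} (A : Fra C ι Y n)
    (F : Fin r → MvPolynomial ι ℤ) (p : ℕ) [Fact p.Prime] (c : C) (y : Y → ℚ_[p])
    (x : Fin (n + 1) → ℚ_[p]) (hz : ZeroP A F p c y x) (E : ℕ) :
    ∃ (y₀ : Y → ℤ) (x₀ : Fin (n + 1) → ℤ), x₀ 0 = 1 ∧
      (∀ j, (p : ℤ) ^ E ∣ MvPolynomial.aeval (pt A c y₀ x₀) (F j)) ∧
      (∀ t, ‖(y₀ t : ℚ_[p]) - y t‖ ≤ ((p : ℝ) ^ E)⁻¹) ∧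
      ∀ j, ‖(x₀ j : ℚ_[p]) - x j‖ ≤ ((p : ℝ) ^ E)⁻¹ := by
  obtain ⟨hy, hx0, hx, hF⟩ := hz
  let Yp : Y → ℤ_[p] := fun t => ⟨y t, hy t⟩
  let Xp : Fin (n + 1) → ℤ_[p] := fun j => ⟨x j, hx j⟩
  have hF' : ∀ j, MvPolynomial.aeval (pt A c Yp Xp) (F j) = 0 := by
    intro j
    have e1 := px_lbp_val A c (PadicInt.Coe.ringHom : ℤ_[p] →+* ℚ_[p]) Yp Xp (F j)
    have e2 : (PadicInt.Coe.ringHom (MvPolynomial.aeval (pt A c Yp Xp) (F j)) : ℚ_[p]) = 0 :=
      e1.trans (hF j)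
    exact PadicInt.coe_eq_zero.mp e2
  choose y₀ hy1 hy2 using fun t => px_lbp_int p E (Yp t)
  choose x₁ hx1 hx2 using fun j => px_lbp_int p E (Xp j)
  refine ⟨y₀, fun j => if j = 0 then 1 else x₁ j, if_pos rfl, ?_, hy2, ?_⟩
  · intro j
    have e1 := px_lbp_val A c (PadicInt.toZModPow E : ℤ_[p] →+* ZMod (p ^ E)) Yp Xp (F j)
    have e2 : (fun t => (PadicInt.toZModPow E : ℤ_[p] →+* ZMod (p ^ E)) (Yp t)) =
        fun t => ((y₀ t : ℤ) : ZMod (p ^ E)) := funext hy1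
    have e3 : (fun j => (PadicInt.toZModPow E : ℤ_[p] →+* ZMod (p ^ E)) (Xp j)) =
        fun j => (((if j = 0 then 1 else x₁ j) : ℤ) : ZMod (p ^ E)) := by
      funext j
      by_cases hj : j = 0
      · rw [if_pos hj, hj]
        have e4 : Xp 0 = 1 := by
          apply PadicInt.ext
          rw [PadicInt.coe_one]
          exact hx0
        rw [e4, map_one, Int.cast_one]
      · rw [if_neg hj]
        exact hx1 j
    rw [e2, e3, val_cast, hF' j, map_zero] at e1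
    have e4 := (ZMod.intCast_zmod_eq_zero_iff_dvd _ _).mp e1.symm
    push_cast at e4
    exact e4
  · intro j
    beta_reduce
    by_cases hj : j = 0
    · have e1 : x j = 1 := by rw [hj]; exact hx0
      rw [if_pos hj, e1, Int.cast_one, sub_self, norm_zero]
      positivity
    · rw [if_neg hj]
      exact hx2 j

private theorem px_lbp_close {p : ℕ} [Fact p.Prime] {a a' : ℤ} {y : ℚ_[p]} {N E m₀ : ℕ}
    (h : (p : ℤ) ^ N ∣ a' - a) (hN : m₀ ≤ N) (hE : m₀ ≤ E)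
    (h2 : ‖(a : ℚ_[p]) - y‖ ≤ ((p : ℝ) ^ E)⁻¹) : ‖(a' : ℚ_[p]) - y‖ ≤ ((p : ℝ) ^ m₀)⁻¹ := by
  have hp : (1 : ℝ) ≤ p := by exact_mod_cast (Fact.out : p.Prime).one_le
  have mono : ∀ M, m₀ ≤ M → ((p : ℝ) ^ M)⁻¹ ≤ ((p : ℝ) ^ m₀)⁻¹ := fun M hM =>
    inv_anti₀ (by positivity) (pow_le_pow_right₀ hp hM)
  have h3 : ‖((a' - a : ℤ) : ℚ_[p])‖ ≤ ((p : ℝ) ^ N)⁻¹ := by
    have h4 := (Padic.norm_int_le_pow_iff_dvd (p := p) (a' - a) N).mpr (by exact_mod_cast h)
    rwa [zpow_neg, zpow_natCast] at h4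
  have h5 : (a' : ℚ_[p]) - y = ((a' - a : ℤ) : ℚ_[p]) + ((a : ℚ_[p]) - y) := by
    push_cast
    ring
  rw [h5]
  exact (Padic.nonarchimedean _ _).trans (max_le (h3.trans (mono N hN)) (h2.trans (mono E hE)))

/-- **LBP.** -/
theorem pLBP (h1 : S_HENCN) (h2 : S_BADPC) (h3 : S_DEGPC) : S_LBP := by
  classical
  intro C ι Y _ _ _ n r e A hA hr1 hrn p hpf m₀ δ hδ
  have hp : p.Prime := hpf.out
  have hp2 : 2 ≤ p := hp.two_le
  obtain ⟨m, hm⟩ : ∃ m, n + Fintype.card Y = m := ⟨_, rfl⟩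
  have hmr : r ≤ m := by omega
  obtain ⟨ch, hch⟩ : ∃ ch, Fintype.card C = ch := ⟨_, rfl⟩
  obtain ⟨nc, hnc⟩ : ∃ nc, nS ι e = nc := ⟨_, rfl⟩
  obtain ⟨ℓ, hmℓ, hℓ⟩ := px_lbp_big ((ch : ℝ) * r * 3 ^ nc) (δ / 2) (by positivity) p hp2 m₀
  obtain ⟨J, hℓJ, hJ⟩ := px_lbp_big ((ch : ℝ) * r * (p : ℝ) ^ ((2 * ℓ + 1) * (m - r)) * 3 ^ nc)
    (δ / 2) (by positivity) p hp2 ℓ
  obtain ⟨E, hE⟩ : ∃ E, 2 * J + 1 = E := ⟨_, rfl⟩
  obtain ⟨q, hq⟩ : ∃ q, p ^ (J + 1) = q := ⟨_, rfl⟩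
  have hq0 : 0 < q := by rw [← hq]; exact pow_pos (by omega) _
  refine ⟨J, hmℓ.trans hℓJ, (p : ℝ) ^ (ℓ + 1) + (p : ℝ) ^ E + 1, fun H hH => ?_⟩
  have hpl0 : (0 : ℝ) < (p : ℝ) ^ (ℓ + 1) := by positivity
  have hpE0 : (0 : ℝ) < (p : ℝ) ^ E := by positivity
  have hH1 : 1 ≤ H := by linarith
  have hH0 : 0 ≤ H := by linarith
  obtain ⟨G, hG⟩ : ∃ G, (sysZ ι e H).card = G := ⟨_, rfl⟩
  -- the bad systems
  have hb1 : ((((sysZ ι e H).filter (fun F => BadT A p ℓ F)).card : ℕ) : ℝ) ≤ δ / 2 * G := by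
    have g1 := h2 C ι Y n r e A hA p ℓ hp H hH0
    have g2 := card_sysZ_upper ι e (H := H) (R := H + (p ^ (ℓ + 1) : ℕ)) (c := 3) hH1
      (by positivity) (by norm_num) (by
        push_cast
        linarith)
    rw [hG, hnc] at g2
    have g3 : ((((sysZ ι e H).filter (fun F => BadT A p ℓ F)).card : ℕ) : ℝ) *
        (p : ℝ) ^ (ℓ + 1) ≤ (ch : ℝ) * r * (3 ^ nc * G) := by
      have g4 : ((((sysZ ι e H).filter (fun F => BadT A p ℓ F)).card : ℕ) : ℝ) *
          (p : ℝ) ^ (ℓ + 1) ≤ (ch : ℝ) * r * ((sysZ ι e (H + (p ^ (ℓ + 1) : ℕ))).card : ℕ) := by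
        rw [hch] at g1
        exact_mod_cast g1
      exact g4.trans (mul_le_mul_of_nonneg_left g2 (by positivity))
    have g5 : (ch : ℝ) * r * (3 ^ nc * G) ≤ δ / 2 * (p : ℝ) ^ (ℓ + 1) * G := by
      have := mul_le_mul_of_nonneg_right hℓ (Nat.cast_nonneg (α := ℝ) G)
      calc (ch : ℝ) * r * (3 ^ nc * G) = (ch : ℝ) * r * 3 ^ nc * G := by ring
        _ ≤ _ := this
    have g6 := g3.trans g5
    have g7 : ((((sysZ ι e H).filter (fun F => BadT A p ℓ F)).card : ℕ) : ℝ) *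
        (p : ℝ) ^ (ℓ + 1) ≤ (δ / 2 * G) * (p : ℝ) ^ (ℓ + 1) := by
      calc _ ≤ _ := g6
        _ = _ := by ring
    exact le_of_mul_le_mul_right g7 hpl0
  -- the other systems
  let Cond : (Fin r → MvPolynomial ι ℤ) → Prop := fun F =>
    ∃ (c : C) (y : Y → ℚ_[p]) (x : Fin (n + 1) → ℚ_[p]),
    ZeroP A F p c y x ∧ ¬ ∃ (y' : Y → ℤ) (x' : Fin (n + 1) → ℤ), RobP A p J F c y' x' ∧
      (∀ t, ‖(y' t : ℚ_[p]) - y t‖ ≤ ((p : ℝ) ^ m₀)⁻¹) ∧
      ∀ j, ‖(x' j : ℚ_[p]) - x j‖ ≤ ((p : ℝ) ^ m₀)⁻¹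
  let Q : Finset (Fin r → MvPolynomial ι ℤ) := (sysZ ι e H).filter
    (fun F => Cond F ∧ ¬ BadT A p ℓ F)
  let Z : Finset (Fin (n + 1) ⊕ Y → ℤ) := px_lbp_Box (free n Y) (p ^ E)
  let L : Fin r → Finset (Fin r → ℤ) := fun j₀ => px_lbp_Box (Finset.univ.erase j₀) q
  let W : Finset ((C × (Fin (n + 1) ⊕ Y → ℤ)) × (Σ _ : Fin r, (Fin r → ℤ))) :=
    ((Finset.univ : Finset C) ×ˢ Z) ×ˢ ((Finset.univ : Finset (Fin r)).sigma L)
  have hWc : W.card = ch * (p ^ E) ^ m * (r * q ^ (r - 1)) := by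
    change (((Finset.univ : Finset C) ×ˢ Z) ×ˢ ((Finset.univ : Finset (Fin r)).sigma L)).card = _
    rw [Finset.card_product, Finset.card_product, Finset.card_sigma]
    have g1 : Z.card = (p ^ E) ^ m := by
      change (px_lbp_Box (free n Y) (p ^ E)).card = _
      rw [px_lbp_box_card, card_free, hm]
    have g2 : ∀ j₀, (L j₀).card = q ^ (r - 1) := by
      intro j₀
      change (px_lbp_Box (Finset.univ.erase j₀) q).card = _
      rw [px_lbp_box_card, Finset.card_erase_of_mem (Finset.mem_univ _), Finset.card_univ,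
        Fintype.card_fin]
    rw [g1, Finset.sum_congr rfl fun j₀ _ => g2 j₀, Finset.sum_const, Finset.card_univ,
      Finset.card_univ, Fintype.card_fin, hch, smul_eq_mul]
  let Rel : (Fin r → MvPolynomial ι ℤ) → ((C × (Fin (n + 1) ⊕ Y → ℤ)) ×
      (Σ _ : Fin r, (Fin r → ℤ))) → Prop := fun F w =>
    (∀ j, (p : ℤ) ^ E ∣ MvPolynomial.aeval
      (pt A w.1.1 (fun t => w.1.2 (Sum.inr t)) (fun i => w.1.2 (Sum.inl i))) (F j)) ∧
    ∀ i, (p : ℤ) ^ (J + 1) ∣ ∑ j, w.2.2 j *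
      dX A F w.1.1 (fun t => w.1.2 (Sum.inr t)) (fun i => w.1.2 (Sum.inl i)) j i
  have hsum : ∀ z : Fin (n + 1) ⊕ Y → ℤ,
      Sum.elim (fun i => z (Sum.inl i)) (fun t => z (Sum.inr t)) = z := by
    intro z
    funext i
    rcases i with i | i <;> rfl
  have hlow : ∀ F ∈ Q, (p ^ (E - (2 * ℓ + 1))) ^ (m - r) ≤ (W.bipartiteAbove Rel F).card := by
    intro F hF
    obtain ⟨hF1, ⟨c, y, x, hz, hnr⟩, hF4⟩ := Finset.mem_filter.1 hF
    obtain ⟨y₀, x₀, hx0, hval, hyc, hxc⟩ := px_lbp_appr A F p c y x hz E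
    have hND : NonD p ℓ (jacT A c F (Sum.elim x₀ y₀)) (free n Y) := by
      by_contra hc
      exact hF4 ⟨c, y₀, x₀, hx0, fun j => (pow_dvd_pow _ (by omega)).trans (hval j), hc⟩
    have hev : ∀ (z : Fin (n + 1) ⊕ Y → ℤ) j, MvPolynomial.eval z (tot A c (F j)) =
        MvPolynomial.aeval (pt A c (fun t => z (Sum.inr t)) (fun i => z (Sum.inl i))) (F j) := by
      intro z j
      rw [← aeval_tot, hsum, aeval_int]
    have hND' : NonD p ℓ (fun j i => MvPolynomial.eval (Sum.elim x₀ y₀)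
        (MvPolynomial.pderiv i (tot A c (F j)))) (free n Y) := by
      have e1 : (fun j i => MvPolynomial.eval (Sum.elim x₀ y₀)
          (MvPolynomial.pderiv i (tot A c (F j)))) = jacT A c F (Sum.elim x₀ y₀) := by
        funext j i
        unfold jacT
        rw [aeval_int]
      rw [e1]
      exact hND
    have g1 := h1 r (Fin (n + 1) ⊕ Y) (fun j => tot A c (F j)) p ℓ hp (free n Y)
      (Sum.elim x₀ y₀) (fun j => by
        rw [hev]
        exact (pow_dvd_pow _ (by omega)).trans (hval j)) hND' E (by omega)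
    rw [card_free, hm] at g1
    refine g1.trans ?_
    let Zf : Finset (Fin (n + 1) ⊕ Y → ℤ) := Z.filter
      (fun z => (∀ i, (p : ℤ) ^ (ℓ + 1) ∣ z i - Sum.elim x₀ y₀ i) ∧
        ∀ j, (p : ℤ) ^ E ∣ MvPolynomial.eval z (tot A c (F j)))
    have g2 : Set.ncard {z' : Fin (n + 1) ⊕ Y → ℤ |
        (∀ i, i ∉ free n Y → z' i = Sum.elim x₀ y₀ i) ∧
        (∀ i ∈ free n Y, 0 ≤ z' i ∧ z' i < (p : ℤ) ^ E) ∧
        (∀ i, (p : ℤ) ^ (ℓ + 1) ∣ z' i - Sum.elim x₀ y₀ i) ∧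
        ∀ j, (p : ℤ) ^ E ∣ MvPolynomial.eval z' (tot A c (F j))} ≤ Zf.card := by
      rw [← Set.ncard_coe_finset]
      refine Set.ncard_le_ncard ?_ (Finset.finite_toSet _)
      rintro z ⟨hz1, hz2, hz3, hz4⟩
      rw [Finset.mem_coe, Finset.mem_filter]
      refine ⟨?_, hz3, hz4⟩
      change z ∈ px_lbp_Box (free n Y) (p ^ E)
      rw [px_lbp_mem_box]
      refine ⟨fun i hi => ?_, fun i hi => ?_⟩
      · have := hz2 i hi
        push_cast
        exact this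
      · rw [hz1 i hi, px_lbp_mem_free hi]
        exact hx0
    refine g2.trans ?_
    -- degenerate points
    have hdeg : ∀ z ∈ Zf, ∃ (j₀ : Fin r) (l : Fin r → ℤ), l ∈ L j₀ ∧
        ∀ i, (p : ℤ) ^ (J + 1) ∣ ∑ j, l j *
          dX A F c (fun t => z (Sum.inr t)) (fun i => z (Sum.inl i)) j i := by
      intro z hz
      obtain ⟨hz1, hz2, hz5⟩ := Finset.mem_filter.1 hz
      have hz3 := (px_lbp_mem_box.1 hz1).2
      have g4 : ¬ NonD p J (dX A F c (fun t => z (Sum.inr t)) (fun i => z (Sum.inl i)))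
          Finset.univ := by
        intro g5
        apply hnr
        refine ⟨fun t => z (Sum.inr t), fun i => z (Sum.inl i), ⟨?_, fun j => ?_, g5⟩,
          fun t => ?_, fun j => ?_⟩
        · exact hz3 _ px_lbp_inl_notMem
        · have := hz5 j
          rw [hev] at this
          rw [hE]
          exact this
        · exact px_lbp_close (hz2 (Sum.inr t)) (by omega) (by omega) (hyc t)
        · exact px_lbp_close (hz2 (Sum.inl j)) (by omega) (by omega) (hxc j)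
      unfold NonD at g4
      push Not at g4
      obtain ⟨j₀, l, hl, hli⟩ := g4
      have hqZ : (p : ℤ) ^ (J + 1) = (q : ℤ) := by rw [← hq]; push_cast; rfl
      have hqZ0 : (0 : ℤ) < (q : ℤ) := by exact_mod_cast hq0
      refine ⟨j₀, fun j => if j = j₀ then 1 else l j % (q : ℤ), ?_, fun i => ?_⟩
      · change _ ∈ px_lbp_Box (Finset.univ.erase j₀) q
        rw [px_lbp_mem_box]
        refine ⟨fun j hj => ?_, fun j hj => ?_⟩
        · rw [if_neg (Finset.ne_of_mem_erase hj)]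
          exact ⟨Int.emod_nonneg _ hqZ0.ne', Int.emod_lt_of_pos _ hqZ0⟩
        · have : j = j₀ := by
            by_contra hne
            exact hj (Finset.mem_erase.2 ⟨hne, Finset.mem_univ _⟩)
          rw [if_pos this]
      · have g5 := hli i (Finset.mem_univ _)
        have g6 : (p : ℤ) ^ (J + 1) ∣ ∑ j, (if j = j₀ then 1 else l j % (q : ℤ)) *
            dX A F c (fun t => z (Sum.inr t)) (fun i => z (Sum.inl i)) j i -
            ∑ j, l j * dX A F c (fun t => z (Sum.inr t)) (fun i => z (Sum.inl i)) j i := by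
          rw [← Finset.sum_sub_distrib]
          refine Finset.dvd_sum fun j _ => ?_
          rw [← sub_mul]
          refine Dvd.dvd.mul_right ?_ _
          split_ifs with hjj
          · rw [hjj, hl, sub_self]
            exact dvd_zero _
          · rw [hqZ]
            have g7 : l j % (q : ℤ) - l j = (q : ℤ) * (-(l j / (q : ℤ))) := by
              have := Int.emod_add_mul_ediv (l j) (q : ℤ)
              linear_combination this
            rw [g7]
            exact dvd_mul_right _ _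
        have g8 := dvd_add g6 g5
        rwa [sub_add_cancel] at g8
    rcases Zf.eq_empty_or_nonempty with hZe | ⟨z0, hz0⟩
    · rw [hZe, Finset.card_empty]
      exact Nat.zero_le _
    have : Nonempty (Fin r) := ⟨(hdeg z0 hz0).choose⟩
    choose! j₀ l hlL hld using hdeg
    refine Finset.card_le_card_of_injOn (fun z => ((c, z), ⟨j₀ z, l z⟩)) ?_ ?_
    · intro z hz
      have hz' : z ∈ Zf := hz
      rw [Finset.mem_coe, Finset.mem_bipartiteAbove]
      obtain ⟨hz1, hz2, hz5⟩ := Finset.mem_filter.1 hz'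
      refine ⟨Finset.mem_product.2 ⟨Finset.mem_product.2 ⟨Finset.mem_univ _, hz1⟩,
        Finset.mem_sigma.2 ⟨Finset.mem_univ _, hlL z hz'⟩⟩, fun j => ?_, hld z hz'⟩
      have := hz5 j
      rw [hev] at this
      exact this
    · intro z _ z' _ hzz
      have g5 := congrArg Prod.fst hzz
      exact congrArg Prod.snd g5
  have hup : ∀ w ∈ W, (Q.bipartiteBelow Rel w).card ≤
      (sysZ ι e (H + (p ^ E : ℕ))).card / ((p ^ E) ^ r * q ^ (n + 1 - 1)) := by
    rintro ⟨⟨c, z⟩, ⟨j₀, l⟩⟩ hw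
    have hw' := Finset.mem_product.1 hw
    have hz := (Finset.mem_product.1 hw'.1).2
    have hl := (Finset.mem_sigma.1 hw'.2).2
    have hz3 := (px_lbp_mem_box.1 (show z ∈ px_lbp_Box (free n Y) (p ^ E) from hz)).2
    have hl3 := (px_lbp_mem_box.1 (show l ∈ px_lbp_Box (Finset.univ.erase j₀) q from hl)).2
    have g1 := h3 C ι Y n r e A hA p J E hp (by omega) c (fun t => z (Sum.inr t))
      (fun i => z (Sum.inl i)) (hz3 _ px_lbp_inl_notMem) j₀ l (hl3 j₀ (by simp)) H hH0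
    rw [hq] at g1
    rw [Nat.add_sub_cancel, Nat.le_div_iff_mul_le (by positivity)]
    refine le_trans (Nat.mul_le_mul_right _ (Finset.card_le_card ?_)) g1
    intro F hF
    rw [Finset.mem_bipartiteBelow] at hF
    obtain ⟨hF1, hF2⟩ := hF
    rw [Finset.mem_filter]
    exact ⟨(Finset.mem_filter.1 hF1).1, hF2⟩
  have hcount := Finset.card_mul_le_card_mul Rel hlow hup
  have hmain := px_lbp_arith (Qc := Q.card) (m := m) (r := r) (k := n + 1) (p := p) (E := E)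
    (ℓ := ℓ) (q := q) (ch := ch) (G1 := (sysZ ι e (H + (p ^ E : ℕ))).card) (Wc := W.card) hp2 hmr
    (by omega) hq0 (by omega) hWc hcount (Nat.div_mul_le_self _ _)
  have hb2 : ((Q.card : ℕ) : ℝ) ≤ δ / 2 * G := by
    have g2 := card_sysZ_upper ι e (H := H) (R := H + (p ^ E : ℕ)) (c := 3) hH1
      (by positivity) (by norm_num) (by
        push_cast
        linarith)
    rw [hG, hnc] at g2
    have hqR : (p : ℝ) ^ (J + 1) = (q : ℝ) := by rw [← hq]; push_cast; rfl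
    rw [hqR] at hJ
    have hqR0 : (0 : ℝ) < (q : ℝ) := by exact_mod_cast hq0
    have g3 : ((Q.card : ℕ) : ℝ) * (q : ℝ) ≤
        (ch : ℝ) * r * (p : ℝ) ^ ((2 * ℓ + 1) * (m - r)) * (3 ^ nc * G) := by
      have g4 : ((Q.card : ℕ) : ℝ) * (q : ℝ) ≤ (ch : ℝ) * r * (p : ℝ) ^ ((2 * ℓ + 1) * (m - r)) *
          ((sysZ ι e (H + (p ^ E : ℕ))).card : ℕ) := by
        exact_mod_cast hmain
      exact g4.trans (mul_le_mul_of_nonneg_left g2 (by positivity))
    have g5 : (ch : ℝ) * r * (p : ℝ) ^ ((2 * ℓ + 1) * (m - r)) * (3 ^ nc * G) ≤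
        δ / 2 * (q : ℝ) * G := by
      have := mul_le_mul_of_nonneg_right hJ (Nat.cast_nonneg (α := ℝ) G)
      calc _ = (ch : ℝ) * r * (p : ℝ) ^ ((2 * ℓ + 1) * (m - r)) * 3 ^ nc * G := by ring
        _ ≤ _ := this
    have g7 : ((Q.card : ℕ) : ℝ) * (q : ℝ) ≤ (δ / 2 * G) * (q : ℝ) := by
      calc _ ≤ _ := g3.trans g5
        _ = _ := by ring
    exact le_of_mul_le_mul_right g7 hqR0
  -- the union
  have hsub : (sysZ ι e H).filter (fun F => Cond F) ⊆
      (sysZ ι e H).filter (fun F => BadT A p ℓ F) ∪ Q := by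
    intro F hF
    obtain ⟨g1, g2⟩ := Finset.mem_filter.1 hF
    rw [Finset.mem_union]
    by_cases hb : BadT A p ℓ F
    · exact Or.inl (Finset.mem_filter.2 ⟨g1, hb⟩)
    · exact Or.inr (Finset.mem_filter.2 ⟨g1, g2, hb⟩)
  have hcard := (Finset.card_le_card hsub).trans (Finset.card_union_le _ _)
  have hcard' : ((((sysZ ι e H).filter (fun F => Cond F)).card : ℕ) : ℝ) ≤
      ((((sysZ ι e H).filter (fun F => BadT A p ℓ F)).card : ℕ) : ℝ) + ((Q.card : ℕ) : ℝ) := by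
    exact_mod_cast hcard
  rw [hG]
  have hfin : ((((sysZ ι e H).filter (fun F => Cond F)).card : ℕ) : ℝ) ≤ δ * G := by linarith
  exact hfin

end Pool.Agent.H731.GS
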