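import Pool.Agent.H731.GS.Stm

/-!
# Project GS (helper731), package LBR (helper71): nondegenerate real grid points for most systems
-/

set_option autoImplicit false
set_option linter.all false

namespace Pool.Agent.H731.GS

open Pool.Agent.Y716.Q Pool.Agent.Y716.C Filter Topology
open Pool.Agent.T2H41.CX (NonD NonDR GoodM QJ)
open Pool.Agent.T2H39.CV (Cone IsCone)

/-- boxes with some coordinates equal to `T` -/
private noncomputable def lbrBox {ι : Type} [Fintype ι] (A : Finset ι) (T : ℕ) : Finset (ι → ℤ) := by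
  classical exact Fintype.piFinset (fun i => if i ∈ A then Finset.Icc (-(2 * (T : ℤ))) (2 * T)
    else {(T : ℤ)})

private theorem lbr_box_card {ι : Type} [Fintype ι] (A : Finset ι) (T : ℕ) :
    (lbrBox A T).card = (4 * T + 1) ^ A.card := by
  classical
  unfold lbrBox
  rw [Fintype.card_piFinset]
  have h1 : ∀ i, (if i ∈ A then Finset.Icc (-(2 * (T : ℤ))) (2 * T) else {(T : ℤ)} : Finset ℤ).card =
      if i ∈ A then 4 * T + 1 else 1 := by
    intro i
    split_ifs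
    · rw [Int.card_Icc]; omega
    · simp
  rw [Finset.prod_congr rfl fun i _ => h1 i, Finset.prod_ite_mem, Finset.univ_inter,
    Finset.prod_const]

private theorem lbr_mem_box {ι : Type} [Fintype ι] {A : Finset ι} {T : ℕ} {z : ι → ℤ} :
    z ∈ lbrBox A T ↔ (∀ i ∈ A, |z i| ≤ 2 * (T : ℤ)) ∧ ∀ i, i ∉ A → z i = T := by
  classical
  unfold lbrBox
  rw [Fintype.mem_piFinset]
  constructor
  · intro h
    refine ⟨fun i hi => ?_, fun i hi => ?_⟩
    · have := h i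
      rw [if_pos hi, Finset.mem_Icc] at this
      exact abs_le.2 this
    · have := h i
      rw [if_neg hi, Finset.mem_singleton] at this
      exact this
  · rintro ⟨h1, h2⟩ i
    split_ifs with h
    · rw [Finset.mem_Icc]
      exact abs_le.1 (h1 i h)
    · rw [Finset.mem_singleton]
      exact h2 i h

private theorem lbr_box_abs {ι : Type} [Fintype ι] {A : Finset ι} {T : ℕ} {z : ι → ℤ}
    (h : z ∈ lbrBox A T) (i : ι) : |z i| ≤ 2 * (T : ℤ) := by
  rw [lbr_mem_box] at h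
  by_cases hi : i ∈ A
  · exact h.1 i hi
  · rw [h.2 i hi, abs_of_nonneg (by positivity)]
    have : (0 : ℤ) ≤ T := by positivity
    linarith

private theorem lbr_mem_free {n : ℕ} {Y : Type} [Fintype Y] (i : Fin (n + 1) ⊕ Y) :
    i ∈ free n Y ↔ i ≠ Sum.inl 0 := by
  classical
  unfold free
  rw [Finset.mem_filter]
  exact and_iff_right (Finset.mem_univ _)

private theorem lbr_arith {Qc c T K γ C G3 ch Wc Gd : ℝ} {m r k : ℕ} (hmr : r ≤ m) (hrk : r + 1 ≤ k)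
    (hc : 0 < c) (hT : 1 ≤ T) (hK : 0 < K) (hγ : 0 < γ) (hγ1 : γ ≤ 1) (hC : 0 < C) (hch : 0 ≤ ch)
    (hG3 : 0 ≤ G3) (hGd : 0 ≤ Gd) (hGG : Gd ≤ G3)
    (hW : Wc ≤ ch * (5 * T) ^ m)
    (h : Qc * (c * T ^ (m - r)) ≤ Wc * (C * (K / T) ^ r * γ ^ (k - r) * Gd)) :
    Qc ≤ ch * 5 ^ m * C * K ^ r / c * γ * G3 := by
  have hT0 : 0 < T := by linarith
  have hγk : γ ^ (k - r) ≤ γ := by
    have := pow_le_pow_of_le_one hγ.le hγ1 (show 1 ≤ k - r by omega)
    rwa [pow_one] at this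
  have h1 : Qc * (c * T ^ (m - r)) ≤ ch * (5 * T) ^ m * (C * (K / T) ^ r * γ * G3) := by
    refine h.trans (mul_le_mul hW ?_ (by positivity) (by positivity))
    refine mul_le_mul (mul_le_mul_of_nonneg_left hγk (by positivity)) hGG hGd (by positivity)
  have h2 : ch * (5 * T) ^ m * (C * (K / T) ^ r * γ * G3) =
      (ch * 5 ^ m * C * K ^ r / c * γ * G3) * (c * T ^ (m - r)) := by
    have h3 : T ^ m = T ^ (m - r) * T ^ r := by
      rw [← pow_add]
      congr 1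
      omega
    rw [mul_pow, div_pow, h3]
    field_simp
  rw [h2] at h1
  exact le_of_mul_le_mul_right h1 (by positivity)

/-- **LBR.** -/
theorem pLBR (hBADR : S_BADRC) (hDEGR : S_DEGRC) (hRCNT : S_RCNTC) : S_LBR := by
  classical
  intro C ι Y _ _ _ n r e A hA hr1 hrn η₀ δ hη0 hη1 hδ
  obtain ⟨m, hm⟩ : ∃ m, n + Fintype.card Y = m := ⟨_, rfl⟩
  have hmr : r ≤ m := by omega
  obtain ⟨ch, hch⟩ : ∃ ch, Fintype.card C = ch := ⟨_, rfl⟩
  obtain ⟨nc, hnc⟩ : ∃ nc, nS ι e = nc := ⟨_, rfl⟩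
  obtain ⟨C₁, hC₁, hB⟩ := hBADR C ι Y n r e A hA
  obtain ⟨C₂, hC₂, hDG⟩ := hDEGR C ι Y n r e A hA (by omega)
  obtain ⟨κ, hκ⟩ : ∃ κ, min 1 (δ / (2 * C₁ * 3 ^ nc)) = κ := ⟨_, rfl⟩
  have hκ0 : 0 < κ := by rw [← hκ]; positivity
  have hκ1 : κ ≤ 1 := by rw [← hκ]; exact min_le_left _ _
  have hκ2 : C₁ * κ * 3 ^ nc ≤ δ / 2 := by
    have h1 : κ ≤ δ / (2 * C₁ * 3 ^ nc) := by rw [← hκ]; exact min_le_right _ _
    rw [le_div_iff₀ (by positivity)] at h1
    linarith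
  obtain ⟨K, c, hK, hc, T₀, hT₀, hR⟩ := hRCNT C ι Y n r e A hrn η₀ κ hη0 hη1 hκ0 hκ1
  obtain ⟨A', hA'⟩ : ∃ A', (ch : ℝ) * 5 ^ m * C₂ * K ^ r / c * 3 ^ nc = A' := ⟨_, rfl⟩
  have hA0 : 0 ≤ A' := by rw [← hA']; positivity
  obtain ⟨γ, hγ⟩ : ∃ γ, min 1 (δ / (2 * (A' + 1))) = γ := ⟨_, rfl⟩
  have hγ0 : 0 < γ := by rw [← hγ]; positivity
  have hγ1 : γ ≤ 1 := by rw [← hγ]; exact min_le_left _ _
  have hγ2 : A' * γ ≤ δ / 2 := by
    have h1 : γ ≤ δ / (2 * (A' + 1)) := by rw [← hγ]; exact min_le_right _ _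
    rw [le_div_iff₀ (by positivity)] at h1
    nlinarith
  refine ⟨γ, hγ0, hγ1, fun α hα => ?_⟩
  obtain ⟨T, hTT₀, hTK⟩ : ∃ T : ℕ, T₀ ≤ T ∧ K / min α 1 ≤ T := by
    obtain ⟨n, hn⟩ := exists_nat_ge (K / min α 1)
    exact ⟨max T₀ n, le_max_left _ _, hn.trans (by exact_mod_cast le_max_right T₀ n)⟩
  have hT1' : 1 ≤ T := hT₀.trans hTT₀
  have hT1 : (1 : ℝ) ≤ (T : ℝ) := by exact_mod_cast hT1'
  have hT0 : (0 : ℝ) < (T : ℝ) := by linarith
  have hmin0 : 0 < min α 1 := by positivity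
  have hKT : K / T ≤ min α 1 := by
    rw [div_le_iff₀ hmin0] at hTK
    rw [div_le_iff₀ hT0]
    linarith
  have hKTα : K / T ≤ α := hKT.trans (min_le_left _ _)
  have hKT1 : K / T ≤ 1 := hKT.trans (min_le_right _ _)
  have hKT0 : 0 < K / T := by positivity
  refine ⟨T, hT1', T / K + 1 / γ + 1 / κ + 2, fun H hH => ?_⟩
  have hTK0 : 0 < T / K := by positivity
  have h1γ : 0 < 1 / γ := by positivity
  have h1κ : 0 < 1 / κ := by positivity
  have hH2 : 2 ≤ H := by linarith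
  have hH0 : 0 < H := by linarith
  have hKTH : 1 ≤ K / T * H := by
    have : T / K ≤ H := by linarith
    rw [div_le_iff₀ hK] at this
    rw [div_mul_eq_mul_div, le_div_iff₀ hT0]
    linarith
  have hγH : 1 ≤ γ * H := by
    have : 1 / γ ≤ H := by linarith
    rw [div_le_iff₀ hγ0] at this
    linarith
  have hκH : 1 ≤ κ * H := by
    have : 1 / κ ≤ H := by linarith
    rw [div_le_iff₀ hκ0] at this
    linarith
  obtain ⟨G, hG⟩ : ∃ G, (sysZ ι e H).card = G := ⟨_, rfl⟩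
  have hup3 := card_sysZ_upper ι e (H := H) (R := 2 * H) (c := 3) (by linarith) (by positivity)
    (by norm_num) (by linarith)
  rw [hG, hnc] at hup3
  -- the bad systems
  have hb1 : ((((sysZ ι e H).filter (fun F => BadTR A κ H F)).card : ℕ) : ℝ) ≤ δ / 2 * G := by
    have h1 := hB κ H hκ0 hκ1 hκH
    calc _ ≤ C₁ * κ * (sysZ ι e (2 * H)).card := h1
      _ ≤ C₁ * κ * (3 ^ nc * G) := mul_le_mul_of_nonneg_left hup3 (by positivity)
      _ = C₁ * κ * 3 ^ nc * G := by ring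
      _ ≤ δ / 2 * G := mul_le_mul_of_nonneg_right hκ2 (Nat.cast_nonneg _)
  -- the other systems
  obtain ⟨Pr, hPr⟩ : ∃ Pr : (Fin r → MvPolynomial ι ℤ) → Prop, Pr = fun F =>
      ∃ (c : C) (y : Y → ℝ) (x : Fin (n + 1) → ℝ),
      ZeroR A F c y x ∧ ¬ ∃ (v : Y → ℤ) (u : Fin (n + 1) → ℤ),
      RobR A α γ H F c (fun t => (v t : ℝ) / T) (fun j => (u j : ℝ) / T) ∧
      (∀ t, |(v t : ℝ) / T - y t| ≤ η₀) ∧ ∀ j, |(u j : ℝ) / T - x j| ≤ η₀ := ⟨_, rfl⟩
  let Q : Finset (Fin r → MvPolynomial ι ℤ) := (sysZ ι e H).filter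
    (fun F => Pr F ∧ ¬ BadTR A κ H F)
  let W : Finset (C × (Fin (n + 1) ⊕ Y → ℤ)) := Finset.univ ×ˢ lbrBox (free n Y) T
  have hWc : W.card = ch * (4 * T + 1) ^ m := by
    change (Finset.univ ×ˢ lbrBox (free n Y) T : Finset (C × (Fin (n + 1) ⊕ Y → ℤ))).card = _
    rw [Finset.card_product, lbr_box_card, card_free, hm, Finset.card_univ, hch]
  let Rel : (Fin r → MvPolynomial ι ℤ) → C × (Fin (n + 1) ⊕ Y → ℤ) → Prop := fun F w =>
    (∀ j, |MvPolynomial.aeval (pt A w.1 (fun t => (w.2 (Sum.inr t) : ℝ) / T)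
      (fun i => (w.2 (Sum.inl i) : ℝ) / T)) (F j)| ≤ K / T * H) ∧
    ¬ NonDR (γ * H) (dX A F w.1 (fun t => (w.2 (Sum.inr t) : ℝ) / T)
      (fun i => (w.2 (Sum.inl i) : ℝ) / T)) (Finset.univ : Finset (Fin (n + 1)))
  have hdiv : ∀ a : ℤ, |a| ≤ 2 * (T : ℤ) → |(a : ℝ) / T| ≤ 2 := by
    intro a ha
    have h1 : |(a : ℝ)| ≤ 2 * (T : ℝ) := by exact_mod_cast ha
    rw [abs_div, abs_of_pos hT0, div_le_iff₀ hT0]
    exact h1
  have hdiv2 : ∀ (a : ℤ) (b : ℝ), |b| ≤ 1 → |(a : ℝ) / T - b| ≤ η₀ → |a| ≤ 2 * (T : ℤ) := by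
    intro a b hb hab
    have h1 : |(a : ℝ) / T| ≤ 2 := by
      have h2 : (a : ℝ) / T = ((a : ℝ) / T - b) + b := by ring
      rw [h2]
      refine (abs_add_le _ _).trans ?_
      linarith
    rw [abs_div, abs_of_pos hT0, div_le_iff₀ hT0] at h1
    exact_mod_cast h1
  have hlow : ∀ F ∈ Q, c * (T : ℝ) ^ (m - r) ≤ ((W.bipartiteAbove Rel F).card : ℝ) := by
    intro F hF
    obtain ⟨hF1, hF2, hF4⟩ := Finset.mem_filter.1 hF
    rw [hPr] at hF2
    obtain ⟨c', y, x, hz, hno⟩ := hF2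
    have h1 := hR T hTT₀ H hH0 F hF1 c' y x hz hF4
    rw [hm] at h1
    refine h1.trans ?_
    rw [Nat.cast_le, ← Set.ncard_coe_finset]
    refine Set.ncard_le_ncard_of_injOn
      (fun u : (Y → ℤ) × (Fin (n + 1) → ℤ) => ((c', Sum.elim u.2 u.1) :
        C × (Fin (n + 1) ⊕ Y → ℤ))) ?_ ?_ (Finset.finite_toSet _)
    · rintro ⟨v, u⟩ ⟨hu0, hv, hu, hval⟩
      have hu0' : u 0 = (T : ℤ) := hu0
      have hv' : ∀ t, |v t| ≤ 2 * (T : ℤ) := fun t => hdiv2 _ _ (hz.1 t) (hv t)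
      have hu' : ∀ j, |u j| ≤ 2 * (T : ℤ) := fun j => hdiv2 _ _ (hz.2.2.1 j) (hu j)
      rw [Finset.mem_coe, Finset.mem_bipartiteAbove]
      refine ⟨Finset.mem_product.2 ⟨Finset.mem_univ _, ?_⟩, ?_⟩
      · change Sum.elim u v ∈ lbrBox (free n Y) T
        rw [lbr_mem_box]
        refine ⟨fun i _ => ?_, fun i hi => ?_⟩
        · rcases i with i | i
          · exact hu' i
          · exact hv' i
        · rw [lbr_mem_free, not_not] at hi
          rw [hi]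
          exact hu0'
      · have hval' : ∀ j, |MvPolynomial.aeval (pt A c' (fun t => (v t : ℝ) / T)
            (fun i => (u i : ℝ) / T)) (F j)| ≤ K / T * H := by
          intro j
          have := hval j
          calc _ ≤ K * H / T := this
            _ = K / T * H := by ring
        refine ⟨hval', fun hN => hno ⟨v, u, ?_, hv, hu⟩⟩
        refine ⟨?_, fun t => hdiv _ (hv' t), fun j => hdiv _ (hu' j), fun j => ?_, hN⟩
        · have : (u 0 : ℝ) = (T : ℝ) := by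
            rw [hu0']
            push_cast
            rfl
          change (u 0 : ℝ) / T = 1
          rw [this, div_self hT0.ne']
        · exact (hval' j).trans (mul_le_mul_of_nonneg_right hKTα hH0.le)
    · rintro ⟨v, u⟩ _ ⟨v', u'⟩ _ hzz
      have h5 : Sum.elim u v = Sum.elim u' v' := congrArg Prod.snd hzz
      refine Prod.ext ?_ ?_
      · funext i
        exact congrFun h5 (Sum.inr i)
      · funext i
        exact congrFun h5 (Sum.inl i)
  have hup : ∀ w ∈ W, ((Q.bipartiteBelow Rel w).card : ℝ) ≤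
      C₂ * (K / T) ^ r * γ ^ (n + 1 - r) * (sysZ ι e (2 * H)).card := by
    rintro ⟨c', z⟩ hw
    have hz' : z ∈ lbrBox (free n Y) T := (Finset.mem_product.1 hw).2
    have hz3 := (lbr_mem_box.1 hz').2
    have hab := lbr_box_abs hz'
    have h1 := hDG (K / T) γ H hKT0 hKT1 hγ0 hγ1 hKTH hγH c'
      (fun t => (z (Sum.inr t) : ℝ) / T) (fun i => (z (Sum.inl i) : ℝ) / T)
      (fun i => hdiv _ (hab _)) (fun i => hdiv _ (hab _))
      (by
        change (z (Sum.inl 0) : ℝ) / T = 1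
        rw [hz3 _ (by rw [lbr_mem_free]; exact fun h => h rfl)]
        push_cast
        exact div_self hT0.ne')
    refine le_trans ?_ h1
    rw [Nat.cast_le]
    refine Finset.card_le_card ?_
    intro F hF
    rw [Finset.mem_bipartiteBelow] at hF
    obtain ⟨hF1, hF2⟩ := hF
    rw [Finset.mem_filter]
    exact ⟨(Finset.mem_filter.1 hF1).1, hF2⟩
  have hcount : (Q.card : ℝ) * (c * (T : ℝ) ^ (m - r)) ≤
      (W.card : ℝ) * (C₂ * (K / T) ^ r * γ ^ (n + 1 - r) * (sysZ ι e (2 * H)).card) := by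
    have h1 := Finset.sum_card_bipartiteAbove_eq_sum_card_bipartiteBelow (s := Q) (t := W) Rel
    have h2 : ∑ a ∈ Q, ((W.bipartiteAbove Rel a).card : ℝ) =
        ∑ w ∈ W, ((Q.bipartiteBelow Rel w).card : ℝ) := by exact_mod_cast h1
    calc (Q.card : ℝ) * (c * (T : ℝ) ^ (m - r)) = ∑ _a ∈ Q, c * (T : ℝ) ^ (m - r) := by
          rw [Finset.sum_const, nsmul_eq_mul]
      _ ≤ ∑ a ∈ Q, ((W.bipartiteAbove Rel a).card : ℝ) := Finset.sum_le_sum hlow
      _ = ∑ w ∈ W, ((Q.bipartiteBelow Rel w).card : ℝ) := h2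
      _ ≤ ∑ _w ∈ W, C₂ * (K / T) ^ r * γ ^ (n + 1 - r) * (sysZ ι e (2 * H)).card :=
          Finset.sum_le_sum hup
      _ = _ := by rw [Finset.sum_const, nsmul_eq_mul]
  have hWR : (W.card : ℝ) ≤ (ch : ℝ) * (5 * (T : ℝ)) ^ m := by
    rw [hWc]
    push_cast
    refine mul_le_mul_of_nonneg_left ?_ (Nat.cast_nonneg _)
    exact pow_le_pow_left₀ (by positivity) (by linarith) _
  have hb2 : ((Q.card : ℕ) : ℝ) ≤ δ / 2 * G := by
    have h1 := lbr_arith (G3 := 3 ^ nc * (G : ℝ)) hmr (show r + 1 ≤ n + 1 by omega) hc hT1 hK hγ0 hγ1 hC₂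
      (Nat.cast_nonneg ch) (by positivity) (Nat.cast_nonneg _) hup3 hWR hcount
    calc ((Q.card : ℕ) : ℝ) ≤ (ch : ℝ) * 5 ^ m * C₂ * K ^ r / c * γ * (3 ^ nc * G) := h1
      _ = A' * γ * G := by rw [← hA']; ring
      _ ≤ δ / 2 * G := mul_le_mul_of_nonneg_right hγ2 (Nat.cast_nonneg _)
  -- the union
  have hsub : (sysZ ι e H).filter (fun F => Pr F) ⊆
      (sysZ ι e H).filter (fun F => BadTR A κ H F) ∪ Q := by
    intro F hF
    obtain ⟨h1, h2⟩ := Finset.mem_filter.1 hF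
    rw [Finset.mem_union]
    by_cases hb : BadTR A κ H F
    · exact Or.inl (Finset.mem_filter.2 ⟨h1, hb⟩)
    · exact Or.inr (Finset.mem_filter.2 ⟨h1, h2, hb⟩)
  have hcard := (Finset.card_le_card hsub).trans (Finset.card_union_le _ _)
  have hcard' : ((((sysZ ι e H).filter (fun F => Pr F)).card : ℕ) : ℝ) ≤
      ((((sysZ ι e H).filter (fun F => BadTR A κ H F)).card : ℕ) : ℝ) + ((Q.card : ℕ) : ℝ) := by
    exact_mod_cast hcard
  rw [hG]
  have hfin : ((((sysZ ι e H).filter (fun F => Pr F)).card : ℕ) : ℝ) ≤ δ * G := by linarith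
  rw [hPr] at hfin
  refine le_trans (le_of_eq ?_) hfin
  congr 1
  apply congrArg Finset.card
  ext F
  simp only [Finset.mem_filter]

end Pool.Agent.H731.GS
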