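import Pool.Agent.H731.GS.Stm

/-!
# LNK: integral basis of a rational linear space in `V`
-/

set_option autoImplicit false

namespace Pool.Agent.H731.GS

open Pool.Agent.T2H39.CV (Cone IsCone subL Left Inside kerF)

private theorem px_lnk_left {ι : Type} [Fintype ι] {k : ℕ} {L : Matrix ι (Fin k) ℤ}
    {R : Matrix (Fin k) ι ℤ} (h : R * L = 1) (x : Fin k → ℚ) (j : Fin k) :
    ∑ i, (R j i : ℚ) * ∑ j', (L i j' : ℚ) * x j' = x j := by
  classical
  have h2 : ∀ j', ∑ i, (R j i : ℚ) * (L i j' : ℚ) = if j = j' then 1 else 0 := by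
    intro j'
    have h3 : (R * L) j j' = (1 : Matrix (Fin k) (Fin k) ℤ) j j' := by rw [h]
    rw [Matrix.mul_apply, Matrix.one_apply] at h3
    have h4 : ((∑ i, R j i * L i j' : ℤ) : ℚ) = ((if j = j' then 1 else 0 : ℤ) : ℚ) := by rw [h3]
    push_cast at h4
    exact h4
  calc ∑ i, (R j i : ℚ) * ∑ j', (L i j' : ℚ) * x j'
      = ∑ i, ∑ j', (R j i : ℚ) * (L i j' : ℚ) * x j' := by
        refine Finset.sum_congr rfl fun i _ => ?_
        rw [Finset.mul_sum]
        exact Finset.sum_congr rfl fun j' _ => by ring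
    _ = ∑ j', ∑ i, (R j i : ℚ) * (L i j' : ℚ) * x j' := Finset.sum_comm
    _ = ∑ j', (if j = j' then 1 else 0) * x j' := by
        refine Finset.sum_congr rfl fun j' _ => ?_
        rw [← h2 j', Finset.sum_mul]
    _ = x j := by simp

theorem pLNK (h1 : Pool.Agent.T2H39.CV.S_LAT) : S_LNK := by
  classical
  intro C ι Y _ _ _ n V A hS B hB
  let f : (Fin (n + 1) → ℚ) →ₗ[ℚ] (ι → ℚ) :=
    { toFun := fun x i => ∑ j, B i j * x j
      map_add' := fun x y => by
        funext i
        simp only [Pi.add_apply, mul_add, Finset.sum_add_distrib]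
      map_smul' := fun a x => by
        funext i
        simp only [Pi.smul_apply, smul_eq_mul, RingHom.id_apply, Finset.mul_sum]
        exact Finset.sum_congr rfl fun j _ => by ring }
  have hf : ∀ x, f x = fun i => ∑ j, B i j * x j := fun x => rfl
  have hinj : Function.Injective f := by
    rw [injective_iff_map_eq_zero]
    intro x hx
    by_contra h0
    exact hS.neQ _ (hB x h0) (by rw [← hf]; exact hx)
  have hfr : Module.finrank ℚ (LinearMap.range f) = n + 1 := by
    rw [LinearMap.finrank_range_of_inj hinj, Module.finrank_fin_fun]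
  obtain ⟨L, R, hRL, hin, hW⟩ := h1 ι (n + 1) (LinearMap.range f) hfr
  refine ⟨L, R, ?_, hRL, ?_⟩
  · intro x hx
    obtain ⟨x', hx'⟩ := hin x
    have h0 : x' ≠ 0 := by
      rintro rfl
      rw [map_zero] at hx'
      apply hx
      funext j
      rw [← px_lnk_left hRL x j, Pi.zero_apply]
      refine Finset.sum_eq_zero fun i _ => ?_
      have := congrFun hx' i
      simp only [Pi.zero_apply] at this
      rw [← this, mul_zero]
    rw [← hx']
    exact hB x' h0
  · intro i j
    have h2 := hW (f (Pi.single j 1)) (LinearMap.mem_range_self f _)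
    have h3 : ∀ i', f (Pi.single j 1) i' = B i' j := by
      intro i'
      rw [hf]
      simp [Pi.single_apply]
    have h4 := congrFun h2 i
    simp only [h3] at h4
    exact h4

end Pool.Agent.H731.GS
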