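import Pool.Agent.H731.GS.GrStm

/-!
# MIN: the minors of a matrix which is diagonal on the columns of `I`
-/

set_option autoImplicit false

namespace Pool.Agent.H731.GS

open Pool.Agent.Y716.Q Pool.Agent.Y716.C
open Pool.Agent.T2H39.CV (Cone IsCone Swept Gr Pl pl S_WAQ)

/-- the determinant of a diagonal matrix with one column replaced -/
theorem px_min_det {m : ℕ} {K : Type} [CommRing K] (d v : Fin m → K) (s : Fin m) :
    ((Matrix.diagonal d).updateCol s v).det = (∏ j ∈ Finset.univ.erase s, d j) * v s := by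
  rw [← Matrix.cramer_apply, Matrix.cramer_eq_adjugate_mulVec, Matrix.adjugate_diagonal,
    Matrix.mulVec_diagonal]

/-- the columns `inI I i`, `i ≠ s`, and `b` -/
noncomputable def px_min_f {q n : ℕ} (I : Pl q (n + 1)) (s : Fin (q + 1)) (b : Fin (q + (n + 1)))
    (i : Fin (q + 1)) : Fin (q + (n + 1)) :=
  if i = s then b else inI I i

theorem px_min_inj {q n : ℕ} (I : Pl q (n + 1)) {i j : Fin (q + 1)} (h : inI I i = inI I j) :
    i = j := (I.1.orderEmbOfFin I.2).injective h

theorem px_min_mem {q n : ℕ} (I : Pl q (n + 1)) (i : Fin (q + 1)) : inI I i ∈ I.1 :=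
  Finset.orderEmbOfFin_mem I.1 I.2 i

theorem px_min_card {q n : ℕ} (I : Pl q (n + 1)) (s : Fin (q + 1)) (b : Fin (q + (n + 1)))
    (hb : b ∉ I.1) : (insert b (I.1.erase (inI I s))).card = q + 1 := by
  rw [Finset.card_insert_of_notMem (fun h => hb (Finset.mem_of_mem_erase h)),
    Finset.card_erase_of_mem (px_min_mem I s), I.2]
  omega

theorem px_min_fmem {q n : ℕ} (I : Pl q (n + 1)) (s : Fin (q + 1)) (b : Fin (q + (n + 1)))
    (i : Fin (q + 1)) : px_min_f I s b i ∈ insert b (I.1.erase (inI I s)) := by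
  unfold px_min_f
  split_ifs with h
  · exact Finset.mem_insert_self _ _
  · exact Finset.mem_insert_of_mem (Finset.mem_erase.2
      ⟨fun h' => h (px_min_inj I h'), px_min_mem I i⟩)

theorem px_min_finj {q n : ℕ} (I : Pl q (n + 1)) (s : Fin (q + 1)) (b : Fin (q + (n + 1)))
    (hb : b ∉ I.1) : Function.Injective (px_min_f I s b) := by
  intro i j h
  unfold px_min_f at h
  split_ifs at h with h1 h2 h2
  · rw [h1, h2]
  · exact absurd (h ▸ px_min_mem I j) hb
  · exact absurd (h ▸ px_min_mem I i) hb
  · exact px_min_inj I h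

theorem pMIN : S_MIN := by
  intro q n I
  constructor
  · intro K _ M d h
    rw [← Matrix.det_diagonal]
    unfold plR
    congr 1
    ext i j
    exact h i j
  · intro s b hb
    obtain ⟨J, hJ⟩ : ∃ J : Pl q (n + 1), J.1 = insert b (I.1.erase (inI I s)) :=
      ⟨⟨_, px_min_card I s b hb⟩, rfl⟩
    have hm : ∀ i, px_min_f I s b i ∈ J.1 := fun i => by
      rw [hJ]
      exact px_min_fmem I s b i
    obtain ⟨π, hπ⟩ : ∃ π : Equiv.Perm (Fin (q + 1)), ∀ i,
        J.1.orderEmbOfFin J.2 (π i) = px_min_f I s b i := by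
      refine ⟨Equiv.ofBijective (fun i => (J.1.orderIsoOfFin J.2).symm ⟨px_min_f I s b i, hm i⟩)
        (Finite.injective_iff_bijective.1 ?_), ?_⟩
      · intro i j h
        have h1 := (J.1.orderIsoOfFin J.2).symm.injective h
        exact px_min_finj I s b hb (congrArg Subtype.val h1)
      · intro i
        rw [← Finset.coe_orderIsoOfFin_apply]
        simp
    refine ⟨J, ((Equiv.Perm.sign π : ℤˣ) : ℤ), ?_, ?_⟩
    · rcases Int.units_eq_one_or (Equiv.Perm.sign π) with h | h
      · left; rw [h]; rfl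
      · right; rw [h]; rfl
    · intro K _ M d h
      have e1 : (Matrix.of fun i j => M i (J.1.orderEmbOfFin J.2 j)).submatrix id π =
          (Matrix.diagonal d).updateCol s (fun i => M i b) := by
        ext i j
        rw [Matrix.submatrix_apply, Matrix.of_apply, hπ, Matrix.updateCol_apply]
        unfold px_min_f
        split_ifs with h1
        · rfl
        · rw [id, h i j, Matrix.diagonal_apply]
      have e2 := Matrix.det_permute' π (Matrix.of fun i j => M i (J.1.orderEmbOfFin J.2 j))
      rw [e1, px_min_det] at e2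
      have e3 : ((((Equiv.Perm.sign π : ℤˣ) : ℤ) : ℤ) : K) *
          ((((Equiv.Perm.sign π : ℤˣ) : ℤ) : ℤ) : K) = 1 := by
        rcases Int.units_eq_one_or (Equiv.Perm.sign π) with h | h <;> rw [h] <;> simp
      rw [e2, ← mul_assoc, e3, one_mul]
      rfl

end Pool.Agent.H731.GS
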