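import Pool.Agent.H731.GS.Stm
import Pool.Graph.R_seed8.Y716.D.Main

/-!
# POSC: a positive proportion of the systems has a rational point on `V`
-/

set_option autoImplicit false

namespace Pool.Agent.H731.GS

open Pool.Agent.Y716.Q Pool.Agent.Y716.C
open Pool.Agent.T2H39.CV (Cone IsCone subL Left Inside kerF S_DEC eval_subL)

private theorem px_posc_add {ι : Type} [Fintype ι] {d : ℕ} {r s t : ℝ} {F G : MvPolynomial ι ℤ}
    (hF : IsF d r F) (hG : IsF d s G) (h : r + s ≤ t) : IsF d t (F + G) := by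
  refine ⟨hF.1.add hG.1, fun a => ?_⟩
  rw [MvPolynomial.coeff_add]
  push_cast
  have h1 := abs_le.1 (hF.2 a)
  have h2 := abs_le.1 (hG.2 a)
  rw [abs_le]
  constructor <;> linarith [h1.1, h1.2, h2.1, h2.2]

private theorem px_posc_subL_add {ι : Type} [Fintype ι] {k : ℕ} (L : Matrix ι (Fin k) ℤ)
    (F G : MvPolynomial ι ℤ) : subL L (F + G) = subL L F + subL L G := by
  unfold subL
  rw [map_add]

open scoped Classical in
theorem pPOSC (h1 : S_LNK) (h2 : S_DEC) : S_POSC := by
  intro C ι Y _ _ _ n r e hCne hr hn hdeg V A hV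
  obtain ⟨c0⟩ := hCne
  obtain ⟨B, hB, -, -⟩ := hV.dense 0 (fun _ => c0) (fun _ _ _ => 0) c0 (fun _ => 0) 1 one_pos
  obtain ⟨L, R, hin, hfac⟩ := h1 C ι Y n V A hV B hB
  have hL : Left L := ⟨R, hfac.1⟩
  choose Cj ext hC1 hadd hext hextF hsub hcard using fun j : Fin r => h2 ι (n + 1) (e j) L hL
  obtain ⟨CC, hCC⟩ : ∃ CC, CC = ∑ j, Cj j := ⟨_, rfl⟩
  have hCj : ∀ j, Cj j ≤ CC := by
    intro j
    rw [hCC]
    exact Finset.single_le_sum (f := Cj) (fun i _ => by linarith [hC1 i]) (Finset.mem_univ j)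
  have hCC1 : 1 ≤ CC := (hC1 ⟨0, hr⟩).trans (hCj ⟨0, hr⟩)
  have h3 : r + 3 ≤ Fintype.card (Fin (n + 1)) := by rw [Fintype.card_fin]; exact hn
  have hd : ∑ j, (e j + 2) + 1 ≤ Fintype.card (Fin (n + 1)) := by
    rw [Fintype.card_fin]; exact hdeg
  obtain ⟨c, hc, H₀, hH₀⟩ := Pool.Agent.Y716.D.pos_all (Fin (n + 1)) hr h3 e hd
  obtain ⟨D, hD⟩ : ∃ D : Fin r → ℝ, D = fun j => 4 ^ (mons ι (e j + 2)).card *
    (Cj j * (2 * CC + 1) ^ (mons (Fin (n + 1)) (e j + 2)).card) := ⟨_, rfl⟩
  have hDpos : ∀ j, 0 < D j := by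
    intro j
    have := hC1 j
    rw [hD]
    positivity
  have hDD : 0 < ∏ j, D j := Finset.prod_pos fun j _ => hDpos j
  refine ⟨c / ∏ j, D j, by positivity, max (2 * CC * (|H₀| + 1)) (4 * CC), fun H hH => ?_⟩
  have hH1 : 2 * CC * (|H₀| + 1) ≤ H := (le_max_left _ _).trans hH
  have hH2 : 4 * CC ≤ H := (le_max_right _ _).trans hH
  obtain ⟨h, hh⟩ : ∃ h, h = H / (2 * CC) := ⟨_, rfl⟩
  have hh1 : |H₀| + 1 ≤ h := by
    rw [hh, le_div_iff₀ (by positivity)]
    linarith
  have hh0 : 1 ≤ h := by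
    have := abs_nonneg H₀
    linarith
  have hhH : H₀ ≤ h := by
    have := le_abs_self H₀
    linarith
  have e1 : CC * h = H / 2 := by
    rw [hh]
    field_simp
  have hpos := hH₀ h hhH
  -- the set of the small systems with zeros
  obtain ⟨P, hP⟩ : ∃ P : Finset (Fin r → MvPolynomial (Fin (n + 1)) ℤ),
      P = (sysZ (Fin (n + 1)) e h).filter (fun f =>
        ∃ x : Fin (n + 1) → ℤ, x ≠ 0 ∧ ∀ j, MvPolynomial.eval x (f j) = 0) := ⟨_, rfl⟩
  have hpos' : c * ((sysZ (Fin (n + 1)) e h).card : ℝ) ≤ (P.card : ℝ) := by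
    rw [hP]
    refine hpos.trans ?_
    exact_mod_cast le_of_eq (congrArg Finset.card (Finset.filter_congr_decidable _ _ _))
  obtain ⟨K, hK⟩ : ∃ K : Finset (Fin r → MvPolynomial ι ℤ),
      K = Fintype.piFinset (fun j => kerF L (e j + 2) (H / 2)) := ⟨_, rfl⟩
  obtain ⟨Z, hZ⟩ : ∃ Z : Finset (Fin r → MvPolynomial ι ℤ),
      Z = (sysZ ι e H).filter (fun F => ∃ z : ι → ℤ,
        (fun i => (z i : ℚ)) ∈ V.Q ∧ ∀ j, MvPolynomial.eval z (F j) = 0) := ⟨_, rfl⟩
  have hKmem : ∀ G, G ∈ K ↔ ∀ j, IsF (e j + 2) (H / 2) (G j) ∧ subL L (G j) = 0 := by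
    intro G
    rw [hK, Fintype.mem_piFinset]
    refine forall_congr' fun j => ?_
    unfold kerF
    rw [Finset.mem_filter, mem_formsZ]
  have hcardZ : (P ×ˢ K).card ≤ Z.card := by
    refine Finset.card_le_card_of_injOn (fun q => fun j => ext j (q.1 j) + q.2 j) ?_ ?_
    · intro q hq
      obtain ⟨h4, h5⟩ := Finset.mem_product.1 (Finset.mem_coe.1 hq)
      rw [hP, Finset.mem_filter] at h4
      obtain ⟨h6, x, hx0, hx⟩ := h4
      rw [hKmem] at h5
      rw [hZ]
      refine Finset.mem_coe.2 (Finset.mem_filter.2 ⟨mem_sysZ.2 fun j => ?_, ?_⟩)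
      · refine px_posc_add (hextF j _ _ (mem_sysZ.1 h6 j)) (h5 j).1 ?_
        have h7 : Cj j * h ≤ CC * h := mul_le_mul_of_nonneg_right (hCj j) (by linarith)
        linarith
      · refine ⟨fun i => ∑ j, L i j * x j, ?_, fun j => ?_⟩
        · have h7 := hin (fun j => (x j : ℚ)) (by
            intro h8
            apply hx0
            funext j
            have := congrFun h8 j
            simpa using this)
          have h8 : (fun i => (((∑ j, L i j * x j : ℤ)) : ℚ)) =
              fun i => ∑ j, (L i j : ℚ) * (x j : ℚ) := by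
            funext i
            push_cast
            rfl
          rw [h8]
          exact h7
        · rw [← eval_subL]
          show MvPolynomial.eval x (subL L (ext j (q.1 j) + q.2 j)) = 0
          rw [px_posc_subL_add, hext, (h5 j).2, add_zero]
          exact hx j
    · intro q hq q' hq' hqq
      obtain ⟨-, h5⟩ := Finset.mem_product.1 (Finset.mem_coe.1 hq)
      obtain ⟨-, h5'⟩ := Finset.mem_product.1 (Finset.mem_coe.1 hq')
      rw [hKmem] at h5 h5'
      have h6 : ∀ j, ext j (q.1 j) + q.2 j = ext j (q'.1 j) + q'.2 j := fun j => congrFun hqq j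
      have h7 : q.1 = q'.1 := by
        funext j
        have h8 := congrArg (subL L) (h6 j)
        rwa [px_posc_subL_add, px_posc_subL_add, hext, hext, (h5 j).2, (h5' j).2, add_zero,
          add_zero] at h8
      have h8 : q.2 = q'.2 := by
        funext j
        have h9 := h6 j
        rw [h7] at h9
        exact add_left_cancel h9
      exact Prod.ext h7 h8
  rw [Finset.card_product] at hcardZ
  have hcardZ' : (P.card : ℝ) * (K.card : ℝ) ≤ Z.card := by exact_mod_cast hcardZ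
  -- comparison of the numbers of forms
  have hone : ∀ j, ((formsZ ι (e j + 2) H).card : ℝ) ≤
      D j * (((kerF L (e j + 2) (H / 2)).card : ℝ) *
        ((formsZ (Fin (n + 1)) (e j + 2) h).card : ℝ)) := by
    intro j
    have hHC : Cj j ≤ H / 2 := by
      have := hCj j
      linarith
    have k1 : ((formsZ ι (e j + 2) H).card : ℝ) ≤
        4 ^ (mons ι (e j + 2)).card * (formsZ ι (e j + 2) (H / 2)).card :=
      card_forms_upper (ι := ι) (e j + 2) (by linarith) (by linarith) (by norm_num) (by linarith)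
    have k2 := (hcard j (H / 2) hHC).2
    have k3 : ((formsZ (Fin (n + 1)) (e j + 2) (H / 2)).card : ℝ) ≤
        (2 * CC + 1) ^ (mons (Fin (n + 1)) (e j + 2)).card *
          (formsZ (Fin (n + 1)) (e j + 2) h).card := by
      refine card_forms_upper (ι := Fin (n + 1)) (e j + 2) hh0 (by linarith) (by linarith) ?_
      rw [← e1]
      have k4 : 0 ≤ (2 * CC + 1) * (h - 1) := mul_nonneg (by linarith) (by linarith)
      nlinarith
    have hCj0 : 0 ≤ Cj j := by linarith [hC1 j]
    calc ((formsZ ι (e j + 2) H).card : ℝ)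
        ≤ 4 ^ (mons ι (e j + 2)).card * (Cj j * ((kerF L (e j + 2) (H / 2)).card *
            (formsZ (Fin (n + 1)) (e j + 2) (H / 2)).card)) :=
          k1.trans (mul_le_mul_of_nonneg_left k2 (by positivity))
      _ ≤ 4 ^ (mons ι (e j + 2)).card * (Cj j * ((kerF L (e j + 2) (H / 2)).card *
            ((2 * CC + 1) ^ (mons (Fin (n + 1)) (e j + 2)).card *
              (formsZ (Fin (n + 1)) (e j + 2) h).card))) := by
          refine mul_le_mul_of_nonneg_left (mul_le_mul_of_nonneg_left (mul_le_mul_of_nonneg_left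
            k3 (Nat.cast_nonneg _)) hCj0) (by positivity)
      _ = D j * (((kerF L (e j + 2) (H / 2)).card : ℝ) *
            ((formsZ (Fin (n + 1)) (e j + 2) h).card : ℝ)) := by
          rw [hD]
          ring
  have hall : ((sysZ ι e H).card : ℝ) ≤ (∏ j, D j) * ((K.card : ℝ) *
      ((sysZ (Fin (n + 1)) e h).card : ℝ)) := by
    rw [card_sysZ, card_sysZ, hK, Fintype.card_piFinset]
    push_cast
    rw [← Finset.prod_mul_distrib, ← Finset.prod_mul_distrib]
    exact Finset.prod_le_prod (fun j _ => Nat.cast_nonneg _) fun j _ => hone j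
  have hfin : c / (∏ j, D j) * ((sysZ ι e H).card : ℝ) ≤ (Z.card : ℝ) := by
    rw [div_mul_eq_mul_div, div_le_iff₀ hDD]
    calc c * ((sysZ ι e H).card : ℝ) ≤ c * ((∏ j, D j) * ((K.card : ℝ) *
          ((sysZ (Fin (n + 1)) e h).card : ℝ))) := mul_le_mul_of_nonneg_left hall hc.le
      _ = (c * ((sysZ (Fin (n + 1)) e h).card : ℝ)) * (K.card : ℝ) * ∏ j, D j := by ring
      _ ≤ (P.card : ℝ) * (K.card : ℝ) * ∏ j, D j :=
          mul_le_mul_of_nonneg_right (mul_le_mul_of_nonneg_right hpos' (Nat.cast_nonneg _)) hDD.le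
      _ ≤ (Z.card : ℝ) * ∏ j, D j := mul_le_mul_of_nonneg_right hcardZ' hDD.le
  rw [hZ] at hfin
  refine hfin.trans ?_
  exact_mod_cast le_of_eq (congrArg Finset.card (Finset.filter_congr_decidable _ _ _))

end Pool.Agent.H731.GS
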