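import Pool.Agent.H731.GS.Stm
import Pool.Graph.R_pool_sql_team_seeded_707910d6.T2H41.CX.RCA
import Pool.Graph.R_seed8.Z864.C.Minor

/-!
# Package RCNTC: the number of almost zeros on a grid near a nondegenerate real zero
-/

set_option autoImplicit false
set_option linter.unusedSectionVars false

namespace Pool.Agent.H731.GS

open Pool.Agent.Y716.Q Pool.Agent.Y716.C
open Pool.Agent.T2H41.CX (NonD NonDR)
open Pool.Agent.T2H41.CX.PkgRCNT (Bd bd_comb mv mv_a mv_out mv_sub newton)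
open MvPolynomial

section poly

variable {C ι Y : Type} {n r : ℕ} [Fintype ι]

/-- the basis polynomials -/
noncomputable def px_rcntc_Mb (A : Fra C ι Y n) (c : C) {d : ℕ} (m : ↥(mons ι d)) :
    MvPolynomial (Fin (n + 1) ⊕ Y) ℤ := tot A c (monomial m.1 1)

lemma px_rcntc_phi {d : ℕ} {f : MvPolynomial ι ℤ} (hf : f.IsHomogeneous d) :
    f = ∑ m : ↥(mons ι d), MvPolynomial.C (f.coeff m.1) * monomial m.1 1 := by
  classical
  ext a
  rw [coeff_sum]
  simp only [coeff_C_mul, coeff_monomial, mul_ite, mul_one, mul_zero]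
  rw [Finset.sum_coe_sort (mons ι d) (fun m => if m = a then f.coeff m else 0),
    Finset.sum_ite_eq' (mons ι d) a]
  split_ifs with h
  · rfl
  · by_contra hne
    exact h (mem_mons.2 (homog_sum_eq hf (fun h0 => hne h0)))

lemma px_rcntc_tot (A : Fra C ι Y n) (c : C) {d : ℕ} {f : MvPolynomial ι ℤ}
    (hf : f.IsHomogeneous d) :
    tot A c f = ∑ m : ↥(mons ι d), MvPolynomial.C (f.coeff m.1) * px_rcntc_Mb A c m := by
  conv_lhs => rw [px_rcntc_phi hf]
  unfold px_rcntc_Mb tot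
  rw [map_sum]
  refine Finset.sum_congr rfl fun m _ => ?_
  rw [map_mul, bind₁_C_right]

lemma px_rcntc_val (A : Fra C ι Y n) (c : C) {d : ℕ} {f : MvPolynomial ι ℤ}
    (hf : f.IsHomogeneous d) (z : Fin (n + 1) ⊕ Y → ℝ) :
    aeval (pt A c (fun t => z (Sum.inr t)) (fun j => z (Sum.inl j))) f =
      ∑ m : ↥(mons ι d), (((f.coeff m.1 : ℤ)) : ℝ) * aeval z (px_rcntc_Mb A c m) := by
  rw [← aeval_tot]
  have e : (Sum.elim (fun j => z (Sum.inl j)) (fun t => z (Sum.inr t)) : Fin (n + 1) ⊕ Y → ℝ) =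
      z := by
    funext i
    rcases i with i | i <;> rfl
  rw [e, px_rcntc_tot A c hf, map_sum]
  refine Finset.sum_congr rfl fun x _ => ?_
  rw [map_mul, aeval_C]
  rfl

lemma px_rcntc_der (A : Fra C ι Y n) (c : C) {d : ℕ} {f : MvPolynomial ι ℤ}
    (hf : f.IsHomogeneous d) (z : Fin (n + 1) ⊕ Y → ℝ) (i : Fin (n + 1) ⊕ Y) :
    aeval z (pderiv i (tot A c f)) =
      ∑ m : ↥(mons ι d), (((f.coeff m.1 : ℤ)) : ℝ) * aeval z (pderiv i (px_rcntc_Mb A c m)) := by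
  rw [px_rcntc_tot A c hf, map_sum, map_sum]
  refine Finset.sum_congr rfl fun x _ => ?_
  rw [pderiv_C_mul, map_mul, aeval_C]
  rfl

lemma px_rcntc_mono {τ : Type} [Fintype τ] {Λ Λ' : ℝ} {g : Fin r → (τ → ℝ) → ℝ}
    {g' : Fin r → τ → (τ → ℝ) → ℝ} (h : Λ ≤ Λ') (hB : Bd r Λ g g') : Bd r Λ' g g' :=
  ⟨fun z z' d h1 h2 h3 h4 j => (hB.lip z z' d h1 h2 h3 h4 j).trans
      (mul_le_mul_of_nonneg_right h h3),
    fun z z' d h1 h2 h3 h4 j i => (hB.dlip z z' d h1 h2 h3 h4 j i).trans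
      (mul_le_mul_of_nonneg_right h h3),
    fun z z' d h1 h2 h3 h4 j => (hB.tay z z' d h1 h2 h3 h4 j).trans
      (mul_le_mul_of_nonneg_right h (by positivity))⟩

end poly

theorem pRCNTC : S_RCNTC := by
  classical
  intro Ct ι Y _ _ _ n r e A hrn η₀ κ hη₀ hη₁ hκ hκ1
  choose Λf hΛf1 hΛf using fun c : Ct => bd_comb (τ := Fin (n + 1) ⊕ Y) r
    (fun j => ↥(mons ι (e j + 2))) (fun j m => px_rcntc_Mb A c m)
  obtain ⟨Λ, hΛd⟩ : ∃ Λ : ℝ, Λ = 1 + ∑ c, Λf c := ⟨_, rfl⟩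
  have hΛnn : ∀ c, 0 ≤ Λf c := fun c => zero_le_one.trans (hΛf1 c)
  have hΛ1 : 1 ≤ Λ := by
    have : 0 ≤ ∑ c, Λf c := Finset.sum_nonneg fun c _ => hΛnn c
    rw [hΛd]
    linarith
  have hΛle : ∀ c, Λf c ≤ Λ := by
    intro c
    have h1 : Λf c ≤ ∑ c, Λf c := Finset.single_le_sum (fun c _ => hΛnn c) (Finset.mem_univ c)
    rw [hΛd]
    linarith
  obtain ⟨Cf, hCf1, hCf⟩ := Pool.Agent.Z864.C.minor (↥(free n Y)) r
  obtain ⟨C1, hC1d⟩ : ∃ C1 : ℝ, C1 = 1 + Cf / κ := ⟨_, rfl⟩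
  have hCnn : 0 ≤ Cf := zero_le_one.trans hCf1
  have hC1 : 1 ≤ C1 := by
    have : 0 ≤ Cf / κ := div_nonneg hCnn hκ.le
    rw [hC1d]
    linarith
  have hCle : Cf / κ ≤ C1 := by
    rw [hC1d]
    linarith
  obtain ⟨q, hq⟩ : ∃ q : ℝ, q = ((r : ℝ) + 1) * C1 * Λ := ⟨_, rfl⟩
  have hr1 : (1 : ℝ) ≤ (r : ℝ) + 1 := by
    have : (0 : ℝ) ≤ r := Nat.cast_nonneg r
    linarith
  have hq1 : 1 ≤ q := by
    rw [hq]
    exact one_le_mul_of_one_le_of_one_le (one_le_mul_of_one_le_of_one_le hr1 hC1) hΛ1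
  obtain ⟨ρ, hρd⟩ : ∃ ρ : ℝ, ρ = η₀ / (4 * ((r : ℝ) + 1) * q) := ⟨_, rfl⟩
  obtain ⟨ρ', hρ'd⟩ : ∃ ρ' : ℝ, ρ' = ρ / (2 * q) := ⟨_, rfl⟩
  have hq0 : 0 < q := by linarith
  have hr0 : (0 : ℝ) < (r : ℝ) + 1 := by linarith
  have hρ0 : 0 < ρ := by rw [hρd]; positivity
  have hρ'0 : 0 < ρ' := by rw [hρ'd]; positivity
  have hρq' : 2 * q * ρ * ((r : ℝ) + 1) = η₀ / 2 := by
    rw [hρd]
    field_simp
    norm_num
  have hρq : 2 * q * ρ * ((r : ℝ) + 1) ≤ 1 / 2 := by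
    rw [hρq']
    linarith
  have hρη : ρ ≤ η₀ / 4 := by
    rw [hρd]
    apply div_le_div_of_nonneg_left hη₀.le (by norm_num)
    have := one_le_mul_of_one_le_of_one_le hr1 hq1
    linarith
  have hρ4 : ρ ≤ 1 / 4 := by linarith
  have hρ'q : q * ρ' = ρ / 2 := by
    rw [hρ'd]
    field_simp
  have hρ'ρ2 : ρ' ≤ ρ / 2 := by
    have : ρ' ≤ q * ρ' := le_mul_of_one_le_left hρ'0.le hq1
    linarith
  have hρ'ρ : ρ' ≤ ρ := by linarith
  have h1 : (r : ℝ) * (C1 * (2 * (r + 1) * Λ * ρ)) ≤ 1 / 2 := by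
    have e1 : (r : ℝ) * (C1 * (2 * (r + 1) * Λ * ρ)) = 2 * q * ρ * r := by rw [hq]; ring
    rw [e1]
    refine le_trans ?_ hρq
    exact mul_le_mul_of_nonneg_left (by linarith) (by positivity)
  have h2 : (r : ℝ) * (C1 * (Λ * ρ')) ≤ ρ / 2 := by
    rw [← hρ'q, hq]
    have e1 : ((r : ℝ) + 1) * C1 * Λ * ρ' = ((r : ℝ) + 1) * (C1 * (Λ * ρ')) := by ring
    rw [e1]
    exact mul_le_mul_of_nonneg_right (by linarith) (by positivity)
  refine ⟨Λ, (ρ' / 2) ^ (n + Fintype.card Y - r), by linarith, by positivity, ⌈1 / ρ'⌉₊,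
    Nat.one_le_ceil_iff.2 (by positivity), ?_⟩
  intro T hT H hH Φ hΦ c y x hZ hbad
  have hTρ : 1 ≤ ρ' * T := by
    have h3 : 1 / ρ' ≤ T := (Nat.le_ceil _).trans (by exact_mod_cast hT)
    rw [div_le_iff₀ hρ'0] at h3
    linarith
  have hT1 : (1 : ℝ) ≤ T := by
    have : 1 ≤ ⌈1 / ρ'⌉₊ := Nat.one_le_ceil_iff.2 (by positivity)
    exact_mod_cast this.trans hT
  have hT0 : (0 : ℝ) < T := by linarith
  have hhom : ∀ j, (Φ j).IsHomogeneous (e j + 2) := fun j => ((mem_sysZ.mp hΦ) j).1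
  obtain ⟨hy, hx0, hx, hval⟩ := hZ
  have hND : NonDR (κ * H) (jacT A c Φ (Sum.elim x y)) (free n Y) := by
    by_contra hcon
    apply hbad
    refine ⟨c, y, x, hx0, hy, hx, fun j => ?_, hcon⟩
    rw [hval j, abs_zero]
    positivity
  obtain ⟨z0, hz0d⟩ : ∃ z0 : Fin (n + 1) ⊕ Y → ℝ, z0 = Sum.elim x y := ⟨_, rfl⟩
  rw [← hz0d] at hND
  have hz0 : ∀ i, |z0 i| ≤ 1 := by
    rintro (i | i)
    · rw [hz0d]; exact hx i
    · rw [hz0d]; exact hy i
  -- the functions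
  obtain ⟨cf, hcd⟩ : ∃ cf : ∀ j : Fin r, ↥(mons ι (e j + 2)) → ℝ,
    cf = fun j m => (((Φ j).coeff m.1 : ℤ) : ℝ) / H := ⟨_, rfl⟩
  have hc1 : ∀ j m, |cf j m| ≤ 1 := by
    intro j m
    rw [hcd]
    change |(((Φ j).coeff m.1 : ℤ) : ℝ) / H| ≤ 1
    rw [abs_div, abs_of_pos hH, div_le_one hH]
    exact ((mem_sysZ.mp hΦ) j).2 m.1
  have hBd := px_rcntc_mono (hΛle c) (hΛf c cf hc1)
  obtain ⟨g, hg⟩ : ∃ g : Fin r → (Fin (n + 1) ⊕ Y → ℝ) → ℝ,
    g = fun j z => ∑ m, cf j m * aeval z (px_rcntc_Mb A c m) := ⟨_, rfl⟩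
  obtain ⟨g', hg'⟩ : ∃ g' : Fin r → (Fin (n + 1) ⊕ Y) → (Fin (n + 1) ⊕ Y → ℝ) → ℝ,
    g' = fun j i z => ∑ m, cf j m * aeval z (pderiv i (px_rcntc_Mb A c m)) := ⟨_, rfl⟩
  rw [← hg, ← hg'] at hBd
  have hgv : ∀ j (z : Fin (n + 1) ⊕ Y → ℝ),
      aeval (pt A c (fun t => z (Sum.inr t)) (fun j => z (Sum.inl j))) (Φ j) = H * g j z := by
    intro j z
    rw [px_rcntc_val A c (hhom j), hg, hcd]
    change _ = H * ∑ m : ↥(mons ι (e j + 2)),
      (((Φ j).coeff m.1 : ℤ) : ℝ) / H * aeval z (px_rcntc_Mb A c m)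
    rw [Finset.mul_sum]
    refine Finset.sum_congr rfl fun x _ => ?_
    field_simp
  have hgj : ∀ j i z, g' j i z = jacT A c Φ z j i / H := by
    intro j i z
    unfold jacT
    rw [px_rcntc_der A c (hhom j), hg', hcd]
    change ∑ m : ↥(mons ι (e j + 2)), (((Φ j).coeff m.1 : ℤ) : ℝ) / H *
      aeval z (pderiv i (px_rcntc_Mb A c m)) = _
    rw [Finset.sum_div]
    refine Finset.sum_congr rfl fun x _ => ?_
    ring
  have hg0 : ∀ j, g j z0 = 0 := by
    intro j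
    have h3 := hgv j z0
    rw [hz0d] at h3
    have h4 : aeval (pt A c y x) (Φ j) = H * g j (Sum.elim x y) := h3
    rw [hval j] at h4
    rw [hz0d]
    exact (mul_eq_zero.1 h4.symm).resolve_left hH.ne'
  -- the minor
  have hmin := hCf κ (Matrix.of fun (j : Fin r) (i : ↥(free n Y)) => g' j i.1 z0) hκ (by
    intro j₀ l hl hl1
    obtain ⟨i, hi, hlt⟩ := hND j₀ l hl hl1
    refine ⟨⟨i, hi⟩, ?_⟩
    have e1 : ∑ j, l j * (Matrix.of fun (j : Fin r) (i : ↥(free n Y)) => g' j i.1 z0) j ⟨i, hi⟩ =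
        (∑ j, l j * jacT A c Φ z0 j i) / H := by
      rw [Finset.sum_div]
      refine Finset.sum_congr rfl fun j _ => ?_
      change l j * g' j i z0 = _
      rw [hgj]
      ring
    rw [e1, abs_div, abs_of_pos hH, lt_div_iff₀ hH]
    exact hlt)
  obtain ⟨a, Li, ha, hLi, hLb⟩ := hmin
  obtain ⟨a', ha'd⟩ : ∃ a' : Fin r → Fin (n + 1) ⊕ Y, a' = fun j => (a j).1 := ⟨_, rfl⟩
  have ha' : Function.Injective a' := by
    rw [ha'd]
    exact Subtype.val_injective.comp ha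
  have ha'fr : ∀ j, a' j ∈ free n Y := by
    intro j
    rw [ha'd]
    exact (a j).2
  have hLi' : Li * (Matrix.of fun j j' : Fin r => g' j (a' j') z0) = 1 := by
    rw [ha'd]
    exact hLi
  have hLb' : ∀ j j', |Li j j'| ≤ C1 := fun j j' => (hLb j j').trans hCle
  obtain ⟨O, hO⟩ : ∃ O : Finset (Fin (n + 1) ⊕ Y), O = free n Y \ Finset.univ.image a' := ⟨_, rfl⟩
  have hOcard : O.card = n + Fintype.card Y - r := by
    rw [hO, Finset.card_sdiff_of_subset, card_free, Finset.card_image_of_injective _ ha',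
      Finset.card_univ, Fintype.card_fin]
    intro i hi
    obtain ⟨j, -, rfl⟩ := Finset.mem_image.1 hi
    exact ha'fr j
  obtain ⟨M, hM⟩ : ∃ M : ℕ, M = ⌊ρ' * T⌋₊ := ⟨_, rfl⟩
  have hM1 : 1 ≤ M := by
    rw [hM]
    exact Nat.le_floor (by exact_mod_cast hTρ)
  have hMle : (M : ℝ) ≤ ρ' * T := by
    rw [hM]
    exact Nat.floor_le (by positivity)
  have hMge : ρ' / 2 * T ≤ M := by
    have h3 := Nat.lt_floor_add_one (ρ' * T)
    rw [← hM] at h3
    have h4 : (1 : ℝ) ≤ M := by exact_mod_cast hM1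
    linarith
  -- the points
  let bs : (↥O → Fin M) → (Fin (n + 1) ⊕ Y) → ℤ := fun s i =>
    if h : i ∈ O then ⌊(T : ℝ) * z0 i⌋ + ((s ⟨i, h⟩ : ℕ) : ℤ) else 0
  let w : (↥O → Fin M) → (Fin (n + 1) ⊕ Y) → ℝ := fun s i =>
    if i ∈ O then (bs s i : ℝ) / T else z0 i
  have hw : ∀ s i, |w s i - z0 i| ≤ ρ' := by
    intro s i
    change |(if i ∈ O then (bs s i : ℝ) / T else z0 i) - z0 i| ≤ ρ'
    split_ifs with h
    · have e1 : bs s i = ⌊(T : ℝ) * z0 i⌋ + ((s ⟨i, h⟩ : ℕ) : ℤ) := dif_pos h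
      rw [e1]
      push_cast
      have h3 := Int.floor_le ((T : ℝ) * z0 i)
      have h4 := Int.sub_one_lt_floor ((T : ℝ) * z0 i)
      have h5 : ((s ⟨i, h⟩ : ℕ) : ℝ) + 1 ≤ M := by exact_mod_cast (s ⟨i, h⟩).2
      have h6 : (0 : ℝ) ≤ ((s ⟨i, h⟩ : ℕ) : ℝ) := Nat.cast_nonneg _
      have e2 : ((⌊(T : ℝ) * z0 i⌋ : ℝ) + ((s ⟨i, h⟩ : ℕ) : ℝ)) / T - z0 i =
          ((⌊(T : ℝ) * z0 i⌋ : ℝ) + ((s ⟨i, h⟩ : ℕ) : ℝ) - T * z0 i) / T := by
        field_simp
      rw [e2, abs_div, abs_of_pos hT0, div_le_iff₀ hT0, abs_le]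
      have h7 : (1 : ℝ) ≤ M := by exact_mod_cast hM1
      constructor <;> linarith
    · rw [sub_self, abs_zero]
      exact hρ'0.le
  choose t ht1 ht2 using fun s => newton hΛ1 hC1 hBd hz0 hg0 ha' hLi' hLb' hρ0
    (hρ4.trans (by norm_num)) hρ'0.le hρ'ρ h1 h2 (hw s)
  let zz : (↥O → Fin M) → (Fin (n + 1) ⊕ Y) → ℝ := fun s => mv a' (w s) (t s)
  let U : (↥O → Fin M) → (Fin (n + 1) ⊕ Y) → ℤ := fun s i =>
    if i ∈ O then bs s i else if i ∈ Finset.univ.image a' then round ((T : ℝ) * zz s i) else T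
  have hout : ∀ s i, i ∉ Finset.univ.image a' → zz s i = w s i := by
    intro s i hi
    exact mv_out (w s) (t s) fun j hj => hi (Finset.mem_image.2 ⟨j, Finset.mem_univ _, hj⟩)
  have hnf : ∀ i, i ∉ free n Y → z0 i = 1 := by
    intro i hi
    unfold free at hi
    rw [Finset.mem_filter] at hi
    push Not at hi
    have hi' := hi (Finset.mem_univ _)
    rw [hi', hz0d]
    exact hx0
  have hU : ∀ s i, |(U s i : ℝ) / T - zz s i| ≤ 1 / (2 * T) := by
    intro s i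
    by_cases h3 : i ∈ O
    · have e1 : U s i = bs s i := if_pos h3
      have h4 : i ∉ Finset.univ.image a' := by
        rw [hO, Finset.mem_sdiff] at h3
        exact h3.2
      have e2 : w s i = (bs s i : ℝ) / T := if_pos h3
      rw [e1, hout s i h4, e2, sub_self, abs_zero]
      positivity
    · by_cases h4 : i ∈ Finset.univ.image a'
      · have e1 : U s i = round ((T : ℝ) * zz s i) := by
          change (if i ∈ O then bs s i else _) = _
          rw [if_neg h3, if_pos h4]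
        rw [e1]
        have h5 := abs_sub_round ((T : ℝ) * zz s i)
        have e2 : (round ((T : ℝ) * zz s i) : ℝ) / T - zz s i =
            -(((T : ℝ) * zz s i - round ((T : ℝ) * zz s i)) / T) := by
          field_simp
          ring
        rw [e2, abs_neg, abs_div, abs_of_pos hT0, div_le_iff₀ hT0]
        have e3 : 1 / (2 * (T : ℝ)) * T = 1 / 2 := by field_simp
        rw [e3]
        exact h5
      · have e1 : U s i = T := by
          change (if i ∈ O then bs s i else _) = _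
          rw [if_neg h3, if_neg h4]
        have h5 : i ∉ free n Y := by
          intro h6
          apply h3
          rw [hO, Finset.mem_sdiff]
          exact ⟨h6, h4⟩
        have e2 : w s i = z0 i := if_neg h3
        rw [e1, hout s i h4, e2, hnf i h5]
        push_cast
        rw [div_self hT0.ne', sub_self, abs_zero]
        positivity
  have hzw : ∀ s i, |zz s i - w s i| ≤ ρ := by
    intro s i
    have h3 := mv_sub ha' (w s) (t s) 0 hρ0.le (fun j => by simpa using ht1 s j) i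
    have h4 : mv a' (w s) 0 i = w s i := by
      unfold mv
      simp
    rw [h4] at h3
    exact h3
  have hzb : ∀ s i, |zz s i| ≤ 3 / 2 := by
    intro s i
    have h3 := hzw s i
    have h5 := hw s i
    have h6 := hz0 i
    have e : zz s i = (zz s i - w s i) + ((w s i - z0 i) + z0 i) := by
      ring
    rw [e]
    have h7 := abs_add_le (w s i - z0 i) (z0 i)
    exact (abs_add_le _ _).trans (by linarith)
  have hT2 : 1 / (2 * (T : ℝ)) ≤ 1 / 2 := by
    apply one_div_le_one_div_of_le (by norm_num)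
    linarith
  have hT3 : 1 / (2 * (T : ℝ)) ≤ ρ' / 2 := by
    rw [div_le_div_iff₀ (by positivity) (by norm_num)]
    linarith
  have hUz : ∀ s i, |(U s i : ℝ) / T - z0 i| ≤ η₀ := by
    intro s i
    have h3 := hU s i
    have h4 := hzw s i
    have h5 := hw s i
    have e : (U s i : ℝ) / T - z0 i =
        ((U s i : ℝ) / T - zz s i) + ((zz s i - w s i) + (w s i - z0 i)) := by ring
    rw [e]
    have h6 := abs_add_le (zz s i - w s i) (w s i - z0 i)
    exact (abs_add_le _ _).trans (by linarith)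
  have hUb : ∀ s i, |(U s i : ℝ) / T| ≤ 2 := by
    intro s i
    have e : (U s i : ℝ) / T = ((U s i : ℝ) / T - zz s i) + zz s i := by ring
    rw [e]
    exact (abs_add_le _ _).trans (by linarith [hU s i, hzb s i])
  have hUv : ∀ s j, |g j (fun i => (U s i : ℝ) / T)| ≤ Λ / T := by
    intro s j
    have h3 := hBd.lip (fun i => (U s i : ℝ) / T) (zz s) (1 / (2 * T))
      (fun i => (hUb s i).trans (by norm_num)) (fun i => (hzb s i).trans (by norm_num))
      (by positivity) (hU s) j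
    have h4 : g j (zz s) = 0 := ht2 s j
    rw [h4, sub_zero] at h3
    refine h3.trans ?_
    have e : Λ * (1 / (2 * (T : ℝ))) = Λ / T / 2 := by field_simp
    rw [e]
    have : 0 ≤ Λ / T := by positivity
    linarith
  have hnO : ∀ i, i ∉ free n Y → ∀ s, U s i = T := by
    intro i hi s
    have h3 : i ∉ O := by
      intro h
      rw [hO, Finset.mem_sdiff] at h
      exact hi h.1
    have h4 : i ∉ Finset.univ.image a' := by
      intro h
      obtain ⟨j, -, rfl⟩ := Finset.mem_image.1 h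
      exact hi (ha'fr j)
    change (if i ∈ O then bs s i else _) = _
    rw [if_neg h3, if_neg h4]
  let F : (↥O → Fin M) → (Y → ℤ) × (Fin (n + 1) → ℤ) := fun s =>
    (fun i => U s (Sum.inr i), fun i => U s (Sum.inl i))
  have hFinj : Function.Injective F := by
    intro s s' hs
    have h3 : ∀ i, U s i = U s' i := by
      rintro (i | i)
      · exact congrFun (congrArg Prod.snd hs) i
      · exact congrFun (congrArg Prod.fst hs) i
    funext ⟨i, hi⟩
    have h4 := h3 i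
    have e1 : U s i = bs s i := if_pos hi
    have e2 : U s' i = bs s' i := if_pos hi
    have e3 : bs s i = ⌊(T : ℝ) * z0 i⌋ + ((s ⟨i, hi⟩ : ℕ) : ℤ) := dif_pos hi
    have e4 : bs s' i = ⌊(T : ℝ) * z0 i⌋ + ((s' ⟨i, hi⟩ : ℕ) : ℤ) := dif_pos hi
    rw [e1, e2, e3, e4] at h4
    have h5 : ((s ⟨i, hi⟩ : ℕ) : ℤ) = ((s' ⟨i, hi⟩ : ℕ) : ℤ) := by linarith
    exact Fin.ext (by exact_mod_cast h5)
  obtain ⟨S, hS⟩ : ∃ S : Set ((Y → ℤ) × (Fin (n + 1) → ℤ)), S =
    {u : (Y → ℤ) × (Fin (n + 1) → ℤ) | u.2 0 = T ∧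
      (∀ t, |(u.1 t : ℝ) / T - y t| ≤ η₀) ∧ (∀ j, |(u.2 j : ℝ) / T - x j| ≤ η₀) ∧
      ∀ j, |MvPolynomial.aeval (pt A c (fun t => (u.1 t : ℝ) / T) (fun j => (u.2 j : ℝ) / T))
        (Φ j)| ≤ Λ * H / T} := ⟨_, rfl⟩
  rw [← hS]
  have hFS : F '' Set.univ ⊆ S := by
    rintro _ ⟨s, -, rfl⟩
    rw [hS]
    refine ⟨?_, fun i => ?_, fun i => ?_, fun j => ?_⟩
    · refine hnO (Sum.inl 0) ?_ s
      unfold free
      rw [Finset.mem_filter]
      exact fun h => h.2 rfl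
    · have h3 := hUz s (Sum.inr i)
      rw [hz0d] at h3
      exact h3
    · have h3 := hUz s (Sum.inl i)
      rw [hz0d] at h3
      exact h3
    · have h3 := hgv j (fun i => (U s i : ℝ) / T)
      change |aeval (pt A c (fun i => (U s (Sum.inr i) : ℝ) / T)
        (fun i => (U s (Sum.inl i) : ℝ) / T)) (Φ j)| ≤ _
      rw [h3, abs_mul, abs_of_pos hH]
      calc H * |g j fun i => (U s i : ℝ) / T| ≤ H * (Λ / T) :=
            mul_le_mul_of_nonneg_left (hUv s j) hH.le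
        _ = Λ * H / T := by ring
  have hbox : ∀ (a : ℤ) (b : ℝ), |b| ≤ 1 → |(a : ℝ) / T - b| ≤ η₀ →
      a ∈ Set.Icc (-(2 * (T : ℤ))) (2 * T) := by
    intro a b hb hab
    have e : (a : ℝ) / T = ((a : ℝ) / T - b) + b := by ring
    have h3 : |(a : ℝ) / T| ≤ 2 := by
      rw [e]
      exact (abs_add_le _ _).trans (by linarith)
    rw [abs_div, abs_of_pos hT0, div_le_iff₀ hT0] at h3
    have h4 : |a| ≤ 2 * (T : ℤ) := by exact_mod_cast h3
    exact abs_le.1 h4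
  have hSfin : S.Finite := by
    refine ((Set.Finite.pi' fun _ : Y => Set.finite_Icc (-(2 * (T : ℤ))) (2 * T)).prod
      (Set.Finite.pi' fun _ : Fin (n + 1) => Set.finite_Icc (-(2 * (T : ℤ))) (2 * T))).subset ?_
    intro u hu
    rw [hS] at hu
    exact ⟨fun i => hbox _ _ (hy i) (hu.2.1 i), fun i => hbox _ _ (hx i) (hu.2.2.1 i)⟩
  have hcount : M ^ (n + Fintype.card Y - r) ≤ S.ncard := by
    have h3 := Set.ncard_le_ncard hFS hSfin
    rw [Set.ncard_image_of_injective _ hFinj, Set.ncard_univ, Nat.card_eq_fintype_card,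
      Fintype.card_fun, Fintype.card_fin, Fintype.card_coe, hOcard] at h3
    exact h3
  calc (ρ' / 2) ^ (n + Fintype.card Y - r) * (T : ℝ) ^ (n + Fintype.card Y - r) =
        (ρ' / 2 * T) ^ (n + Fintype.card Y - r) := by
        rw [mul_pow]
    _ ≤ (M : ℝ) ^ (n + Fintype.card Y - r) := pow_le_pow_left₀ (by positivity) hMge _
    _ ≤ _ := by exact_mod_cast hcount

end Pool.Agent.H731.GS
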