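import Pool.Agent.H731.GS.Stm

/-!
# Package SEL (helper227): a finite set of linear spaces with targets suffices for all systems
-/

set_option autoImplicit false

namespace Pool.Agent.H731.GS

open Pool.Agent.Y716.Q Pool.Agent.Y716.C
open Pool.Agent.T2H41.CX (NonD NonDR GoodM QJ)
open Pool.Agent.T2H39.CV (Cone IsCone subL Left Inside kerF)

/-- the finite set of the data at the primes -/
private abbrev px_sel_S (C Y : Type) (w M n : ℕ) : Type :=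
  Fin (w + 1) → C × (Y → Fin (M + 1)) × (Fin (n + 1) → Fin (M + 1))

/-- Chinese remainder theorem -/
private theorem px_sel_crt (S : Finset ℕ) (hS : ∀ p ∈ S, p.Prime) (m : ℕ) (u : ℕ → ℤ) :
    ∃ c : ℤ, ∀ p ∈ S, (p : ℤ) ^ m ∣ c - u p := by
  classical
  induction S using Finset.induction_on with
  | empty => exact ⟨0, fun p hp => absurd hp (Finset.notMem_empty p)⟩
  | insert q S hq ih =>
    obtain ⟨c, hc⟩ := ih fun p hp => hS p (Finset.mem_insert_of_mem hp)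
    have hqp := hS q (Finset.mem_insert_self q S)
    have hcop : IsCoprime (∏ p ∈ S, (p : ℤ) ^ m) ((q : ℤ) ^ m) := by
      refine IsCoprime.prod_left fun p hp => ?_
      refine IsCoprime.pow ?_
      rw [Nat.isCoprime_iff_coprime]
      refine (Nat.coprime_primes (hS p (Finset.mem_insert_of_mem hp)) hqp).2 ?_
      rintro rfl
      exact hq hp
    obtain ⟨a, b, hab⟩ := hcop
    refine ⟨c + a * (∏ p ∈ S, (p : ℤ) ^ m) * (u q - c), fun p hp => ?_⟩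
    rcases Finset.mem_insert.1 hp with h | hp
    · rw [h]
      refine ⟨b * (c - u q), ?_⟩
      linear_combination (-(c - u q)) * hab
    · have h1 := hc p hp
      have h2 : (p : ℤ) ^ m ∣ ∏ p ∈ S, (p : ℤ) ^ m :=
        Finset.dvd_prod_of_mem (fun p : ℕ => (p : ℤ) ^ m) hp
      have h3 : c + a * (∏ p ∈ S, (p : ℤ) ^ m) * (u q - c) - u p =
          (c - u p) + (∏ p ∈ S, (p : ℤ) ^ m) * (a * (u q - c)) := by ring
      rw [h3]
      exact dvd_add h1 (h2.mul_right _)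

private theorem px_sel_dvd (S : Finset ℕ) (hS : ∀ p ∈ S, p.Prime) (m p a : ℕ) (hp : p.Prime)
    (h : p ^ a ∣ ∏ q ∈ S, q ^ m) : (p ∈ S ∧ a ≤ m) ∨ a = 0 := by
  classical
  have hcop : ∀ T : Finset ℕ, T ⊆ S → p ∉ T → Nat.Coprime (p ^ a) (∏ q ∈ T, q ^ m) := by
    intro T hT hpT
    refine Nat.Coprime.prod_right fun q hq => ?_
    refine Nat.Coprime.pow _ _ ((Nat.coprime_primes hp (hS q (hT hq))).2 ?_)
    rintro rfl
    exact hpT hq
  by_cases hpS : p ∈ S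
  · left
    refine ⟨hpS, ?_⟩
    rw [← Finset.mul_prod_erase S (fun q => q ^ m) hpS] at h
    have h1 := (hcop (S.erase p) (Finset.erase_subset _ _) (Finset.notMem_erase p S)).dvd_of_dvd_mul_right h
    exact (Nat.pow_dvd_pow_iff_le_right hp.one_lt).1 h1
  · right
    have h1 := Nat.Coprime.eq_one_of_dvd (hcop S (Finset.Subset.refl _) hpS) h
    by_contra hcon
    exact absurd h1 (Nat.one_lt_pow hcon hp.one_lt).ne'

private theorem px_sel_mod (q : ℕ) (hq : 0 < q) (a : ℤ) :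
    ((a % (q : ℤ)).toNat : ℤ) = a % q ∧ (a % (q : ℤ)).toNat < q ∧
      (q : ℤ) ∣ ((a % (q : ℤ)).toNat : ℤ) - a := by
  have hq0 : (0 : ℤ) < q := by exact_mod_cast hq
  have h1 : ((a % (q : ℤ)).toNat : ℤ) = a % q := Int.toNat_of_nonneg (Int.emod_nonneg _ hq0.ne')
  refine ⟨h1, ?_, ?_⟩
  · have h2 := Int.emod_lt_of_pos a hq0
    rw [← h1] at h2
    exact_mod_cast h2
  · rw [h1]
    refine ⟨-(a / (q : ℤ)), ?_⟩
    have := Int.emod_add_mul_ediv a (q : ℤ)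
    linarith

theorem pSEL (h1 : S_LNK) (h2 : S_SELP) (h3 : S_SELR) : S_SEL := by
  classical
  intro C ι Y _ _ _ n r e V A hV γ δ hγ hδ
  obtain ⟨α, ρ, θ, hα, hρ, hθ, hθ1, hR⟩ := h3 C ι Y n r e A hV.chart γ δ hγ hδ
  refine ⟨α, θ, hα, hθ, hθ1, fun D hD m₀ w J hDw hJ => ?_⟩
  obtain ⟨M, hM⟩ : ∃ M : ℕ, M = ∑ p ∈ Finset.range (w + 1), p ^ (2 * J p + 1) := ⟨_, rfl⟩
  have hMp : ∀ p, p ≤ w → p ^ (2 * J p + 1) ≤ M := by
    intro p hp
    rw [hM]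
    exact Finset.single_le_sum (f := fun p => p ^ (2 * J p + 1)) (fun _ _ => Nat.zero_le _)
      (Finset.mem_range.2 (by omega))
  -- precision
  obtain ⟨ε, hε0, hερ, hεp⟩ : ∃ ε : ℝ, 0 < ε ∧ ε ≤ ρ ∧
      ∀ p : ℕ, p.Prime → p ≤ w → ε ≤ ((p : ℝ) ^ (2 * J p + 1))⁻¹ := by
    refine ⟨min ρ ((M : ℝ) + 1)⁻¹, lt_min hρ (by positivity), min_le_left _ _,
      fun p hp hpw => (min_le_right _ _).trans ?_⟩
    have hp0 : (0 : ℝ) < p := by exact_mod_cast hp.pos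
    refine inv_anti₀ (by positivity) ?_
    have h4 : ((p ^ (2 * J p + 1) : ℕ) : ℝ) ≤ M := by exact_mod_cast hMp p hpw
    push_cast at h4
    linarith
  -- the data
  obtain ⟨cS, hcS⟩ : ∃ cS : px_sel_S C Y w M n → ℕ → C, ∀ s p, cS s p =
      if p ≤ D.m then D.cP p else (s (Fin.ofNat (w + 1) p)).1 := ⟨_, fun _ _ => rfl⟩
  obtain ⟨yS, hyS⟩ : ∃ yS : px_sel_S C Y w M n → ℕ → Y → ℤ, ∀ s p, yS s p =
      if p ≤ D.m then D.yP p else fun t => (((s (Fin.ofNat (w + 1) p)).2.1 t : ℕ) : ℤ) :=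
    ⟨_, fun _ _ => rfl⟩
  obtain ⟨xS, hxS⟩ : ∃ xS : px_sel_S C Y w M n → ℕ → Fin (n + 1) → ℤ, ∀ s p, xS s p =
      if p ≤ D.m then D.xP p else
        fun j => if j = 0 then 1 else (((s (Fin.ofNat (w + 1) p)).2.2 j : ℕ) : ℤ) :=
    ⟨_, fun _ _ => rfl⟩
  have hx0 : ∀ s p, xS s p 0 = 1 := by
    intro s p
    rw [hxS]
    split_ifs
    · exact hD.1 p
    · simp
  -- the modulus
  obtain ⟨P, hP⟩ : ∃ P : Finset ℕ, ∀ p, p ∈ P ↔ p.Prime ∧ p ≤ D.m := by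
    refine ⟨(Finset.range (D.m + 1)).filter Nat.Prime, fun p => ?_⟩
    rw [Finset.mem_filter, Finset.mem_range]
    constructor
    · rintro ⟨a, b⟩
      exact ⟨b, by omega⟩
    · rintro ⟨a, b⟩
      exact ⟨by omega, a⟩
  have hPp : ∀ p ∈ P, p.Prime := fun p hp => ((hP p).1 hp).1
  obtain ⟨N, hN⟩ : ∃ N : ℕ, N = ∏ q ∈ P, q ^ m₀ := ⟨_, rfl⟩
  have hN1 : 1 ≤ N := by
    rw [hN]
    exact Finset.prod_pos fun q hq => pow_pos (hPp q hq).pos _
  obtain ⟨mm, hmm⟩ : ∃ mm : ℕ → ℕ, ∀ p, mm p = if p ≤ D.m then m₀ else 0 := ⟨_, fun _ => rfl⟩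
  have hNd : ∀ p : ℕ, p.Prime → ∀ a, p ^ a ∣ N → a ≤ mm p := by
    intro p hp a ha
    rw [hN] at ha
    rcases px_sel_dvd P hPp m₀ p a hp ha with ⟨h4, h5⟩ | h4
    · rw [hmm, if_pos ((hP p).1 h4).2]
      exact h5
    · omega
  have hNm : ∀ p : ℕ, p.Prime → p ≤ D.m → (p : ℤ) ^ m₀ ∣ (N : ℤ) := by
    intro p hp hpm
    have h4 : p ^ m₀ ∣ N := by
      rw [hN]
      exact Finset.dvd_prod_of_mem (fun q => q ^ m₀) ((hP p).2 ⟨hp, hpm⟩)
    have h5 : ((p ^ m₀ : ℕ) : ℤ) ∣ (N : ℤ) := Int.natCast_dvd_natCast.2 h4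
    push_cast at h5
    exact h5
  -- the linear spaces
  have key : ∀ s : px_sel_S C Y w M n, ∃ (L : Matrix ι (Fin (n + 1)) ℤ) (c' : Fin (n + 1) → ℤ)
      (δ₁ : ℝ), 0 < δ₁ ∧ Left L ∧ Inside V L ∧
      (∀ x : Fin (n + 1) → ℤ, (∀ i, (N : ℤ) ∣ x i - c' i) → ∀ p : ℕ, p.Prime → p ≤ D.m →
        ∃ u : ℤ, ¬ (p : ℤ) ∣ u ∧ ∀ i, (p : ℤ) ^ m₀ ∣
          (∑ j, L i j * x j) - u * pt A (D.cP p) (D.yP p) (D.xP p) i) ∧
      (∀ p : ℕ, p.Prime → p ≤ w → ∀ F₁ F : Fin r → MvPolynomial ι ℤ,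
        RobP A p (J p) F₁ (cS s p) (yS s p) (xS s p) → (∀ j, (F j).IsHomogeneous (e j + 2)) →
        CongS (p ^ (2 * J p + 1)) F₁ F → LocPT p N c' (subS L F)) ∧
      ∀ δ' : ℝ, 0 < δ' → δ' ≤ δ₁ → ∃ Z : Finset (Fin (n + 1) → ℝ),
        (∀ ζ ∈ Z, Unit1 ζ ∧ ∀ (v : Fin (n + 1) → ℤ) (P : ℝ), P ≠ 0 →
          (∀ i, |(v i : ℝ) - P * ζ i| ≤ δ' * |P|) →
          ∃ s : ℝ, s ≠ 0 ∧ ∀ i,
            |((∑ j, L i j * v j : ℤ) : ℝ) - s * pt A D.cR D.y D.x i| ≤ δ * |s|) ∧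
        ∀ H : ℝ, 1 ≤ H → ∀ F₁ ∈ sysZ ι e H, RobR A α γ H F₁ D.cR D.y D.x →
          ∀ F : Fin r → MvPolynomial ι ℤ, (∀ j, (F j).IsHomogeneous (e j + 2)) →
          NearS (θ * H) F₁ F → ∃ ζ ∈ Z, LocRT ζ (δ' / 16) (subS L F) := by
    intro s
    obtain ⟨B, hBV, hBR, hBP⟩ := hV.dense w (cS s)
      (fun p _ t => ((yS s p t : ℤ) : ℚ_[p])) D.cR D.y ε hε0
    obtain ⟨L, R, hin, hfac⟩ := h1 C ι Y n V A hV B hBV
    have hloc : ∀ p : ℕ, ∃ (c' : Fin (n + 1) → ℤ) (u : ℤ), p.Prime → p ≤ w → ¬ (p : ℤ) ∣ u ∧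
        (∀ c'' : Fin (n + 1) → ℤ, (∀ j, (p : ℤ) ^ mm p ∣ c'' j - c' j) →
          ∀ i, (p : ℤ) ^ mm p ∣ (∑ j, L i j * c'' j) -
            u * pt A (cS s p) (yS s p) (xS s p) i) ∧
        ∀ c'' : Fin (n + 1) → ℤ, (∀ j, (p : ℤ) ^ mm p ∣ c'' j - c' j) →
          ∀ F₁ F : Fin r → MvPolynomial ι ℤ,
          RobP A p (J p) F₁ (cS s p) (yS s p) (xS s p) → (∀ j, (F j).IsHomogeneous (e j + 2)) →
          CongS (p ^ (2 * J p + 1)) F₁ F → LocPT p N c'' (subS L F) := by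
      intro p
      by_cases hpw : p.Prime ∧ p ≤ w
      · obtain ⟨hp, hpw⟩ := hpw
        haveI : Fact p.Prime := ⟨hp⟩
        have hmJ : mm p ≤ J p := by
          rw [hmm]
          split_ifs
          · exact hJ p
          · exact Nat.zero_le _
        obtain ⟨c', u, h4, h5, h6⟩ := h2 C ι Y n r e A hV.chart p (J p) (mm p) hmJ (cS s p)
          (yS s p) (xS s p) (hx0 s p) B L R hfac (fun i j => by
            rw [← frm_cast]
            exact (hBP p hpw i j).le.trans (hεp p hp hpw))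
        exact ⟨c', u, fun _ _ => ⟨h4, h5, fun c'' h7 F₁ F h8 h9 h10 =>
          h6 N (hNd p hp) c'' h7 F₁ F h8 h9 h10⟩⟩
      · exact ⟨0, 0, fun h4 h5 => absurd ⟨h4, h5⟩ hpw⟩
    choose cc uu hcu using hloc
    choose c0 hc0 using fun j : Fin (n + 1) => px_sel_crt P hPp m₀ fun p => cc p j
    have hc0' : ∀ p : ℕ, p.Prime → ∀ j, (p : ℤ) ^ mm p ∣ c0 j - cc p j := by
      intro p hp j
      rw [hmm]
      split_ifs with h4
      · exact hc0 j p ((hP p).2 ⟨hp, h4⟩)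
      · rw [pow_zero]
        exact one_dvd _
    obtain ⟨δ₁, hδ₁, hZ⟩ := hR D.cR D.y D.x hD.2.1 hD.2.2.1 hD.2.2.2 B L R hfac
      (fun i j => (hBR i j).le.trans hερ)
    refine ⟨L, c0, δ₁, hδ₁, ⟨R, hfac.1⟩, hin, ?_, ?_, hZ⟩
    · intro x hx p hp hpm
      obtain ⟨h4, h5, -⟩ := hcu p hp (hpm.trans hDw)
      refine ⟨uu p, h4, ?_⟩
      have h6 := h5 x (fun j => by
        have e1 : x j - cc p j = (x j - c0 j) + (c0 j - cc p j) := by ring
        rw [e1]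
        refine dvd_add ?_ (hc0' p hp j)
        rw [hmm, if_pos hpm]
        exact (hNm p hp hpm).trans (hx j))
      rw [hmm, if_pos hpm, hcS, if_pos hpm, hyS, if_pos hpm, hxS, if_pos hpm] at h6
      exact h6
    · intro p hp hpw F₁ F h4 h5 h6
      exact (hcu p hp hpw).2.2 c0 (hc0' p hp) F₁ F h4 h5 h6
  choose L c' δ₁ hδ₁ hLeft hIn hAdm hLoc hZ using key
  haveI : Nonempty (px_sel_S C Y w M n) := ⟨fun _ => (D.cR, fun _ => 0, fun _ => 0)⟩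
  obtain ⟨s₀, hs₀⟩ := Finite.exists_min δ₁
  obtain ⟨δ', hδ'⟩ : ∃ δ' : ℝ, δ' = min (1 / 2) (δ₁ s₀) := ⟨_, rfl⟩
  have hδ'0 : 0 < δ' := by
    rw [hδ']
    exact lt_min (by norm_num) (hδ₁ s₀)
  have hδ'2 : δ' ≤ 1 / 2 := by
    rw [hδ']
    exact min_le_left _ _
  have hδ'le : ∀ s, δ' ≤ δ₁ s := by
    intro s
    rw [hδ']
    exact (min_le_right _ _).trans (hs₀ s)
  choose Z hZ1 hZ2 using fun s => hZ s δ' hδ'0 (hδ'le s)
  refine ⟨Finset.univ.biUnion fun s => (Z s).image fun ζ => (L s, c' s, ζ), N, δ', hN1, ?_, hδ'0,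
    hδ'2, ?_, ?_⟩
  · intro p hp hpN
    have h4 := hNd p hp 1 (by rwa [pow_one])
    rw [hmm] at h4
    split_ifs at h4 with h5
    · exact h5.trans hDw
    · omega
  · intro t ht
    obtain ⟨s, -, hs⟩ := Finset.mem_biUnion.1 ht
    obtain ⟨ζ, hζ, rfl⟩ := Finset.mem_image.1 hs
    obtain ⟨h4, h5⟩ := hZ1 s ζ hζ
    refine ⟨hLeft s, hIn s, h4, fun x hx hxP => ⟨?_, ?_⟩⟩
    · exact fun p hp hpm => hAdm s x hx p hp hpm
    · obtain ⟨P', hP', h6⟩ := hxP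
      exact h5 x P' hP' h6
  · intro H hH F₁ hF₁ hMP hrob hMR
    have hex : ∀ a : Fin (w + 1), ∃ q : C × (Y → Fin (M + 1)) × (Fin (n + 1) → Fin (M + 1)),
        (a : ℕ).Prime → D.m < (a : ℕ) → RobP A (a : ℕ) (J (a : ℕ)) F₁ q.1
          (fun t => ((q.2.1 t : ℕ) : ℤ)) (fun j => if j = 0 then 1 else ((q.2.2 j : ℕ) : ℤ)) := by
      intro a
      by_cases ha : (a : ℕ).Prime ∧ D.m < (a : ℕ)
      swap
      · exact ⟨(D.cR, fun _ => 0, fun _ => 0), fun h4 h5 => absurd ⟨h4, h5⟩ ha⟩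
      obtain ⟨hp, hpm⟩ := ha
      have haw : (a : ℕ) ≤ w := by omega
      obtain ⟨c, y, x, hr⟩ := hrob (a : ℕ) hp hpm haw
      obtain ⟨q, hq⟩ : ∃ q : ℕ, q = (a : ℕ) ^ (2 * J (a : ℕ) + 1) := ⟨_, rfl⟩
      have hq0 : 0 < q := by
        rw [hq]
        exact pow_pos hp.pos _
      have hqM : q ≤ M := by
        rw [hq]
        exact hMp (a : ℕ) haw
      have hqc : (((a : ℕ) : ℤ)) ^ (2 * J (a : ℕ) + 1) = (q : ℤ) := by
        rw [hq]
        push_cast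
        rfl
      have hlt : ∀ z : ℤ, (z % (q : ℤ)).toNat < M + 1 := by
        intro z
        have := (px_sel_mod q hq0 z).2.1
        omega
      refine ⟨(c, fun t => ⟨(y t % (q : ℤ)).toNat, hlt _⟩, fun j => ⟨(x j % (q : ℤ)).toNat, hlt _⟩),
        fun _ _ => ?_⟩
      refine robP_congr (fun j b => ?_) ?_ ?_ ?_ hr
      · rw [sub_self]
        exact dvd_zero _
      · intro t
        rw [hqc]
        exact (px_sel_mod q hq0 (y t)).2.2
      · intro j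
        rw [hqc]
        by_cases hj : j = 0
        · subst hj
          simp only [if_true]
          rw [hr.1, sub_self]
          exact dvd_zero _
        · simp only [if_neg hj]
          exact (px_sel_mod q hq0 (x j)).2.2
      · simp
    choose q hq using hex
    have hrobS : ∀ p : ℕ, p.Prime → p ≤ w → RobP A p (J p) F₁ (cS q p) (yS q p) (xS q p) := by
      intro p hp hpw
      by_cases hpm : p ≤ D.m
      · rw [hcS, hyS, hxS, if_pos hpm, if_pos hpm, if_pos hpm]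
        exact hMP p hp hpm
      · rw [hcS, hyS, hxS, if_neg hpm, if_neg hpm, if_neg hpm]
        have e1 : Fin.ofNat (w + 1) p = (⟨p, by omega⟩ : Fin (w + 1)) := by
          apply Fin.ext
          simp only [Fin.ofNat]
          exact Nat.mod_eq_of_lt (by omega)
        rw [e1]
        exact hq ⟨p, by omega⟩ hp (by simpa using hpm)
    refine ⟨L q, fun F hF hcong hnear => ?_⟩
    obtain ⟨ζ, hζ, hζR⟩ := hZ2 q H hH F₁ hF₁ hMR F hF hnear
    refine ⟨(L q, c' q, ζ), Finset.mem_biUnion.2 ⟨q, Finset.mem_univ _,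
      Finset.mem_image.2 ⟨ζ, hζ, rfl⟩⟩, rfl, fun p hp hpw => ?_, hζR⟩
    refine hLoc q p hp hpw F₁ F (hrobS p hp hpw) hF fun j b => ?_
    refine dvd_trans ?_ (hcong j b)
    refine Int.natCast_dvd_natCast.2 ?_
    unfold QJ
    exact Finset.dvd_prod_of_mem (fun p => p ^ (2 * J p + 1))
      (by rw [Finset.mem_filter, Finset.mem_range]; exact ⟨by omega, hp⟩)

end Pool.Agent.H731.GS
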