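import Pool.Agent.H731.GS.Stm

/-!
# Package SELP: the link between a `p`-adic linear space and a rational one
-/

set_option autoImplicit false

namespace Pool.Agent.H731.GS

open Pool.Agent.Y716.Q Pool.Agent.Y716.C
open Pool.Agent.T2H41.CX (NonD S_HENG)
open Pool.Agent.T2H39.CV (subL aeval_subL eval_subL)

/-- the matrix `L (R frm)` modulo a power of `p` -/
private theorem px_selp_mat {C ι Y : Type} [Fintype ι] {n : ℕ} (A : Fra C ι Y n) (p : ℕ)
    [Fact p.Prime] (E : ℕ) (c : C) (y : Y → ℤ) (B : ι → Fin (n + 1) → ℚ)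
    (L : Matrix ι (Fin (n + 1)) ℤ) (R : Matrix (Fin (n + 1)) ι ℤ) (h : Fac B L R)
    (hB : ∀ i j, ‖(B i j : ℚ_[p]) - ((frm A c y i j : ℤ) : ℚ_[p])‖ ≤ ((p : ℝ) ^ E)⁻¹)
    (i : ι) (j : Fin (n + 1)) :
    (p : ℤ) ^ E ∣ (∑ j', L i j' * ∑ i', R j' i' * frm A c y i' j) - frm A c y i j := by
  set ρ : ℝ := ((p : ℝ) ^ E)⁻¹ with hρ
  have hρ0 : 0 ≤ ρ := by positivity
  have hsum : ∀ {τ : Type} [Fintype τ] (f : τ → ℚ_[p]), (∀ t, ‖f t‖ ≤ ρ) → ‖∑ t, f t‖ ≤ ρ := by
    intro τ _ f hf
    exact IsUltrametricDist.norm_sum_le_of_forall_le_of_nonneg hρ0 fun t _ => hf t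
  have hint : ∀ (a : ℤ) (b : ℚ_[p]), ‖b‖ ≤ ρ → ‖(a : ℚ_[p]) * b‖ ≤ ρ := by
    intro a b hb
    rw [norm_mul]
    calc ‖(a : ℚ_[p])‖ * ‖b‖ ≤ 1 * ρ :=
          mul_le_mul (Padic.norm_int_le_one a) hb (norm_nonneg _) zero_le_one
      _ = ρ := one_mul _
  have e1 : (B i j : ℚ_[p]) =
      ∑ j', (L i j' : ℚ_[p]) * ∑ i', (R j' i' : ℚ_[p]) * (B i' j : ℚ_[p]) := by
    have h2 := congrArg (fun q : ℚ => (q : ℚ_[p])) (h.2 i j)
    simp only [Rat.cast_sum, Rat.cast_mul, Rat.cast_intCast] at h2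
    exact h2
  have h2 : (((∑ j', L i j' * ∑ i', R j' i' * frm A c y i' j) - frm A c y i j : ℤ) : ℚ_[p]) =
      (∑ j', (L i j' : ℚ_[p]) * ∑ i', (R j' i' : ℚ_[p]) *
        (((frm A c y i' j : ℤ) : ℚ_[p]) - (B i' j : ℚ_[p]))) +
      ((B i j : ℚ_[p]) - ((frm A c y i j : ℤ) : ℚ_[p])) := by
    push_cast
    simp only [mul_sub, Finset.sum_sub_distrib]
    rw [← e1]
    ring
  rw [← Padic.norm_int_le_pow_iff_dvd, zpow_neg, zpow_natCast, h2]
  refine (Padic.nonarchimedean _ _).trans (max_le (hsum _ fun j' => hint _ _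
    (hsum _ fun i' => hint _ _ ?_)) (hB i j))
  rw [norm_sub_rev]
  exact hB i' j

private theorem px_selp_hom {ι : Type} {k d : ℕ} (L : Matrix ι (Fin k) ℤ) (F : MvPolynomial ι ℤ)
    (hF : F.IsHomogeneous d) (v : ℤ) (z : Fin k → ℤ) :
    MvPolynomial.eval (fun i => v * z i) (subL L F) =
      v ^ d * MvPolynomial.eval z (subL L F) := by
  rw [eval_subL, eval_subL]
  have h1 : (fun i => ∑ j, L i j * (v * z j)) = fun i => v * ∑ j, L i j * z j := by
    funext i
    rw [Finset.mul_sum]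
    exact Finset.sum_congr rfl fun j _ => by ring
  rw [h1, MvPolynomial.eval_eq, MvPolynomial.eval_eq, Finset.mul_sum]
  refine Finset.sum_congr rfl fun a ha => ?_
  have h2 : ∑ i ∈ a.support, a i = d := hF.degree_eq_sum_deg_support ha |>.symm
  rw [Finset.prod_congr rfl fun i _ => mul_pow v (∑ j, L i j * z j) (a i), Finset.prod_mul_distrib,
    Finset.prod_pow_eq_pow_sum, h2]
  ring

/-- the derivatives of the restriction -/
private theorem px_selp_pd {ι : Type} [Fintype ι] {k : ℕ} (L : Matrix ι (Fin k) ℤ)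
    (F : MvPolynomial ι ℤ) (z : Fin k → ℤ) (i' : Fin k) :
    MvPolynomial.eval z (MvPolynomial.pderiv i' (subL L F)) =
      ∑ i, L i i' * MvPolynomial.aeval (fun i => ∑ j, L i j * z j) (MvPolynomial.pderiv i F) := by
  classical
  have h1 : MvPolynomial.pderiv i' (subL L F) = ∑ i, MvPolynomial.C (L i i') *
      subL L (MvPolynomial.pderiv i F) := by
    unfold subL
    rw [pderiv_bind]
    refine Finset.sum_congr rfl fun i _ => ?_
    congr 1
    rw [map_sum, Finset.sum_eq_single i']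
    · rw [MvPolynomial.pderiv_C_mul, MvPolynomial.pderiv_X_self, mul_one]
    · intro j _ hj
      rw [MvPolynomial.pderiv_C_mul, MvPolynomial.pderiv_X_of_ne hj, mul_zero]
    · intro h
      exact absurd (Finset.mem_univ _) h
  rw [h1, map_sum]
  refine Finset.sum_congr rfl fun i _ => ?_
  rw [map_mul, MvPolynomial.eval_C, eval_subL, aeval_int]

private theorem px_selp_inv {p : ℕ} (hp : p.Prime) {a : ℤ} (ha : ¬ (p : ℤ) ∣ a) (k : ℕ) :
    ∃ u : ℤ, (p : ℤ) ^ k ∣ u * a - 1 := by
  have h1 : IsCoprime (p : ℤ) a := (Nat.prime_iff_prime_int.1 hp).coprime_iff_not_dvd.2 ha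
  obtain ⟨s, t, hst⟩ := h1.pow_left (m := k)
  exact ⟨t, ⟨-s, by linear_combination hst⟩⟩

theorem pSELP (h1 : S_HENG) : S_SELP := by
  classical
  intro C ι Y _ _ _ n r e A hA p hp J m₀ hmJ c y x hx0 B L R hF hB
  have hpp : p.Prime := hp.out
  have hpp' : Prime (p : ℤ) := Nat.prime_iff_prime_int.1 hpp
  -- the matrix and the point
  obtain ⟨Mt, hM⟩ : ∃ Mt : Fin (n + 1) → Fin (n + 1) → ℤ, ∀ i j,
      (p : ℤ) ^ (2 * J + 1) ∣ (∑ j', L i j' * Mt j' j) - frm A c y i j :=
    ⟨fun j' j => ∑ i', R j' i' * frm A c y i' j, px_selp_mat A p (2 * J + 1) c y B L R hF hB⟩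
  obtain ⟨x₁, hx₁⟩ : ∃ x₁ : Fin (n + 1) → ℤ, ∀ j', x₁ j' = ∑ j, Mt j' j * x j := ⟨_, fun _ => rfl⟩
  have hLx : ∀ i, (p : ℤ) ^ (2 * J + 1) ∣ (∑ j', L i j' * x₁ j') - pt A c y x i := by
    intro i
    have h2 : (∑ j', L i j' * x₁ j') - pt A c y x i =
        ∑ j, ((∑ j', L i j' * Mt j' j) - frm A c y i j) * x j := by
      have h3 : ∑ j', L i j' * x₁ j' = ∑ j, (∑ j', L i j' * Mt j' j) * x j := by
        simp only [hx₁, Finset.mul_sum, Finset.sum_mul]
        rw [Finset.sum_comm]
        exact Finset.sum_congr rfl fun _ _ => Finset.sum_congr rfl fun _ _ => by ring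
      rw [h3]
      unfold pt
      rw [← Finset.sum_sub_distrib]
      exact Finset.sum_congr rfl fun j _ => by ring
    rw [h2]
    exact Finset.dvd_sum fun j _ => (hM i j).mul_right _
  -- a coordinate prime to `p`
  obtain ⟨i₀, hi₀, hi₀'⟩ := hA.one c
  have hpt : pt A c y x i₀ = 1 := by
    unfold pt frm
    rw [Fin.sum_univ_succ, hi₀, map_one, hx0, one_mul, Finset.sum_eq_zero, add_zero]
    intro j _
    rw [hi₀' j, map_zero, zero_mul]
  obtain ⟨a, ha⟩ : ∃ a, ¬ (p : ℤ) ∣ x₁ a := by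
    by_contra hno
    push Not at hno
    have h2 : (p : ℤ) ∣ ∑ j', L i₀ j' * x₁ j' := Finset.dvd_sum fun j _ => (hno j).mul_left _
    have h3 : (p : ℤ) ∣ (∑ j', L i₀ j' * x₁ j') - pt A c y x i₀ :=
      (dvd_pow_self _ (by omega)).trans (hLx i₀)
    rw [hpt] at h3
    have h4 := dvd_sub h2 h3
    rw [sub_sub_cancel] at h4
    exact hpp'.not_dvd_one h4
  obtain ⟨u, hu⟩ := px_selp_inv hpp ha (J + 1)
  have hu1 : ¬ (p : ℤ) ∣ u := by
    intro h2
    have h3 : (p : ℤ) ∣ u * x₁ a - 1 := (dvd_pow_self _ (by omega)).trans hu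
    have h4 := dvd_sub (h2.mul_right (x₁ a)) h3
    rw [sub_sub_cancel] at h4
    exact hpp'.not_dvd_one h4
  refine ⟨fun j => u * x₁ j, u, hu1, ?_, ?_⟩
  · intro c'' hc'' i
    have h2 : (∑ j, L i j * c'' j) - u * pt A c y x i =
        (∑ j, L i j * (c'' j - u * x₁ j)) + u * ((∑ j', L i j' * x₁ j') - pt A c y x i) := by
      have h3 : ∑ j, L i j * (c'' j - u * x₁ j) =
          (∑ j, L i j * c'' j) - u * ∑ j', L i j' * x₁ j' := by
        rw [Finset.mul_sum, ← Finset.sum_sub_distrib]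
        exact Finset.sum_congr rfl fun j _ => by ring
      rw [h3]
      ring
    rw [h2]
    refine dvd_add (Finset.dvd_sum fun j _ => (hc'' j).mul_left _) ?_
    exact ((pow_dvd_pow _ (by omega)).trans (hLx i)).mul_left _
  · intro N hN c'' hc'' F₁ F hRob hhom hcong E'
    obtain ⟨-, hR1, hR2⟩ := hRob
    have hLx' : ∀ i, ((p ^ (2 * J + 1) : ℕ) : ℤ) ∣ (∑ j', L i j' * x₁ j') - pt A c y x i := by
      intro i
      push_cast
      exact hLx i
    -- the hypotheses of Hensel's lemma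
    have hz : ∀ j, (p : ℤ) ^ (2 * J + 1) ∣ MvPolynomial.eval x₁ (subS L F j) := by
      intro j
      show _ ∣ MvPolynomial.eval x₁ (subL L (F j))
      rw [eval_subL, ← aeval_int]
      have h2 := aeval_congr (p ^ (2 * J + 1)) hLx' (F j)
      have h3 := aeval_congS (p ^ (2 * J + 1)) (hcong j) (pt A c y x)
      push_cast at h2 h3
      have h4 := dvd_add (dvd_add h2 h3) (hR1 j)
      rwa [sub_add_sub_cancel, sub_add_cancel] at h4
    have hnd : NonD p J (fun j i => MvPolynomial.eval x₁ (MvPolynomial.pderiv i (subS L F j)))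
        Finset.univ := by
      have h2 : NonD p J (fun (j : Fin r) i'' => ∑ i', Mt i' i'' *
          MvPolynomial.eval x₁ (MvPolynomial.pderiv i' (subS L F j))) Finset.univ := by
        refine nonD_congr (M := dX A F₁ c y x) (fun j i'' _ => ?_) hR2
        refine (pow_dvd_pow _ (by omega : J + 1 ≤ 2 * J + 1)).trans ?_
        have h3 : (∑ i', Mt i' i'' *
            MvPolynomial.eval x₁ (MvPolynomial.pderiv i' (subS L F j))) - dX A F₁ c y x j i'' =
            ∑ i, (((∑ j', L i j' * Mt j' i'') - frm A c y i i'') *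
              MvPolynomial.aeval (fun i => ∑ j, L i j * x₁ j) (MvPolynomial.pderiv i (F j)) +
              frm A c y i i'' *
              (MvPolynomial.aeval (fun i => ∑ j, L i j * x₁ j) (MvPolynomial.pderiv i (F j)) -
                MvPolynomial.aeval (pt A c y x) (MvPolynomial.pderiv i (F₁ j)))) := by
          have h4 : ∑ i', Mt i' i'' *
              MvPolynomial.eval x₁ (MvPolynomial.pderiv i' (subS L F j)) =
              ∑ i, (∑ j', L i j' * Mt j' i'') *
              MvPolynomial.aeval (fun i => ∑ j, L i j * x₁ j) (MvPolynomial.pderiv i (F j)) := by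
            have h5 : ∀ i', MvPolynomial.eval x₁ (MvPolynomial.pderiv i' (subS L F j)) =
                ∑ i, L i i' * MvPolynomial.aeval (fun i => ∑ j, L i j * x₁ j)
                  (MvPolynomial.pderiv i (F j)) := fun i' => px_selp_pd L (F j) x₁ i'
            simp only [h5, Finset.mul_sum, Finset.sum_mul]
            rw [Finset.sum_comm]
            exact Finset.sum_congr rfl fun _ _ => Finset.sum_congr rfl fun _ _ => by ring
          rw [h4]
          unfold dX
          rw [← Finset.sum_sub_distrib]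
          exact Finset.sum_congr rfl fun i _ => by ring
        rw [h3]
        refine Finset.dvd_sum fun i _ => dvd_add ((hM i i'').mul_right _) (Dvd.dvd.mul_left ?_ _)
        have h6 := aeval_congr (p ^ (2 * J + 1)) hLx' (MvPolynomial.pderiv i (F j))
        have h7 := aeval_congS (p ^ (2 * J + 1)) (pderiv_congS (p ^ (2 * J + 1)) (hcong j) i)
          (pt A c y x)
        push_cast at h6 h7
        have h8 := dvd_add h6 h7
        rwa [sub_add_sub_cancel] at h8
      intro j₀ l hl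
      obtain ⟨i'', -, hi''⟩ := h2 j₀ l hl
      by_contra hno
      push Not at hno
      apply hi''
      have h3 : ∑ j, l j * ∑ i', Mt i' i'' *
          MvPolynomial.eval x₁ (MvPolynomial.pderiv i' (subS L F j)) =
          ∑ i', Mt i' i'' * ∑ j, l j *
          MvPolynomial.eval x₁ (MvPolynomial.pderiv i' (subS L F j)) := by
        simp only [Finset.mul_sum]
        rw [Finset.sum_comm]
        exact Finset.sum_congr rfl fun _ _ => Finset.sum_congr rfl fun _ _ => by ring
      rw [h3]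
      exact Finset.dvd_sum fun i' _ => (hno i' (Finset.mem_univ _)).mul_left _
    obtain ⟨z', -, hz'1, hz'2⟩ := h1 r (Fin (n + 1)) (subS L F) p J hpp Finset.univ x₁ hz hnd
      (E' + (J + 1))
    have hza : ¬ (p : ℤ) ∣ z' a := by
      intro h2
      have h3 : (p : ℤ) ∣ z' a - x₁ a := (dvd_pow_self _ (by omega)).trans (hz'1 a)
      have h4 := dvd_sub h2 h3
      rw [sub_sub_cancel] at h4
      exact ha h4
    obtain ⟨v, hv⟩ := px_selp_inv hpp hza (E' + (J + 1))
    obtain ⟨X, hXa, hX⟩ : ∃ X : Fin (n + 1) → ℤ, X a = 1 ∧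
        ∀ j, (p : ℤ) ^ (E' + (J + 1)) ∣ X j - v * z' j := by
      refine ⟨Function.update (fun j => v * z' j) a 1, Function.update_self _ _ _, fun j => ?_⟩
      by_cases hj : j = a
      · subst hj
        rw [Function.update_self, ← dvd_neg, neg_sub]
        exact hv
      · rw [Function.update_of_ne hj, sub_self]
        exact dvd_zero _
    refine ⟨a, X, hXa, ?_, ?_⟩
    · intro j
      have h2 := aeval_congr (p ^ (E' + (J + 1))) (z := fun j => v * z' j) (z' := X)
        (fun j => by push_cast; exact hX j) (subS L F j)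
      rw [aeval_int, aeval_int] at h2
      push_cast at h2
      have h3 : MvPolynomial.eval (fun j => v * z' j) (subS L F j) =
          v ^ (e j + 2) * MvPolynomial.eval z' (subS L F j) := px_selp_hom L (F j) (hhom j) v z'
      have h4 : (p : ℤ) ^ (E' + (J + 1)) ∣ MvPolynomial.eval (fun j => v * z' j) (subS L F j) := by
        rw [h3]
        exact (hz'2 j).mul_left _
      have h5 := dvd_add h2 h4
      rw [sub_add_cancel] at h5
      exact (pow_dvd_pow _ (by omega)).trans h5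
    · intro b hb j
      have hbm := hN b hb
      have h2 : (p : ℤ) ^ (J + 1) ∣ X j - v * z' j := (pow_dvd_pow _ (by omega)).trans (hX j)
      have h3 : (p : ℤ) ^ (J + 1) ∣ v * z' j - v * x₁ j := by
        rw [← mul_sub]
        exact (hz'1 j).mul_left _
      have h4 : (p : ℤ) ^ (J + 1) ∣ v * z' a - 1 := (pow_dvd_pow _ (by omega)).trans hv
      have h5 : (p : ℤ) ^ (J + 1) ∣ v - u := by
        have h6 : v - u = -(v * (u * x₁ a - 1)) + u * (v * z' a - 1) - u * v * (z' a - x₁ a) := by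
          ring
        rw [h6]
        exact dvd_sub (dvd_add ((dvd_neg).2 (hu.mul_left _)) (h4.mul_left _)) ((hz'1 a).mul_left _)
      have h7 : (p : ℤ) ^ (J + 1) ∣ X j - u * x₁ j := by
        have h8 : X j - u * x₁ j = (X j - v * z' j) + (v * z' j - v * x₁ j) + (v - u) * x₁ j := by
          ring
        rw [h8]
        exact dvd_add (dvd_add h2 h3) (h5.mul_right _)
      have h9 : X j - c'' j = (X j - u * x₁ j) - (c'' j - u * x₁ j) := by ring
      rw [h9]
      exact dvd_sub ((pow_dvd_pow _ (by omega)).trans h7) ((pow_dvd_pow _ hbm).trans (hc'' j))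

end Pool.Agent.H731.GS
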