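import Pool.Graph.R_pool_sql_team_seeded_707910d6.T2H41.CX.PMINP
import Pool.Graph.R_pool_sql_team_seeded_707910d6.T2H41.CX.PHENG
import Pool.Graph.R_pool_sql_team_seeded_707910d6.T2H41.CX.PNRM
import Pool.Graph.R_pool_sql_team_seeded_707910d6.T2H41.CX.PMODS
import Pool.Graph.R_pool_sql_team_seeded_707910d6.T2H39.CV.PLAT
import Pool.Graph.R_pool_sql_team_seeded_707910d6.T2H39.CV.PDEC
import Pool.Graph.R_pool_sql_team_seeded_707910d6.T2H39.CV.PWAQ
import Pool.Graph.R_pool_sql_team_seeded_707910d6.T2H39.CV.PGRS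
import Pool.Agent.H731.GS.PHENCN
import Pool.Agent.H731.GS.PBADPC
import Pool.Agent.H731.GS.PDEGPC
import Pool.Agent.H731.GS.PLBP
import Pool.Agent.H731.GS.PBADRC
import Pool.Agent.H731.GS.PDEGRC
import Pool.Agent.H731.GS.PRCNTC
import Pool.Agent.H731.GS.PLBR
import Pool.Agent.H731.GS.PHENRN
import Pool.Agent.H731.GS.PEXWT
import Pool.Agent.H731.GS.PAVS
import Pool.Agent.H731.GS.PCHS
import Pool.Agent.H731.GS.PLNK
import Pool.Agent.H731.GS.PSELP
import Pool.Agent.H731.GS.PSELR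
import Pool.Agent.H731.GS.PSEL
import Pool.Agent.H731.GS.PCEL
import Pool.Agent.H731.GS.PEXCD
import Pool.Agent.H731.GS.PPOSC
import Pool.Agent.H731.GS.PFINM
import Pool.Agent.H731.GS.PFIN
import Pool.Agent.H731.GS.PGR0
import Pool.Agent.H731.GS.PMIN
import Pool.Agent.H731.GS.PGR1
import Pool.Agent.H731.GS.PGR2A
import Pool.Agent.H731.GS.PGR3
import Pool.Agent.H731.GS.PGRC

/-!
# Complete intersections in varieties swept out by linear spaces: assembly
-/

set_option autoImplicit false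

namespace Pool.Agent.H731.GS

open Pool.Agent.T2H41.CX (pMINP pHENG pNRM pMODS)
open Pool.Agent.T2H39.CV (pLAT pDEC pWAQ pGRS)

theorem fHENCN : S_HENCN := pHENCN pMINP pHENG

theorem fLBP : S_LBP := pLBP fHENCN pBADPC pDEGPC

theorem fLBR : S_LBR := pLBR pBADRC pDEGRC pRCNTC

theorem fAVS : S_AVS := pAVS pDEC pEXWT

theorem fLNK : S_LNK := pLNK pLAT

theorem fSEL : S_SEL := pSEL fLNK (pSELP pHENG) (pSELR pHENRN)

theorem fCEL : S_CEL := pCEL fSEL (pCHS pMODS) pHENG pNRM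

theorem fEXCD : S_EXCD := pEXCD fLBP fCEL fAVS

theorem fPOSC : S_POSC := pPOSC fLNK pDEC

theorem fFINM : S_FINM := pFINM fLBP fLBR fEXCD

theorem fFIN : S_FIN := pFIN fPOSC fFINM

theorem fGR1 : S_GR1 := pGR1 pMIN

theorem fGRC : S_GRC := pGRC fGR1 (pGR2A pGR0 pMIN) (pGR3 pGR0 pWAQ) (pGRS pWAQ)

end Pool.Agent.H731.GS
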