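import Pool.Agent.H731.GS.Stm

/-!
# Package SELR: the link between a real linear space and a rational one
-/

set_option autoImplicit false

namespace Pool.Agent.H731.GS

open Pool.Agent.Y716.Q Pool.Agent.Y716.C Filter Topology
open Pool.Agent.T2H41.CX (NonD NonDR GoodM QJ)
open Pool.Agent.T2H39.CV (Cone IsCone subL Left Inside kerF aeval_subL)

section
variable {ι : Type} [Fintype ι] {n : ℕ}

/-- the point with the coordinates `x` in the linear space with the basis `M` -/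
noncomputable def px_selr_v {ι : Type} {n : ℕ} (M : ι → Fin (n + 1) → ℝ)
    (x : Fin (n + 1) → ℝ) (i : ι) : ℝ := ∑ j, M i j * x j

/-- values and derivatives -/
noncomputable def px_selr_L (M : ι → Fin (n + 1) → ℝ) (x : Fin (n + 1) → ℝ) :
    Option (Fin (n + 1)) → MvPolynomial ι ℤ → ℝ
  | none, F => MvPolynomial.aeval (px_selr_v M x) F
  | some i', F => ∑ i, M i i' * MvPolynomial.aeval (px_selr_v M x) (MvPolynomial.pderiv i F)

theorem px_selr_sum_eq {D : ℕ} {F : MvPolynomial ι ℤ} (hF : F.IsHomogeneous D) :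
    F = ∑ a ∈ mons ι D, (F.coeff a) • MvPolynomial.monomial a (1 : ℤ) := by
  classical
  conv_lhs => rw [← MvPolynomial.support_sum_monomial_coeff F]
  have hsub : F.support ⊆ mons ι D := by
    intro m hm
    rw [mem_mons]
    exact homog_sum_eq hF (MvPolynomial.mem_support_iff.1 hm)
  rw [Finset.sum_subset hsub]
  · refine Finset.sum_congr rfl fun a _ => ?_
    rw [MvPolynomial.smul_monomial, smul_eq_mul, mul_one]
  · intro m _ hm
    rw [MvPolynomial.notMem_support_iff.1 hm, MvPolynomial.monomial_zero]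

theorem px_selr_L_sum {D : ℕ} {F : MvPolynomial ι ℤ} (hF : F.IsHomogeneous D)
    (M : ι → Fin (n + 1) → ℝ) (x : Fin (n + 1) → ℝ) (o : Option (Fin (n + 1))) :
    px_selr_L M x o F = ∑ a ∈ mons ι D, ((F.coeff a : ℤ) : ℝ) *
      px_selr_L M x o (MvPolynomial.monomial a (1 : ℤ)) := by
  classical
  have h := px_selr_sum_eq hF
  cases o with
  | none =>
    simp only [px_selr_L]
    conv_lhs => rw [h]
    rw [map_sum]
    refine Finset.sum_congr rfl fun a _ => ?_
    rw [map_zsmul, zsmul_eq_mul]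
  | some i' =>
    unfold px_selr_L
    conv_lhs => rw [h]
    simp only [map_sum, map_zsmul, Finset.mul_sum]
    rw [Finset.sum_comm]
    refine Finset.sum_congr rfl fun a _ => ?_
    refine Finset.sum_congr rfl fun i _ => ?_
    rw [zsmul_eq_mul]
    ring

theorem px_selr_cont (o : Option (Fin (n + 1))) (G : MvPolynomial ι ℤ) :
    Continuous (fun p : (ι → Fin (n + 1) → ℝ) × (Fin (n + 1) → ℝ) => px_selr_L p.1 p.2 o G) := by
  classical
  have h1 : ∀ G : MvPolynomial ι ℤ,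
      Continuous (fun z : ι → ℝ => (MvPolynomial.aeval z G : ℝ)) := by
    intro G
    have : (fun z : ι → ℝ => (MvPolynomial.aeval z G : ℝ)) =
        fun z => MvPolynomial.eval z (MvPolynomial.map (Int.castRingHom ℝ) G) := by
      funext z
      rw [MvPolynomial.eval_map, MvPolynomial.aeval_def]
      rfl
    rw [this]
    exact MvPolynomial.continuous_eval _
  have h2 : Continuous (fun p : (ι → Fin (n + 1) → ℝ) × (Fin (n + 1) → ℝ) =>
      px_selr_v p.1 p.2) := by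
    unfold px_selr_v
    fun_prop
  have h3 : ∀ G : MvPolynomial ι ℤ, Continuous (fun p : (ι → Fin (n + 1) → ℝ) ×
      (Fin (n + 1) → ℝ) => (MvPolynomial.aeval (px_selr_v p.1 p.2) G : ℝ)) :=
    fun G => (h1 G).comp h2
  cases o with
  | none => exact h3 G
  | some i' =>
    unfold px_selr_L
    refine continuous_finsetSum _ fun i _ => ?_
    refine Continuous.mul ?_ (h3 _)
    fun_prop

theorem px_selr_mem {K : ℝ} (hK : 0 ≤ K) {M : ι → Fin (n + 1) → ℝ} {x : Fin (n + 1) → ℝ}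
    (hM : ∀ i j, |M i j| ≤ K) (hx : ∀ j, |x j| ≤ K) :
    (M, x) ∈ Metric.closedBall (0 : (ι → Fin (n + 1) → ℝ) × (Fin (n + 1) → ℝ)) K := by
  rw [mem_closedBall_zero_iff, Prod.norm_def]
  refine max_le ?_ ?_
  · rw [pi_norm_le_iff_of_nonneg hK]
    intro i
    rw [pi_norm_le_iff_of_nonneg hK]
    exact fun j => hM i j
  · rw [pi_norm_le_iff_of_nonneg hK]
    exact fun j => hx j

theorem px_selr_bound {r : ℕ} (e : Fin r → ℕ) (K : ℝ) (hK : 0 ≤ K) :
    ∃ Bd : ℝ, 1 ≤ Bd ∧ ∀ (M : ι → Fin (n + 1) → ℝ) (x : Fin (n + 1) → ℝ),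
      (∀ i j, |M i j| ≤ K) → (∀ j, |x j| ≤ K) → ∀ (o : Option (Fin (n + 1))) (j : Fin r),
      ∀ a ∈ mons ι (e j + 2), |px_selr_L M x o (MvPolynomial.monomial a (1 : ℤ))| ≤ Bd := by
  classical
  have hc : Continuous (fun (p : (ι → Fin (n + 1) → ℝ) × (Fin (n + 1) → ℝ))
      (s : (j : Fin r) × (↥(mons ι (e j + 2)) × Option (Fin (n + 1)))) =>
      px_selr_L p.1 p.2 s.2.2 (MvPolynomial.monomial s.2.1.1 (1 : ℤ))) :=
    continuous_pi fun s => px_selr_cont _ _
  obtain ⟨C, hC⟩ := (isCompact_closedBall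
    (0 : (ι → Fin (n + 1) → ℝ) × (Fin (n + 1) → ℝ)) K).exists_bound_of_continuousOn
    hc.continuousOn
  refine ⟨max 1 C, le_max_left _ _, ?_⟩
  intro M x hM hx o j a ha
  have h1 := hC (M, x) (px_selr_mem hK hM hx)
  have h2 := norm_le_pi_norm (fun (s : (j : Fin r) × (↥(mons ι (e j + 2)) ×
      Option (Fin (n + 1)))) =>
      px_selr_L M x s.2.2 (MvPolynomial.monomial s.2.1.1 (1 : ℤ))) ⟨j, ⟨a, ha⟩, o⟩
  rw [Real.norm_eq_abs] at h2
  exact (h2.trans h1).trans (le_max_right _ _)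

theorem px_selr_unif {r : ℕ} (e : Fin r → ℕ) (K : ℝ) (hK : 0 ≤ K) (η : ℝ) (hη : 0 < η) :
    ∃ ρ : ℝ, 0 < ρ ∧ ∀ (M M' : ι → Fin (n + 1) → ℝ) (x : Fin (n + 1) → ℝ),
      (∀ i j, |M i j| ≤ K) → (∀ i j, |M' i j| ≤ K) → (∀ j, |x j| ≤ K) →
      (∀ i j, |M i j - M' i j| ≤ ρ) → ∀ (o : Option (Fin (n + 1))) (j : Fin r),
      ∀ a ∈ mons ι (e j + 2), |px_selr_L M x o (MvPolynomial.monomial a (1 : ℤ)) -
        px_selr_L M' x o (MvPolynomial.monomial a (1 : ℤ))| ≤ η := by
  classical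
  have hc : Continuous (fun (p : (ι → Fin (n + 1) → ℝ) × (Fin (n + 1) → ℝ))
      (s : (j : Fin r) × (↥(mons ι (e j + 2)) × Option (Fin (n + 1)))) =>
      px_selr_L p.1 p.2 s.2.2 (MvPolynomial.monomial s.2.1.1 (1 : ℤ))) :=
    continuous_pi fun s => px_selr_cont _ _
  have hu := (isCompact_closedBall
    (0 : (ι → Fin (n + 1) → ℝ) × (Fin (n + 1) → ℝ)) K).uniformContinuousOn_of_continuous
    hc.continuousOn
  obtain ⟨δ, hδ, h⟩ := Metric.uniformContinuousOn_iff_le.1 hu η hη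
  refine ⟨δ, hδ, ?_⟩
  intro M M' x hM hM' hx hd o j a ha
  have h1 := h (M, x) (px_selr_mem hK hM hx) (M', x) (px_selr_mem hK hM' hx) (by
    rw [Prod.dist_eq]
    refine max_le ?_ ?_
    · rw [dist_pi_le_iff hδ.le]
      intro i
      rw [dist_pi_le_iff hδ.le]
      intro j
      rw [Real.dist_eq]
      exact hd i j
    · rw [dist_self]
      exact hδ.le)
  have h2 := (dist_pi_le_iff hη.le).1 h1 ⟨j, ⟨a, ha⟩, o⟩
  rw [Real.dist_eq] at h2
  exact h2

/-- comparison of the values of two forms -/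
theorem px_selr_diff {D : ℕ} {F F₁ : MvPolynomial ι ℤ} {H θ Bd η : ℝ} (hH : 0 ≤ H) (hθ : 0 ≤ θ)
    (hF : F.IsHomogeneous D) (hF₁ : IsF D H F₁)
    (hn : ∀ a, |((F.coeff a - F₁.coeff a : ℤ) : ℝ)| ≤ θ * H)
    (M M' : ι → Fin (n + 1) → ℝ) (x : Fin (n + 1) → ℝ) (o : Option (Fin (n + 1)))
    (hB : ∀ a ∈ mons ι D, |px_selr_L M x o (MvPolynomial.monomial a (1 : ℤ))| ≤ Bd)
    (hu : ∀ a ∈ mons ι D, |px_selr_L M x o (MvPolynomial.monomial a (1 : ℤ)) -
        px_selr_L M' x o (MvPolynomial.monomial a (1 : ℤ))| ≤ η) :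
    |px_selr_L M x o F - px_selr_L M' x o F₁| ≤ (mons ι D).card * (θ * Bd + η) * H := by
  rw [px_selr_L_sum hF, px_selr_L_sum hF₁.1, ← Finset.sum_sub_distrib]
  refine (Finset.abs_sum_le_sum_abs _ _).trans ?_
  have h1 : ∀ a ∈ mons ι D, |((F.coeff a : ℤ) : ℝ) *
      px_selr_L M x o (MvPolynomial.monomial a (1 : ℤ)) - ((F₁.coeff a : ℤ) : ℝ) *
      px_selr_L M' x o (MvPolynomial.monomial a (1 : ℤ))| ≤ (θ * Bd + η) * H := by
    intro a ha
    have e1 : ((F.coeff a : ℤ) : ℝ) *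
      px_selr_L M x o (MvPolynomial.monomial a (1 : ℤ)) - ((F₁.coeff a : ℤ) : ℝ) *
      px_selr_L M' x o (MvPolynomial.monomial a (1 : ℤ)) =
      ((F.coeff a - F₁.coeff a : ℤ) : ℝ) * px_selr_L M x o (MvPolynomial.monomial a (1 : ℤ)) +
      ((F₁.coeff a : ℤ) : ℝ) * (px_selr_L M x o (MvPolynomial.monomial a (1 : ℤ)) -
        px_selr_L M' x o (MvPolynomial.monomial a (1 : ℤ))) := by
      push_cast
      ring
    rw [e1]
    refine (abs_add_le _ _).trans ?_
    rw [abs_mul, abs_mul]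
    have h2 := mul_le_mul (hn a) (hB a ha) (abs_nonneg _) (by positivity)
    have h3 := mul_le_mul (hF₁.2 a) (hu a ha) (abs_nonneg _) hH
    linarith
  refine (Finset.sum_le_sum h1).trans ?_
  rw [Finset.sum_const, nsmul_eq_mul, mul_assoc]

/-! ### the forms on the linear space -/

/-- the form `F (M X)` -/
noncomputable def px_selr_g (M : ι → Fin (n + 1) → ℝ) (F : MvPolynomial ι ℤ) :
    MvPolynomial (Fin (n + 1)) ℝ :=
  MvPolynomial.aeval (fun i => ∑ j, MvPolynomial.C (M i j) * MvPolynomial.X j) F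

omit [Fintype ι] in
theorem px_selr_eval (M : ι → Fin (n + 1) → ℝ) (F : MvPolynomial ι ℤ) (x : Fin (n + 1) → ℝ) :
    MvPolynomial.eval x (px_selr_g M F) = MvPolynomial.aeval (px_selr_v M x) F := by
  unfold px_selr_g
  induction F using MvPolynomial.induction_on with
  | C a => simp
  | add p q hp hq => rw [map_add, map_add, map_add, hp, hq]
  | mul_X p i hp =>
    rw [map_mul, map_mul, map_mul, hp, MvPolynomial.aeval_X, MvPolynomial.aeval_X, map_sum]
    congr 1
    unfold px_selr_v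
    refine Finset.sum_congr rfl fun j _ => ?_
    rw [map_mul, MvPolynomial.eval_C, MvPolynomial.eval_X]

theorem px_selr_deriv (M : ι → Fin (n + 1) → ℝ) (F : MvPolynomial ι ℤ) (x : Fin (n + 1) → ℝ)
    (i' : Fin (n + 1)) :
    MvPolynomial.eval x (MvPolynomial.pderiv i' (px_selr_g M F)) =
      ∑ i, M i i' * MvPolynomial.aeval (px_selr_v M x) (MvPolynomial.pderiv i F) := by
  classical
  induction F using MvPolynomial.induction_on with
  | C a =>
    unfold px_selr_g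
    simp
  | add p q hp hq =>
    have e1 : px_selr_g M (p + q) = px_selr_g M p + px_selr_g M q := by
      unfold px_selr_g
      rw [map_add]
    rw [e1, map_add, map_add, hp, hq, ← Finset.sum_add_distrib]
    refine Finset.sum_congr rfl fun i _ => ?_
    rw [map_add, map_add, mul_add]
  | mul_X p k hp =>
    have e1 : px_selr_g M (p * MvPolynomial.X k) = px_selr_g M p *
        ∑ j, MvPolynomial.C (M k j) * MvPolynomial.X j := by
      unfold px_selr_g
      rw [map_mul, MvPolynomial.aeval_X]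
    have e2 : MvPolynomial.eval x (MvPolynomial.pderiv i'
        (∑ j, MvPolynomial.C (M k j) * MvPolynomial.X j : MvPolynomial (Fin (n + 1)) ℝ)) =
        M k i' := by
      rw [map_sum, map_sum, Finset.sum_eq_single i']
      · rw [MvPolynomial.pderiv_C_mul, MvPolynomial.pderiv_X_self, mul_one, MvPolynomial.eval_C]
      · intro j _ hj
        rw [MvPolynomial.pderiv_C_mul, MvPolynomial.pderiv_X_of_ne hj, mul_zero, map_zero]
      · intro h
        exact absurd (Finset.mem_univ _) h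
    have e3 : MvPolynomial.eval x (∑ j, MvPolynomial.C (M k j) * MvPolynomial.X j :
        MvPolynomial (Fin (n + 1)) ℝ) = px_selr_v M x k := by
      unfold px_selr_v
      rw [map_sum]
      refine Finset.sum_congr rfl fun j _ => ?_
      rw [map_mul, MvPolynomial.eval_C, MvPolynomial.eval_X]
    rw [e1, Derivation.leibniz, map_add, smul_eq_mul, smul_eq_mul, map_mul, map_mul, hp, e2, e3,
      px_selr_eval]
    have h : ∀ i, MvPolynomial.aeval (px_selr_v M x)
        (MvPolynomial.pderiv i (p * MvPolynomial.X k)) =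
        (if i = k then MvPolynomial.aeval (px_selr_v M x) p else 0) +
        px_selr_v M x k * MvPolynomial.aeval (px_selr_v M x) (MvPolynomial.pderiv i p) := by
      intro i
      rw [Derivation.leibniz, MvPolynomial.pderiv_X, smul_eq_mul, smul_eq_mul, Pi.single_apply,
        map_add, map_mul, map_mul, MvPolynomial.aeval_X]
      by_cases hik : k = i
      · subst hik
        simp
      · rw [if_neg hik, if_neg (fun h => hik h.symm)]
        simp
    simp only [h, mul_add, Finset.sum_add_distrib, mul_ite, mul_zero]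
    rw [Finset.sum_ite_eq' Finset.univ k, if_pos (Finset.mem_univ _), Finset.mul_sum, mul_comm]
    congr 1
    refine Finset.sum_congr rfl fun i _ => ?_
    ring

omit [Fintype ι] in
theorem px_selr_homog (M : ι → Fin (n + 1) → ℝ) {D : ℕ} {F : MvPolynomial ι ℤ}
    (hF : F.IsHomogeneous D) : (px_selr_g M F).IsHomogeneous D := by
  have h := hF.aeval (S := ℝ)
    (fun i => ∑ j, MvPolynomial.C (M i j) * MvPolynomial.X j) (n := 1) (fun i =>
      MvPolynomial.IsHomogeneous.sum _ _ _ fun j _ => by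
        have := (MvPolynomial.isHomogeneous_X ℝ j).C_mul (M i j)
        exact this)
  rw [one_mul] at h
  exact h

/-! ### majorants -/

/-- `Q` is a majorant of `P` -/
def px_selr_Maj {σ : Type} (P Q : MvPolynomial σ ℝ) : Prop := ∀ m, |P.coeff m| ≤ Q.coeff m

theorem px_selr_maj_one {σ : Type} : px_selr_Maj (1 : MvPolynomial σ ℝ) 1 := by
  classical
  intro m
  rw [MvPolynomial.coeff_one]
  split_ifs <;> simp

theorem px_selr_maj_mul {σ : Type} {P Q P' Q' : MvPolynomial σ ℝ} (h : px_selr_Maj P Q)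
    (h' : px_selr_Maj P' Q') : px_selr_Maj (P * P') (Q * Q') := by
  classical
  intro m
  rw [MvPolynomial.coeff_mul, MvPolynomial.coeff_mul]
  refine (Finset.abs_sum_le_sum_abs _ _).trans (Finset.sum_le_sum fun u _ => ?_)
  rw [abs_mul]
  exact mul_le_mul (h _) (h' _) (abs_nonneg _) ((abs_nonneg _).trans (h _))

theorem px_selr_maj_pow {σ : Type} {P Q : MvPolynomial σ ℝ} (h : px_selr_Maj P Q) (k : ℕ) :
    px_selr_Maj (P ^ k) (Q ^ k) := by
  induction k with
  | zero =>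
    rw [pow_zero, pow_zero]
    exact px_selr_maj_one
  | succ k ih =>
    rw [pow_succ, pow_succ]
    exact px_selr_maj_mul ih h

theorem px_selr_maj_prod {σ τ : Type} (S : Finset τ) {P Q : τ → MvPolynomial σ ℝ}
    (h : ∀ t ∈ S, px_selr_Maj (P t) (Q t)) : px_selr_Maj (∏ t ∈ S, P t) (∏ t ∈ S, Q t) := by
  classical
  induction S using Finset.induction_on with
  | empty =>
    rw [Finset.prod_empty, Finset.prod_empty]
    exact px_selr_maj_one
  | insert t S ht ih =>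
    rw [Finset.prod_insert ht, Finset.prod_insert ht]
    exact px_selr_maj_mul (h t (Finset.mem_insert_self _ _))
      (ih fun u hu => h u (Finset.mem_insert_of_mem hu))

theorem px_selr_maj_lin (M : Fin (n + 1) → ℝ) :
    px_selr_Maj (∑ j, MvPolynomial.C (M j) * MvPolynomial.X j : MvPolynomial (Fin (n + 1)) ℝ)
      (∑ j, MvPolynomial.C |M j| * MvPolynomial.X j) := by
  classical
  intro m
  rw [MvPolynomial.coeff_sum, MvPolynomial.coeff_sum]
  refine (Finset.abs_sum_le_sum_abs _ _).trans (Finset.sum_le_sum fun j _ => ?_)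
  rw [MvPolynomial.coeff_C_mul, MvPolynomial.coeff_C_mul, abs_mul, MvPolynomial.coeff_X]
  refine mul_le_mul_of_nonneg_left ?_ (abs_nonneg _)
  split_ifs <;> simp

theorem px_selr_maj_le {σ : Type} [Fintype σ] {P Q : MvPolynomial σ ℝ} (h : px_selr_Maj P Q)
    (m : σ →₀ ℕ) :
    |P.coeff m| ≤ MvPolynomial.eval (fun _ => (1 : ℝ)) Q := by
  classical
  refine (h m).trans ?_
  rw [MvPolynomial.eval_eq]
  simp only [one_pow, Finset.prod_const_one, mul_one]
  by_cases hm : m ∈ Q.support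
  · exact Finset.single_le_sum (f := fun m => Q.coeff m)
      (fun u _ => (abs_nonneg _).trans (h u)) hm
  · rw [MvPolynomial.notMem_support_iff.1 hm]
    exact Finset.sum_nonneg fun u _ => (abs_nonneg _).trans (h u)

theorem px_selr_coeff {D : ℕ} {F : MvPolynomial ι ℤ} (hF : F.IsHomogeneous D) {R K : ℝ}
    (hR : ∀ a, |((F.coeff a : ℤ) : ℝ)| ≤ R) {M : ι → Fin (n + 1) → ℝ}
    (hM : ∀ i j, |M i j| ≤ K) (m : Fin (n + 1) →₀ ℕ) :
    |(px_selr_g M F).coeff m| ≤ (mons ι D).card * (R * (((n : ℝ) + 1) * K) ^ D) := by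
  classical
  have h1 : px_selr_g M F = ∑ a ∈ mons ι D, (((F.coeff a : ℤ) : ℝ)) •
      ∏ i, (∑ j, MvPolynomial.C (M i j) * MvPolynomial.X j) ^ a i := by
    unfold px_selr_g
    conv_lhs => rw [px_selr_sum_eq hF]
    rw [map_sum]
    refine Finset.sum_congr rfl fun a _ => ?_
    rw [map_zsmul, MvPolynomial.aeval_monomial, map_one, one_mul,
      Finsupp.prod_fintype _ _ (fun i => pow_zero _), Int.cast_smul_eq_zsmul]
  rw [h1, MvPolynomial.coeff_sum]
  refine (Finset.abs_sum_le_sum_abs _ _).trans ?_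
  have h2 : ∀ a ∈ mons ι D, |MvPolynomial.coeff m ((((F.coeff a : ℤ) : ℝ)) •
      ∏ i, (∑ j, MvPolynomial.C (M i j) * MvPolynomial.X j :
        MvPolynomial (Fin (n + 1)) ℝ) ^ a i)| ≤ R * (((n : ℝ) + 1) * K) ^ D := by
    intro a ha
    rw [MvPolynomial.coeff_smul, smul_eq_mul, abs_mul]
    refine mul_le_mul (hR a) ?_ (abs_nonneg _) ((abs_nonneg _).trans (hR a))
    refine (px_selr_maj_le (px_selr_maj_prod Finset.univ fun i _ =>
      px_selr_maj_pow (px_selr_maj_lin (M i)) (a i)) m).trans ?_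
    rw [map_prod, ← mem_mons.1 ha, ← Finset.prod_pow_eq_pow_sum]
    refine Finset.prod_le_prod (fun i _ => ?_) fun i _ => ?_
    · rw [map_pow]
      refine pow_nonneg ?_ _
      rw [map_sum]
      refine Finset.sum_nonneg fun j _ => ?_
      rw [map_mul, MvPolynomial.eval_C, MvPolynomial.eval_X, mul_one]
      exact abs_nonneg _
    · rw [map_pow]
      refine pow_le_pow_left₀ ?_ ?_ _
      · rw [map_sum]
        refine Finset.sum_nonneg fun j _ => ?_
        rw [map_mul, MvPolynomial.eval_C, MvPolynomial.eval_X, mul_one]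
        exact abs_nonneg _
      · rw [map_sum]
        have h3 : ∀ j ∈ (Finset.univ : Finset (Fin (n + 1))),
            MvPolynomial.eval (fun _ => (1 : ℝ)) (MvPolynomial.C |M i j| * MvPolynomial.X j) ≤
            K := by
          intro j _
          rw [map_mul, MvPolynomial.eval_C, MvPolynomial.eval_X, mul_one]
          exact hM i j
        refine (Finset.sum_le_sum h3).trans ?_
        rw [Finset.sum_const, Finset.card_univ, Fintype.card_fin, nsmul_eq_mul]
        push_cast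
        exact le_refl _
  refine (Finset.sum_le_sum h2).trans ?_
  rw [Finset.sum_const, nsmul_eq_mul]

theorem px_selr_smul {D : ℕ} {F : MvPolynomial ι ℤ} (hF : F.IsHomogeneous D) (c : ℝ)
    (z : ι → ℝ) :
    (MvPolynomial.aeval (fun i => c * z i) F : ℝ) = c ^ D * MvPolynomial.aeval z F := by
  classical
  conv_lhs => rw [px_selr_sum_eq hF]
  conv_rhs => rw [px_selr_sum_eq hF]
  rw [map_sum, map_sum, Finset.mul_sum]
  refine Finset.sum_congr rfl fun a ha => ?_
  rw [map_zsmul, map_zsmul, MvPolynomial.aeval_monomial, MvPolynomial.aeval_monomial, map_one,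
    one_mul, one_mul, Finsupp.prod_fintype _ _ (fun i => pow_zero _),
    Finsupp.prod_fintype _ _ (fun i => pow_zero _), zsmul_eq_mul, zsmul_eq_mul]
  have h1 : ∏ i, (c * z i) ^ a i = c ^ D * ∏ i, z i ^ a i := by
    rw [← mem_mons.1 ha, ← Finset.prod_pow_eq_pow_sum, ← Finset.prod_mul_distrib]
    exact Finset.prod_congr rfl fun i _ => mul_pow _ _ _
  rw [h1]
  ring

end

/-! ### a net of the unit sphere -/

theorem px_selr_net {k : ℕ} (ε : ℝ) (hε : 0 < ε) : ∃ Z : Finset (Fin k → ℝ),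
    (∀ ζ ∈ Z, Unit1 ζ) ∧ ∀ ζ, Unit1 ζ → ∃ ζ' ∈ Z, ∀ i, |ζ i - ζ' i| ≤ ε := by
  classical
  have hb : TotallyBounded {ζ : Fin k → ℝ | Unit1 ζ} := by
    have h1 : {ζ : Fin k → ℝ | Unit1 ζ} ⊆ Metric.closedBall 0 1 := by
      intro z hz
      rw [mem_closedBall_zero_iff, pi_norm_le_iff_of_nonneg zero_le_one]
      exact hz.1
    exact (isCompact_closedBall (0 : Fin k → ℝ) 1).totallyBounded.subset h1
  obtain ⟨t, htS, htf, htc⟩ := Metric.finite_approx_of_totallyBounded hb ε hε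
  refine ⟨htf.toFinset, fun ζ hζ => htS (htf.mem_toFinset.1 hζ), fun ζ hζ => ?_⟩
  have h1 := htc (show ζ ∈ {ζ : Fin k → ℝ | Unit1 ζ} from hζ)
  simp only [Set.mem_iUnion, exists_prop] at h1
  obtain ⟨y, hy, hzy⟩ := h1
  refine ⟨y, htf.mem_toFinset.2 hy, fun i => ?_⟩
  rw [Metric.mem_ball, dist_eq_norm] at hzy
  exact (norm_le_pi_norm (ζ - y) i).trans hzy.le

theorem px_selr_frm {C ι Y : Type} [Fintype C] [Fintype ι] [Fintype Y] {n : ℕ}
    (A : Fra C ι Y n) :
    ∃ K₀ : ℝ, 1 ≤ K₀ ∧ ∀ (c : C) (y : Y → ℝ), (∀ t, |y t| ≤ 2) → ∀ i j,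
      |frm A c y i j| ≤ K₀ := by
  classical
  have hc : Continuous (fun (y : Y → ℝ) (s : C × ι × Fin (n + 1)) =>
      frm A s.1 y s.2.1 s.2.2) := by
    refine continuous_pi fun s => ?_
    have : (fun y : Y → ℝ => frm A s.1 y s.2.1 s.2.2) =
        fun y => MvPolynomial.eval y (MvPolynomial.map (Int.castRingHom ℝ)
          (A s.1 s.2.1 s.2.2)) := by
      funext y
      unfold frm
      rw [MvPolynomial.eval_map, MvPolynomial.aeval_def]
      rfl
    rw [this]
    exact MvPolynomial.continuous_eval _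
  obtain ⟨K, hK⟩ := (isCompact_closedBall (0 : Y → ℝ) 2).exists_bound_of_continuousOn
    hc.continuousOn
  refine ⟨max 1 K, le_max_left _ _, fun c y hy i j => ?_⟩
  have h1 := hK y (by
    rw [mem_closedBall_zero_iff, pi_norm_le_iff_of_nonneg (by norm_num)]
    exact hy)
  have h2 := norm_le_pi_norm (fun s : C × ι × Fin (n + 1) => frm A s.1 y s.2.1 s.2.2) (c, i, j)
  rw [Real.norm_eq_abs] at h2
  exact (h2.trans h1).trans (le_max_right _ _)

/-- the targets on the linear space -/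
theorem px_selr_geom {ι : Type} [Fintype ι] {n r : ℕ} (e : Fin r → ℕ)
    (L : Matrix ι (Fin (n + 1)) ℤ) (R : Matrix (Fin (n + 1)) ι ℤ) (w : ι → ℝ) (δ : ℝ)
    (hδ : 0 < δ) :
    ∃ δ₁ : ℝ, 0 < δ₁ ∧ ∀ δ' : ℝ, 0 < δ' → δ' ≤ δ₁ → ∃ Z : Finset (Fin (n + 1) → ℝ),
    (∀ ζ ∈ Z, Unit1 ζ ∧ ∀ (v : Fin (n + 1) → ℤ) (P : ℝ), P ≠ 0 →
      (∀ i, |(v i : ℝ) - P * ζ i| ≤ δ' * |P|) →
      ∃ s : ℝ, s ≠ 0 ∧ ∀ i, |((∑ j, L i j * v j : ℤ) : ℝ) - s * w i| ≤ δ * |s|) ∧
    ∀ u : ι → ℝ, (∀ i, |u i - w i| ≤ min (δ / 2) (1 / 2)) → (∃ i, u i ≠ 0) →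
      (∀ i, u i = ∑ j, (L i j : ℝ) * ∑ i', (R j i' : ℝ) * u i') →
      ∀ F : Fin r → MvPolynomial ι ℤ, (∀ j, (F j).IsHomogeneous (e j + 2)) →
      (∀ j, MvPolynomial.aeval u (F j) = 0) → ∃ ζ ∈ Z, LocRT ζ (δ' / 16) (subS L F) := by
  classical
  obtain ⟨W, hW⟩ : ∃ W : ℝ, W = 1 + ∑ i, |w i| := ⟨_, rfl⟩
  have hW0 : 0 ≤ W := by rw [hW]; positivity
  obtain ⟨KR, hKR⟩ : ∃ KR : ℝ, KR = 1 + (∑ j, ∑ i, |(R j i : ℝ)|) * W := ⟨_, rfl⟩
  have hKR1 : 1 ≤ KR := by
    rw [hKR]
    have : (0 : ℝ) ≤ (∑ j, ∑ i, |(R j i : ℝ)|) * W := by positivity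
    linarith
  obtain ⟨KL, hKL⟩ : ∃ KL : ℝ, KL = 1 + ∑ i, ∑ j, |(L i j : ℝ)| := ⟨_, rfl⟩
  have hKL1 : 1 ≤ KL := by
    rw [hKL]
    have : (0 : ℝ) ≤ ∑ i, ∑ j, |(L i j : ℝ)| := by positivity
    linarith
  refine ⟨δ / (4 * KL * KR), by positivity, ?_⟩
  intro δ' hδ' hδ1
  obtain ⟨Z₀, hZ₀, hnet⟩ := px_selr_net (k := n + 1) (δ' / 16) (by positivity)
  refine ⟨Z₀.filter (fun ζ => ∀ (v : Fin (n + 1) → ℤ) (P : ℝ), P ≠ 0 →
      (∀ i, |(v i : ℝ) - P * ζ i| ≤ δ' * |P|) →
      ∃ s : ℝ, s ≠ 0 ∧ ∀ i, |((∑ j, L i j * v j : ℤ) : ℝ) - s * w i| ≤ δ * |s|), ?_, ?_⟩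
  · intro ζ hζ
    rw [Finset.mem_filter] at hζ
    exact ⟨hZ₀ ζ hζ.1, hζ.2⟩
  intro u hu hu0 hLR F hF hz
  obtain ⟨x, hx⟩ : ∃ x : Fin (n + 1) → ℝ, ∀ j, x j = ∑ i', (R j i' : ℝ) * u i' :=
    ⟨_, fun _ => rfl⟩
  have hux : ∀ i, u i = ∑ j, (L i j : ℝ) * x j := by
    intro i
    rw [hLR i]
    exact Finset.sum_congr rfl fun j _ => by rw [hx]
  have huW : ∀ i, |u i| ≤ W := by
    intro i
    have h1 := (hu i).trans (min_le_right _ _)
    have h2 : |w i| ≤ ∑ i, |w i| :=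
      Finset.single_le_sum (f := fun i => |w i|) (fun i _ => abs_nonneg _) (Finset.mem_univ i)
    have h3 := abs_add_le (u i - w i) (w i)
    rw [sub_add_cancel] at h3
    rw [hW]
    linarith
  have hxK : ∀ j, |x j| ≤ KR := by
    intro j
    rw [hx, hKR]
    have h1 : |∑ i', (R j i' : ℝ) * u i'| ≤ ∑ i', |(R j i' : ℝ)| * W := by
      refine (Finset.abs_sum_le_sum_abs _ _).trans (Finset.sum_le_sum fun i _ => ?_)
      rw [abs_mul]
      exact mul_le_mul_of_nonneg_left (huW i) (abs_nonneg _)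
    rw [← Finset.sum_mul] at h1
    have h3 : ∑ i', |(R j i' : ℝ)| ≤ ∑ j, ∑ i', |(R j i' : ℝ)| :=
      Finset.single_le_sum (f := fun j => ∑ i', |(R j i' : ℝ)|)
        (fun j _ => Finset.sum_nonneg fun i _ => abs_nonneg _) (Finset.mem_univ j)
    have h4 := mul_le_mul_of_nonneg_right h3 hW0
    linarith
  have hxne : ∃ j, x j ≠ 0 := by
    by_contra hc
    push Not at hc
    obtain ⟨i, hi⟩ := hu0
    apply hi
    rw [hux i]
    exact Finset.sum_eq_zero fun j _ => by rw [hc j, mul_zero]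
  obtain ⟨j₀, hj₀⟩ := hxne
  obtain ⟨j₁, hj₁⟩ := Finite.exists_max (fun j => |x j|)
  obtain ⟨s₁, hs₁⟩ : ∃ s₁ : ℝ, s₁ = |x j₁| := ⟨_, rfl⟩
  have hs0 : 0 < s₁ := by
    rw [hs₁]
    exact lt_of_lt_of_le (abs_pos.2 hj₀) (hj₁ j₀)
  have hsK : s₁ ≤ KR := by rw [hs₁]; exact hxK j₁
  obtain ⟨z, hzdef⟩ : ∃ z : Fin (n + 1) → ℝ, ∀ j, z j = s₁⁻¹ * x j := ⟨_, fun _ => rfl⟩
  have hzU : Unit1 z := by
    refine ⟨fun j => ?_, j₁, ?_⟩
    · rw [hzdef, abs_mul, abs_inv, abs_of_pos hs0, ← div_eq_inv_mul, div_le_one hs0, hs₁]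
      exact hj₁ j
    · rw [hzdef, abs_mul, abs_inv, abs_of_pos hs0, ← hs₁]
      exact inv_mul_cancel₀ hs0.ne'
  obtain ⟨ζ, hζ, hzζ⟩ := hnet z hzU
  have hLz : ∀ i, ∑ j, (L i j : ℝ) * z j = s₁⁻¹ * u i := by
    intro i
    rw [hux i, Finset.mul_sum]
    refine Finset.sum_congr rfl fun j _ => ?_
    rw [hzdef]
    ring
  refine ⟨ζ, Finset.mem_filter.2 ⟨hζ, ?_⟩, z, hzζ, ?_⟩
  · intro v P hP hv
    refine ⟨P * s₁⁻¹, mul_ne_zero hP (inv_ne_zero hs0.ne'), fun i => ?_⟩
    have hP0 : 0 < |P| := abs_pos.2 hP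
    have e1 : ((∑ j, L i j * v j : ℤ) : ℝ) - P * s₁⁻¹ * w i =
        ∑ j, (L i j : ℝ) * ((v j : ℝ) - P * z j) + P * s₁⁻¹ * (u i - w i) := by
      have h1 : ∑ j, (L i j : ℝ) * ((v j : ℝ) - P * z j) =
          ∑ j, (L i j : ℝ) * (v j : ℝ) - P * ∑ j, (L i j : ℝ) * z j := by
        rw [Finset.mul_sum, ← Finset.sum_sub_distrib]
        exact Finset.sum_congr rfl fun j _ => by ring
      rw [h1, hLz]
      push_cast
      ring
    rw [e1]
    refine (abs_add_le _ _).trans ?_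
    have h2 : ∀ j, |(v j : ℝ) - P * z j| ≤ 2 * δ' * |P| := by
      intro j
      have h3 : (v j : ℝ) - P * z j = ((v j : ℝ) - P * ζ j) - P * (z j - ζ j) := by ring
      rw [h3]
      refine (abs_sub _ _).trans ?_
      rw [abs_mul]
      have h4 := mul_le_mul_of_nonneg_left (hzζ j) hP0.le
      have h5 := hv j
      have h6 : 0 ≤ δ' * |P| := by positivity
      linarith
    have h3 : |∑ j, (L i j : ℝ) * ((v j : ℝ) - P * z j)| ≤ KL * (2 * δ' * |P|) := by
      refine (Finset.abs_sum_le_sum_abs _ _).trans ?_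
      have h4 : ∀ j ∈ (Finset.univ : Finset (Fin (n + 1))),
          |(L i j : ℝ) * ((v j : ℝ) - P * z j)| ≤ |(L i j : ℝ)| * (2 * δ' * |P|) := by
        intro j _
        rw [abs_mul]
        exact mul_le_mul_of_nonneg_left (h2 j) (abs_nonneg _)
      refine (Finset.sum_le_sum h4).trans ?_
      rw [← Finset.sum_mul]
      refine mul_le_mul_of_nonneg_right ?_ (by positivity)
      have h5 : ∑ j, |(L i j : ℝ)| ≤ ∑ i, ∑ j, |(L i j : ℝ)| :=
        Finset.single_le_sum (f := fun i => ∑ j, |(L i j : ℝ)|)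
          (fun i _ => Finset.sum_nonneg fun j _ => abs_nonneg _) (Finset.mem_univ i)
      rw [hKL]
      linarith
    have h4 : |P * s₁⁻¹ * (u i - w i)| ≤ |P * s₁⁻¹| * (δ / 2) := by
      rw [abs_mul]
      exact mul_le_mul_of_nonneg_left ((hu i).trans (min_le_left _ _)) (abs_nonneg _)
    have h5 : |P| = |P * s₁⁻¹| * s₁ := by
      rw [abs_mul, abs_inv, abs_of_pos hs0, mul_assoc, inv_mul_cancel₀ hs0.ne', mul_one]
    have h6 : KL * (2 * δ' * |P|) ≤ |P * s₁⁻¹| * (δ / 2) := by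
      rw [h5]
      have h7 : δ' * (4 * KL * KR) ≤ δ := by
        rw [le_div_iff₀ (by positivity)] at hδ1
        exact hδ1
      have h8 : KL * (2 * δ' * s₁) ≤ δ / 2 := by
        have h9 : KL * (2 * δ' * s₁) ≤ KL * (2 * δ' * KR) :=
          mul_le_mul_of_nonneg_left (mul_le_mul_of_nonneg_left hsK (by positivity))
            (by linarith)
        have h10 : KL * (2 * δ' * KR) = δ' * (4 * KL * KR) / 2 := by ring
        linarith
      have h9 : KL * (2 * δ' * (|P * s₁⁻¹| * s₁)) = |P * s₁⁻¹| * (KL * (2 * δ' * s₁)) := by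
        ring
      rw [h9]
      exact mul_le_mul_of_nonneg_left h8 (abs_nonneg _)
    have h7 : δ * |P * s₁⁻¹| = |P * s₁⁻¹| * (δ / 2) + |P * s₁⁻¹| * (δ / 2) := by ring
    linarith
  · intro j
    show MvPolynomial.aeval z (subL L (F j)) = 0
    rw [aeval_subL]
    have h1 : (fun i => ∑ j, (L i j : ℝ) * z j) = fun i => s₁⁻¹ * u i := funext hLz
    rw [h1, px_selr_smul (hF j), hz j, mul_zero]

theorem pSELR (hHENRN : S_HENRN) : S_SELR := by
  classical
  intro C ι Y _ _ _ n r e A hA γ δ hγ hδ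
  obtain ⟨K₀, hK₀, hfrm⟩ := px_selr_frm A
  obtain ⟨μ, hμ⟩ : ∃ μ : ℝ, μ = min (δ / 2) (1 / 2) := ⟨_, rfl⟩
  have hμ0 : 0 < μ := by rw [hμ]; exact lt_min (by linarith) (by norm_num)
  have hn0 : (0 : ℝ) < (n : ℝ) + 1 := by positivity
  have hK₀0 : 0 < K₀ := by linarith
  obtain ⟨ρ', hρ'⟩ : ∃ ρ' : ℝ, ρ' = min 1 (μ / (2 * ((n : ℝ) + 1) * K₀)) := ⟨_, rfl⟩
  have hρ'0 : 0 < ρ' := by rw [hρ']; exact lt_min one_pos (by positivity)
  have hρ'1 : ρ' ≤ 1 := by rw [hρ']; exact min_le_left _ _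
  have hρ'2 : ((n : ℝ) + 1) * (K₀ * ρ') ≤ μ / 2 := by
    have h1 : ρ' ≤ μ / (2 * ((n : ℝ) + 1) * K₀) := by rw [hρ']; exact min_le_right _ _
    rw [le_div_iff₀ (by positivity)] at h1
    have h2 : ((n : ℝ) + 1) * (K₀ * ρ') = ρ' * (2 * ((n : ℝ) + 1) * K₀) / 2 := by ring
    linarith
  obtain ⟨K, hK⟩ : ∃ K : ℝ, K = K₀ + 1 := ⟨_, rfl⟩
  have hK2 : 2 ≤ K := by linarith
  have hK0 : 0 ≤ K := by linarith
  obtain ⟨B₀, hB₀⟩ : ∃ B₀ : ℝ, B₀ = 1 + ∑ j, ((mons ι (e j + 2)).card : ℝ) *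
      (2 * (((n : ℝ) + 1) * K) ^ (e j + 2)) := ⟨_, rfl⟩
  have hB₀0 : 0 < B₀ := by
    rw [hB₀]
    have : (0 : ℝ) ≤ ∑ j, ((mons ι (e j + 2)).card : ℝ) *
      (2 * (((n : ℝ) + 1) * K) ^ (e j + 2)) := by positivity
    linarith
  obtain ⟨α', hα', hhen⟩ := hHENRN r (n + 1) e B₀ (γ / 2) ρ' hB₀0 (by linarith) hρ'0
  obtain ⟨κ, hκ⟩ : ∃ κ : ℝ, κ = min (α' / 2) (γ / (2 * ((r : ℝ) + 1))) := ⟨_, rfl⟩
  have hκ0 : 0 < κ := by rw [hκ]; exact lt_min (by linarith) (by positivity)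
  have hκ1 : κ ≤ α' / 2 := by rw [hκ]; exact min_le_left _ _
  have hκ2 : (r : ℝ) * κ < γ / 2 := by
    have h1 : κ ≤ γ / (2 * ((r : ℝ) + 1)) := by rw [hκ]; exact min_le_right _ _
    rw [le_div_iff₀ (by positivity)] at h1
    nlinarith
  obtain ⟨Bd, hBd, hbd⟩ := px_selr_bound (ι := ι) (n := n) e K hK0
  obtain ⟨N, hN⟩ : ∃ N : ℝ, N = 1 + ∑ j, ((mons ι (e j + 2)).card : ℝ) := ⟨_, rfl⟩
  have hN1 : 1 ≤ N := by
    rw [hN]
    have : (0 : ℝ) ≤ ∑ j, ((mons ι (e j + 2)).card : ℝ) := by positivity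
    linarith
  have hNj : ∀ j, ((mons ι (e j + 2)).card : ℝ) ≤ N := by
    intro j
    have : ((mons ι (e j + 2)).card : ℝ) ≤ ∑ j, ((mons ι (e j + 2)).card : ℝ) :=
      Finset.single_le_sum (f := fun j => ((mons ι (e j + 2)).card : ℝ))
        (fun j _ => Nat.cast_nonneg _) (Finset.mem_univ j)
    rw [hN]
    linarith
  obtain ⟨θ, hθ⟩ : ∃ θ : ℝ, θ = min 1 (κ / (2 * N * Bd)) := ⟨_, rfl⟩
  have hθ0 : 0 < θ := by rw [hθ]; exact lt_min one_pos (by positivity)
  have hθ1 : θ ≤ 1 := by rw [hθ]; exact min_le_left _ _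
  have hθ2 : N * (θ * Bd) ≤ κ / 2 := by
    have h1 : θ ≤ κ / (2 * N * Bd) := by rw [hθ]; exact min_le_right _ _
    rw [le_div_iff₀ (by positivity)] at h1
    have h2 : N * (θ * Bd) = θ * (2 * N * Bd) / 2 := by ring
    linarith
  obtain ⟨ρ₀, hρ₀, hunif⟩ := px_selr_unif (ι := ι) (n := n) e K hK0 (κ / (2 * N)) (by positivity)
  have hη : N * (κ / (2 * N)) = κ / 2 := by
    field_simp
  have hest : ∀ j, ((mons ι (e j + 2)).card : ℝ) * (θ * Bd + κ / (2 * N)) ≤ κ := by
    intro j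
    have h1 : ((mons ι (e j + 2)).card : ℝ) * (θ * Bd + κ / (2 * N)) ≤
        N * (θ * Bd + κ / (2 * N)) := mul_le_mul_of_nonneg_right (hNj j) (by positivity)
    have h2 : N * (θ * Bd + κ / (2 * N)) = N * (θ * Bd) + N * (κ / (2 * N)) := mul_add _ _ _
    rw [h2, hη] at h1
    linarith
  obtain ⟨ρ, hρ⟩ : ∃ ρ : ℝ, ρ = min ρ₀ (min 1 (μ / (6 * ((n : ℝ) + 1)))) := ⟨_, rfl⟩
  have hρ0 : 0 < ρ := by
    rw [hρ]
    exact lt_min hρ₀ (lt_min one_pos (by positivity))
  have hρρ₀ : ρ ≤ ρ₀ := by rw [hρ]; exact min_le_left _ _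
  have hρ1 : ρ ≤ 1 := by rw [hρ]; exact (min_le_right _ _).trans (min_le_left _ _)
  have hρ2 : ((n : ℝ) + 1) * (ρ * 3) ≤ μ / 2 := by
    have h1 : ρ ≤ μ / (6 * ((n : ℝ) + 1)) := by
      rw [hρ]; exact (min_le_right _ _).trans (min_le_right _ _)
    rw [le_div_iff₀ (by positivity)] at h1
    have h2 : ((n : ℝ) + 1) * (ρ * 3) = ρ * (6 * ((n : ℝ) + 1)) / 2 := by ring
    linarith
  refine ⟨α' / 2, ρ, θ, by linarith, hρ0, hθ0, hθ1, ?_⟩
  intro c y x hx0 hy hx B L R hFac hB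
  obtain ⟨δ₁, hδ₁, hgeom⟩ := px_selr_geom e L R (pt A c y x) δ hδ
  refine ⟨δ₁, hδ₁, fun δ' hδ'0 hδ'1 => ?_⟩
  obtain ⟨Z, hZ1, hZ2⟩ := hgeom δ' hδ'0 hδ'1
  refine ⟨Z, hZ1, ?_⟩
  intro H hH F₁ hF₁ hRob F hF hn
  have hH0 : 0 < H := by linarith
  rw [mem_sysZ] at hF₁
  obtain ⟨M, hM⟩ : ∃ M : ι → Fin (n + 1) → ℝ, ∀ i j, M i j = (B i j : ℝ) := ⟨_, fun _ _ => rfl⟩
  have hMf : ∀ i j, |M i j - frm A c y i j| ≤ ρ := fun i j => by rw [hM]; exact hB i j
  have hfK : ∀ i j, |frm A c y i j| ≤ K := fun i j => (hfrm c y hy i j).trans (by linarith)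
  have hMK : ∀ i j, |M i j| ≤ K := by
    intro i j
    have h1 := hMf i j
    have h2 := hfrm c y hy i j
    have h3 := abs_add_le (M i j - frm A c y i j) (frm A c y i j)
    rw [sub_add_cancel] at h3
    linarith
  have hxK : ∀ j, |x j| ≤ K := fun j => (hx j).trans hK2
  have hdiff : ∀ (o : Option (Fin (n + 1))) (j : Fin r),
      |px_selr_L M x o (F j) - px_selr_L (frm A c y) x o (F₁ j)| ≤ κ * H := by
    intro o j
    have h1 := px_selr_diff (θ := θ) hH0.le hθ0.le (hF j) (hF₁ j) (hn j) M (frm A c y) x o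
      (hbd M x hMK hxK o j)
      (hunif M (frm A c y) x hMK hfK hxK (fun i j => (hMf i j).trans hρρ₀) o j)
    exact h1.trans (mul_le_mul_of_nonneg_right (hest j) hH0.le)
  obtain ⟨_, _, _, hval, hND⟩ := hRob
  obtain ⟨ξ, hξ1, hξ2⟩ := hhen (fun j => MvPolynomial.C H⁻¹ * px_selr_g M (F j)) x
    (fun j => (px_selr_homog M (hF j)).C_mul _) (by
      intro j m
      show |(MvPolynomial.C H⁻¹ * px_selr_g M (F j)).coeff m| ≤ B₀
      rw [MvPolynomial.coeff_C_mul, abs_mul, abs_inv, abs_of_pos hH0]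
      have h1 : ∀ a, |(((F j).coeff a : ℤ) : ℝ)| ≤ 2 * H := by
        intro a
        have h2 := hn j a
        have h3 := (hF₁ j).2 a
        have h4 := abs_add_le ((((F j).coeff a - (F₁ j).coeff a : ℤ)) : ℝ)
          (((F₁ j).coeff a : ℤ) : ℝ)
        push_cast at h4 h2
        rw [sub_add_cancel] at h4
        nlinarith
      have h2 := px_selr_coeff (hF j) h1 hMK m
      have h3 : H⁻¹ * |(px_selr_g M (F j)).coeff m| ≤ H⁻¹ * (((mons ι (e j + 2)).card : ℝ) *
          (2 * H * (((n : ℝ) + 1) * K) ^ (e j + 2))) :=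
        mul_le_mul_of_nonneg_left h2 (by positivity)
      have h4 : H⁻¹ * (((mons ι (e j + 2)).card : ℝ) *
          (2 * H * (((n : ℝ) + 1) * K) ^ (e j + 2))) = ((mons ι (e j + 2)).card : ℝ) *
          (2 * (((n : ℝ) + 1) * K) ^ (e j + 2)) := by
        field_simp
      have h5 : ((mons ι (e j + 2)).card : ℝ) * (2 * (((n : ℝ) + 1) * K) ^ (e j + 2)) ≤
          ∑ j, ((mons ι (e j + 2)).card : ℝ) * (2 * (((n : ℝ) + 1) * K) ^ (e j + 2)) :=
        Finset.single_le_sum (f := fun j => ((mons ι (e j + 2)).card : ℝ) *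
          (2 * (((n : ℝ) + 1) * K) ^ (e j + 2))) (fun j _ => by positivity) (Finset.mem_univ j)
      rw [h4] at h3
      rw [hB₀]
      linarith) hx (by
      intro j
      show |MvPolynomial.eval x (MvPolynomial.C H⁻¹ * px_selr_g M (F j))| ≤ α'
      rw [map_mul, MvPolynomial.eval_C, px_selr_eval, abs_mul, abs_inv, abs_of_pos hH0,
        ← div_eq_inv_mul, div_le_iff₀ hH0]
      have h1 := hdiff none j
      have h2 : |px_selr_L (frm A c y) x none (F₁ j)| ≤ α' / 2 * H := hval j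
      have h3 := abs_add_le (px_selr_L M x none (F j) - px_selr_L (frm A c y) x none (F₁ j))
        (px_selr_L (frm A c y) x none (F₁ j))
      rw [sub_add_cancel] at h3
      have h4 := mul_le_mul_of_nonneg_right hκ1 hH0.le
      have h5 : |MvPolynomial.aeval (px_selr_v M x) (F j)| ≤ κ * H + α' / 2 * H :=
        h3.trans (add_le_add h1 h2)
      linarith) (by
      intro j₀ l hl hlb
      obtain ⟨i, hi, h1⟩ := hND j₀ l hl hlb
      refine ⟨i, hi, ?_⟩
      have h2 : ∀ j, MvPolynomial.eval x (MvPolynomial.pderiv i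
          (MvPolynomial.C H⁻¹ * px_selr_g M (F j))) = H⁻¹ * px_selr_L M x (some i) (F j) := by
        intro j
        rw [MvPolynomial.pderiv_C_mul, map_mul, MvPolynomial.eval_C, px_selr_deriv]
        rfl
      have h3 : ∑ j, l j * MvPolynomial.eval x (MvPolynomial.pderiv i
          (MvPolynomial.C H⁻¹ * px_selr_g M (F j))) =
          H⁻¹ * ∑ j, l j * px_selr_L M x (some i) (F j) := by
        rw [Finset.mul_sum]
        refine Finset.sum_congr rfl fun j _ => ?_
        rw [h2]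
        ring
      show γ / 2 < |∑ j, l j * MvPolynomial.eval x (MvPolynomial.pderiv i
          (MvPolynomial.C H⁻¹ * px_selr_g M (F j)))|
      rw [h3, abs_mul, abs_inv, abs_of_pos hH0, ← div_eq_inv_mul, lt_div_iff₀ hH0]
      have h4 : |∑ j, l j * px_selr_L M x (some i) (F j) -
          ∑ j, l j * px_selr_L (frm A c y) x (some i) (F₁ j)| ≤ (r : ℝ) * (κ * H) := by
        rw [← Finset.sum_sub_distrib]
        refine (Finset.abs_sum_le_sum_abs _ _).trans ?_
        have h5 : ∀ j ∈ (Finset.univ : Finset (Fin r)), |l j * px_selr_L M x (some i) (F j) -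
            l j * px_selr_L (frm A c y) x (some i) (F₁ j)| ≤ κ * H := by
          intro j _
          rw [← mul_sub, abs_mul]
          have h6 := mul_le_mul (hlb j) (hdiff (some i) j) (abs_nonneg _) zero_le_one
          rw [one_mul] at h6
          exact h6
        refine (Finset.sum_le_sum h5).trans ?_
        rw [Finset.sum_const, Finset.card_univ, Fintype.card_fin, nsmul_eq_mul]
      have h5 : γ * H < |∑ j, l j * px_selr_L (frm A c y) x (some i) (F₁ j)| := h1
      have h6 := abs_sub_abs_le_abs_sub (∑ j, l j * px_selr_L (frm A c y) x (some i) (F₁ j))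
        (∑ j, l j * px_selr_L M x (some i) (F j))
      rw [abs_sub_comm] at h4
      have h7 : (r : ℝ) * (κ * H) < γ / 2 * H := by
        have := mul_lt_mul_of_pos_right hκ2 hH0
        linarith
      linarith)
  refine hZ2 (px_selr_v M ξ) ?_ ?_ ?_ F hF ?_
  · intro i
    rw [← hμ]
    have e1 : px_selr_v M ξ i - pt A c y x i =
        ∑ j, ((M i j - frm A c y i j) * ξ j + frm A c y i j * (ξ j - x j)) := by
      unfold px_selr_v pt
      rw [← Finset.sum_sub_distrib]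
      refine Finset.sum_congr rfl fun j _ => ?_
      ring
    rw [e1]
    refine (Finset.abs_sum_le_sum_abs _ _).trans ?_
    have h1 : ∀ j ∈ (Finset.univ : Finset (Fin (n + 1))),
        |(M i j - frm A c y i j) * ξ j + frm A c y i j * (ξ j - x j)| ≤
          ρ * 3 + K₀ * ρ' := by
      intro j _
      refine (abs_add_le _ _).trans ?_
      rw [abs_mul, abs_mul]
      have h2 : |ξ j| ≤ 3 := by
        have h3 := abs_add_le (ξ j - x j) (x j)
        rw [sub_add_cancel] at h3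
        have h4 := hξ1 j
        have h5 := hx j
        linarith
      have h3 := mul_le_mul (hMf i j) h2 (abs_nonneg _) hρ0.le
      have h4 := mul_le_mul (hfrm c y hy i j) (hξ1 j) (abs_nonneg _) hK₀0.le
      linarith
    refine (Finset.sum_le_sum h1).trans ?_
    rw [Finset.sum_const, Finset.card_univ, Fintype.card_fin, nsmul_eq_mul]
    push_cast
    rw [mul_add]
    linarith
  · obtain ⟨i, hi0, hi1⟩ := hA.one c
    refine ⟨i, fun h0 => ?_⟩
    have hpt : pt A c y x i = 1 := by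
      unfold pt frm
      rw [Fin.sum_univ_succ, hi0, hx0, map_one, one_mul]
      rw [Finset.sum_eq_zero fun j _ => by rw [hi1 j, map_zero, zero_mul], add_zero]
    have e1 : |px_selr_v M ξ i - pt A c y x i| ≤ 1 / 2 := by
      have e2 : px_selr_v M ξ i - pt A c y x i =
          ∑ j, ((M i j - frm A c y i j) * ξ j + frm A c y i j * (ξ j - x j)) := by
        unfold px_selr_v pt
        rw [← Finset.sum_sub_distrib]
        refine Finset.sum_congr rfl fun j _ => ?_
        ring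
      rw [e2]
      refine (Finset.abs_sum_le_sum_abs _ _).trans ?_
      have h1 : ∀ j ∈ (Finset.univ : Finset (Fin (n + 1))),
          |(M i j - frm A c y i j) * ξ j + frm A c y i j * (ξ j - x j)| ≤
            ρ * 3 + K₀ * ρ' := by
        intro j _
        refine (abs_add_le _ _).trans ?_
        rw [abs_mul, abs_mul]
        have h2 : |ξ j| ≤ 3 := by
          have h3 := abs_add_le (ξ j - x j) (x j)
          rw [sub_add_cancel] at h3
          have h4 := hξ1 j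
          have h5 := hx j
          linarith
        have h3 := mul_le_mul (hMf i j) h2 (abs_nonneg _) hρ0.le
        have h4 := mul_le_mul (hfrm c y hy i j) (hξ1 j) (abs_nonneg _) hK₀0.le
        linarith
      refine (Finset.sum_le_sum h1).trans ?_
      rw [Finset.sum_const, Finset.card_univ, Fintype.card_fin, nsmul_eq_mul]
      push_cast
      rw [mul_add]
      have h5 : μ ≤ 1 / 2 := by rw [hμ]; exact min_le_right _ _
      linarith
    rw [h0, hpt] at e1
    norm_num at e1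
  · intro i
    have hBr : ∀ i j, M i j = ∑ j', (L i j' : ℝ) * ∑ i', (R j' i' : ℝ) * M i' j := by
      intro i j
      have h1 := hFac.2 i j
      have h2 := congrArg (fun t : ℚ => (t : ℝ)) h1
      push_cast at h2
      rw [hM, h2]
      refine Finset.sum_congr rfl fun j' _ => ?_
      congr 1
      refine Finset.sum_congr rfl fun i' _ => ?_
      rw [hM]
    have h1 : px_selr_v M ξ i = ∑ j, (∑ j', (L i j' : ℝ) * ∑ i', (R j' i' : ℝ) * M i' j) *
        ξ j := by
      unfold px_selr_v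
      exact Finset.sum_congr rfl fun j _ => by rw [← hBr i j]
    rw [h1]
    unfold px_selr_v
    simp only [Finset.sum_mul, Finset.mul_sum]
    rw [Finset.sum_comm]
    refine Finset.sum_congr rfl fun j' _ => ?_
    rw [Finset.sum_comm]
    refine Finset.sum_congr rfl fun i' _ => ?_
    refine Finset.sum_congr rfl fun j _ => ?_
    ring
  · intro j
    have h1 := hξ2 j
    have h2 : MvPolynomial.eval ξ (MvPolynomial.C H⁻¹ * px_selr_g M (F j)) = 0 := h1
    rw [map_mul, MvPolynomial.eval_C, px_selr_eval] at h2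
    rcases mul_eq_zero.1 h2 with h3 | h3
    · exact absurd h3 (inv_ne_zero hH0.ne')
    · exact h3

end Pool.Agent.H731.GS
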