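import Pool.Agent.H731.GS.Defs

/-!
# Complete intersections in varieties swept out by linear spaces: statements of the packages

Project GS (helper731), problem `MP_03ef3d_ag`. Main theorem (`S_FIN`): let `V` be covered by unimodular charts
which are linear in the coordinates `x` of a `ℙⁿ` and polynomial in further parameters `y` (`SweptC`; for
instance all Grassmannians `G(q+1, q+n+1)` in their Plücker embedding, `S_GRC`), `d_j ≥ 2`, `∑ d_j ≤ n`, `n ≥ 3`.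
A positive proportion of the systems of integral forms `F_1, …, F_r` of degrees `d_1, …, d_r` in the coordinates
of the ambient space has zeros on `V` over the real numbers and over all `ℚ_p`, and for 100% of these the
intersection of `V` with `F_1 = … = F_r = 0` satisfies weak approximation with precision tending to infinity; in
particular it has rational points. Idea: given local points on the intersection, most systems have local points
close to these which are nondegenerate on the linear space through them (`LBP`, `LBR`, as in the library project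
`T2H41.CX`); a rational linear space `ℙⁿ ⊆ V` close to the local linear spaces and the theorem on systems in
`ℙⁿ` (`EXWT`) give a rational point (the library project `T2H39.CV` did this for cyclic covers).

Package `X` proves `theorem pX (…) : S_X` in the file `Pool/Agent/H731/GS/PX.lean` (namespace
`Pool.Agent.H731.GS`), importing `Pool.Agent.H731.GS.Stm`; auxiliary declarations are `private` or have a name
beginning with `px_`. The phrase (uses Z) means that `pX` has an argument `hZ : S_Z`.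
-/

set_option autoImplicit false

namespace Pool.Agent.H731.GS

open Pool.Agent.Y716.Q Pool.Agent.Y716.C Filter Topology
open Pool.Agent.T2H41.CX (NonD NonDR GoodM QJ S_MINP S_HENG S_NRM S_MODS)
open Pool.Agent.T2H39.CV (Cone IsCone Swept subL Left Inside kerF Gr Pl pl S_LAT S_DEC S_WAQ)

/-! ## The `p`-adic places -/

/-- **HENCN** (uses `S_MINP`, `S_HENG` of `T2H41.CX`). The number of zeros modulo `p ^ E` near a nondegenerate
one. Template: `Pool/Graph/R_pool_sql_team_seeded_707910d6/T2H41/CX/PHENC.lean` (the same statement without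
the clause `p ^ (J+1) ∣ z' i - z i`).

Proof: `a` from MINP. For every `t : A ∖ a → [0, p ^ (E - (2J+1)))` let `z_t i = (z i mod p ^ (2J+1)) +
p ^ (2J+1) t i` for `i ∈ A ∖ a` and `z_t i = z i` otherwise. As `z_t ≡ z (mod p ^ (2J+1))` the hypotheses of HENG
hold at `z_t` with the set `{a j}` instead of `A`; reduce the coordinates `a j` of the solution modulo
`p ^ E`. Different `t` give different zeros, all congruent to `z` modulo `p ^ (J+1)`. -/
def S_HENCN : Prop := ∀ (r : ℕ) (τ : Type) [Fintype τ] (G : Fin r → MvPolynomial τ ℤ) (p J : ℕ),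
  p.Prime → ∀ (A : Finset τ) (z : τ → ℤ), (∀ j, (p : ℤ) ^ (2 * J + 1) ∣ MvPolynomial.eval z (G j)) →
  NonD p J (fun j i => MvPolynomial.eval z (MvPolynomial.pderiv i (G j))) A → ∀ E : ℕ, 2 * J + 1 ≤ E →
  (p ^ (E - (2 * J + 1))) ^ (A.card - r) ≤
    Set.ncard {z' : τ → ℤ | (∀ i, i ∉ A → z' i = z i) ∧ (∀ i ∈ A, 0 ≤ z' i ∧ z' i < (p : ℤ) ^ E) ∧
      (∀ i, (p : ℤ) ^ (J + 1) ∣ z' i - z i) ∧ ∀ j, (p : ℤ) ^ E ∣ MvPolynomial.eval z' (G j)}

open scoped Classical in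
/-- **BADPC.** Few systems have a point modulo `p ^ (ℓ+1)` which is degenerate in all directions. Template:
`…/T2H41/CX/PBADP.lean`.

Proof: let `q = p ^ (ℓ+1)`, `m = n + #Y = #free`. The parameters `(x, y)` of the point and the vector `l` (from
`¬ NonD`) of a bad system can be reduced modulo `q` (the coordinates `x 0` and `l j₀` are `1`): for every chart `c`
and every `j₀` there are `q ^ (m + r - 1)` possibilities. Fix them. By `IsChart` there are coordinates `i₀` (`one`),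
`σ (inl j.succ)` (`dirx`) and `σ (inr t)` (`diry`) of the ambient space, all different, at which the point
`pt A c y x` has the values `x 0 = 1`, `± x j.succ`, `± y t * x 0`. The map `(F, a', a) ↦ F'`, `a' ∈ [0, q) ^ r`,
`a ∈ [0, q) ^ free`, which adds `a'_j X_{i₀} ^ (e_j + 2)` to `F_j` and moreover `∑_{i ∈ free} a_i X_{i₀} ^ (e + 1) X_{σ i}`
(`e = e j₀`) to `F_{j₀}`, is injective on the bad systems with these data times `[0, q) ^ r × [0, q) ^ free`, with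
values in `sysZ (H + q)` (these monomials are different): in the coordinates of the chart (`tot`, `aeval_tot`) they
are `± X_0 ^ (e+1) X_i` (`i = inl j.succ`) and `± X_0 ^ (e+2) X_t` (`i = inr t`), so modulo `q` the number
`∑_j l_j ∂_i F'_j` at the point is `± a_i`, and then `F'_j` at the point determines `a'_j` modulo `q`. So their
number times `q ^ (m + r)` is at most `#sysZ (H + q)`. -/
def S_BADPC : Prop := ∀ (C ι Y : Type) [Fintype C] [Fintype ι] [Fintype Y] (n r : ℕ) (e : Fin r → ℕ)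
  (A : Fra C ι Y n), IsChart A → ∀ p ℓ : ℕ, p.Prime → ∀ H : ℝ, 0 ≤ H →
  ((sysZ ι e H).filter (fun F => BadT A p ℓ F)).card * p ^ (ℓ + 1) ≤
    Fintype.card C * r * (sysZ ι e (H + (p ^ (ℓ + 1) : ℕ))).card

open scoped Classical in
/-- **DEGPC.** The number of the systems with a given point modulo `p ^ E` degenerate on its linear space.
Template: `…/T2H41/CX/PDEGP.lean`.

Proof: `i₀` and `σ j` (`j : Fin n`) with `pt A c y x i₀ = x 0 = 1`, `pt A c y x (σ j) = ± x j.succ` from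
`IsChart.one`, `IsChart.dirx`. The map `(F, a', a) ↦ F'` which adds `a'_j X_{i₀} ^ (e_j + 2)`, `a'_j ∈ [0, p ^ E)`, to
`F_j` and `∑_j a_j X_{i₀} ^ (e+1) X_{σ j}`, `a_j ∈ [0, p ^ (J+1))`, to `F_{j₀}` is injective on the set to be counted
times these boxes: `∑_j l_j dX A F' c y x j i.succ ≡ ± a_i (mod p ^ (J+1))`, then the value of `F'_j` at the point
determines `a'_j` modulo `p ^ E`. Its values are in `sysZ (H + p ^ E)`. -/
def S_DEGPC : Prop := ∀ (C ι Y : Type) [Fintype C] [Fintype ι] [Fintype Y] (n r : ℕ) (e : Fin r → ℕ)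
  (A : Fra C ι Y n), IsChart A → ∀ (p J E : ℕ), p.Prime → J + 1 ≤ E → ∀ (c : C) (y : Y → ℤ)
  (x : Fin (n + 1) → ℤ), x 0 = 1 → ∀ (j₀ : Fin r) (l : Fin r → ℤ), l j₀ = 1 → ∀ H : ℝ, 0 ≤ H →
  ((sysZ ι e H).filter (fun F => (∀ j, (p : ℤ) ^ E ∣ MvPolynomial.aeval (pt A c y x) (F j)) ∧
    ∀ i, (p : ℤ) ^ (J + 1) ∣ ∑ j, l j * dX A F c y x j i)).card *
      ((p ^ E) ^ r * (p ^ (J + 1)) ^ n) ≤ (sysZ ι e (H + (p ^ E : ℕ))).card

open scoped Classical in
/-- **LBP** (uses HENCN, BADPC, DEGPC). Almost all systems have near every `p`-adic zero in a chart one which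
is nondegenerate on its linear space. Template: `…/T2H41/CX/PLBX.lean`.

Proof: let `m = n + #Y ≥ r`. Take `ℓ ≥ m₀` with `#C r 3^nS / p ^ (ℓ+1) ≤ δ / 2`; by BADPC (and `card_sysZ_upper` with
`3`, `H` large) at most `δ/2 #sysZ(H)` systems are `BadT A p ℓ`. Let `J ≥ ℓ` be large, `E = 2 J + 1`. Let `F` be one of
the other systems which are counted, with the zero `(c, y, x)`. Approximate `y`, `x` by integers modulo `p ^ E`
(`x 0 = 1`): `F_j ≡ 0 (mod p ^ E)` there, and as `F` is not `BadT`: `NonD p ℓ (jacT …) free`. So by HENCN (for the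
polynomials `tot A c (F j)`, see `aeval_tot`, `aeval_int`; `A = free n Y`, with `ℓ` for `J`) there are at least
`p ^ ((E - 2ℓ - 1) (m - r))` zeros modulo `p ^ E` in this chart with coordinates in `[0, p ^ E)`, congruent to the first
one modulo `p ^ (ℓ+1)` (so within `p ^ (-m₀)` of `(y, x)`). By assumption none of these is `RobP A p J F c`, i.e. all of
them are degenerate: there are `j₀` and `l`, which can be reduced modulo `p ^ (J+1)`, with
`p ^ (J+1) ∣ ∑ l_j dX…`. Summing DEGPC over all charts, all points (`p ^ (E m)`), all `j₀` and all `l`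
(`p ^ ((J+1)(r-1))`):
`#bad · p ^ ((E - 2ℓ - 1)(m - r)) ≤ #C · p ^ (E m) · r · p ^ ((J+1)(r-1)) · #sysZ(H + p^E) / (p ^ (E r) p ^ ((J+1) n))`,
that is `#bad ≤ #C r p ^ ((2ℓ+1)(m-r)) p ^ (-(J+1)(n+1-r)) · 3^nS #sysZ(H)`, and `n + 1 > r`: choose `J` large. -/
def S_LBP : Prop := ∀ (C ι Y : Type) [Fintype C] [Fintype ι] [Fintype Y] (n r : ℕ) (e : Fin r → ℕ)
  (A : Fra C ι Y n), IsChart A → 1 ≤ r → r ≤ n → ∀ (p : ℕ) [Fact p.Prime] (m₀ : ℕ) (δ : ℝ), 0 < δ →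
  ∃ J : ℕ, m₀ ≤ J ∧ ∃ H₀ : ℝ, ∀ H : ℝ, H₀ ≤ H →
  (((sysZ ι e H).filter (fun F => ∃ (c : C) (y : Y → ℚ_[p]) (x : Fin (n + 1) → ℚ_[p]),
    ZeroP A F p c y x ∧ ¬ ∃ (y' : Y → ℤ) (x' : Fin (n + 1) → ℤ), RobP A p J F c y' x' ∧
      (∀ t, ‖(y' t : ℚ_[p]) - y t‖ ≤ ((p : ℝ) ^ m₀)⁻¹) ∧
      ∀ j, ‖(x' j : ℚ_[p]) - x j‖ ≤ ((p : ℝ) ^ m₀)⁻¹)).card : ℝ) ≤ δ * (sysZ ι e H).card

/-! ## The real place -/

open scoped Classical in
/-- **BADRC.** Few systems are degenerate at a real point of a chart. Template: `…/T2H41/CX/PBADR.lean`.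

Proof: cover the `(x, y, l)` in the cube by `(C / κ) ^ (m + r - 1)` points of a net (for every chart and every
`j₀`; `m = n + #Y`; the coordinates `x 0` and `l j₀` are `1`); a bad system satisfies `|F_j| ≤ C κ R`,
`|∑_j l_j ∂_i F_j| ≤ C κ R` (`i ∈ free`) at a point of the net (the forms `tot A c (F j)` are polynomials of bounded
degree whose coefficients are at most `C R`). For fixed data the map `(F, a', a) ↦ F'` of BADPC, with
`a'_j, a_i ∈ {0, …, ⌊R⌋}`, into `sysZ (2 R)` has fibres of at most `(2 C κ R + 1) ^ (m + r)` elements, so the number of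
these systems is at most `(C' κ) ^ (m + r) #sysZ(2R)` (`κ R ≥ 1`). -/
def S_BADRC : Prop := ∀ (C ι Y : Type) [Fintype C] [Fintype ι] [Fintype Y] (n r : ℕ) (e : Fin r → ℕ)
  (A : Fra C ι Y n), IsChart A → ∃ K : ℝ, 0 < K ∧ ∀ κ R : ℝ, 0 < κ → κ ≤ 1 → 1 ≤ κ * R →
  (((sysZ ι e R).filter (fun F => BadTR A κ R F)).card : ℝ) ≤ K * κ * (sysZ ι e (2 * R)).card

open scoped Classical in
/-- **DEGRC.** The number of the systems which are almost zero at a given real point and degenerate on its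
linear space. Template: `…/T2H41/CX/PDEGR.lean`.

Proof: a net of `(C / γ) ^ (r - 1)` points for `l` (for every `j₀`), and the map of DEGPC with
`a'_j, a_i ∈ {0, …, ⌊R⌋}`, whose fibres have at most `(2 C γ R + 1) ^ n (2 α R + 1) ^ r` elements
(the `a_i` first, and then the `a'_j` for given `a`). -/
def S_DEGRC : Prop := ∀ (C ι Y : Type) [Fintype C] [Fintype ι] [Fintype Y] (n r : ℕ) (e : Fin r → ℕ)
  (A : Fra C ι Y n), IsChart A → r ≤ n + 1 → ∃ K : ℝ, 0 < K ∧ ∀ α γ R : ℝ, 0 < α → α ≤ 1 → 0 < γ →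
  γ ≤ 1 → 1 ≤ α * R → 1 ≤ γ * R → ∀ (c : C) (y : Y → ℝ) (x : Fin (n + 1) → ℝ), (∀ t, |y t| ≤ 2) →
  (∀ j, |x j| ≤ 2) → x 0 = 1 →
  (((sysZ ι e R).filter (fun F => (∀ j, |MvPolynomial.aeval (pt A c y x) (F j)| ≤ α * R) ∧
    ¬ NonDR (γ * R) (dX A F c y x) (Finset.univ : Finset (Fin (n + 1))))).card : ℝ) ≤
    K * α ^ r * γ ^ (n + 1 - r) * (sysZ ι e (2 * R)).card

/-- **RCNTC.** The number of almost zeros on a grid near a nondegenerate real zero. Template: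
`…/T2H41/CX/PRCNT.lean`.

Proof: as the system is not `BadTR A κ H`, the Jacobian matrix `/ H` at the zero in the free coordinates is
nondegenerate with the constant `κ`. By `Z864.C.minor` (`MinorStmt`, for the index type of the free coordinates)
there are `r` free coordinates `a` and an inverse `Li` of this minor, `|Li| ≤ C / κ`. Apply the slab lemma
`Pool.Agent.Y592.C.slab_lemma` (`SlabLemma`, `τ = 1/2`, `M = 1`) to `F(u) = T (F_j)(u / T) / H` near `z = T (x, y)` with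
`r' = ρ₀ T`, `r = κ' r'`, `W_j = K`, where `ρ₀ ≤ η₀`: the function `F` has bounded coefficients on the scale `T`, so it
is almost linear (error `θ γ D`) on the cube of radius `2 r'` for `ρ₀` small; the number of lattice points is at least
`1/2 (2 r) ^ (m - r) (2 K) ^ r |det Li|`, and `|det Li| = 1 / |det L_a| ≥ c` as the entries of `L` are
bounded. Here `m = n + #Y = #free`. -/
def S_RCNTC : Prop := ∀ (C ι Y : Type) [Fintype C] [Fintype ι] [Fintype Y] (n r : ℕ) (e : Fin r → ℕ)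
  (A : Fra C ι Y n), r ≤ n → ∀ η₀ κ : ℝ, 0 < η₀ → η₀ ≤ 1 → 0 < κ → κ ≤ 1 →
  ∃ K b : ℝ, 0 < K ∧ 0 < b ∧ ∃ T₀ : ℕ, 1 ≤ T₀ ∧ ∀ T : ℕ, T₀ ≤ T → ∀ H : ℝ, 0 < H →
  ∀ F ∈ sysZ ι e H, ∀ (c : C) (y : Y → ℝ) (x : Fin (n + 1) → ℝ), ZeroR A F c y x → ¬ BadTR A κ H F →
  b * (T : ℝ) ^ (n + Fintype.card Y - r) ≤
    (Set.ncard {u : (Y → ℤ) × (Fin (n + 1) → ℤ) | u.2 0 = T ∧
      (∀ t, |(u.1 t : ℝ) / T - y t| ≤ η₀) ∧ (∀ j, |(u.2 j : ℝ) / T - x j| ≤ η₀) ∧
      ∀ j, |MvPolynomial.aeval (pt A c (fun t => (u.1 t : ℝ) / T) (fun j => (u.2 j : ℝ) / T)) (F j)| ≤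
        K * H / T} : ℝ)

open scoped Classical in
/-- **LBR** (uses BADRC, DEGRC, RCNTC). Almost all systems have near every real zero in a chart an
approximate one on a fixed grid which is nondegenerate on its linear space. Template: `…/T2H41/CX/PLRX.lean`.

Proof: `κ` with `K_BADRC κ 3^nS ≤ δ / 2`; `K, b, T₀` from RCNTC for `η₀, κ`. Given `α` take `T ≥ T₀` with
`K / T ≤ min α 1`, and `H` large (`1 ≤ (K / T) H`, `1 ≤ γ H`, `1 ≤ κ H`). A counted system which is not `BadTR A κ H`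
has a zero `(c, y, x)` and at least `b T ^ (m - r)` grid points `(v / T, u / T)` within `η₀` of it with
`|F_j| ≤ (K / T) H ≤ α H`, and all of these are degenerate (`¬ NonDR (γ H)`, else `RobR A α γ H F c`; note that
`|v / T|, |u / T| ≤ 2`). Summing DEGRC (with `K / T` for `α`) over the charts and over the at most `(5 T) ^ m` grid
points of a chart: `#bad · b T ^ (m-r) ≤ #C (5 T) ^ m K' (K / T) ^ r γ ^ (n+1-r) #sysZ(2H)`, so
`#bad ≤ #C 5 ^ m K' K ^ r γ ^ (n+1-r) 3^nS / b · #sysZ(H)`, independently of `T`. Choose `γ` (before `α`). -/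
def S_LBR : Prop := ∀ (C ι Y : Type) [Fintype C] [Fintype ι] [Fintype Y] (n r : ℕ) (e : Fin r → ℕ)
  (A : Fra C ι Y n), IsChart A → 1 ≤ r → r ≤ n → ∀ η₀ δ : ℝ, 0 < η₀ → η₀ ≤ 1 → 0 < δ →
  ∃ γ : ℝ, 0 < γ ∧ γ ≤ 1 ∧ ∀ α : ℝ, 0 < α → ∃ T : ℕ, 1 ≤ T ∧ ∃ H₀ : ℝ, ∀ H : ℝ, H₀ ≤ H →
  (((sysZ ι e H).filter (fun F => ∃ (c : C) (y : Y → ℝ) (x : Fin (n + 1) → ℝ),
    ZeroR A F c y x ∧ ¬ ∃ (v : Y → ℤ) (u : Fin (n + 1) → ℤ),
      RobR A α γ H F c (fun t => (v t : ℝ) / T) (fun j => (u j : ℝ) / T) ∧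
      (∀ t, |(v t : ℝ) / T - y t| ≤ η₀) ∧ ∀ j, |(u j : ℝ) / T - x j| ≤ η₀)).card : ℝ) ≤
    δ * (sysZ ι e H).card

/-- **HENRN.** A real zero close to a nondegenerate approximate one. Template: `…/T2H41/CX/PHENR.lean`.

Proof: `Z864.C.minor` gives `r` coordinates `a` and an inverse of the minor of the Jacobian matrix at `ξ`, bounded
in terms of `γ`; on a ball of radius `ρ₀ (B, γ) ≤ ρ` the map `ξ'_a ↦ g(ξ)` (the other coordinates fixed)
approximates this linear map, so its image contains a ball of radius `c ρ₀` around `g(ξ)`; `α < c ρ₀`. -/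
def S_HENRN : Prop := ∀ (r k : ℕ) (e : Fin r → ℕ) (B γ ρ : ℝ), 0 < B → 0 < γ → 0 < ρ →
  ∃ α : ℝ, 0 < α ∧ ∀ (g : Fin r → MvPolynomial (Fin k) ℝ) (ξ : Fin k → ℝ),
  (∀ j, (g j).IsHomogeneous (e j + 2)) → (∀ j m, |(g j).coeff m| ≤ B) → (∀ i, |ξ i| ≤ 2) →
  (∀ j, |MvPolynomial.eval ξ (g j)| ≤ α) →
  NonDR γ (fun j i => MvPolynomial.eval ξ (MvPolynomial.pderiv i (g j)))
    (Finset.univ : Finset (Fin k)) →
  ∃ ξ' : Fin k → ℝ, (∀ i, |ξ' i - ξ i| ≤ ρ) ∧ ∀ j, MvPolynomial.eval ξ' (g j) = 0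

/-! ## Systems in `ℙ^(k-1)` -/

open scoped Classical in
/-- **EXWT.** The starting theorem with a target, and with local solubility only up to `w`. Template:
`…/T2H41/CX/PEXW.lean`.

Proof: (1) Repeat the proof of `Pool.Agent.Y363.C7.exc_sys` (`Pool/Graph/R_seed8/Y363/C7/Exc2.lean`; `exw_aux` in
`PEXW.lean` does this for `N = 1` and a trivial target) with the local conditions of `LocSolTS N c ζ₁ δ₁` only at the
real place and at the primes `p ≤ w`; this works for every `w ≥ w₀ + N`, `w₀` from the class theorem for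
`ε / (4 T)` (the prime factors of `N` have to be at most `w`). Inputs as in `PEXW.lean`:
`Pool.Agent.Y716.D.class_all`, `Y232.CS.bad_int`, `Y407.C4.bad_real`, `Y813.C5.stable`, `Z864.C.minor`.
(2) Let `f` be counted, `ξ` the real zero near `ζ`, `|ζ r| = 1`, `|ξ r'|` maximal. Then `|ξ r'| ≥ |ξ r| ≥ 1 - δ/16`,
`|ζ r'| ≥ 1 - δ / 8`, and `ξ / ξ r'` is a zero with coordinate `1` at `r'`, with coordinates of absolute value
`≤ 1`, at distance `≤ δ / 7` from `ζ / ζ r'`. So (1) for the targets `ζ₁ = ζ / ζ r'` (for every `r'` with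
`|ζ r'| ≥ 1/2`), `δ₁ = δ / 7`, `ε / k`, gives for all other `f` a primitive zero `x` (so `x ≠ 0`), `N ∣ x - c`,
`|x i - P ζ₁ i| ≤ 2 δ₁ P`, `P > 0`; with `P' = P / ζ r'`: `|x i - P' ζ i| ≤ 2 δ₁ |ζ r'| |P'| ≤ δ |P'|`. -/
def S_EXWT : Prop := ∀ (r k : ℕ) (e : Fin r → ℕ), 1 ≤ r → r + 3 ≤ k → ∑ j, (e j + 2) + 1 ≤ k →
  ∀ N : ℕ, 1 ≤ N → ∀ (c : Fin k → ℤ) (ζ : Fin k → ℝ), Unit1 ζ → ∀ δ : ℝ, 0 < δ → δ ≤ 1 / 2 →
  ∀ ε : ℝ, 0 < ε → ∃ w₀ : ℕ, ∀ w : ℕ, w₀ ≤ w → ∃ H₀ : ℝ, ∀ H : ℝ, H₀ ≤ H →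
  (((sysZ (Fin k) e H).filter (fun f => (∀ p : ℕ, p.Prime → p ≤ w → LocPT p N c f) ∧
    LocRT ζ (δ / 16) f ∧ ¬ SolT N c ζ δ f)).card : ℝ) ≤ ε * (sysZ (Fin k) e H).card

open scoped Classical in
/-- **AVS** (uses `S_DEC` of `T2H39.CV`, EXWT). For a fixed `L` few systems have a restriction to `L` which is
locally soluble near a target without integral zero near the target. Template: `…/T2H39/CV/PAVV.lean` (one form).

Proof: `C_j`, `ext_j` from DEC for `e j`; `C` the maximum of the `C_j`. For `F ∈ sysZ_ι(H)`: `f = subS L F ∈ sysZ_k(C H)`,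
`G_j = F_j - ext_j f_j ∈ kerF L (e_j + 2) ((1 + C ^ 2) H)`, and `F ↦ (f, G)` is injective. With EXWT for `ε'` at the
height `C H`: at most `ε' #sysZ_k(C H) · ∏_j #kerF_j((1 + C^2) H)` systems, and
`∏_j #kerF_j(H') · #sysZ_k(H') ≤ C ^ r #sysZ_ι(H')`, `H' = (1 + C^2) H`, `#sysZ_k(C H) ≤ #sysZ_k(H')`,
`#sysZ_ι(H') ≤ C' #sysZ_ι(H)` (`card_sysZ_upper`). So take `ε' = ε / (C ^ r C')`. -/
def S_AVS : Prop := ∀ (ι : Type) [Fintype ι] (r k : ℕ) (e : Fin r → ℕ), 1 ≤ r → r + 3 ≤ k →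
  ∑ j, (e j + 2) + 1 ≤ k → ∀ L : Matrix ι (Fin k) ℤ, Left L →
  ∀ N : ℕ, 1 ≤ N → ∀ (c : Fin k → ℤ) (ζ : Fin k → ℝ), Unit1 ζ → ∀ δ : ℝ, 0 < δ → δ ≤ 1 / 2 →
  ∀ ε : ℝ, 0 < ε → ∃ w₀ : ℕ, ∀ w : ℕ, w₀ ≤ w → ∃ H₀ : ℝ, ∀ H : ℝ, H₀ ≤ H →
  (((sysZ ι e H).filter (fun F => (∀ p : ℕ, p.Prime → p ≤ w → LocPT p N c (subS L F)) ∧
    LocRT ζ (δ / 16) (subS L F) ∧ ¬ SolT N c ζ δ (subS L F))).card : ℝ) ≤ ε * (sysZ ι e H).card

open scoped Classical in
/-- **CHS** (uses `S_MODS` of `T2H41.CX`). In a progression modulo `Q`, few systems restrict to one without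
nondegenerate zeros modulo `p`. Templates: `…/T2H39/CV/PCHV.lean` (one form, the same map `L`), `…/T2H41/CX/PCHBX.lean`
(systems).

Proof: let `M = nS ι e`. The coefficients of the `g ∈ sysZ(A)` are `M` independent integers in `[-⌊A⌋, ⌊A⌋]`. For `A`
large in terms of `p` each residue class modulo `p` contains at most `(1 + 1/M) (2⌊A⌋+1) / p` of these integers, so
for a set `S` of residues of systems modulo `p` at most `3 (#S / p ^ M) #sysZ(A)` of the `g` reduce to `S`. Let `S` be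
the set of the residues of `g` for which `subS L (ψ + Q g)` has no nondegenerate zero modulo `p`; as `p ∤ Q` it is a
translate and multiple of the set `S'` of the residues `a` for which `a ∘ L` has none; `L` has a left inverse `R`
modulo `p`, so the linear map `a ↦ a ∘ L` from the systems in the variables `ι` to those in `k` variables modulo `p`
is onto (`(a ∘ R) ∘ L = a`), its fibres have the same number of elements, and by MODS
`#S' ≤ K / p ^ 2 · p ^ M`. -/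
def S_CHS : Prop := ∀ (ι : Type) [Fintype ι] (r k : ℕ) (e : Fin r → ℕ), r + 3 ≤ k →
  ∃ K : ℝ, 0 < K ∧ ∀ p : ℕ, p.Prime → ∀ Q : ℕ, Nat.Coprime p Q → ∃ A₀ : ℝ, ∀ A : ℝ, A₀ ≤ A →
  ∀ (ψ : Fin r → MvPolynomial ι ℤ) (L : Matrix ι (Fin k) ℤ), (∀ j, (ψ j).IsHomogeneous (e j + 2)) →
  Left L →
  (((sysZ ι e A).filter (fun g =>
    ¬ GoodM p (subS L (fun j => ψ j + MvPolynomial.C (Q : ℤ) * g j)))).card : ℝ) ≤
    K / (p : ℝ) ^ 2 * (sysZ ι e A).card

/-! ## Linear spaces in `V` close to given local linear spaces -/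

/-- **LNK** (uses `S_LAT` of `T2H39.CV`). From a rational basis of a linear space in `V` to an integral one.

Proof: by the hypothesis and `SweptC.neQ` the map `x ↦ B x` from `ℚ^(n+1)` is injective, let `W` be its range,
`finrank W = n + 1`; `L`, `R` from LAT. The columns of `B` are in `W`, so `B = L (R B)`. `Inside V L`: for `x ≠ 0` the
vector `L x` is in `W` and not `0` (`R L = 1`), so `L x = B x'`, `x' ≠ 0`. -/
def S_LNK : Prop := ∀ (C ι Y : Type) [Fintype C] [Fintype ι] [Fintype Y] (n : ℕ) (V : Cone ι)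
  (A : Fra C ι Y n), SweptC V A → ∀ B : ι → Fin (n + 1) → ℚ,
  (∀ x : Fin (n + 1) → ℚ, x ≠ 0 → (fun i => ∑ j, B i j * x j) ∈ V.Q) →
  ∃ (L : Matrix ι (Fin (n + 1)) ℤ) (R : Matrix (Fin (n + 1)) ι ℤ), Inside V L ∧ Fac B L R

/-- **SELP** (uses `S_HENG` of `T2H41.CX`). The link between a `p`-adic linear space and a rational one.

Proof: `M = R B` (rational matrix). `frm A c y` is integral, so `B` is `p`-integral, so is `M`, and `B = L M`. Let
`x₁` be integral, `x₁ ≡ M x (mod p ^ (2J+1))`; then `L x₁ ≡ B x ≡ pt A c y x (mod p ^ (2J+1))`. By `IsChart.one` some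
coordinate of `pt A c y x` is `x 0 = 1`, so some coordinate `x₁ i` is prime to `p`; let `u x₁ i ≡ 1 (mod p ^ (J+1))`,
`c' = u x₁`. As `L c' = u L x₁` this gives the first two claims (`m₀ ≤ J`). Let `F₁, F` be as in the third one:
`subS L F (x₁) = F (L x₁) ≡ F₁ (pt) ≡ 0 (mod p ^ (2J+1))`, and `∂_{i'} (subS L F)_j (x₁) = ∑_i L i i' ∂_i F_j (L x₁) ≡
∑_i L i i' ∂_i F₁_j (pt)`. The Jacobian matrix of `subS L F` at `x₁` is nondegenerate at the level `J`: for `l` with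
`l j₀ = 1` there is an `i''` with `p ^ (J+1) ∤ ∑_j l_j dX j i''`, and
`∑_j l_j dX j i'' ≡ ∑_{i'} M i' i'' ∑_j l_j ∑_i L i i' ∂_i F₁_j (pt)` as `frm ≡ B = L M`. So by HENG for every `E ≥ J + 1`
there is a zero `z' ≡ x₁ (mod p ^ (J+1))` of `subS L F` modulo `p ^ E`; multiply it by the inverse of `z' i` modulo
`p ^ E` and replace the coordinate `i` by `1`: this is a zero modulo `p ^ E`, congruent to `c'` modulo `p ^ (J+1)` (the
inverse of `z' i` is congruent to `u`). So `LocPT p N c''` as `p ^ a ∣ N` implies `a ≤ m₀ ≤ J`. (`robP_congr`,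
`aeval_congr`, `aeval_congS`, `val_cast` … in `Defs.lean` are useful.) -/
def S_SELP : Prop := ∀ (C ι Y : Type) [Fintype C] [Fintype ι] [Fintype Y] (n r : ℕ) (e : Fin r → ℕ)
  (A : Fra C ι Y n), IsChart A → ∀ (p : ℕ) [Fact p.Prime] (J m₀ : ℕ), m₀ ≤ J →
  ∀ (c : C) (y : Y → ℤ) (x : Fin (n + 1) → ℤ), x 0 = 1 →
  ∀ (B : ι → Fin (n + 1) → ℚ) (L : Matrix ι (Fin (n + 1)) ℤ) (R : Matrix (Fin (n + 1)) ι ℤ),
  Fac B L R →
  (∀ i j, ‖(B i j : ℚ_[p]) - ((frm A c y i j : ℤ) : ℚ_[p])‖ ≤ ((p : ℝ) ^ (2 * J + 1))⁻¹) →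
  ∃ (c' : Fin (n + 1) → ℤ) (u : ℤ), ¬ (p : ℤ) ∣ u ∧
    (∀ c'' : Fin (n + 1) → ℤ, (∀ j, (p : ℤ) ^ m₀ ∣ c'' j - c' j) →
      ∀ i, (p : ℤ) ^ m₀ ∣ (∑ j, L i j * c'' j) - u * pt A c y x i) ∧
    ∀ N : ℕ, (∀ a : ℕ, p ^ a ∣ N → a ≤ m₀) → ∀ c'' : Fin (n + 1) → ℤ,
    (∀ j, (p : ℤ) ^ m₀ ∣ c'' j - c' j) → ∀ F₁ F : Fin r → MvPolynomial ι ℤ,
    RobP A p J F₁ c y x → (∀ j, (F j).IsHomogeneous (e j + 2)) → CongS (p ^ (2 * J + 1)) F₁ F →
    LocPT p N c'' (subS L F)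

/-- **SELR** (uses HENRN). The link between a real linear space and a rational one.

Proof: `K₀ ≥ 1` a bound for the `|frm A c y i j|`, `|y| ≤ 2` (all `c`, `i`, `j`). For `ρ ≤ 1` the matrix `B` has
entries `≤ K₀ + 1`. The forms `g_j(X) = F_j (B X) / H` (real coefficients, degree `e_j + 2`) have coefficients bounded by
a constant `B₀` (`NearS`, `θ ≤ 1`), and `|g_j (x)| ≤ |F₁_j (pt)| / H + K₁ (θ + ρ) ≤ α + K₁ (θ + ρ)`, and their partial
derivatives at `x` differ from `dX A F₁ c y x j i / H` by at most `K₁ (θ + ρ)`; so they are nondegenerate with the constant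
`γ - r K₁ (θ + ρ) ≥ γ / 2`. HENRN for `B₀`, `γ / 2` and a radius `ρ'` gives `α'`; let `α = α' / 2`, `K₁ (θ + ρ) ≤ α' / 2`.
So there is a `ξ''`, `|ξ'' - x| ≤ ρ'`, with `F_j (B ξ'') = 0`. With `ρ`, `ρ'` small: `|B ξ'' - pt A c y x| ≤ min (δ / 2) (1/2)`
in every coordinate. `B ξ'' ≠ 0` as a coordinate of `pt A c y x` is `x 0 = 1` (`IsChart.one`). Let `ξ₁ = R B ξ''`, so
`L ξ₁ = B ξ''` (`Fac`) and `ξ₁ ≠ 0` is a zero of `subS L F` (`aeval_subL`). `s₁ = max |ξ₁ i| ≤ K_R`, `ζ̂ = ξ₁ / s₁` (a zero,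
`Unit1`). `δ₁ = δ / (4 K_L K_R)`, where `K_L = 1 + ∑ |L i j|`. Given `δ' ≤ δ₁` let `Z₀` be a finite set of vectors with
`Unit1` such that every vector with `Unit1` is within `δ' / 16` of an element of `Z₀` (total boundedness), and `Z`
the set of the `ζ ∈ Z₀` with the property in the statement. Take `ζ ∈ Z₀` within `δ' / 16` of `ζ̂`; it is in `Z`: if
`|v i - P ζ i| ≤ δ' |P|` then `|v i - P ζ̂ i| ≤ 2 δ' |P|`, and with `s = P / s₁`:
`|L v - s pt| ≤ |L v - P L ζ̂| + |s| |B ξ'' - pt| ≤ 2 K_L δ' s₁ |s| + δ |s| / 2 ≤ δ |s|`. -/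
def S_SELR : Prop := ∀ (C ι Y : Type) [Fintype C] [Fintype ι] [Fintype Y] (n r : ℕ) (e : Fin r → ℕ)
  (A : Fra C ι Y n), IsChart A → ∀ γ δ : ℝ, 0 < γ → 0 < δ →
  ∃ α ρ θ : ℝ, 0 < α ∧ 0 < ρ ∧ 0 < θ ∧ θ ≤ 1 ∧
  ∀ (c : C) (y : Y → ℝ) (x : Fin (n + 1) → ℝ), x 0 = 1 → (∀ t, |y t| ≤ 2) → (∀ j, |x j| ≤ 2) →
  ∀ (B : ι → Fin (n + 1) → ℚ) (L : Matrix ι (Fin (n + 1)) ℤ) (R : Matrix (Fin (n + 1)) ι ℤ),
  Fac B L R → (∀ i j, |(B i j : ℝ) - frm A c y i j| ≤ ρ) →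
  ∃ δ₁ : ℝ, 0 < δ₁ ∧ ∀ δ' : ℝ, 0 < δ' → δ' ≤ δ₁ → ∃ Z : Finset (Fin (n + 1) → ℝ),
    (∀ ζ ∈ Z, Unit1 ζ ∧ ∀ (v : Fin (n + 1) → ℤ) (P : ℝ), P ≠ 0 →
      (∀ i, |(v i : ℝ) - P * ζ i| ≤ δ' * |P|) →
      ∃ s : ℝ, s ≠ 0 ∧ ∀ i, |((∑ j, L i j * v j : ℤ) : ℝ) - s * pt A c y x i| ≤ δ * |s|) ∧
    ∀ H : ℝ, 1 ≤ H → ∀ F₁ ∈ sysZ ι e H, RobR A α γ H F₁ c y x →
    ∀ F : Fin r → MvPolynomial ι ℤ, (∀ j, (F j).IsHomogeneous (e j + 2)) → NearS (θ * H) F₁ F →
    ∃ ζ ∈ Z, LocRT ζ (δ' / 16) (subS L F)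

/-- **SEL** (uses LNK, SELP, SELR). A finite set `T` of linear spaces in `V` with targets on them suffices for all
systems. Template: `…/T2H39/CV/PSELV.lean`.

Proof: `α, ρ, θ` from SELR for `γ, δ`. Let `D, m₀, w, J` be given, and let `S` be the finite set of the families
`(c_p, y_p, x_p)`, `p` a prime, `D.m < p ≤ w`, `c_p : C`, with coordinates `y_p`, `x_p` in `[0, p ^ (2 J p + 1))`, `x_p 0 = 1`.
For `p ≤ D.m` let `(c_p, y_p, x_p) = (D.cP p, D.yP p, D.xP p)`. For every `s ∈ S` take `B` from `SweptC.dense` for these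
`c_p`, `y_p` and for `D.cR`, `D.y`, with `ε ≤ ρ`, `ε ≤ (p ^ (2 J p + 1))⁻¹` for all `p ≤ w`, then `L, R` from LNK; `c'_p`
from SELP, with `m₀` for `p ≤ D.m` and with `0` instead of `m₀` for `D.m < p ≤ w`; `N = ∏_{p ≤ D.m} p ^ m₀`, and an integral
`c' ≡ c'_p (mod p ^ m₀)` for all primes `p ≤ D.m` (Chinese remainder theorem). Let `δ' ≤ 1/2` be at most the `δ₁` of SELR
for all `s ∈ S`, and `Z` from SELR for this `δ'`. `T` is the set of the `(L, c', ζ)`, `s ∈ S`, `ζ ∈ Z`. `AdmT`: if `N` divides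
`x i - c' i` then the second claim of SELP (with `c'' = x`) is the condition of `CloseT` at `p ≤ D.m`. Given `F₁`: for
`D.m < p ≤ w` reduce the points of `RobP` modulo `p ^ (2 J p + 1)` (`robP_congr`): this gives an `s ∈ S`, and `L`. The
numbers `p ^ (2 J p + 1)` divide `QJ w J`. For `p ∤ N` the last condition in `LocPT` is about `a = 0`. -/
def S_SEL : Prop := ∀ (C ι Y : Type) [Fintype C] [Fintype ι] [Fintype Y] (n r : ℕ) (e : Fin r → ℕ)
  (V : Cone ι) (A : Fra C ι Y n), SweptC V A → ∀ γ δ : ℝ, 0 < γ → 0 < δ →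
  ∃ α θ : ℝ, 0 < α ∧ 0 < θ ∧ θ ≤ 1 ∧
  ∀ D : Tgt C Y n, D.Ok → ∀ (m₀ w : ℕ) (J : ℕ → ℕ), D.m ≤ w → (∀ p, m₀ ≤ J p) →
  ∃ (T : Finset (Tr ι n)) (N : ℕ) (δ' : ℝ), 1 ≤ N ∧ (∀ p : ℕ, p.Prime → p ∣ N → p ≤ w) ∧
    0 < δ' ∧ δ' ≤ 1 / 2 ∧ (∀ t ∈ T, AdmT V A D m₀ δ N δ' t) ∧
  ∀ H : ℝ, 1 ≤ H → ∀ F₁ ∈ sysZ ι e H, MatchP A D J F₁ →
    (∀ p : ℕ, p.Prime → D.m < p → p ≤ w → ∃ c y x, RobP A p (J p) F₁ c y x) →
    MatchR A D α γ H F₁ →
  ∃ L : Matrix ι (Fin (n + 1)) ℤ, ∀ F : Fin r → MvPolynomial ι ℤ,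
    (∀ j, (F j).IsHomogeneous (e j + 2)) → CongS (QJ w J) F₁ F → NearS (θ * H) F₁ F →
    ∃ t ∈ T, t.1 = L ∧ LocT w N δ' t F

open scoped Classical in
/-- **CEL** (uses SEL, CHS, and `S_HENG`, `S_NRM` of `T2H41.CX`). For most of the systems with the local points of
the target some restriction is locally soluble near the target at the primes up to `w'`. Templates:
`…/T2H39/CV/PCELV.lean`, `…/T2H41/CX/PCELX.lean`.

Proof: `K` from CHS, `w₁ ≥ 1` with `(K / w₁) 3^nS ≤ ε`. `α, θ` from SEL, and for `w, J` as in the statement `T, N, δ'` from SEL.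
Let `Q = QJ w J`, `A' = θ H / (2 Q)`, and `Z` the set to be counted. Count the pairs `(F, g)`, `F ∈ Z`, `g ∈ sysZ(A')`, by
the injective map `(F, g) ↦ (ψ, g)`, `ψ = F - Q g ∈ sysZ(2H)`. Fix `ψ`. If there is `g₁ ∈ sysZ(A')` with
`F₁ = ψ + Q g₁ ∈ Z` take `L` from SEL for `F₁`. For all `g ∈ sysZ(A')` with `F = ψ + Q g ∈ Z` we have `F ≡ F₁ (mod Q)`
and the distance is at most `2 Q A' = θ H`, so `LocT w N δ' t F` for some `t ∈ T`, `t.1 = L`; as `F ∈ Z`, not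
`LocT w' N δ' t F`, so there is a prime `p`, `w < p ≤ w'`, with `¬ LocPT p N t.2.1 (subS L F)`; `p ∤ N`, so the last
condition in `LocPT` is trivial, hence `¬ GoodM p (subS L F)` (HENG with `J = 0`, `A = univ`, and NRM). By CHS (`p ∤ Q` as
`p > w`, `Left L` from `AdmT`) the number of these `g` is at most `∑_{w < p ≤ w'} K / p ^ 2 #sysZ(A') ≤ K / w #sysZ(A')` for
`H` large. So `#Z ≤ (K / w) #sysZ(2H) ≤ (K / w) 3^nS #sysZ(H)` (`card_sysZ_upper`; for `H ≥ 2` one has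
`4 H + 1 ≤ 3 (2 H - 1)`). -/
def S_CEL : Prop := ∀ (C ι Y : Type) [Fintype C] [Fintype ι] [Fintype Y] (n r : ℕ) (e : Fin r → ℕ),
  r + 3 ≤ n + 1 → ∀ (V : Cone ι) (A : Fra C ι Y n), SweptC V A → ∀ γ δ : ℝ, 0 < γ → 0 < δ →
  ∃ α : ℝ, 0 < α ∧ ∀ ε : ℝ, 0 < ε → ∃ w₁ : ℕ,
  ∀ D : Tgt C Y n, D.Ok → ∀ (m₀ w : ℕ) (J : ℕ → ℕ), w₁ ≤ w → D.m ≤ w → (∀ p, m₀ ≤ J p) →
  ∃ (T : Finset (Tr ι n)) (N : ℕ) (δ' : ℝ), 1 ≤ N ∧ 0 < δ' ∧ δ' ≤ 1 / 2 ∧
    (∀ t ∈ T, AdmT V A D m₀ δ N δ' t) ∧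
  ∀ w' : ℕ, w ≤ w' → ∃ H₀ : ℝ, ∀ H : ℝ, H₀ ≤ H →
  (((sysZ ι e H).filter (fun F => MatchP A D J F ∧
    (∀ p : ℕ, p.Prime → D.m < p → p ≤ w → ∃ c y x, RobP A p (J p) F c y x) ∧
    MatchR A D α γ H F ∧ ¬ ∃ t ∈ T, LocT w' N δ' t F)).card : ℝ) ≤ ε * (sysZ ι e H).card

open scoped Classical in
/-- **EXCD** (uses LBP, CEL, AVS). Few systems have the local points of the target `D` but no rational point
close to it. Templates: `…/T2H39/CV/PEXCV.lean`, `…/T2H41/CX/PEXCX.lean`.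

Proof: `α` from CEL for `γ, δ`, `w₁` from CEL for `ε / 4`, `w = max w₁ D.m`. For the primes `D.m < p ≤ w` take `J' p ≥ m₀`
from LBP for `m₀` and `ε / (4 (w + 1))`, for all other `p` let `J' p = J p`; `T, N, δ'` from CEL for `D, m₀, w, J'`
(`MatchP A D J' = MatchP A D J`). `w' ≥ w` at least the `w₀` of AVS for `L = t.1`, `N`, `c = t.2.1`, `ζ = t.2.2`, `δ'` and
`ε / (4 (#T + 1))`, for all `t ∈ T`; `H` large. A counted system `F` is (a) for some prime `D.m < p ≤ w` counted in LBP: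
let `z ∈ V.P p` be a zero, `z = a pt A c y x` by `SweptC.coverP`, so `F_j (pt A c y x) = 0` as `F_j` is homogeneous and
`a ≠ 0`, i.e. `ZeroP A F p c y x`; there is no `RobP A p (J' p) F c y' x'`; or (b) in the set of CEL; or (c)
`LocT w' N δ' t F` for some `t ∈ T`, and then it is counted in AVS: otherwise `SolT N t.2.1 t.2.2 δ' (subS t.1 F)`, with an
integral `x ≠ 0`, and `z = t.1 x` is in `V.Q` (`Inside`), a zero of the `F_j` (`eval_subL`), and `CloseT A D m₀ δ z` by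
`AdmT`. -/
def S_EXCD : Prop := ∀ (C ι Y : Type) [Fintype C] [Fintype ι] [Fintype Y] (n r : ℕ) (e : Fin r → ℕ),
  1 ≤ r → r + 3 ≤ n + 1 → ∑ j, (e j + 2) + 1 ≤ n + 1 →
  ∀ (V : Cone ι) (A : Fra C ι Y n), SweptC V A → ∀ γ δ : ℝ, 0 < γ → 0 < δ → ∃ α : ℝ, 0 < α ∧
  ∀ D : Tgt C Y n, D.Ok → ∀ (m₀ : ℕ) (J : ℕ → ℕ), (∀ p, m₀ ≤ J p) → ∀ ε : ℝ, 0 < ε →
  ∃ H₀ : ℝ, ∀ H : ℝ, H₀ ≤ H →
  (((sysZ ι e H).filter (fun F => MatchP A D J F ∧
    (∀ (p : ℕ) [Fact p.Prime], D.m < p → ∃ z ∈ V.P p, ∀ j, MvPolynomial.aeval z (F j) = 0) ∧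
    MatchR A D α γ H F ∧
    ¬ ∃ z : ι → ℤ, (fun i => (z i : ℚ)) ∈ V.Q ∧ (∀ j, MvPolynomial.eval z (F j) = 0) ∧
      CloseT A D m₀ δ z)).card : ℝ) ≤ ε * (sysZ ι e H).card

open scoped Classical in
/-- **POSC** (uses LNK and `S_DEC` of `T2H39.CV`). A positive proportion of the systems has a rational point on
`V`. Template: `…/T2H39/CV/PPOSV.lean` (one form).

Proof: a `B` from `SweptC.dense` (`w = 0`, any chart, `y₀ = 0`), `L, R` from LNK: `Left L`, `Inside V L`. `C_j`, `ext_j` from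
DEC for `e j`, `C` their maximum, `a = 1 / (2 C)`. The map `(f, G) ↦ (ext_j f_j + G_j)_j` is injective on
`{f ∈ sysZ_k(a H) : f has an integral zero ≠ 0} × ∏_j kerF L (e_j + 2) (H / 2)`, with values in the set to be counted
(`C a H + H / 2 ≤ H`, `subS L F = f`, and `z = L x`). By `Pool.Agent.Y716.D.pos_all` (`PosStmtS (Fin k) e`, see
`…/T2H41/CX/PPOSX.lean`) the first factor has at least `c #sysZ_k(a H) ≥ c' #sysZ_k(H / 2)` elements (`H` large), and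
`∏_j #kerF_j(H/2) · #sysZ_k(H/2) ≥ #sysZ_ι(H/2) / C ^ r ≥ c'' #sysZ_ι(H)`. -/
def S_POSC : Prop := ∀ (C ι Y : Type) [Fintype C] [Fintype ι] [Fintype Y] (n r : ℕ) (e : Fin r → ℕ),
  Nonempty C → 1 ≤ r → r + 3 ≤ n + 1 → ∑ j, (e j + 2) + 1 ≤ n + 1 →
  ∀ (V : Cone ι) (A : Fra C ι Y n), SweptC V A →
  ∃ c : ℝ, 0 < c ∧ ∃ H₀ : ℝ, ∀ H : ℝ, H₀ ≤ H →
  c * (sysZ ι e H).card ≤ (((sysZ ι e H).filter (fun F => ∃ z : ι → ℤ,
    (fun i => (z i : ℚ)) ∈ V.Q ∧ ∀ j, MvPolynomial.eval z (F j) = 0)).card : ℝ)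

open scoped Classical in
/-- **FINM** (uses LBP, LBR, EXCD). Weak approximation with a fixed precision.

Proof: let `K₀ ≥ 1` be such that `|pt A c y x i - pt A c y' x' i| ≤ K₀ η₀` for `|y|, |x|, |y'|, |x'| ≤ 2` with
`|y - y'|, |x - x'| ≤ η₀` (all `c`, `i`). `m₀` with `2 ^ m₀ ≥ M`; `η₀ ≤ 1` and `δ` with `K₀ η₀ + δ ≤ 1 / M`. `γ` from LBR for `η₀`,
`ε / 4`; `α` from EXCD for `γ, δ`; `T` from LBR for `α`. `J p ≥ m₀` from LBP for `m₀`, `ε / (4 (M + 1))`, for the primes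
`p ≤ M`, `J p = m₀` for the other `p`. Let `S` be the finite set of the targets `D` with `D.m = M`, `D.yP p`, `D.xP p` with
coordinates in `[0, p ^ (2 J p + 1))` for `p ≤ M` and `D.xP p 0 = 1` (and `D.cP p`, `D.yP p`, `D.xP p` fixed for the other `p`),
`D.y = v / T`, `D.x = u / T`, `|v t|, |u j| ≤ 2 T`, `u 0 = T`; they are `Ok`. Apply EXCD to each with `ε / (4 (#S + 1))`. Let
`F` be counted and not in the exceptional sets of LBP (`p ≤ M`), LBR; it has local points `z p`, `y` for which the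
conclusion of `WAV` fails. `z p = a pt A c y₁ x₁` (`coverP`; `ZeroP` as `F_j` is homogeneous); LBP gives `y', x'` with
`RobP`, reduce them modulo `p ^ (2 J p + 1)` (`robP_congr`). Similarly `y = a pt A c y₁ x₁` (`coverR`) and LBR gives the
grid point. So `F` has the local points of some `D ∈ S` (`MatchP`, `MatchR`). If there were an integral zero `x` in
`V.Q` with `CloseT A D m₀ δ x`: (real place) `|x i - s pt_D i| ≤ δ |s|`, so `|x i - s pt i| ≤ (δ + K₀ η₀) |s| ≤ |s| / M`, and with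
`c = a / s`: `|y i - c x i| ≤ |a| / M ≤ ‖y‖ / M`, as a coordinate of `pt` is `x₁ 0 = 1` (`IsChart.one`). (`p ≤ M`)
`‖x i - u pt_D i‖ ≤ p ^ (-m₀)`, `‖u‖ = 1`, and `pt_D ≡ pt (mod p ^ m₀)` (the polynomials `A` are integral and the
parameters are `p`-adic integers), so with `c = a / u`: `‖z p i - c x i‖ ≤ ‖a‖ p ^ (-m₀) ≤ ‖z p‖ / M`. So the
conclusion of `WAV` holds, a contradiction; hence `F` is in the exceptional set of EXCD for `D`. -/
def S_FINM : Prop := ∀ (C ι Y : Type) [Fintype C] [Fintype ι] [Fintype Y] (n r : ℕ) (e : Fin r → ℕ),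
  1 ≤ r → r + 3 ≤ n + 1 → ∑ j, (e j + 2) + 1 ≤ n + 1 →
  ∀ (V : Cone ι) (A : Fra C ι Y n), SweptC V A → ∀ M : ℕ, 1 ≤ M → ∀ ε : ℝ, 0 < ε →
  ∃ H₀ : ℝ, ∀ H : ℝ, H₀ ≤ H →
  (((sysZ ι e H).filter (fun F => LocSolV V F ∧ ¬ WAV V M F)).card : ℝ) ≤ ε * (sysZ ι e H).card

/-! ## The final statement -/

/-- The systems of `r` integral forms of degrees `d j` in the coordinates indexed by `ι`, with coefficients of
absolute value at most `H`. -/
def Systems (ι : Type) {r : ℕ} (d : Fin r → ℕ) (H : ℕ) : Set (Fin r → MvPolynomial ι ℤ) :=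
  {F | ∀ j, (F j).IsHomogeneous (d j) ∧ ∀ a, |(F j).coeff a| ≤ (H : ℤ)}

/-- **FIN** (uses POSC, FINM). Templates: `…/T2H39/CV/PFINV.lean`, `…/T2H41/CX/PFIN.lean`, and `Y438.C.wa_sys` (in
`Pool/Graph/R_seed8/Y438/C/`) for the choice of `m`.

Proof: `d j = e j + 2`; `Systems ι d H` is the set of the elements of `sysZ ι e H`. An integral zero in `V.Q` gives local
points (`toR`, `toP`), so POSC gives the first claim. By FINM for every `M ≥ 1` there is an `H_M` such that for `H ≥ H_M`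
at most `#sysZ(H) / M` of the systems are `LocSolV` and not `WAV V M`; let `m H` be the largest `M ≤ H` with
`max (H_1, …, H_M) ≤ H` (and `M ≥ 1`, or `0` if there is none). Then `m H → ∞` and the number of the `F ∈ Systems ι d H` with
`LocSolV V F` and `¬ WAV V (m H) F` is at most `#sysZ(H) / m H ≤ (1 / (c m H)) #{F : LocSolV V F}`. -/
def S_FIN : Prop := ∀ (C ι Y : Type) [Fintype C] [Fintype ι] [Fintype Y] (n r : ℕ) (d : Fin r → ℕ),
  Nonempty C → 3 ≤ n → 1 ≤ r → (∀ j, 2 ≤ d j) → ∑ j, d j ≤ n →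
  ∀ (V : Cone ι) (A : Fra C ι Y n), SweptC V A →
  (∃ c : ℝ, 0 < c ∧ ∀ᶠ H : ℕ in atTop, c * ((Systems ι d H).ncard : ℝ) ≤
    (({F | F ∈ Systems ι d H ∧ LocSolV V F} : Set _).ncard : ℝ)) ∧
  ∃ m : ℕ → ℕ, Tendsto m atTop atTop ∧ Tendsto (fun H : ℕ =>
    (({F | F ∈ Systems ι d H ∧ LocSolV V F ∧ WAV V (m H) F} : Set _).ncard : ℝ) /
    (({F | F ∈ Systems ι d H ∧ LocSolV V F} : Set _).ncard : ℝ)) atTop (𝓝 1)

end Pool.Agent.H731.GS
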